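import Mathlib

namespace Pool.Agent.Lib.MP_6c91ae_an

open Metric Complex Set Filter Topology
open scoped Real

/-- the entire function `sin √x / √x` -/
noncomputable def SS (x : ℂ) : ℂ := ∑' k : ℕ, (-1) ^ k * x ^ k / ((2 * k + 1).factorial : ℂ)

lemma SS_diff : Differentiable ℂ SS := by
  intro x
  have h := Complex.differentiableOn_tsum_of_summable_norm
    (u := fun k : ℕ => (‖x‖ + 1) ^ k / (k.factorial : ℝ)) (Real.summable_pow_div_factorial _)
    (F := fun k : ℕ => fun y : ℂ => (-1) ^ k * y ^ k / ((2 * k + 1).factorial : ℂ))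
    (U := ball 0 (‖x‖ + 1)) (fun k => by fun_prop) isOpen_ball (fun k y hy => by
      rw [mem_ball_zero_iff] at hy
      simp only [norm_div, norm_mul, norm_pow, norm_neg, norm_one, one_pow, one_mul,
        Complex.norm_natCast]
      gcongr
      omega)
  exact h.differentiableAt (isOpen_ball.mem_nhds (by simp))

lemma SS_sq (y : ℂ) : SS (y ^ 2) * y = Complex.sin y := by
  rw [SS, ← tsum_mul_right, ← (Complex.hasSum_sin y).tsum_eq]
  congr 1; funext k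
  rw [← pow_mul, pow_succ]; ring

lemma SS_zero : SS 0 = 1 := by
  rw [SS, tsum_eq_single 0] <;> simp +contextual

lemma norm_cos_le (y : ℂ) : ‖Complex.cos y‖ ≤ Real.exp |y.im| := by
  rw [Complex.cos]
  have h1 := norm_add_le (Complex.exp (y * I)) (Complex.exp (-y * I))
  rw [Complex.norm_exp, Complex.norm_exp] at h1
  simp only [Complex.mul_re, Complex.I_re, Complex.I_im, mul_zero, mul_one, zero_sub,
    Complex.neg_im, neg_neg] at h1
  have h2 : Real.exp (-y.im) ≤ Real.exp |y.im| := Real.exp_le_exp.2 (neg_le_abs _)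
  have h3 : Real.exp y.im ≤ Real.exp |y.im| := Real.exp_le_exp.2 (le_abs_self _)
  rw [norm_div, Complex.norm_ofNat]
  linarith

lemma norm_sin_le (y : ℂ) : ‖Complex.sin y‖ ≤ Real.exp |y.im| := by
  rw [← Complex.cos_sub_pi_div_two]
  simpa using norm_cos_le (y - π / 2)

lemma norm_sin_le' (y : ℂ) : ‖Complex.sin y‖ ≤ Real.exp |y.im| * ‖y‖ := by
  have := Convex.norm_image_sub_le_of_norm_hasDerivWithin_le (s := {u : ℂ | |u.im| ≤ |y.im|})
    (f := Complex.sin) (f' := Complex.cos) (C := Real.exp |y.im|)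
    (fun u _ => (Complex.hasDerivAt_sin u).hasDerivWithinAt)
    (fun u hu => (norm_cos_le u).trans (Real.exp_le_exp.2 hu)) (by
      have : {u : ℂ | |u.im| ≤ |y.im|} = {u : ℂ | -|y.im| ≤ u.im} ∩ {u : ℂ | u.im ≤ |y.im|} := by
        ext u; simp [abs_le]
      rw [this]
      exact (convex_halfSpace_im_ge _).inter (convex_halfSpace_im_le _))
    (x := 0) (y := y) (by simp) (by simp)
  simpa using this

lemma norm_SS_le (y : ℂ) : ‖SS (y ^ 2)‖ ≤ Real.exp |y.im| := by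
  rcases eq_or_ne y 0 with rfl | h
  · simp [SS_zero]
  have h1 := norm_sin_le' y
  rw [← SS_sq, norm_mul] at h1
  exact le_of_mul_le_mul_right h1 (norm_pos_iff.2 h)

lemma norm_SS_le' {y : ℂ} (h : 3 ≤ ‖y‖) : ‖SS (y ^ 2)‖ ≤ Real.exp (|y.im| - 1) := by
  have h1 := norm_sin_le y
  rw [← SS_sq, norm_mul] at h1
  rw [Real.exp_sub, le_div_iff₀ (Real.exp_pos 1)]
  refine le_trans ?_ h1
  gcongr
  linarith [Real.exp_one_lt_three]

lemma norm_SS_neg {β : ℝ} (h : 0 ≤ β) : max 1 (β / 4) ≤ ‖SS (-(β:ℂ) ^ 2)‖ := by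
  rcases eq_or_lt_of_le h with rfl | h
  · simp [SS_zero]
  have h1 := SS_sq (β * I)
  rw [mul_pow, Complex.I_sq, Complex.sin_mul_I, ← Complex.ofReal_sinh, mul_neg_one] at h1
  have h2 := congrArg norm h1
  simp only [norm_mul, Complex.norm_real, Complex.norm_I, mul_one, Real.norm_eq_abs,
    abs_of_pos h] at h2
  have h3 : β ≤ Real.sinh β := Real.self_le_sinh_iff.2 h.le
  rw [abs_of_nonneg (h.le.trans h3)] at h2
  refine le_of_mul_le_mul_right ?_ h
  rw [h2, max_mul_of_nonneg _ _ h.le, one_mul]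
  refine max_le h3 ?_
  have h4 : Real.sinh β = 2 * Real.sinh (β / 2) * Real.cosh (β / 2) := by
    rw [← Real.sinh_two_mul]; ring_nf
  have h5 : β / 2 ≤ Real.sinh (β / 2) := Real.self_le_sinh_iff.2 (by linarith)
  have h6 : β / 4 ≤ Real.cosh (β / 2) := by
    rw [Real.cosh_eq]
    linarith [Real.add_one_le_exp (β / 2), Real.exp_pos (-(β / 2))]
  rw [h4]; nlinarith

/-- finite product of sinc functions -/
noncomputable def qq (N : ℕ) (x : ℂ) : ℂ := ∏ k ∈ Finset.range N, SS (x / ((k:ℂ) + 1) ^ 4)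

lemma qq_diff (N : ℕ) : Differentiable ℂ (qq N) := by
  unfold qq
  have := SS_diff
  fun_prop

lemma sum_inv_sq_le (n : ℕ) : ∑ k ∈ Finset.range n, 1 / ((k:ℝ) + 1) ^ 2 ≤ 2 := by
  have h2 : ∀ n : ℕ, ∑ k ∈ Finset.range n, 1 / ((k:ℝ) + 1) ^ 2 ≤ 2 - 1 / (n:ℝ) := by
    intro n
    induction n with
    | zero => simp
    | succ n ih =>
      rw [Finset.sum_range_succ]
      rcases Nat.eq_zero_or_pos n with rfl | hn
      · norm_num
      · have hn' : (0:ℝ) < n := by exact_mod_cast hn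
        have : 1 / ((n:ℝ) + 1) ^ 2 ≤ 1 / n - 1 / (n + 1) := by
          rw [div_sub_div _ _ hn'.ne' (by positivity), div_le_div_iff₀ (by positivity)
            (by positivity)]
          nlinarith
        push_cast; linarith
  have : (0:ℝ) ≤ 1 / (n:ℝ) := by positivity
  linarith [h2 n]

lemma norm_qq_le (N m : ℕ) (hm : m ≤ N) (y : ℂ) (hy : 3 * (m:ℝ) ^ 2 ≤ ‖y‖) :
    ‖qq N (y ^ 2)‖ ≤ Real.exp (2 * |y.im| - m) := by
  rw [qq, norm_prod]
  have h1 : ∀ k ∈ Finset.range N, ‖SS (y ^ 2 / ((k:ℂ) + 1) ^ 4)‖ ≤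
      Real.exp (|y.im| * (1 / ((k:ℝ) + 1) ^ 2) - if k < m then 1 else 0) := by
    intro k _
    have hk : (0:ℝ) < ((k:ℝ) + 1) ^ 2 := by positivity
    have e1 : y ^ 2 / ((k:ℂ) + 1) ^ 4 = (y / ((((k:ℝ) + 1) ^ 2 : ℝ) : ℂ)) ^ 2 := by
      push_cast; rw [div_pow, ← pow_mul]
    have e2 : |(y / ((((k:ℝ) + 1) ^ 2 : ℝ) : ℂ)).im| = |y.im| * (1 / ((k:ℝ) + 1) ^ 2) := by
      rw [Complex.div_ofReal_im, abs_div, abs_of_pos hk]; ring
    rw [e1, ← e2]
    split_ifs with h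
    · refine norm_SS_le' ?_
      rw [norm_div, Complex.norm_real, Real.norm_eq_abs, abs_of_pos hk, le_div_iff₀ hk]
      refine le_trans ?_ hy
      have : (k:ℝ) + 1 ≤ m := by exact_mod_cast h
      gcongr
    · simpa using norm_SS_le _
  refine (Finset.prod_le_prod (fun _ _ => norm_nonneg _) h1).trans ?_
  rw [← Real.exp_sum, Finset.sum_sub_distrib, ← Finset.mul_sum]
  refine Real.exp_le_exp.2 ?_
  have h2 : ∑ k ∈ Finset.range N, (if k < m then (1:ℝ) else 0) = m := by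
    rw [Finset.sum_ite, Finset.sum_const_zero, add_zero, Finset.sum_const, nsmul_eq_mul, mul_one]
    congr 1
    have : (Finset.range N).filter (· < m) = Finset.range m := by
      ext k; simp only [Finset.mem_filter, Finset.mem_range]; omega
    rw [this, Finset.card_range]
  rw [h2]
  have := mul_le_mul_of_nonneg_left (sum_inv_sq_le N) (abs_nonneg y.im)
  linarith

lemma norm_qq_neg {N : ℕ} (hN : 0 < N) {β : ℝ} (h : 0 ≤ β) :
    max 1 (β / 4) ≤ ‖qq N (-(β:ℂ) ^ 2)‖ := by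
  obtain ⟨N, rfl⟩ := Nat.exists_eq_succ_of_ne_zero hN.ne'
  rw [qq, norm_prod, Finset.prod_range_succ']
  simp only [CharP.cast_eq_zero, zero_add, one_pow, div_one]
  refine (norm_SS_neg h).trans (le_mul_of_one_le_left (norm_nonneg _) ?_)
  refine Finset.one_le_prod fun k _ => ?_
  have e1 : -(β:ℂ) ^ 2 / (((k + 1 : ℕ):ℂ) + 1) ^ 4 =
      -((β / ((k:ℝ) + 2) ^ 2 : ℝ) : ℂ) ^ 2 := by
    push_cast; rw [div_pow, ← pow_mul, neg_div, add_assoc, one_add_one_eq_two]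
  rw [e1]
  exact (le_max_left _ _).trans (norm_SS_neg (by positivity))

lemma exists_sq (x : ℂ) : ∃ y : ℂ, y ^ 2 = x := ⟨x ^ (((2:ℕ):ℂ)⁻¹), Complex.cpow_nat_inv_pow x two_ne_zero⟩

lemma norm_qq_le_sqrt (N : ℕ) {x : ℂ} {R : ℝ} (hx : ‖x‖ ≤ R) :
    ‖qq N x‖ ≤ Real.exp (2 * √R) := by
  obtain ⟨y, rfl⟩ := exists_sq x
  refine (norm_qq_le N 0 (Nat.zero_le _) y (by simp)).trans (Real.exp_le_exp.2 ?_)
  have h1 : ‖y‖ ≤ √R := Real.le_sqrt_of_sq_le (by rwa [norm_pow] at hx)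
  have h2 := Complex.abs_im_le_norm y
  simp only [CharP.cast_eq_zero, sub_zero]
  linarith

lemma norm_qq_le_region {N : ℕ} {x : ℂ} {K : ℝ} (hK : 0 ≤ K) (hre : 0 ≤ x.re)
    (him : |x.im| ^ 3 ≤ K * x.re ^ 2) (hN : ‖x‖ ≤ N) :
    ‖qq N x‖ ≤ Real.exp (24 * K + 1) := by
  obtain ⟨y, rfl⟩ := exists_sq x
  have h1 : (y ^ 2).re = y.re ^ 2 - y.im ^ 2 := by simp [sq]
  have h2 : (y ^ 2).im = 2 * y.re * y.im := by simp [sq]; ring
  have h3 : ‖y‖ ^ 2 = y.re ^ 2 + y.im ^ 2 := by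
    rw [Complex.sq_norm, Complex.normSq_apply]; ring
  have h4 : |y.im| * ‖y‖ ≤ |(y ^ 2).im| := by
    refine abs_le_of_sq_le_sq' ?_ (abs_nonneg _) |>.2
    rw [mul_pow, sq_abs, sq_abs, h2, h3]
    rw [h1] at hre
    nlinarith [sq_nonneg y.im, sq_nonneg (y.re * y.im)]
  have h5 : |y.im| ^ 3 ≤ K * ‖y‖ := by
    rcases eq_or_ne y 0 with rfl | h0
    · simp
    have hn : 0 < ‖y‖ := norm_pos_iff.2 h0
    have h6 : (y ^ 2).re ≤ ‖y‖ ^ 2 := by rw [← norm_pow]; exact Complex.re_le_norm _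
    have h7 : (|y.im| * ‖y‖) ^ 3 ≤ K * (‖y‖ ^ 2) ^ 2 :=
      (pow_le_pow_left₀ (by positivity) h4 3).trans (him.trans (by gcongr))
    refine le_of_mul_le_mul_right ?_ (pow_pos hn 3)
    calc _ = (|y.im| * ‖y‖) ^ 3 := by ring
      _ ≤ K * (‖y‖ ^ 2) ^ 2 := h7
      _ = _ := by ring
  set m := ⌊√(‖y‖ / 3)⌋₊ with hm
  have h6 : (m:ℝ) ≤ √(‖y‖ / 3) := Nat.floor_le (Real.sqrt_nonneg _)
  have h7 : 3 * (m:ℝ) ^ 2 ≤ ‖y‖ := by
    have := pow_le_pow_left₀ (by positivity) h6 2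
    rw [Real.sq_sqrt (by positivity)] at this
    linarith
  have h8 : ‖y‖ ≤ 3 * ((m:ℝ) + 1) ^ 2 := by
    have := pow_le_pow_left₀ (Real.sqrt_nonneg _) (Nat.lt_floor_add_one √(‖y‖ / 3)).le 2
    rw [Real.sq_sqrt (by positivity)] at this
    linarith
  have h9 : m ≤ N := by
    rw [norm_pow] at hN
    have h10 : (m:ℝ) ≤ (m:ℝ) ^ 2 := by exact_mod_cast Nat.le_self_pow two_ne_zero m
    rcases Nat.eq_zero_or_pos m with h0 | h0
    · omega
    have h11 : (1:ℝ) ≤ m := by exact_mod_cast h0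
    have : (m:ℝ) ≤ N := by nlinarith
    exact_mod_cast this
  refine (norm_qq_le N m h9 y h7).trans (Real.exp_le_exp.2 ?_)
  by_contra hcon
  push Not at hcon
  have h10 : (m:ℝ) + 1 ≤ 2 * |y.im| := by linarith
  have h11 : 0 < |y.im| := by have : (0:ℝ) ≤ m := by positivity
                              linarith
  have h12 : |y.im| ^ 3 ≤ K * (3 * (2 * |y.im|) ^ 2) :=
    h5.trans (mul_le_mul_of_nonneg_left (h8.trans (by gcongr)) hK)
  have h13 : |y.im| ≤ 12 * K := by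
    refine le_of_mul_le_mul_right ?_ (pow_pos h11 2)
    nlinarith
  have : (0:ℝ) ≤ m := by positivity
  linarith

end Pool.Agent.Lib.MP_6c91ae_an
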