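import Pool.Agent.Lib.MP_6c91ae_an.Strip
import Pool.Agent.Lib.MP_6c91ae_an.Sinc

namespace Pool.Agent.Lib.MP_6c91ae_an

open Metric Complex Set Filter Topology
open scoped Real

lemma rpow_sub_ge {a x y : ℝ} (ha0 : 0 ≤ a) (ha1 : a ≤ 1) (hx : 0 < x) (hxy : x ≤ y) :
    a * y ^ (a - 1) * (y - x) ≤ y ^ a - x ^ a := by
  have hd : ∀ t ∈ Icc x y, HasDerivAt (fun t : ℝ => t ^ a) (a * t ^ (a - 1)) t := fun t ht =>
    Real.hasDerivAt_rpow_const (Or.inl (hx.trans_le ht.1).ne')
  exact (convex_Icc x y).mul_sub_le_image_sub_of_le_deriv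
    (fun t ht => (hd t ht).continuousAt.continuousWithinAt)
    (fun t ht => (hd t (interior_subset ht)).differentiableAt.differentiableWithinAt)
    (fun t ht => by
      have ht' := interior_subset ht
      rw [(hd t ht').deriv]
      exact mul_le_mul_of_nonneg_left
        (Real.rpow_le_rpow_of_nonpos (hx.trans_le ht'.1) ht'.2 (by linarith)) ha0)
    x ⟨le_rfl, hxy⟩ y ⟨hxy, le_rfl⟩ hxy

/-- local scale -/
noncomputable def rho (p n : ℝ) : ℝ := p⁻¹ * n ^ (p⁻¹ - 1)

/-- saturated local coordinate -/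
noncomputable def chi (p n : ℝ) (s : ℂ) : ℂ :=
  ((2 / rho p n : ℝ) : ℂ) * th (s - ((n ^ p⁻¹ : ℝ) : ℂ))

section
variable {p n : ℝ} (hp : 1 < p) (hn : 0 < n)
include hp hn

lemma rho_pos : 0 < rho p n := by unfold rho; positivity

omit hp hn in
lemma im_sub_lt {s : ℂ} (hs : s ∈ Sig p) (r : ℝ) : |(s - (r:ℂ)).im| < π / 2 := by
  simpa using hs.2

lemma norm_chi_le {s : ℂ} (hs : s ∈ Sig p) : ‖chi p n s‖ ≤ 2 / rho p n := by
  have := rho_pos hp hn
  rw [chi, norm_mul, Complex.norm_real, Real.norm_eq_abs, abs_of_pos (by positivity)]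
  exact mul_le_of_le_one_right (by positivity) (norm_th_le_one (im_sub_lt hs _))

omit hp hn in
lemma chi_diff {s : ℂ} (hs : s ∈ Sig p) : DifferentiableAt ℂ (chi p n) s := by
  unfold chi
  exact ((th_differentiableAt (im_sub_lt hs _)).comp s
    (f := fun s : ℂ => s - ((n ^ p⁻¹ : ℝ) : ℂ)) (by fun_prop)).const_mul _

lemma norm_tau_sub {s : ℂ} (hs : s ∈ Sig p) :
    ‖tau p n s - ((n ^ p⁻¹ : ℝ) : ℂ)‖ ≤ rho p n * ‖cp p s‖ := by
  have := norm_cp_sub_le (inv_nonneg' hp) (inv_le_one' hp) hn (w := cp p s + n) (v := n)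
    (by simp only [Complex.add_re, Complex.ofReal_re]; linarith [Sig.one_le_pw_re hp hs])
    (by simp)
  rwa [cp_ofReal _ hn, add_sub_cancel_right] at this

lemma chi_region (hp3 : p ≤ 3) {s : ℂ} (hs : s ∈ Sig p) (hw : ‖cp p s‖ ≤ n) :
    0 ≤ (chi p n (tau p n s)).re ∧
      |(chi p n (tau p n s)).im| ^ 3 ≤ 8 * (4 * 12 ^ 3) * (chi p n (tau p n s)).re ^ 2 := by
  have hρ := rho_pos hp hn
  have hx1 := Sig.one_le_pw_re hp hs
  set x := (cp p s).re with hx
  set y := (cp p s).im with hy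
  have hxn : x ≤ n := (Complex.re_le_norm _).trans hw
  set u := tau p n s - ((n ^ p⁻¹ : ℝ) : ℂ) with hu
  have hη : |u.im| ≤ rho p n * |y| := by
    have h1 := norm_cp_sub_le (inv_nonneg' hp) (inv_le_one' hp) hn (w := cp p s + n)
      (v := ((x + n : ℝ) : ℂ)) (by simp only [Complex.add_re, Complex.ofReal_re]; linarith)
      (by simp only [Complex.ofReal_re]; linarith)
    rw [cp_ofReal _ (by linarith)] at h1
    have h2 : cp p s + n - ((x + n : ℝ) : ℂ) = y * I := by
      apply Complex.ext <;> simp [hx, hy]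
    rw [h2, norm_mul, Complex.norm_I, mul_one, Complex.norm_real, Real.norm_eq_abs] at h1
    refine le_trans ?_ h1
    refine le_trans (le_of_eq ?_) (Complex.abs_im_le_norm _)
    simp only [hu, tau, Complex.sub_im, Complex.ofReal_im]
  have hα : rho p n * x / 2 ≤ u.re := by
    have h1 := Sig.tau_re_ge hp hs hn.le
    have h2 := rpow_sub_ge (inv_nonneg' hp) (inv_le_one' hp) hn (y := x + n) (by linarith)
    have h3 : n ^ (p⁻¹ - 1) / 2 ≤ (x + n) ^ (p⁻¹ - 1) := by
      have h4 : (2 * n) ^ (p⁻¹ - 1) ≤ (x + n) ^ (p⁻¹ - 1) :=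
        Real.rpow_le_rpow_of_nonpos (by linarith) (by linarith) (by linarith [inv_le_one' hp])
      refine le_trans ?_ h4
      rw [Real.mul_rpow (by norm_num) hn.le]
      have h5 : (2:ℝ) ^ (-1:ℝ) ≤ 2 ^ (p⁻¹ - 1) :=
        Real.rpow_le_rpow_of_exponent_le (by norm_num) (by linarith [inv_nonneg' hp])
      rw [Real.rpow_neg_one] at h5
      have : 0 ≤ n ^ (p⁻¹ - 1) := by positivity
      nlinarith
    simp only [hu, Complex.sub_re, Complex.ofReal_re]
    have h6 : rho p n * x / 2 ≤ p⁻¹ * (x + n) ^ (p⁻¹ - 1) * (x + n - n) := by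
      rw [add_sub_cancel_right, rho]
      calc _ = p⁻¹ * (n ^ (p⁻¹ - 1) / 2) * x := by ring
        _ ≤ _ := by have := inv_nonneg' hp; gcongr
    linarith
  obtain ⟨D, hD, hre, him⟩ := th_re_im (im_sub_lt (Sig.tau_mem hp hs hn.le) (n ^ p⁻¹))
  rw [← hu] at hre him
  have hα0 : 0 ≤ u.re := le_trans (by positivity) hα
  have h1 : x / D ≤ (chi p n (tau p n s)).re := by
    rw [chi, ← hu, Complex.re_ofReal_mul, hre, ← mul_div_assoc]
    gcongr
    have := Real.self_le_sinh_iff.2 hα0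
    rw [div_mul_eq_mul_div, le_div_iff₀ hρ]; linarith
  have h2 : |(chi p n (tau p n s)).im| ≤ 2 * |y| / D := by
    rw [chi, ← hu, Complex.im_ofReal_mul, him, ← mul_div_assoc, abs_div,
      abs_of_pos (by linarith : 0 < D), abs_mul, abs_of_pos (by positivity : 0 < 2 / rho p n)]
    refine div_le_div_of_nonneg_right ?_ (by linarith)
    have := Real.abs_sin_le_abs (x := u.im)
    rw [div_mul_eq_mul_div, div_le_iff₀ hρ]; nlinarith
  have h3 := Sig.pw_im_cube hp hs hp3
  rw [← hx, ← hy] at h3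
  refine ⟨le_trans (by positivity) h1, ?_⟩
  calc _ ≤ (2 * |y| / D) ^ 3 := by gcongr
    _ = 8 * |y| ^ 3 / D ^ 2 / D := by field_simp; ring
    _ ≤ 8 * |y| ^ 3 / D ^ 2 := div_le_self (by positivity) hD
    _ ≤ 8 * (4 * 12 ^ 3 * x ^ 2) / D ^ 2 := by gcongr
    _ = 8 * (4 * 12 ^ 3) * (x / D) ^ 2 := by field_simp
    _ ≤ _ := by gcongr

lemma chi_star {b : ℝ} (hb : 0 ≤ b) (hbn : b < n) (hρb : rho p n * b ≤ 1) :
    ∃ β : ℝ, 0 ≤ β ∧ 2 * b / 3 ≤ β ^ 2 ∧
      chi p n (((n - b) ^ p⁻¹ : ℝ) : ℂ) = -(β:ℂ) ^ 2 := by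
  have hρ := rho_pos hp hn
  have h1 := rpow_sub_ge (inv_nonneg' hp) (inv_le_one' hp) (x := n - b) (y := n) (by linarith)
    (by linarith)
  rw [sub_sub_cancel] at h1
  obtain ⟨r, hr1, hr2⟩ := th_neg_real (x := rho p n * b) (by positivity) hρb h1
  have hr0 : 0 ≤ r := le_trans (by positivity) hr1
  refine ⟨√(2 / rho p n * r), Real.sqrt_nonneg _, ?_, ?_⟩
  · rw [Real.sq_sqrt (by positivity), div_mul_eq_mul_div, le_div_iff₀ hρ]; linarith
  · rw [← Complex.ofReal_pow, Real.sq_sqrt (by positivity), chi]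
    push_cast at hr2 ⊢
    rw [neg_sub] at hr2
    rw [hr2]; ring

end

/-- position of the pole -/
noncomputable def bb : ℝ := 96 * Real.exp (24 * (8 * (4 * 12 ^ 3)) + 1) ^ 2

lemma one_le_bb : 1 ≤ bb := by
  have : 1 ≤ Real.exp (24 * (8 * (4 * 12 ^ 3)) + 1) := Real.one_le_exp (by positivity)
  unfold bb; nlinarith

lemma exists_E {p n : ℝ} (hp : 1 < p) (hp3 : p ≤ 3) (hbn : bb < n) (hρb : rho p n * bb ≤ 1)
    (hs0 : 2 * p + 1 ≤ (n - bb) ^ p⁻¹) (M : ℕ) :
    ∃ E : ℂ → ℂ, DifferentiableOn ℂ E (Sig p) ∧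
      (∀ s ∈ Sig p, ‖E s‖ ≤ 4 * Real.exp (M * (2 * √(2 / rho p n)))) ∧
      (∀ s ∈ Sig p, n < s.re / 2 →
        ‖E s‖ ≤ 2 * Real.exp (M * (2 * √(2 / rho p n))) / (s.re / 2 - n)) ∧
      (∀ s ∈ Sig p, ‖cp p s‖ ≤ n → ‖E (tau p n s) - 1 / (cp p s + bb)‖ ≤ (1 / 2) ^ M) := by
  have hb1 := one_le_bb
  have hn : 0 < n := by linarith
  set N : ℕ := ⌈2 / rho p n⌉₊ + 1 with hN
  set s0 : ℂ := (((n - bb) ^ p⁻¹ : ℝ) : ℂ) with hs0d
  have hball : ball s0 1 ⊆ Sig p := by
    intro s hs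
    rw [mem_ball, dist_eq_norm] at hs
    have h1 := Complex.abs_re_le_norm (s - s0)
    have h2 := Complex.abs_im_le_norm (s - s0)
    simp only [hs0d, Complex.sub_re, Complex.ofReal_re, Complex.sub_im, Complex.ofReal_im,
      sub_zero] at h1 h2
    exact ⟨by linarith [neg_abs_le (s.re - (n - bb) ^ p⁻¹)], by linarith [Real.two_le_pi, Real.pi_gt_three]⟩
  have hs0m : s0 ∈ Sig p := hball (mem_ball_self one_pos)
  have hpw0 : cp p s0 = n - bb := by
    rw [hs0d, ← cp_ofReal _ (by linarith), pw_rt hp (by simpa using hbn)]; push_cast; rfl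
  obtain ⟨β, hβ0, hβ1, hβ2⟩ := chi_star hp hn (by linarith) hbn hρb
  set E0 := Real.exp (24 * (8 * (4 * 12 ^ 3)) + 1) with hE0
  have hE0' : 0 < E0 := Real.exp_pos _
  have hq0 := norm_qq_neg (N := N) (by omega) hβ0
  rw [← hβ2, ← hs0d] at hq0
  have hq1 : 1 ≤ ‖qq N (chi p n s0)‖ := (le_max_left _ _).trans hq0
  have hq2 : 2 * E0 ≤ ‖qq N (chi p n s0)‖ := by
    refine le_trans ?_ ((le_max_right _ _).trans hq0)
    have : (8 * E0) ^ 2 ≤ β ^ 2 := by
      refine le_trans (le_of_eq ?_) hβ1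
      rw [bb, ← hE0]; ring
    have := abs_le_of_sq_le_sq' this hβ0 |>.2
    linarith
  have hqne : qq N (chi p n s0) ≠ 0 := norm_pos_iff.1 (by linarith)
  set Λ := Real.exp (M * (2 * √(2 / rho p n))) with hΛ
  have hΛ1 : 1 ≤ Λ := Real.one_le_exp (by positivity)
  set Q : ℂ → ℂ := fun s => (qq N (chi p n s) / qq N (chi p n s0)) ^ M with hQ
  have hQd : DifferentiableOn ℂ Q (Sig p) := fun s hs =>
    ((((qq_diff N) _).comp s (chi_diff hs)).div_const _).pow M |>.differentiableWithinAt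
  have hQ0 : Q s0 = 1 := by simp [hQ, hqne]
  have hQb : ∀ s ∈ Sig p, ‖Q s‖ ≤ Λ := by
    intro s hs
    simp only [hQ, norm_pow, norm_div]
    rw [hΛ, Real.exp_nat_mul]
    gcongr
    exact (div_le_self (norm_nonneg _) hq1).trans (norm_qq_le_sqrt N (norm_chi_le hp hn hs))
  have hQb' : ∀ s ∈ Sig p, ‖Q s - Q s0‖ ≤ 2 * Λ := fun s hs => by
    linarith [norm_sub_le (Q s) (Q s0), hQb s hs, hQb s0 hs0m]
  have hnhds : Sig p ∈ 𝓝 s0 := (isOpen_Sig p).mem_nhds hs0m
  have hpd : DifferentiableOn ℂ (cp p) (Sig p) := fun s hs =>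
    (hasDerivAt_cp p (Sig.re_pos hp hs)).differentiableAt.differentiableWithinAt
  have hds : ∀ s ∈ Sig p, 1 / 2 ≤ ‖dslope (cp p) s0 s‖ := fun s hs =>
    (re_dslope_ge (convex_Sig p) (fun s hs => hasDerivAt_cp p (Sig.re_pos hp hs))
      (fun s hs => Sig.deriv_re hp hs) hs0m hs).trans (Complex.re_le_norm _)
  have hform : ∀ s, s ≠ s0 → -dslope Q s0 s / dslope (cp p) s0 s =
      (1 - Q s) / (cp p s - n + bb) := by
    intro s hne
    have : s - s0 ≠ 0 := sub_ne_zero.2 hne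
    rw [dslope_of_ne _ hne, dslope_of_ne _ hne, slope_def_field, slope_def_field, hQ0, hpw0,
      ← neg_div, div_div_div_cancel_right₀ this]
    congr 1 <;> ring
  refine ⟨fun s => -dslope Q s0 s / dslope (cp p) s0 s, ?_, ?_, ?_, ?_⟩
  · exact DifferentiableOn.div ((Complex.differentiableOn_dslope hnhds).2 hQd).neg
      ((Complex.differentiableOn_dslope hnhds).2 hpd)
      fun s hs => norm_pos_iff.1 (by linarith [hds s hs])
  · intro s hs
    have h1 : ‖dslope Q s0 s‖ ≤ 2 * Λ := by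
      by_cases h : s ∈ ball s0 1
      · simpa using Complex.norm_dslope_le_div_of_mapsTo_ball (hQd.mono hball)
          (fun t ht => mem_closedBall_iff_norm.2 (hQb' t (hball ht))) h
      · have h2 : 1 ≤ ‖s - s0‖ := by simpa [dist_eq_norm] using h
        have hne : s ≠ s0 := by rintro rfl; norm_num at h2
        rw [dslope_of_ne _ hne, slope_def_field, norm_div]
        exact (div_le_self (norm_nonneg _) h2).trans (hQb' s hs)
    rw [norm_div, norm_neg, div_le_iff₀ (by linarith [hds s hs])]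
    nlinarith [hds s hs]
  · intro s hs hre
    have h1 : s.re / 2 ≤ (cp p s).re := by
      refine le_trans ?_ (Sig.pw_re hp hs)
      gcongr
      calc s.re ≤ ‖s‖ ^ (1:ℝ) := by rw [Real.rpow_one]; exact Complex.re_le_norm s
        _ ≤ _ := Real.rpow_le_rpow_of_exponent_le (by linarith [Sig.two_le_norm hp hs]) hp.le
    have h2 : s.re / 2 - n ≤ ‖cp p s - n + bb‖ := by
      refine le_trans ?_ (Complex.re_le_norm _)
      simp only [Complex.add_re, Complex.sub_re, Complex.ofReal_re]; linarith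
    have hne : s ≠ s0 := by
      rintro rfl
      rw [hpw0] at h1
      simp only [Complex.sub_re, Complex.ofReal_re] at h1
      linarith
    simp only []
    rw [hform s hne, norm_div]
    gcongr
    rw [norm_sub_rev, ← hQ0]; exact hQb' s hs
  · intro s hs hw
    have hpt := Sig.pw_tau hp hs hn.le
    have h1 : 1 ≤ ‖cp p s + bb‖ := by
      refine le_trans ?_ (Complex.re_le_norm _)
      simp only [Complex.add_re, Complex.ofReal_re]; linarith [Sig.one_le_pw_re hp hs]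
    have hne : tau p n s ≠ s0 := by
      intro h
      rw [h, hpw0] at hpt
      have : cp p s + bb = 0 := by linear_combination -hpt
      rw [this] at h1; norm_num at h1
    simp only []
    rw [hform _ hne, hpt, add_sub_cancel_right, ← sub_div, norm_div]
    refine (div_le_self (norm_nonneg _) h1).trans ?_
    rw [sub_sub_cancel_left, norm_neg]
    simp only [hQ, norm_pow, norm_div]
    refine pow_le_pow_left₀ (by positivity) ?_ M
    obtain ⟨h2, h3⟩ := chi_region hp hn hp3 hs hw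
    have h4 := norm_qq_le_region (N := N) (by positivity) h2 h3
      ((norm_chi_le hp hn (Sig.tau_mem hp hs hn.le)).trans (by
        rw [hN]; push_cast; linarith [Nat.le_ceil (2 / rho p n)]))
    rw [div_le_iff₀ (by linarith)]
    linarith

lemma poly_growth (P : Polynomial ℂ) : ∃ C : ℝ, 0 ≤ C ∧ ∀ (x : ℂ) (R : ℝ), 1 ≤ R → ‖x‖ ≤ R →
    ‖P.eval x‖ ≤ C * R ^ P.natDegree := by
  refine ⟨∑ i ∈ Finset.range (P.natDegree + 1), ‖P.coeff i‖, by positivity, fun x R hR hx => ?_⟩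
  rw [Polynomial.eval_eq_sum_range, Finset.sum_mul]
  refine (norm_sum_le _ _).trans (Finset.sum_le_sum fun i hi => ?_)
  rw [norm_mul, norm_pow]
  gcongr
  exact (pow_le_pow_left₀ (norm_nonneg _) hx i).trans
    (pow_le_pow_right₀ hR (Nat.lt_succ_iff.1 (Finset.mem_range.1 hi)))

lemma tendsto_rho {p : ℝ} (hp : 1 < p) : Tendsto (fun n : ℕ => rho p n) atTop (𝓝 0) := by
  have h1 : 0 < 1 - p⁻¹ := sub_pos.2 (inv_lt_one_of_one_lt₀ hp)
  have := ((tendsto_rpow_neg_atTop h1).comp tendsto_natCast_atTop_atTop).const_mul p⁻¹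
  simp only [neg_sub, mul_zero] at this
  exact this

lemma tendsto_growth {p : ℝ} (hp : 1 < p) (hp3 : p < 3) (A : ℝ) :
    Tendsto (fun n : ℕ => Real.exp (A * √(2 / rho p n) - (n:ℝ) ^ p⁻¹ / 8)) atTop (𝓝 0) := by
  have hp0 : 0 < p := by linarith
  have h0 : Tendsto (fun n : ℕ => (n:ℝ) ^ p⁻¹) atTop atTop :=
    (tendsto_rpow_atTop (inv_pos.2 hp0)).comp tendsto_natCast_atTop_atTop
  have h1 : Tendsto (fun t : ℝ => A * √(2 * p) * t ^ (-((3 - p) / 2)) - 1 / 8) atTop
      (𝓝 (-(1 / 8))) := by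
    have := ((tendsto_rpow_neg_atTop (y := (3 - p) / 2) (by linarith)).const_mul
      (A * √(2 * p))).sub_const (1 / 8)
    rw [mul_zero, zero_sub] at this
    exact this
  have h2 := (tendsto_id.atTop_mul_neg (by norm_num) h1).comp h0
  refine Real.tendsto_exp_atBot.comp (h2.congr' ?_)
  filter_upwards [eventually_gt_atTop 0] with n hn
  have hn' : (0:ℝ) < n := by exact_mod_cast hn
  have ht : 0 < (n:ℝ) ^ p⁻¹ := by positivity
  have e1 : 2 / rho p n = 2 * p * (((n:ℝ) ^ p⁻¹) ^ ((p - 1) / 2)) ^ 2 := by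
    rw [← Real.rpow_natCast, ← Real.rpow_mul ht.le, ← Real.rpow_mul hn'.le, rho]
    have : p⁻¹ * ((p - 1) / 2 * (2:ℕ)) = -(p⁻¹ - 1) := by push_cast; field_simp; ring
    rw [this, Real.rpow_neg hn'.le]
    field_simp
  have e2 : √(2 / rho p n) = √(2 * p) * ((n:ℝ) ^ p⁻¹) ^ ((p - 1) / 2) := by
    rw [e1, Real.sqrt_mul (by positivity), Real.sqrt_sq (by positivity)]
  have e3 : ((n:ℝ) ^ p⁻¹) ^ ((p - 1) / 2) = (n:ℝ) ^ p⁻¹ * ((n:ℝ) ^ p⁻¹) ^ (-((3 - p) / 2)) := by
    rw [← Real.rpow_one_add' ht.le (by linarith)]; congr 1; ring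
  simp only [Function.comp, id]
  rw [e2, e3]; ring

lemma cube_exp_le {x : ℝ} (hx : 0 ≤ x) : x ^ 3 * Real.exp (-x / 4) ≤ 384 := by
  have h := Real.pow_div_factorial_le_exp (x := x / 4) (by positivity) 3
  norm_num [Nat.factorial] at h
  rw [neg_div, Real.exp_neg, ← div_eq_mul_inv, div_le_iff₀ (Real.exp_pos _)]
  nlinarith

lemma exists_h {p : ℝ} (hp : 1 < p) (hp3 : p < 3) (P : Polynomial ℂ) {ε : ℝ} (hε : 0 < ε) :
    ∀ᶠ n : ℕ in atTop, ∃ h : ℂ → ℂ, DifferentiableOn ℂ h (Sig p) ∧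
      (∃ L, Tendsto h (comap Complex.re atTop ⊓ 𝓟 (Sig p)) (𝓝 L)) ∧
      (∀ s ∈ Sig p, ‖h s‖ * Real.exp (-s.re / 4) ≤ ε) ∧
      (∀ s ∈ Sig p, ‖h (tau p n s) - P.eval (1 / (cp p s + bb))‖ * Real.exp (-s.re / 4) ≤ ε) := by
  have hp0 : 0 < p := by linarith
  have hb1 := one_le_bb
  obtain ⟨C, hC0, hC⟩ := poly_growth P
  set d := P.natDegree with hd
  obtain ⟨δ, hδ, hδP⟩ := Metric.uniformContinuousOn_iff.1
    ((isCompact_closedBall (0:ℂ) 2).uniformContinuousOn_of_continuous P.continuous.continuousOn)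
    (ε / 4) (by positivity)
  obtain ⟨M, hM⟩ := exists_pow_lt_of_lt_one hδ (show (1 / 2 : ℝ) < 1 by norm_num)
  have h0 : Tendsto (fun n : ℕ => ((n:ℝ) - bb) ^ p⁻¹) atTop atTop :=
    (tendsto_rpow_atTop (inv_pos.2 hp0)).comp
      (tendsto_atTop_add_const_right _ (-bb) tendsto_natCast_atTop_atTop)
  have e1 := tendsto_natCast_atTop_atTop.eventually_gt_atTop bb
  have e2 : ∀ᶠ n : ℕ in atTop, rho p n * bb < 1 := by
    have := (tendsto_rho hp).mul_const bb
    rw [zero_mul] at this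
    exact this.eventually (gt_mem_nhds one_pos)
  have e3 := h0.eventually_ge_atTop (2 * p + 1)
  have e4 : ∀ᶠ n : ℕ in atTop, rho p n * (C * 2 * (8 * 384)) < ε / 2 := by
    have := (tendsto_rho hp).mul_const (C * 2 * (8 * 384))
    rw [zero_mul] at this
    exact this.eventually (gt_mem_nhds (by positivity))
  have e5 : ∀ᶠ n : ℕ in atTop, 3 * C * 4 ^ d *
      Real.exp ((d * M * 2) * √(2 / rho p n) - (n:ℝ) ^ p⁻¹ / 8) < ε := by
    have := (tendsto_growth hp hp3 (d * M * 2)).const_mul (3 * C * 4 ^ d)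
    rw [mul_zero] at this
    exact this.eventually (gt_mem_nhds hε)
  filter_upwards [e1, e2, e3, e4, e5] with n e1 e2 e3 e4 e5
  have hn : (0:ℝ) < n := by linarith
  have hρ := rho_pos hp hn
  obtain ⟨E, hE1, hE2, hE3, hE4⟩ := exists_E hp hp3.le e1 e2.le e3 M
  set Λ := Real.exp (M * (2 * √(2 / rho p n))) with hΛ
  have hΛ1 : 1 ≤ Λ := Real.one_le_exp (by positivity)
  set t : ℝ := (n:ℝ) ^ p⁻¹ with ht
  have ht0 : 0 < t := by positivity
  have hG : 3 * (C * (4 * Λ) ^ d) * Real.exp (-t / 8) ≤ ε := by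
    refine le_trans (le_of_eq ?_) e5.le
    rw [mul_pow, hΛ, ← Real.exp_nat_mul, sub_eq_add_neg, Real.exp_add, neg_div]
    ring_nf
  have hPE : ∀ s ∈ Sig p, ‖P.eval (E s)‖ ≤ C * (4 * Λ) ^ d := fun s hs =>
    hC _ _ (by linarith) (hE2 s hs)
  have hth : ∀ s ∈ Sig p, ‖1 + th (s - t)‖ ≤ 2 := fun s hs => by
    have := norm_add_le 1 (th (s - t))
    rw [norm_one] at this
    linarith [norm_th_le_one (im_sub_lt hs t)]
  refine ⟨fun s => P.eval (E s) * (1 + th (s - t)), ?_, ⟨P.eval 0 * (1 + 1), ?_⟩, ?_, ?_⟩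
  · refine DifferentiableOn.mul (P.differentiable.comp_differentiableOn hE1) fun s hs => ?_
    exact (((th_differentiableAt (im_sub_lt hs _)).comp s
      (f := fun s : ℂ => s - (t : ℂ)) (by fun_prop)).const_add 1).differentiableWithinAt
  · have hre : Tendsto Complex.re (comap Complex.re atTop ⊓ 𝓟 (Sig p)) atTop :=
      tendsto_comap.mono_left inf_le_left
    have hS : ∀ᶠ s in comap Complex.re atTop ⊓ 𝓟 (Sig p), s ∈ Sig p :=
      mem_inf_of_right (mem_principal_self _)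
    refine Tendsto.mul ((P.continuous.tendsto 0).comp ?_) (Tendsto.const_add 1 ?_)
    · rw [tendsto_zero_iff_norm_tendsto_zero]
      have h1 : Tendsto (fun s : ℂ => 2 * Λ / (s.re / 2 - n))
          (comap Complex.re atTop ⊓ 𝓟 (Sig p)) (𝓝 0) :=
        tendsto_const_nhds.div_atTop (tendsto_atTop_add_const_right _ (-(n:ℝ))
          (hre.atTop_div_const two_pos))
      refine squeeze_zero' (Eventually.of_forall fun _ => norm_nonneg _) ?_ h1
      filter_upwards [hS, hre.eventually_gt_atTop (2 * n)] with s hs h2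
      exact hE3 s hs (by linarith)
    · rw [tendsto_iff_norm_sub_tendsto_zero]
      have h1 : Tendsto (fun s : ℂ => 2 * Real.exp (-(s.re + -t)))
          (comap Complex.re atTop ⊓ 𝓟 (Sig p)) (𝓝 0) := by
        have := (Real.tendsto_exp_neg_atTop_nhds_zero.comp
          (tendsto_atTop_add_const_right _ (-t) hre)).const_mul 2
        rwa [mul_zero] at this
      refine squeeze_zero' (Eventually.of_forall fun _ => norm_nonneg _) ?_ h1
      filter_upwards [hS] with s hs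
      rw [norm_sub_rev]
      simpa [sub_eq_add_neg] using norm_one_sub_th (im_sub_lt hs t)
  · intro s hs
    have h1 := norm_one_add_th (im_sub_lt hs t)
    simp only [Complex.sub_re, Complex.ofReal_re] at h1
    rw [norm_mul]
    calc _ ≤ (C * (4 * Λ) ^ d) * (2 * Real.exp ((s.re - t) / 4)) * Real.exp (-s.re / 4) := by
          gcongr; exact hPE s hs
      _ = 2 * (C * (4 * Λ) ^ d) * Real.exp (-t / 4) := by
          rw [show -t / 4 = (s.re - t) / 4 + -s.re / 4 by ring, Real.exp_add]; ring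
      _ ≤ 3 * (C * (4 * Λ) ^ d) * Real.exp (-t / 8) := by
          gcongr ?_ * _ * Real.exp ?_ <;> linarith
      _ ≤ ε := hG
  · intro s hs
    have hs' := Sig.tau_mem hp hs hn.le
    have hre := Sig.re_pos hp hs
    have h1 : ‖1 / (cp p s + bb)‖ ≤ 1 := by
      rw [norm_div, norm_one]
      refine div_le_one_of_le₀ (le_trans ?_ (Complex.re_le_norm _)) (norm_nonneg _)
      simp only [Complex.add_re, Complex.ofReal_re]; linarith [Sig.one_le_pw_re hp hs]
    have h2 : ‖P.eval (1 / (cp p s + bb))‖ ≤ C := by simpa using hC _ 1 le_rfl h1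
    rcases le_total ‖cp p s‖ n with hw | hw
    · have h3 := hE4 s hs hw
      have h4 : ((1:ℝ) / 2) ^ M ≤ 1 := pow_le_one₀ (by norm_num) (by norm_num)
      have h5 := hδP (E (tau p n s)) (by
        rw [mem_closedBall_zero_iff]
        linarith [norm_le_norm_add_norm_sub' (E (tau p n s)) (1 / (cp p s + bb))])
        (1 / (cp p s + bb)) (by rw [mem_closedBall_zero_iff]; linarith)
        (by rw [dist_eq_norm]; linarith)
      rw [dist_eq_norm] at h5
      have h6 : ‖th (tau p n s - t)‖ ≤ 2 * (rho p n * (2 * s.re) ^ 3) := by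
        refine (norm_th_le (im_sub_lt hs' t)).trans ?_
        gcongr
        refine (norm_tau_sub hp hn hs).trans ?_
        gcongr
        rw [norm_cp _ (Sig.ne_zero hp hs)]
        calc _ ≤ ‖s‖ ^ ((3:ℕ):ℝ) := Real.rpow_le_rpow_of_exponent_le
              (by linarith [Sig.two_le_norm hp hs]) (by push_cast; linarith)
          _ = ‖s‖ ^ 3 := Real.rpow_natCast _ _
          _ ≤ _ := by gcongr; exact Sig.norm_le hp hs
      have h7 : P.eval (E (tau p n s)) * (1 + th (tau p n s - t)) - P.eval (1 / (cp p s + bb)) =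
          (P.eval (E (tau p n s)) - P.eval (1 / (cp p s + bb))) * (1 + th (tau p n s - t)) +
          P.eval (1 / (cp p s + bb)) * th (tau p n s - t) := by ring
      have h8 : Real.exp (-s.re / 4) ≤ 1 := Real.exp_le_one_iff.2 (by linarith)
      have h9 := cube_exp_le hre.le
      simp only []
      rw [h7]
      calc _ ≤ (ε / 4 * 2 + C * (2 * (rho p n * (2 * s.re) ^ 3))) * Real.exp (-s.re / 4) := by
            gcongr
            refine (norm_add_le _ _).trans ?_
            rw [norm_mul, norm_mul]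
            gcongr
            exact hth _ hs'
        _ = ε / 2 * Real.exp (-s.re / 4) +
            rho p n * (C * 2 * (8 * (s.re ^ 3 * Real.exp (-s.re / 4)))) := by ring
        _ ≤ ε / 2 * 1 + rho p n * (C * 2 * (8 * 384)) := by gcongr
        _ ≤ ε := by linarith
    · have h3 : t ≤ 2 * s.re := by
        refine le_trans ?_ (Sig.norm_le hp hs)
        rw [norm_cp _ (Sig.ne_zero hp hs)] at hw
        calc t ≤ (‖s‖ ^ p) ^ p⁻¹ := by rw [ht]; gcongr
          _ = ‖s‖ := Real.rpow_rpow_inv (norm_nonneg _) hp0.ne'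
      have h4 : C ≤ C * (4 * Λ) ^ d := le_mul_of_one_le_right hC0 (one_le_pow₀ (by linarith))
      refine le_trans ?_ hG
      gcongr ?_ * Real.exp ?_
      · refine (norm_sub_le _ _).trans ?_
        rw [norm_mul]
        have := mul_le_mul (hPE _ hs') (hth _ hs') (norm_nonneg _) (by positivity)
        linarith
      · linarith

end Pool.Agent.Lib.MP_6c91ae_an
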