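import Pool.Agent.Lib.MP_6c91ae_an.ChSub

namespace Pool.Agent.Lib.MP_6c91ae_an

open Metric Complex Set Filter Topology MeasureTheory

/-- twice the d-bar derivative -/
noncomputable def Dz (f : ℂ → ℂ) (z : ℂ) : ℂ := pd 1 f z + I * pd I f z

/-- energy density -/
noncomputable def en (f : ℂ → ℂ) (z : ℂ) : ℝ := ‖pd 1 f z‖ ^ 2 + ‖pd I f z‖ ^ 2

/-- test functions -/
structure Test (W : Set ℂ) (f : ℂ → ℂ) : Prop where
  cd : ContDiff ℝ 2 f
  cs : HasCompactSupport f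
  sub : tsupport f ⊆ W

section
variable {F : Type*} [NormedAddCommGroup F] [NormedSpace ℝ F]

omit [NormedSpace ℝ F] in
lemma ev_zero_of {h : ℂ → F} {K : Set ℂ} (hK : IsClosed K) (h0 : ∀ z ∉ K, h z = 0) {z : ℂ}
    (hz : z ∉ K) : h =ᶠ[𝓝 z] fun _ => 0 :=
  (hK.isOpen_compl.eventually_mem hz).mono fun y hy => h0 y hy

lemma pd_zero_of {h : ℂ → F} {K : Set ℂ} (hK : IsClosed K) (h0 : ∀ z ∉ K, h z = 0) (v : ℂ) :
    ∀ z ∉ K, pd v h z = 0 := fun z hz => by
  rw [pd_congr (ev_zero_of hK h0 hz)]; simp [pd]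

lemma contDiff_of_supp {n : WithTop ℕ∞} {h : ℂ → F} {K : Set ℂ} (hK : IsClosed K)
    (h1 : ∀ z ∈ K, ContDiffAt ℝ n h z) (h0 : ∀ z ∉ K, h z = 0) : ContDiff ℝ n h := by
  rw [contDiff_iff_contDiffAt]
  intro z
  by_cases hz : z ∈ K
  · exact h1 z hz
  · exact contDiffAt_const.congr_of_eventuallyEq (ev_zero_of hK h0 hz)

omit [NormedSpace ℝ F] in
lemma cont_of_supp {h : ℂ → F} {K : Set ℂ} (hK : IsClosed K)
    (h1 : ∀ z ∈ K, ContinuousAt h z) (h0 : ∀ z ∉ K, h z = 0) : Continuous h := by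
  rw [continuous_iff_continuousAt]
  intro z
  by_cases hz : z ∈ K
  · exact h1 z hz
  · exact continuousAt_const.congr (ev_zero_of hK h0 hz).symm

omit [NormedSpace ℝ F] in
lemma integrable_of_supp {h : ℂ → F} {K : Set ℂ} (hK : IsCompact K)
    (h1 : ∀ z ∈ K, ContinuousAt h z) (h0 : ∀ z ∉ K, h z = 0) : Integrable h :=
  (cont_of_supp hK.isClosed h1 h0).integrable_of_hasCompactSupport (HasCompactSupport.intro hK h0)

lemma pd_cont {h : ℂ → F} (h1 : ContDiff ℝ 1 h) (v : ℂ) : Continuous (pd v h) :=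
  continuous_iff_continuousAt.2 fun _ =>
    (pd_contDiffAt (n := 1) (m := 0) h1.contDiffAt le_rfl v).continuousAt

lemma pd_c1 {h : ℂ → F} {z : ℂ} (h1 : ContDiffAt ℝ 2 h z) (v : ℂ) : ContDiffAt ℝ 1 (pd v h) z :=
  pd_contDiffAt (n := 2) (m := 1) h1 le_rfl v

end

lemma div_zero' {h : ℂ → ℝ} {K : Set ℂ} (hK : IsCompact K) (h1 : ∀ z ∈ K, ContDiffAt ℝ 1 h z)
    (h0 : ∀ z ∉ K, h z = 0) (v : ℂ) : Integrable (pd v h) ∧ ∫ z, pd v h z = 0 := by
  have h2 := contDiff_of_supp hK.isClosed h1 h0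
  have h3 : Integrable (pd v h) := integrable_of_supp hK (fun _ _ => (pd_cont h2 v).continuousAt)
    (pd_zero_of hK.isClosed h0 v)
  refine ⟨h3, ?_⟩
  have := integral_mul_fderiv_eq_neg_fderiv_mul_of_integrable (μ := volume) (f := fun _ : ℂ => (1:ℝ))
    (g := h) (v := v) (by simp) (by simp only [one_mul]; exact h3)
    (by simpa using integrable_of_supp hK (fun z hz => (h1 z hz).continuousAt) h0)
    (fun _ _ => differentiableAt_const _) (fun z _ => h2.differentiable (by simp) z)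
  simpa [pd] using this

lemma pd_mul {A : Type*} [NormedCommRing A] [NormedAlgebra ℝ A] {a b : ℂ → A} {z : ℂ}
    (ha : DifferentiableAt ℝ a z) (hb : DifferentiableAt ℝ b z) (v : ℂ) :
    pd v (fun y => a y * b y) z = pd v a z * b z + a z * pd v b z := by
  unfold pd
  rw [fderiv_fun_mul ha hb]
  simp [add_comm, mul_comm]

lemma pd_add {F : Type*} [NormedAddCommGroup F] [NormedSpace ℝ F] {a b : ℂ → F} {z : ℂ}
    (ha : DifferentiableAt ℝ a z) (hb : DifferentiableAt ℝ b z) (v : ℂ) :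
    pd v (fun y => a y + b y) z = pd v a z + pd v b z := by
  unfold pd
  rw [fderiv_fun_add ha hb]
  simp

lemma pd_const {F : Type*} [NormedAddCommGroup F] [NormedSpace ℝ F] (c : F) (z v : ℂ) :
    pd v (fun _ => c) z = 0 := by simp [pd]

lemma carl_aux {a b Φ : ℂ → ℝ} {K : Set ℂ} (hK : IsCompact K) (ha : ∀ z ∈ K, ContDiffAt ℝ 2 a z)
    (hb : ∀ z ∈ K, ContDiffAt ℝ 2 b z) (hΦ : ∀ z ∈ K, ContDiffAt ℝ 2 Φ z)
    (ha0 : ∀ z ∉ K, a z = 0) (hb0 : ∀ z ∉ K, b z = 0) :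
    ∃ R : ℂ → ℝ, Integrable R ∧ ∫ z, R z = 0 ∧ (∀ z ∉ K, R z = 0) ∧ ∀ z ∈ K, R z =
      (2 * a z * pd 1 a z + 2 * b z * pd 1 b z) * pd 1 Φ z +
      (2 * a z * pd I a z + 2 * b z * pd I b z) * pd I Φ z + (a z ^ 2 + b z ^ 2) * lap Φ z +
      4 * (pd 1 a z * pd I b z - pd I a z * pd 1 b z) := by
  have h1 : ∀ (v w : ℂ) (c : ℝ), ∀ z ∈ K, ContDiffAt ℝ 1
      (fun y => (a y * a y + b y * b y) * pd v Φ y + c * (a y * pd w b y)) z := fun v w c z hz => by
    have ha1 : ContDiffAt ℝ 1 a z := (ha z hz).of_le (by norm_num)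
    have hb1 : ContDiffAt ℝ 1 b z := (hb z hz).of_le (by norm_num)
    exact (((ha1.mul ha1).add (hb1.mul hb1)).mul (pd_c1 (hΦ z hz) v)).add
      (contDiffAt_const.mul (ha1.mul (pd_c1 (hb z hz) w)))
  have h0 : ∀ (v w : ℂ) (c : ℝ), ∀ z ∉ K,
      (a z * a z + b z * b z) * pd v Φ z + c * (a z * pd w b z) = 0 := fun v w c z hz => by
    simp [ha0 z hz, hb0 z hz]
  have h2 : ∀ (v w : ℂ) (c : ℝ), ∀ z ∈ K,
      pd v (fun y => (a y * a y + b y * b y) * pd v Φ y + c * (a y * pd w b y)) z =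
      (2 * a z * pd v a z + 2 * b z * pd v b z) * pd v Φ z + (a z ^ 2 + b z ^ 2) * pd v (pd v Φ) z +
        c * (pd v a z * pd w b z + a z * pd v (pd w b) z) := fun v w c z hz => by
    have ha1 := (ha z hz).differentiableAt (by norm_num)
    have hb1 := (hb z hz).differentiableAt (by norm_num)
    have h3 := (pd_c1 (hΦ z hz) v).differentiableAt (by norm_num)
    have h4 := (pd_c1 (hb z hz) w).differentiableAt (by norm_num)
    rw [pd_add (((ha1.fun_mul ha1).fun_add (hb1.fun_mul hb1)).fun_mul h3)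
      ((ha1.fun_mul h4).const_mul c), pd_mul ((ha1.fun_mul ha1).fun_add (hb1.fun_mul hb1)) h3,
      pd_add (ha1.fun_mul ha1) (hb1.fun_mul hb1), pd_mul ha1 ha1, pd_mul hb1 hb1,
      pd_mul (differentiableAt_const c) (ha1.fun_mul h4), pd_mul ha1 h4, pd_const]
    ring
  obtain ⟨i1, e1⟩ := div_zero' hK (h1 1 I 4) (h0 1 I 4) 1
  obtain ⟨i2, e2⟩ := div_zero' hK (h1 I 1 (-4)) (h0 I 1 (-4)) I
  refine ⟨_, i1.add i2, ?_, fun z hz => ?_, fun z hz => ?_⟩
  · simp only [Pi.add_apply]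
    rw [integral_add i1 i2, e1, e2, add_zero]
  · simp only [Pi.add_apply]
    rw [pd_zero_of hK.isClosed (h0 1 I 4) 1 z hz, pd_zero_of hK.isClosed (h0 I 1 (-4)) I z hz,
      add_zero]
  · simp only [Pi.add_apply]
    rw [h2 1 I 4 z hz, h2 I 1 (-4) z hz, pd_comm (hb z hz) I 1, lap]
    ring

lemma pd_re {g : ℂ → ℂ} {z : ℂ} (hg : DifferentiableAt ℝ g z) (v : ℂ) :
    pd v (fun y => (g y).re) z = (pd v g z).re := by
  unfold pd
  rw [show (fun y => (g y).re) = Complex.reCLM ∘ g from rfl,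
    (Complex.reCLM.hasFDerivAt.comp z hg.hasFDerivAt).fderiv]
  simp

lemma pd_im {g : ℂ → ℂ} {z : ℂ} (hg : DifferentiableAt ℝ g z) (v : ℂ) :
    pd v (fun y => (g y).im) z = (pd v g z).im := by
  unfold pd
  rw [show (fun y => (g y).im) = Complex.imCLM ∘ g from rfl,
    (Complex.imCLM.hasFDerivAt.comp z hg.hasFDerivAt).fderiv]
  simp

lemma pd_exp_half {Φ : ℂ → ℝ} {z : ℂ} (h : DifferentiableAt ℝ Φ z) (v : ℂ) :
    pd v (fun y => Real.exp (Φ y * (1 / 2))) z = Real.exp (Φ z * (1 / 2)) * (pd v Φ z * (1 / 2)) := by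
  unfold pd
  rw [(h.hasFDerivAt.mul_const (1 / 2)).exp.fderiv]
  simp [mul_comm]

namespace Test
variable {W : Set ℂ} {f : ℂ → ℂ} (hf : Test W f)
include hf

lemma cpt : IsCompact (tsupport f) := hf.cs

omit hf in
lemma zero {z : ℂ} (hz : z ∉ tsupport f) : f z = 0 := image_eq_zero_of_notMem_tsupport hz

omit hf in
lemma pd_zero {z : ℂ} (hz : z ∉ tsupport f) (v : ℂ) : pd v f z = 0 :=
  pd_zero_of (isClosed_tsupport f) (fun _ h => zero h) v z hz

omit hf in
lemma Dz_zero {z : ℂ} (hz : z ∉ tsupport f) : Dz f z = 0 := by simp [Dz, pd_zero hz]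

lemma cont : Continuous f := hf.cd.continuous

lemma diff (z : ℂ) : DifferentiableAt ℝ f z := hf.cd.differentiable (by norm_num) z

lemma pd_cont (v : ℂ) : Continuous (pd v f) :=
  MP_6c91ae_an.pd_cont (hf.cd.of_le (by norm_num)) v

lemma Dz_cont : Continuous (Dz f) := (hf.pd_cont 1).add (continuous_const.mul (hf.pd_cont I))

lemma en_cont : Continuous (en f) := ((hf.pd_cont 1).norm.pow 2).add ((hf.pd_cont I).norm.pow 2)

lemma en_int : Integrable (en f) := integrable_of_supp hf.cpt (fun _ _ => hf.en_cont.continuousAt)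
  fun z hz => by simp [en, pd_zero hz]

lemma int_sq {k : ℂ → ℝ} (hk : ∀ z ∈ W, ContinuousAt k z) :
    Integrable fun z => ‖f z‖ ^ 2 * k z :=
  integrable_of_supp hf.cpt
    (fun z hz => (hf.cont.norm.pow 2).continuousAt.mul (hk z (hf.sub hz)))
    fun z hz => by simp [zero hz]

lemma cont_sq {k : ℂ → ℝ} (hk : ∀ z ∈ W, ContinuousAt k z) :
    Continuous fun z => ‖f z‖ ^ 2 * k z :=
  cont_of_supp hf.cpt.isClosed
    (fun z hz => (hf.cont.norm.pow 2).continuousAt.mul (hk z (hf.sub hz)))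
    fun z hz => by simp [zero hz]

lemma int_Dz {k : ℂ → ℝ} (hk : ∀ z ∈ W, ContinuousAt k z) :
    Integrable fun z => ‖Dz f z‖ ^ 2 * k z :=
  integrable_of_supp hf.cpt
    (fun z hz => (hf.Dz_cont.norm.pow 2).continuousAt.mul (hk z (hf.sub hz)))
    fun z hz => by simp [Dz_zero hz]

lemma carleman {Φ : ℂ → ℝ} (hΦ : ∀ z ∈ W, ContDiffAt ℝ 2 Φ z) :
    ∫ z, ‖f z‖ ^ 2 * (lap Φ z * Real.exp (Φ z)) ≤ ∫ z, ‖Dz f z‖ ^ 2 * Real.exp (Φ z) := by
  have hΦ' : ∀ z ∈ tsupport f, ContDiffAt ℝ 2 Φ z := fun z hz => hΦ z (hf.sub hz)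
  have hE : ∀ z ∈ tsupport f, ContDiffAt ℝ 2 (fun y => Real.exp (Φ y * (1 / 2))) z :=
    fun z hz => ((hΦ' z hz).mul contDiffAt_const).exp
  have hre : ContDiff ℝ 2 fun y => (f y).re := Complex.reCLM.contDiff.comp hf.cd
  have him : ContDiff ℝ 2 fun y => (f y).im := Complex.imCLM.contDiff.comp hf.cd
  obtain ⟨R, hRi, hR0, hR1, hR2⟩ := carl_aux (Φ := Φ) hf.cpt
    (a := fun y => (f y).re * Real.exp (Φ y * (1 / 2)))
    (b := fun y => (f y).im * Real.exp (Φ y * (1 / 2)))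
    (fun z hz => hre.contDiffAt.mul (hE z hz)) (fun z hz => him.contDiffAt.mul (hE z hz)) hΦ'
    (fun z hz => by simp [zero hz]) (fun z hz => by simp [zero hz])
  have i1 := hf.int_sq (k := fun z => lap Φ z * Real.exp (Φ z))
    fun z hz => (lap_contAt (hΦ z hz)).mul (hΦ z hz).continuousAt.rexp
  have i2 := hf.int_Dz (k := fun z => Real.exp (Φ z)) fun z hz => (hΦ z hz).continuousAt.rexp
  rw [← add_zero (∫ z, ‖Dz f z‖ ^ 2 * Real.exp (Φ z)), ← hR0, ← integral_add i2 hRi]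
  refine integral_mono i1 (i2.add hRi) fun z => ?_
  by_cases hz : z ∈ tsupport f
  · have h1 := (hE z hz).differentiableAt (by norm_num)
    have h2 := (hΦ' z hz).differentiableAt (by norm_num)
    have h3 := hre.differentiable (by norm_num) z
    have h4 := him.differentiable (by norm_num) z
    have h5 : Real.exp (Φ z) = Real.exp (Φ z * (1 / 2)) ^ 2 := by
      rw [← Real.exp_nat_mul]; congr 1; push_cast; ring
    simp only [hR2 z hz, pd_mul h3 h1, pd_mul h4 h1, pd_exp_half h2, pd_re (hf.diff z),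
      pd_im (hf.diff z), h5, Dz, Complex.sq_norm, Complex.normSq_apply, Complex.add_re,
      Complex.add_im, Complex.mul_re, Complex.mul_im, Complex.I_re, Complex.I_im]
    generalize Real.exp (Φ z * (1 / 2)) = E
    generalize pd 1 Φ z = p
    generalize pd I Φ z = q
    generalize lap Φ z = l
    generalize (pd 1 f z).re = ax
    generalize (pd 1 f z).im = bx
    generalize (pd I f z).re = ay
    generalize (pd I f z).im = cy
    generalize (f z).re = a
    generalize (f z).im = b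
    nlinarith [sq_nonneg (E * (ax + cy + a * p + b * q)), sq_nonneg (E * (bx - ay + b * p - a * q))]
  · simp [zero hz, Dz_zero hz, hR1 z hz]

lemma energy : ∫ z, en f z = ∫ z, ‖Dz f z‖ ^ 2 := by
  have hre : ContDiff ℝ 2 fun y => (f y).re := Complex.reCLM.contDiff.comp hf.cd
  have him : ContDiff ℝ 2 fun y => (f y).im := Complex.imCLM.contDiff.comp hf.cd
  obtain ⟨R, hRi, hR0, hR1, hR2⟩ := carl_aux (Φ := fun _ => 0) hf.cpt
    (a := fun y => (f y).re) (b := fun y => (f y).im)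
    (fun z _ => hre.contDiffAt) (fun z _ => him.contDiffAt) (fun _ _ => contDiffAt_const)
    (fun z hz => by simp [zero hz]) (fun z hz => by simp [zero hz])
  have i2 := hf.int_Dz (k := fun _ => 1) fun z _ => continuousAt_const
  simp only [mul_one] at i2
  have h6 : ∫ z, 1 / 2 * R z = 0 := by rw [integral_const_mul, hR0, mul_zero]
  rw [← add_zero (∫ z, ‖Dz f z‖ ^ 2), ← h6, ← integral_add i2 (hRi.const_mul _)]
  refine integral_congr_ae (Eventually.of_forall fun z => ?_)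
  by_cases hz : z ∈ tsupport f
  · have h7 : lap (fun _ => (0:ℝ)) z = 0 := by
      have : ∀ v, pd v (fun _ : ℂ => (0:ℝ)) = fun _ => 0 := fun v => funext fun y => pd_const _ _ _
      simp [lap, this, pd_const]
    simp only [hR2 z hz, pd_re (hf.diff z), pd_const, h7, en,
      pd_im (hf.diff z), Dz, Complex.sq_norm, Complex.normSq_apply, Complex.add_re,
      Complex.add_im, Complex.mul_re, Complex.mul_im, Complex.I_re, Complex.I_im]
    ring
  · simp [en, pd_zero hz, Dz_zero hz, hR1 z hz]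

end Test

end Pool.Agent.Lib.MP_6c91ae_an
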