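import Pool.Agent.Lib.MP_6c91ae_an.ChEst

namespace Pool.Agent.Lib.MP_6c91ae_an

open Metric Complex Set Filter Topology MeasureTheory
open scoped Real ENNReal NNReal Manifold

lemma lip_parts {χ : ℂ → ℝ} {C : ℝ≥0} (hχ : LipschitzWith C χ) {g : ℂ → ℂ} (hg : ContDiff ℝ 1 g)
    (hs : HasCompactSupport g) (v : ℂ) :
    Integrable (fun x => lineDeriv ℝ χ x v • g x + χ x • pd v g x) ∧
      ∫ x, lineDeriv ℝ χ x v • g x + χ x • pd v g x = 0 := by
  have hs' : HasCompactSupport (pd v g) := HasCompactSupport.intro hs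
    (pd_zero_of (isClosed_tsupport g) (fun _ h => image_eq_zero_of_notMem_tsupport h) v)
  have i1 : Integrable (fun x => lineDeriv ℝ χ x v • g x) :=
    (hχ.locallyIntegrable_lineDeriv v).integrable_smul_right_of_hasCompactSupport hg.continuous hs
  have i2 : Integrable (fun x => χ x • pd v g x) :=
    hχ.continuous.locallyIntegrable.integrable_smul_right_of_hasCompactSupport (pd_cont hg v) hs'
  refine ⟨i1.add i2, ?_⟩
  have key : ∀ L : ℂ →L[ℝ] ℝ, L (∫ x, lineDeriv ℝ χ x v • g x + χ x • pd v g x) = 0 := fun L => by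
    have hL : ContDiff ℝ 1 (L ∘ g) := L.contDiff.comp hg
    have hLs : HasCompactSupport (L ∘ g) := hs.comp_left (map_zero L)
    obtain ⟨D, hD⟩ := ContDiff.lipschitzWith_of_hasCompactSupport hLs hL (by simp)
    have h1 := hχ.integral_lineDeriv_mul_eq (μ := volume) hD hLs v
    have h2 : ∀ x, lineDeriv ℝ (L ∘ g) x (-v) = -L (pd v g x) := fun x => by
      have h3 := hg.differentiable (by simp) x
      rw [(hL.differentiable (by simp) x).lineDeriv_eq_fderiv,
        (L.hasFDerivAt.comp x h3.hasFDerivAt).fderiv]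
      simp [pd]
    rw [integral_add i1 i2, map_add, ← L.integral_comp_comm i1, ← L.integral_comp_comm i2]
    simp only [h2, Function.comp, neg_mul, integral_neg] at h1
    simp only [map_smul, smul_eq_mul, h1, mul_comm]
    ring
  exact Complex.ext (key Complex.reCLM) (key Complex.imCLM)

lemma exists_bump {K G : Set ℂ} (hK : IsCompact K) (hG : IsOpen G) (hKG : K ⊆ G) :
    ∃ (θ : ℂ → ℝ) (K' : Set ℂ), ContDiff ℝ 2 θ ∧ IsCompact K' ∧ K' ⊆ G ∧ (∀ x ∉ K', θ x = 0) ∧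
      ∀ x ∈ K, θ =ᶠ[𝓝 x] fun _ => 1 := by
  obtain ⟨K', hK', h1, h2⟩ := exists_compact_between hK hG hKG
  obtain ⟨θ, h3, h4, -⟩ := exists_contMDiffMap_one_nhds_of_subset_interior (n := 2) 𝓘(ℝ, ℂ)
    hK.isClosed h1
  refine ⟨θ, K', θ.contMDiff.contDiff, hK', h2, h4, fun x hx => ?_⟩
  exact (nhds_le_nhdsSet hx) h3

lemma clamp_lip (s t : ℝ) : |max 0 (min 1 s) - max 0 (min 1 t)| ≤ |s - t| := by
  refine (abs_max_sub_max_le_max _ _ _ _).trans (max_le (by simp) ?_)
  exact (abs_min_sub_min_le_max _ _ _ _).trans (max_le (by simp) le_rfl)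

lemma exists_cut (G : Set ℂ) {ε ρ : ℝ} (hε : 0 < ε) (hε1 : ε ≤ 1) (hρ : 1 ≤ ρ) :
    ∃ (χ : ℂ → ℝ) (C : ℝ≥0) (K : Set ℂ), LipschitzWith C χ ∧ IsCompact K ∧ K ⊆ G ∧
      (∀ x ∉ K, χ x = 0) ∧ (∀ x, 0 ≤ χ x ∧ χ x ≤ 1) ∧
      (∀ x, 2 * ε < infDist x Gᶜ → ‖x‖ < ρ → χ =ᶠ[𝓝 x] fun _ => 1) ∧
      ∀ x ∈ K, ∀ v, ‖v‖ = 1 → lineDeriv ℝ χ x v ^ 2 ≤
        {x | ‖x‖ < 2 * ρ ∧ infDist x Gᶜ < 3 * ε}.indicator (fun _ => 4 / ε ^ 2) x +
          (ball (0:ℂ) (2 * ρ)).indicator (fun _ => 4 / ρ ^ 2) x := by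
  have hρ0 : 0 < ρ := by linarith
  set χ₁ : ℂ → ℝ := fun x => max 0 (min 1 (infDist x Gᶜ / ε - 1)) with h₁
  set χ₂ : ℂ → ℝ := fun x => max 0 (min 1 (3 - 2 * ‖x‖ / ρ)) with h₂
  have l1 : ∀ x y, |χ₁ x - χ₁ y| ≤ 2 / ε * ‖x - y‖ := fun x y => by
    refine (clamp_lip _ _).trans ?_
    have h3 := (lipschitz_infDist_pt (s := Gᶜ)).dist_le_mul x y
    rw [Real.dist_eq, dist_eq_norm, NNReal.coe_one, one_mul] at h3
    rw [sub_sub_sub_cancel_right, ← sub_div, abs_div, abs_of_pos hε, div_mul_eq_mul_div]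
    gcongr
    linarith [norm_nonneg (x - y)]
  have l2 : ∀ x y, |χ₂ x - χ₂ y| ≤ 2 / ρ * ‖x - y‖ := fun x y => by
    refine (clamp_lip _ _).trans ?_
    have h3 := abs_norm_sub_norm_le y x
    rw [norm_sub_rev] at h3
    rw [sub_sub_sub_cancel_left, ← sub_div, ← mul_sub, abs_div, abs_of_pos hρ0, abs_mul,
      div_mul_eq_mul_div, abs_two]
    gcongr
  have l3 : ∀ x y, |min (χ₁ x) (χ₂ x) - min (χ₁ y) (χ₂ y)| ≤ 2 / ε * ‖x - y‖ := fun x y => by
    refine (abs_min_sub_min_le_max _ _ _ _).trans (max_le (l1 x y) ((l2 x y).trans ?_))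
    gcongr
    linarith
  have hdc : Continuous fun x : ℂ => infDist x Gᶜ := continuous_infDist_pt _
  have e1 : ∀ x, 2 * ε < infDist x Gᶜ → χ₁ x = 1 := fun x hx => by
    have : 1 ≤ infDist x Gᶜ / ε - 1 := by
      rw [le_sub_iff_add_le, le_div_iff₀ hε]; linarith
    simp only [h₁, min_eq_left this, max_eq_right zero_le_one]
  have e2 : ∀ x, ‖x‖ < ρ → χ₂ x = 1 := fun x hx => by
    have : 1 ≤ 3 - 2 * ‖x‖ / ρ := by
      have : 2 * ‖x‖ / ρ ≤ 2 := by rw [div_le_iff₀ hρ0]; linarith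
      linarith
    simp only [h₂, min_eq_left this, max_eq_right zero_le_one]
  have b1 : ∀ x, 0 ≤ χ₁ x ∧ χ₁ x ≤ 1 := fun x =>
    ⟨le_max_left _ _, max_le zero_le_one (min_le_left _ _)⟩
  have b2 : ∀ x, 0 ≤ χ₂ x ∧ χ₂ x ≤ 1 := fun x =>
    ⟨le_max_left _ _, max_le zero_le_one (min_le_left _ _)⟩
  refine ⟨fun x => min (χ₁ x) (χ₂ x), ⟨2 / ε, by positivity⟩,
    {x | ε ≤ infDist x Gᶜ} ∩ closedBall 0 (3 / 2 * ρ), ?_, ?_, ?_, ?_, ?_, ?_, ?_⟩
  · exact LipschitzWith.of_dist_le_mul fun x y => by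
      rw [Real.dist_eq, dist_eq_norm]; exact l3 x y
  · exact (isCompact_closedBall _ _).inter_left (isClosed_le continuous_const hdc)
  · intro x hx
    by_contra h
    have h1 : ε ≤ infDist x Gᶜ := hx.1
    rw [infDist_zero_of_mem (show x ∈ Gᶜ from h)] at h1
    linarith
  · intro x hx
    refine le_antisymm ?_ (le_min (b1 x).1 (b2 x).1)
    rw [mem_inter_iff, not_and_or] at hx
    rcases hx with hx | hx
    · refine (min_le_left _ _).trans (max_le le_rfl ((min_le_right _ _).trans ?_))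
      have : infDist x Gᶜ < ε := not_le.1 hx
      rw [sub_nonpos, div_le_one hε]; exact this.le
    · refine (min_le_right _ _).trans (max_le le_rfl ((min_le_right _ _).trans ?_))
      rw [mem_closedBall_zero_iff, not_le] at hx
      rw [sub_nonpos, le_div_iff₀ hρ0]; linarith
  · exact fun x => ⟨le_min (b1 x).1 (b2 x).1, (min_le_left _ _).trans (b1 x).2⟩
  · intro x hx hx'
    filter_upwards [(isOpen_lt continuous_const hdc).mem_nhds hx,
      (isOpen_lt continuous_norm continuous_const).mem_nhds hx'] with y hy hy'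
    rw [e1 y hy, e2 y hy', min_self]
  · intro x hx v hv
    have hx2 : ‖x‖ < 2 * ρ := by
      have := mem_closedBall_zero_iff.1 hx.2
      linarith
    rw [indicator_of_mem (mem_ball_zero_iff.2 hx2)]
    by_cases h : infDist x Gᶜ < 3 * ε
    · rw [indicator_of_mem (show x ∈ {x | ‖x‖ < 2 * ρ ∧ infDist x Gᶜ < 3 * ε} from ⟨hx2, h⟩)]
      have h3 := norm_lineDeriv_le_of_lip' ℝ (f := fun x => min (χ₁ x) (χ₂ x)) (x₀ := x) (v := v)
        (C := 2 / ε) (by positivity) (Eventually.of_forall fun y => l3 y x)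
      rw [hv, mul_one, Real.norm_eq_abs] at h3
      have h4 := pow_le_pow_left₀ (abs_nonneg _) h3 2
      rw [sq_abs, div_pow] at h4
      have : 0 ≤ 4 / ρ ^ 2 := by positivity
      linarith
    · rw [indicator_of_notMem (fun h' => h h'.2), zero_add]
      have h5 : 2 * ε < infDist x Gᶜ := by linarith [not_lt.1 h]
      have h3 := norm_lineDeriv_le_of_lip' ℝ (f := fun x => min (χ₁ x) (χ₂ x)) (x₀ := x) (v := v)
        (C := 2 / ρ) (by positivity) (by
          filter_upwards [(isOpen_lt continuous_const hdc).mem_nhds h5] with y hy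
          rw [e1 y hy, e1 x h5, min_eq_right (b2 y).2, min_eq_right (b2 x).2]
          exact l2 y x)
      rw [hv, mul_one, Real.norm_eq_abs] at h3
      have h4 := pow_le_pow_left₀ (abs_nonneg _) h3 2
      rw [sq_abs, div_pow] at h4
      linarith

lemma Dz_mul_hol {f P : ℂ → ℂ} {z : ℂ} (hf : DifferentiableAt ℝ f z) (hP : DifferentiableAt ℂ P z) :
    Dz (fun y => f y * P y) z = Dz f z * P z := by
  have h1 := hP.restrictScalars ℝ
  unfold Dz
  rw [pd_mul hf h1, pd_mul hf h1, hol_pd hP, hol_pd hP]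
  linear_combination f z * deriv P z * I_mul_I

lemma cut_est {W G B : Set ℂ} (hG : IsOpen G) {ε ρ : ℝ} (hε : 0 < ε) (hε1 : ε ≤ 1) (hρ : 1 ≤ ρ)
    {f P : ℂ → ℂ} (hf : Test W f) (hP : DifferentiableOn ℂ P G)
    (hPi : IntegrableOn (fun z => ‖P z‖ ^ 2) G) (hB : MeasurableSet B)
    (hB' : ∀ x ∈ B, 2 * ε < infDist x Gᶜ ∧ ‖x‖ < ρ) {E : ℝ} (h0 : ∫ z, ‖Dz f z‖ ^ 2 ≤ E)
    (h1 : ∫ z in ball 0 (2 * ρ), ‖f z‖ ^ 2 ≤ 2001 * ρ ^ 2 * E)
    (h2 : ∫ z in {x | ‖x‖ < 2 * ρ ∧ infDist x Gᶜ < 3 * ε}, ‖f z‖ ^ 2 ≤ 348481 * ε ^ 2 * E) :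
    ‖∫ z in G, Dz f z * P z‖ ≤ E / 2 + 3000000 * ∫ z in G \ B, ‖P z‖ ^ 2 := by
  obtain ⟨χ, C, K, hχ, hK, hKG, hχ0, hχb, hχ1, hχd⟩ := exists_cut G hε hε1 hρ
  obtain ⟨θ, K', hθ, hK', hK'G, hθ0, hθ1⟩ := exists_bump hK hG hKG
  set N := {x : ℂ | ‖x‖ < 2 * ρ ∧ infDist x Gᶜ < 3 * ε} with hN
  have hNo : IsOpen N := (isOpen_lt continuous_norm continuous_const).inter
    (isOpen_lt (continuous_infDist_pt _) continuous_const)
  have hPa : ∀ z ∈ G, AnalyticAt ℂ P z := fun z hz => hP.analyticAt (hG.mem_nhds hz)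
  set g : ℂ → ℂ := fun z => θ z • (f z * P z) with hg
  have hg0 : ∀ z ∉ K', g z = 0 := fun z hz => by simp [hg, hθ0 z hz]
  have hgc : ContDiff ℝ 1 g := contDiff_of_supp hK'.isClosed (fun z hz =>
    (hθ.contDiffAt.smul (hf.cd.contDiffAt.mul (hol_c2 (hPa z (hK'G hz))))).of_le (by norm_num)) hg0
  have hgs : HasCompactSupport g := HasCompactSupport.intro hK' hg0
  obtain ⟨i1, e1⟩ := lip_parts hχ hgc hgs 1
  obtain ⟨i2, e2⟩ := lip_parts hχ hgc hgs I
  set d : ℂ → ℂ := fun x => (lineDeriv ℝ χ x 1 : ℝ) + I * (lineDeriv ℝ χ x I : ℝ) with hd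
  have hd0 : ∀ x c, (χ =ᶠ[𝓝 x] fun _ => c) → d x = 0 := fun x c h => by
    simp only [hd, h.lineDeriv_eq]
    simp [lineDeriv]
  have hdK : ∀ x ∉ K, d x = 0 := fun x hx => hd0 x 0 (ev_zero_of hK.isClosed hχ0 hx)
  set w : ℂ → ℂ := fun x => (d x * f x + χ x * Dz f x) * P x with hw
  have hw1 : ∀ x, (lineDeriv ℝ χ x 1 • g x + χ x • pd 1 g x) +
      I * (lineDeriv ℝ χ x I • g x + χ x • pd I g x) = w x := fun x => by
    have e3 : (lineDeriv ℝ χ x 1 • g x + χ x • pd 1 g x) +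
      I * (lineDeriv ℝ χ x I • g x + χ x • pd I g x) = d x * g x + χ x * Dz g x := by
      simp only [hd, Dz, Complex.real_smul]; ring
    rw [e3]
    by_cases hx : x ∈ K
    · have e4 : g =ᶠ[𝓝 x] fun y => f y * P y := by
        filter_upwards [hθ1 x hx] with y hy
        simp [hg, hy]
      have e5 : Dz g x = Dz f x * P x := by
        rw [← Dz_mul_hol (hf.diff x) (hPa x (hKG hx)).differentiableAt]
        unfold Dz
        rw [pd_congr e4, pd_congr e4]
      rw [e5, e4.self_of_nhds, hw]; ring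
    · simp [hw, hdK x hx, hχ0 x hx]
  have iw : Integrable w := (i1.add (i2.const_mul I)).congr (Eventually.of_forall hw1)
  have ew : ∫ x in G, w x = 0 := by
    rw [setIntegral_eq_integral_of_forall_compl_eq_zero fun x hx => by
      simp [hw, hdK x fun h => hx (hKG h), hχ0 x fun h => hx (hKG h)]]
    rw [← integral_congr_ae (Eventually.of_forall hw1), integral_add i1 (i2.const_mul I),
      integral_const_mul, e1, e2]
    simp
  have c1 : Continuous fun z => ‖f z‖ ^ 2 := hf.cont.norm.pow 2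
  have iD : Integrable fun z => ‖Dz f z‖ ^ 2 := by
    simpa using hf.int_Dz (k := fun _ => 1) fun _ _ => continuousAt_const
  have iF : IntegrableOn (fun z => Dz f z * P z) G := by
    refine Integrable.mono' (iD.integrableOn.add hPi)
      ((hf.Dz_cont.continuousOn.mul hP.continuousOn).aestronglyMeasurable hG.measurableSet)
      (Eventually.of_forall fun z => ?_)
    rw [norm_mul, Pi.add_apply]
    nlinarith [sq_nonneg (‖Dz f z‖ - ‖P z‖), norm_nonneg (Dz f z), norm_nonneg (P z)]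
  have j1 := (integrable_indicator_iff measurableSet_ball).2 (intOn_ball c1 0 (2 * ρ))
  have j2 := (integrable_indicator_iff hNo.measurableSet).2
    ((intOn_ball c1 0 (2 * ρ)).mono_set fun x (hx : x ∈ N) => mem_ball_zero_iff.2 hx.1)
  have j3 := (integrable_indicator_iff (hG.measurableSet.diff hB)).2 (hPi.mono_set sdiff_subset)
  have j4 : Integrable fun x => 1 / 12000000 * (2 * ‖Dz f x‖ ^ 2 +
      16 / ε ^ 2 * N.indicator (fun z => ‖f z‖ ^ 2) x +
      16 / ρ ^ 2 * (ball (0:ℂ) (2 * ρ)).indicator (fun z => ‖f z‖ ^ 2) x) :=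
    (((iD.const_mul 2).add (j2.const_mul _)).add (j1.const_mul _)).const_mul _
  rw [← sub_zero (∫ z in G, Dz f z * P z), ← ew, ← integral_sub iF iw.integrableOn,
    ← integral_indicator hG.measurableSet]
  refine (norm_integral_le_of_norm_le (j4.add (j3.const_mul 3000000))
    (Eventually.of_forall fun x => ?_)).trans ?_
  · simp only [Pi.add_apply]
    have p1 : 0 ≤ N.indicator (fun z => ‖f z‖ ^ 2) x := indicator_nonneg (fun _ _ => by positivity) x
    have p2 : 0 ≤ (ball (0:ℂ) (2 * ρ)).indicator (fun z => ‖f z‖ ^ 2) x :=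
      indicator_nonneg (fun _ _ => by positivity) x
    have p3 : 0 ≤ (G \ B).indicator (fun z => ‖P z‖ ^ 2) x :=
      indicator_nonneg (fun _ _ => by positivity) x
    by_cases hx : x ∈ G
    swap
    · rw [indicator_of_notMem hx, norm_zero]; positivity
    rw [indicator_of_mem hx]
    by_cases hxB : x ∈ B
    · have h3 := hχ1 x (hB' x hxB).1 (hB' x hxB).2
      have h4 : Dz f x * P x - w x = 0 := by simp [hw, hd0 x 1 h3, h3.self_of_nhds]
      rw [h4, norm_zero]; positivity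
    rw [indicator_of_mem (show x ∈ G \ B from ⟨hx, hxB⟩)]
    have h4 : Dz f x * P x - w x = (((1 - χ x : ℝ) : ℂ) * Dz f x - d x * f x) * P x := by
      simp only [hw]; push_cast; ring
    have h5 : ‖d x‖ ^ 2 * ‖f x‖ ^ 2 ≤ 8 / ε ^ 2 * N.indicator (fun z => ‖f z‖ ^ 2) x +
        8 / ρ ^ 2 * (ball (0:ℂ) (2 * ρ)).indicator (fun z => ‖f z‖ ^ 2) x := by
      by_cases hxK : x ∈ K
      · have h6 : ‖d x‖ ^ 2 = lineDeriv ℝ χ x 1 ^ 2 + lineDeriv ℝ χ x I ^ 2 := by
          rw [Complex.sq_norm, Complex.normSq_apply]; simp [hd]; ring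
        have h7 := hχd x hxK 1 norm_one
        have h8 := hχd x hxK I Complex.norm_I
        have h9 := mul_le_mul_of_nonneg_right (add_le_add h7 h8) (sq_nonneg ‖f x‖)
        rw [h6]
        refine h9.trans (le_of_eq ?_)
        simp only [indicator]
        split_ifs <;> ring
      · rw [hdK x hxK, norm_zero]
        have : (0:ℝ) ^ 2 * ‖f x‖ ^ 2 = 0 := by ring
        rw [this]; positivity
    have h6 : ‖((1 - χ x : ℝ) : ℂ) * Dz f x - d x * f x‖ ≤ ‖Dz f x‖ + ‖d x‖ * ‖f x‖ := by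
      refine (norm_sub_le _ _).trans ?_
      rw [norm_mul, norm_mul, Complex.norm_real, Real.norm_eq_abs,
        abs_of_nonneg (by linarith [(hχb x).2])]
      have := mul_nonneg (hχb x).1 (norm_nonneg (Dz f x))
      linarith
    rw [h4, norm_mul]
    have h7 := pow_le_pow_left₀ (norm_nonneg _) h6 2
    generalize ‖((1 - χ x : ℝ) : ℂ) * Dz f x - d x * f x‖ = k at *
    have h8 : k ^ 2 ≤ 2 * ‖Dz f x‖ ^ 2 + 2 * (‖d x‖ ^ 2 * ‖f x‖ ^ 2) := by
      nlinarith [sq_nonneg (‖Dz f x‖ - ‖d x‖ * ‖f x‖)]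
    have h9 : 16 / ε ^ 2 = 2 * (8 / ε ^ 2) := by ring
    have h10 : 16 / ρ ^ 2 = 2 * (8 / ρ ^ 2) := by ring
    rw [h9, h10]
    nlinarith [sq_nonneg (k - 6000000 * ‖P x‖)]
  · simp only [Pi.add_apply]
    rw [integral_add j4 (j3.const_mul _), integral_const_mul, integral_const_mul,
      integral_add (by exact (iD.const_mul 2).add (j2.const_mul _)) (j1.const_mul _),
      integral_add (iD.const_mul 2) (j2.const_mul _), integral_const_mul, integral_const_mul,
      integral_const_mul, integral_indicator hNo.measurableSet,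
      integral_indicator measurableSet_ball, integral_indicator (hG.measurableSet.diff hB)]
    have h3 : 16 / ε ^ 2 * ∫ z in N, ‖f z‖ ^ 2 ≤ 16 * 348481 * E := by
      refine (mul_le_mul_of_nonneg_left h2 (by positivity)).trans (le_of_eq ?_)
      field_simp
    have h4 : 16 / ρ ^ 2 * ∫ z in ball 0 (2 * ρ), ‖f z‖ ^ 2 ≤ 16 * 2001 * E := by
      refine (mul_le_mul_of_nonneg_left h1 (by positivity)).trans (le_of_eq ?_)
      have : ρ ≠ 0 := by linarith
      field_simp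
    have hE : 0 ≤ E := (integral_nonneg fun z => by positivity).trans h0
    linarith

end Pool.Agent.Lib.MP_6c91ae_an
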