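import Mathlib

namespace Pool.Agent.Lib.MP_6c91ae_an

open Metric Complex Set Filter Topology

section inv
variable {f : ℂ → ℂ} {V : Set ℂ}

lemma not_ev_const (hV : IsOpen V) (hi : InjOn f V) {z : ℂ} (hz : z ∈ V) :
    ¬ ∀ᶠ w in 𝓝 z, f w = f z := by
  intro h
  have h1 : ∀ᶠ w in 𝓝[≠] z, w ∈ V ∧ f w = f z :=
    nhdsWithin_le_nhds ((hV.eventually_mem hz).and h)
  obtain ⟨w, ⟨hw1, hw2⟩, hw3⟩ := (h1.and self_mem_nhdsWithin).exists
  exact hw3 (hi hw1 hz hw2)

lemma nhds_le_map (hV : IsOpen V) (hd : DifferentiableOn ℂ f V) (hi : InjOn f V) {z : ℂ}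
    (hz : z ∈ V) : 𝓝 (f z) ≤ map f (𝓝 z) :=
  ((hd.analyticAt (hV.mem_nhds hz)).eventually_constant_or_nhds_le_map_nhds).resolve_left
    (not_ev_const hV hi hz)

lemma isOpen_img (hV : IsOpen V) (hd : DifferentiableOn ℂ f V) (hi : InjOn f V) {s : Set ℂ}
    (hs : IsOpen s) (hsV : s ⊆ V) : IsOpen (f '' s) := by
  rw [isOpen_iff_mem_nhds]
  rintro _ ⟨z, hz, rfl⟩
  exact nhds_le_map hV hd hi (hsV hz) (image_mem_map (hs.mem_nhds hz))

lemma inv_left (hi : InjOn f V) {z : ℂ} (hz : z ∈ V) : Function.invFunOn f V (f z) = z :=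
  hi.leftInvOn_invFunOn hz

lemma inv_mem {y : ℂ} (hy : y ∈ f '' V) : Function.invFunOn f V y ∈ V :=
  Function.invFunOn_mem hy

lemma inv_right {y : ℂ} (hy : y ∈ f '' V) : f (Function.invFunOn f V y) = y :=
  Function.invFunOn_eq hy

lemma inv_contAt (hV : IsOpen V) (hd : DifferentiableOn ℂ f V) (hi : InjOn f V) {y : ℂ}
    (hy : y ∈ f '' V) : ContinuousAt (Function.invFunOn f V) y := by
  obtain ⟨z, hz, rfl⟩ := hy
  unfold ContinuousAt
  rw [inv_left hi hz]
  refine Tendsto.mono_left ?_ (nhds_le_map hV hd hi hz)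
  rw [tendsto_map'_iff]
  refine tendsto_id.congr' ?_
  filter_upwards [hV.mem_nhds hz] with w hw
  exact (inv_left hi hw).symm

lemma inv_hasDerivAt_of (hV : IsOpen V) (hd : DifferentiableOn ℂ f V) (hi : InjOn f V) {y : ℂ}
    (hy : y ∈ f '' V) (h0 : deriv f (Function.invFunOn f V y) ≠ 0) :
    HasDerivAt (Function.invFunOn f V) (deriv f (Function.invFunOn f V y))⁻¹ y := by
  refine HasDerivAt.of_local_left_inverse (inv_contAt hV hd hi hy)
    (hd.differentiableAt (hV.mem_nhds (inv_mem hy))).hasDerivAt h0 ?_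
  filter_upwards [(isOpen_img hV hd hi hV subset_rfl).mem_nhds hy] with w hw using inv_right hw

lemma deriv_ne_zero_of_inj (hV : IsOpen V) (hd : DifferentiableOn ℂ f V) (hi : InjOn f V) {z : ℂ}
    (hz : z ∈ V) : deriv f z ≠ 0 := by
  have ha : AnalyticAt ℂ f z := hd.analyticAt (hV.mem_nhds hz)
  have hG := isOpen_img hV hd hi hV subset_rfl
  have hy : f z ∈ f '' V := mem_image_of_mem f hz
  rcases ha.deriv.eventually_eq_zero_or_eventually_ne_zero with h | h
  · exfalso
    apply not_ev_const hV hi hz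
    obtain ⟨r, hr, hb⟩ := Metric.eventually_nhds_iff_ball.1 (h.and (hV.eventually_mem hz))
    filter_upwards [ball_mem_nhds z hr] with w hw
    exact isOpen_ball.is_const_of_deriv_eq_zero (convex_ball z r).isPreconnected
      (hd.mono fun x hx => (hb x hx).2) (fun x hx => (hb x hx).1) hw (mem_ball_self hr)
  · have hc := inv_contAt hV hd hi hy
    have ht : Tendsto (Function.invFunOn f V) (𝓝[≠] (f z)) (𝓝[≠] z) := by
      refine tendsto_nhdsWithin_iff.2 ⟨?_, ?_⟩
      · have := hc.tendsto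
        rw [inv_left hi hz] at this
        exact this.mono_left nhdsWithin_le_nhds
      · filter_upwards [nhdsWithin_le_nhds (hG.mem_nhds hy), self_mem_nhdsWithin] with w hw hw'
        intro h1
        apply hw'
        have := inv_right hw
        rw [mem_singleton_iff.1 h1] at this
        exact this.symm
    have hdi : AnalyticAt ℂ (Function.invFunOn f V) (f z) := by
      refine analyticAt_of_differentiable_on_punctured_nhds_of_continuousAt ?_ hc
      filter_upwards [ht.eventually h, nhdsWithin_le_nhds (hG.mem_nhds hy)] with w hw hw'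
      exact (inv_hasDerivAt_of hV hd hi hw' hw).differentiableAt
    have h1 := hdi.differentiableAt.hasDerivAt.comp z ha.differentiableAt.hasDerivAt
    have h2 : HasDerivAt (Function.invFunOn f V ∘ f) 1 z := by
      refine (hasDerivAt_id z).congr_of_eventuallyEq ?_
      filter_upwards [hV.mem_nhds hz] with w hw using inv_left hi hw
    have h3 := h1.unique h2
    intro h0
    rw [h0, mul_zero] at h3
    exact zero_ne_one h3

lemma inv_hasDerivAt (hV : IsOpen V) (hd : DifferentiableOn ℂ f V) (hi : InjOn f V) {y : ℂ}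
    (hy : y ∈ f '' V) :
    HasDerivAt (Function.invFunOn f V) (deriv f (Function.invFunOn f V y))⁻¹ y :=
  inv_hasDerivAt_of hV hd hi hy (deriv_ne_zero_of_inj hV hd hi (inv_mem hy))

lemma inv_diffOn (hV : IsOpen V) (hd : DifferentiableOn ℂ f V) (hi : InjOn f V) :
    DifferentiableOn ℂ (Function.invFunOn f V) (f '' V) := fun _ hy =>
  (inv_hasDerivAt hV hd hi hy).differentiableAt.differentiableWithinAt

end inv

lemma exists_hol_log {g : ℂ → ℂ} {c : ℂ} {R : ℝ} (hR : 0 < R) (hd : DifferentiableOn ℂ g (ball c R))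
    (h0 : ∀ z ∈ ball c R, g z ≠ 0) (h1 : g c = 1) :
    ∃ l : ℂ → ℂ, (∀ z ∈ ball c R, HasDerivAt l (deriv g z / g z) z) ∧ l c = 0 ∧
      ∀ z ∈ ball c R, exp (l z) = g z := by
  have h2 : DifferentiableOn ℂ (fun z => deriv g z / g z) (ball c R) :=
    (hd.deriv isOpen_ball).div hd h0
  obtain ⟨l, hl⟩ := h2.isExactOn_ball
  refine ⟨fun z => l z - l c, fun z hz => (hl z hz).sub_const _, sub_self _, fun z hz => ?_⟩
  have h3 : ∀ x ∈ ball c R, HasDerivAt (fun z => g z * exp (-(l z - l c))) 0 x := fun x hx => by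
    have h4 := (hd.differentiableAt (isOpen_ball.mem_nhds hx)).hasDerivAt.mul
      (((hl x hx).sub_const (l c)).neg.cexp)
    refine h4.congr_deriv ?_
    have := h0 x hx
    simp only [Pi.neg_apply]
    field_simp
    ring
  have h5 := isOpen_ball.is_const_of_deriv_eq_zero (convex_ball c R).isPreconnected
    (fun x hx => (h3 x hx).differentiableAt.differentiableWithinAt)
    (fun x hx => (h3 x hx).deriv) hz (mem_ball_self hR)
  simp only [h1, sub_self, neg_zero, Complex.exp_zero, mul_one] at h5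
  rw [Complex.exp_neg] at h5
  have h6 := Complex.exp_ne_zero (l z - l c)
  field_simp at h5
  exact h5.symm

/-- nearest omitted value -/
lemma exists_nearest {G : Set ℂ} (hG : IsOpen G) {p w : ℂ} (hp : p ∈ G) (hw : w ∉ G) :
    ∃ w₀ ∉ G, 0 < ‖p - w₀‖ ∧ ‖p - w₀‖ ≤ ‖p - w‖ ∧ ball p ‖p - w₀‖ ⊆ G := by
  obtain ⟨w₀, h1, h2⟩ := hG.isClosed_compl.exists_infDist_eq_dist ⟨w, hw⟩ p
  refine ⟨w₀, h1, ?_, ?_, ?_⟩
  · rw [norm_pos_iff, sub_ne_zero]; rintro rfl; exact h1 hp
  · rw [← dist_eq_norm, ← dist_eq_norm, ← h2]; exact infDist_le_dist_of_mem hw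
  · rw [← dist_eq_norm, ← h2]
    intro y hy
    by_contra hy'
    have := infDist_le_dist_of_mem (x := p) (show y ∈ Gᶜ from hy')
    rw [mem_ball, dist_comm] at hy
    linarith

/-- Qualitative covering theorem. -/
lemma koebe1 {f : ℂ → ℂ} {c w : ℂ} {R : ℝ} (hR : 0 < R) (hd : DifferentiableOn ℂ f (ball c R))
    (hi : InjOn f (ball c R)) (hw : w ∉ f '' ball c R) : R * ‖deriv f c‖ ≤ 160 * ‖f c - w‖ := by
  have hG := isOpen_img isOpen_ball hd hi isOpen_ball subset_rfl
  have hc : c ∈ ball c R := mem_ball_self hR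
  obtain ⟨w₀, hw₀, hd0, hdle, hsub⟩ := exists_nearest hG (mem_image_of_mem f hc) hw
  have hne : f c - w₀ ≠ 0 := norm_pos_iff.1 hd0
  set g : ℂ → ℂ := fun z => (f z - w₀) / (f c - w₀) with hg
  have hgd : DifferentiableOn ℂ g (ball c R) := (hd.sub_const _).div_const _
  have hg0 : ∀ z ∈ ball c R, g z ≠ 0 := fun z hz => by
    refine div_ne_zero ?_ hne
    rw [sub_ne_zero]; rintro rfl; exact hw₀ (mem_image_of_mem f hz)
  have hg1 : g c = 1 := div_self hne
  obtain ⟨l, hl, hl0, hle⟩ := exists_hol_log hR hgd hg0 hg1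
  have hlc : ContinuousOn l (ball c R) := fun z hz => (hl z hz).continuousAt.continuousWithinAt
  have hpi := Real.pi_gt_three
  have hpi' := Real.pi_lt_d2
  have key : ∀ z ∈ ball c R, 1 / 2 ≤ ‖l z - 2 * Real.pi * I‖ := by
    intro z hz
    by_contra hcon
    push Not at hcon
    have h1 : ‖g z - 1‖ < 1 := by
      have h2 : g z = exp (l z - 2 * Real.pi * I) := by
        rw [Complex.exp_sub, Complex.exp_two_pi_mul_I, div_one, hle z hz]
      rw [h2]
      have := Complex.norm_exp_sub_one_le (x := l z - 2 * Real.pi * I) (by linarith)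
      linarith
    have hiff : ∀ x, ‖g x - 1‖ < 1 ↔ f x ∈ ball (f c) ‖f c - w₀‖ := fun x => by
      have : g x - 1 = (f x - f c) / (f c - w₀) := by simp only [hg]; field_simp; ring
      rw [this, norm_div, div_lt_one hd0, mem_ball, dist_eq_norm]
    set B := ball (f c) ‖f c - w₀‖
    set k := Function.invFunOn f (ball c R)
    have hk : ContinuousOn (fun y => (l (k y)).im) B := by
      refine Complex.continuous_im.comp_continuousOn (hlc.comp ?_ fun y hy => inv_mem (hsub hy))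
      exact fun y hy => (inv_contAt isOpen_ball hd hi (hsub hy)).continuousWithinAt
    have hI := (convex_ball (f c) ‖f c - w₀‖).isPreconnected.intermediate_value
      (mem_ball_self hd0) ((hiff z).1 h1) hk
    simp only [k, inv_left hi hc, inv_left hi hz, hl0, Complex.zero_im] at hI
    have h3 : Real.pi ≤ (l z).im := by
      have h4 := (Complex.abs_im_le_norm (l z - 2 * Real.pi * I)).trans_lt hcon
      have h5 : (l z - 2 * Real.pi * I).im = (l z).im - 2 * Real.pi := by simp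
      rw [h5] at h4
      have := (abs_lt.1 h4).1
      linarith
    obtain ⟨y, hy, hy2⟩ := hI ⟨Real.pi_pos.le, h3⟩
    have hx := inv_mem (hsub hy)
    have h6 : ‖g (k y) - 1‖ < 1 := (hiff _).2 (by rw [inv_right (hsub hy)]; exact hy)
    have h7 : (g (k y)).re < 0 := by
      rw [← hle _ hx, Complex.exp_re]
      have : (l (k y)).im = Real.pi := hy2
      rw [this, Real.cos_pi]
      have := Real.exp_pos (l (k y)).re
      linarith
    have h8 := (Complex.abs_re_le_norm (g (k y) - 1)).trans_lt h6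
    rw [Complex.sub_re, Complex.one_re] at h8
    have := (abs_lt.1 h8).1
    linarith
  have hne2 : ∀ z ∈ ball c R, l z - 2 * Real.pi * I ≠ 0 := fun z hz =>
    norm_pos_iff.1 (lt_of_lt_of_le (by norm_num) (key z hz))
  set q : ℂ → ℂ := fun z => (l z - 2 * Real.pi * I)⁻¹ with hq
  have hqd : ∀ z ∈ ball c R, HasDerivAt q (-(deriv g z / g z) / (l z - 2 * Real.pi * I) ^ 2) z :=
    fun z hz => ((hl z hz).sub_const _).inv (hne2 z hz)
  have hqb : ∀ z ∈ ball c R, ‖q z‖ ≤ 2 := fun z hz => by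
    rw [hq, norm_inv]
    exact inv_le_of_inv_le₀ (by norm_num) (by simpa using key z hz)
  have hS := Complex.norm_deriv_le_div_of_mapsTo_ball (f := q) (c := c) (R₂ := 4)
    (fun z hz => (hqd z hz).differentiableAt.differentiableWithinAt)
    (fun z hz => by
      rw [mem_closedBall, dist_eq_norm]
      have := norm_sub_le (q z) (q c)
      linarith [hqb z hz, hqb c hc]) hR
  have hg' : deriv g c = deriv f c / (f c - w₀) :=
    (((hd.differentiableAt (isOpen_ball.mem_nhds hc)).hasDerivAt.sub_const w₀).div_const _).deriv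
  rw [(hqd c hc).deriv, hg1, hl0, hg', norm_div, norm_neg, div_one, norm_div, norm_pow] at hS
  have h9 : ‖(0:ℂ) - 2 * Real.pi * I‖ = 2 * Real.pi := by
    simp [abs_of_pos Real.pi_pos]
  rw [h9, div_div, div_le_div_iff₀ (by positivity) hR] at hS
  have h10 : (2 * Real.pi) ^ 2 ≤ 40 := by nlinarith
  have h11 : ‖f c - w₀‖ * (2 * Real.pi) ^ 2 ≤ ‖f c - w‖ * 40 := by gcongr
  linarith

/-- growth of a zero-free univalent function -/
lemma koebe2 {f : ℂ → ℂ} {w : ℂ} (hd : DifferentiableOn ℂ f (ball 0 1))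
    (hi : InjOn f (ball 0 1)) (hw : w ∉ f '' ball 0 1) {z : ℂ} (hz : z ∈ ball (0:ℂ) 1) :
    (1 - ‖z‖) ^ 160 * ‖f 0 - w‖ ≤ ‖f z - w‖ ∧ (1 - ‖z‖) ^ 160 * ‖f z - w‖ ≤ ‖f 0 - w‖ := by
  have hz1 : ‖z‖ < 1 := by simpa using hz
  have h0 : (0:ℂ) ∈ ball (0:ℂ) 1 := mem_ball_self one_pos
  have hne' : ∀ x ∈ ball (0:ℂ) 1, f x - w ≠ 0 := fun x hx => by
    rw [sub_ne_zero]; rintro rfl; exact hw (mem_image_of_mem f hx)
  have hne := hne' 0 h0
  set g : ℂ → ℂ := fun z => (f z - w) / (f 0 - w) with hg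
  have hgd : DifferentiableOn ℂ g (ball 0 1) := (hd.sub_const _).div_const _
  have hg0 : ∀ z ∈ ball (0:ℂ) 1, g z ≠ 0 := fun z hz => div_ne_zero (hne' z hz) hne
  obtain ⟨l, hl, hl0, hle⟩ := exists_hol_log one_pos hgd hg0 (div_self hne)
  have hb : ∀ x ∈ ball (0:ℂ) 1, ‖deriv g x / g x‖ ≤ 160 / (1 - ‖x‖) := fun x hx => by
    have hx1 : 0 < 1 - ‖x‖ := by simpa using hx
    have hsub : ball x (1 - ‖x‖) ⊆ ball 0 1 := by
      refine ball_subset_ball' ?_
      simp
    have h1 := koebe1 hx1 (hd.mono hsub) (hi.mono hsub) fun h => hw (image_mono hsub h)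
    have hg' : deriv g x = deriv f x / (f 0 - w) :=
      (((hd.differentiableAt (isOpen_ball.mem_nhds hx)).hasDerivAt.sub_const w).div_const _).deriv
    have h2 : deriv g x / g x = deriv f x / (f x - w) := by
      have := hne' x hx
      rw [hg']; simp only [hg]; field_simp
    rw [h2, norm_div, div_le_div_iff₀ (norm_pos_iff.2 (hne' x hx)) hx1]
    linarith
  have hmem : ∀ t ∈ Icc (0:ℝ) 1, (t:ℂ) * z ∈ ball (0:ℂ) 1 ∧ 0 < 1 - t * ‖z‖ := fun t ht => by
    have : t * ‖z‖ < 1 := by nlinarith [ht.1, ht.2, norm_nonneg z]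
    refine ⟨?_, by linarith⟩
    rw [mem_ball_zero_iff, norm_mul, Complex.norm_real, Real.norm_eq_abs, abs_of_nonneg ht.1]
    exact this
  have hder : ∀ t ∈ Icc (0:ℝ) 1, HasDerivAt (fun t : ℝ => l (t * z))
      (deriv g (t * z) / g (t * z) * z) t := fun t ht => by
    have h1 : HasDerivAt (fun x : ℂ => l (x * z)) (deriv g (t * z) / g (t * z) * z) (t:ℂ) := by
      exact (hl _ (hmem t ht).1).comp (t:ℂ) (hasDerivAt_mul_const z)
    exact h1.comp_ofReal
  have hB : ∀ t ∈ Icc (0:ℝ) 1, HasDerivAt (fun t : ℝ => -160 * Real.log (1 - t * ‖z‖))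
      (160 * ‖z‖ / (1 - t * ‖z‖)) t := fun t ht => by
    have h1 := (((hasDerivAt_mul_const ‖z‖ (x := t)).const_sub 1).log (hmem t ht).2.ne').const_mul
      (-160)
    refine h1.congr_deriv ?_
    ring
  have hmain := image_norm_le_of_norm_deriv_right_le_deriv_boundary'
    (f := fun t : ℝ => l (t * z)) (a := 0) (b := 1)
    (fun t ht => (hder t ht).continuousAt.continuousWithinAt)
    (fun t ht => (hder t (Ico_subset_Icc_self ht)).hasDerivWithinAt)
    (B := fun t : ℝ => -160 * Real.log (1 - t * ‖z‖)) (B' := fun t => 160 * ‖z‖ / (1 - t * ‖z‖))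
    (by simp [hl0]) (fun t ht => (hB t ht).continuousAt.continuousWithinAt)
    (fun t ht => (hB t (Ico_subset_Icc_self ht)).hasDerivWithinAt)
    (fun t ht => by
      have ht' := Ico_subset_Icc_self ht
      have h1 := hb _ (hmem t ht').1
      rw [norm_mul, Complex.norm_real, Real.norm_eq_abs, abs_of_nonneg ht.1] at h1
      rw [norm_mul]
      calc _ ≤ 160 / (1 - t * ‖z‖) * ‖z‖ := by gcongr
        _ = _ := by ring) (x := 1) ⟨zero_le_one, le_rfl⟩
  simp only [Complex.ofReal_one, one_mul] at hmain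
  have h2 := abs_le.1 ((Complex.abs_re_le_norm (l z)).trans hmain)
  have h3 : ‖f z - w‖ = Real.exp (l z).re * ‖f 0 - w‖ := by
    rw [← Complex.norm_exp, hle z hz, hg, norm_div, div_mul_cancel₀ _ (norm_pos_iff.2 hne).ne']
  have h4 : (1 - ‖z‖) ^ 160 = Real.exp (160 * Real.log (1 - ‖z‖)) := by
    rw [← Real.exp_log (pow_pos (by linarith : 0 < 1 - ‖z‖) 160), Real.log_pow]; norm_num
  rw [h3, h4]
  constructor
  · gcongr; linarith [h2.1]
  · rw [← mul_assoc, ← Real.exp_add]
    have : Real.exp (160 * Real.log (1 - ‖z‖) + (l z).re) ≤ 1 :=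
      Real.exp_le_one_iff.2 (by linarith [h2.2])
    exact mul_le_of_le_one_left (norm_nonneg _) this

/-- there is an omitted value near `f b` -/
lemma koebe3 {f : ℂ → ℂ} (hd : DifferentiableOn ℂ f (ball 0 1))
    (hi : InjOn f (ball 0 1)) {w : ℂ} (hw : w ∉ f '' ball 0 1) {b : ℂ} (hb : b ∈ ball (0:ℂ) 1) :
    ∃ w₀ ∉ f '' ball 0 1, ‖f b - w₀‖ ≤ 2 * ‖deriv f b‖ := by
  have hG := isOpen_img isOpen_ball hd hi isOpen_ball subset_rfl
  obtain ⟨w₀, hw₀, hd0, -, hsub⟩ := exists_nearest hG (mem_image_of_mem f hb) hw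
  refine ⟨w₀, hw₀, ?_⟩
  have hS := Complex.norm_deriv_le_div_of_mapsTo_ball (f := Function.invFunOn f (ball 0 1))
    (c := f b) (R₂ := 2) ((inv_diffOn isOpen_ball hd hi).mono hsub)
    (fun y hy => by
      rw [mem_closedBall, dist_eq_norm]
      have h1 := mem_ball_zero_iff.1 (inv_mem (hsub hy))
      have h2 := mem_ball_zero_iff.1 (inv_mem (mem_image_of_mem f hb))
      have := norm_sub_le (Function.invFunOn f (ball 0 1) y) (Function.invFunOn f (ball 0 1) (f b))
      linarith) hd0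
  have h1 := norm_pos_iff.2 (deriv_ne_zero_of_inj isOpen_ball hd hi hb)
  rw [(inv_hasDerivAt isOpen_ball hd hi (mem_image_of_mem f hb)).deriv, inv_left hi hb, norm_inv,
    inv_eq_one_div, div_le_div_iff₀ h1 hd0] at hS
  linarith

end Pool.Agent.Lib.MP_6c91ae_an
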