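import Pool.Agent.Lib.MP_6c91ae_an.Wolff
import Pool.Agent.Lib.MP_6c91ae_an.ChKoebe

namespace Pool.Agent.Lib.MP_6c91ae_an

open Metric Complex Set Filter Topology
open scoped ComplexConjugate

noncomputable def mob (b z : ℂ) : ℂ := (z - b) / (1 - conj b * z)

lemma neg_mem_U {b : ℂ} (hb : b ∈ ball (0:ℂ) 1) : -b ∈ ball (0:ℂ) 1 := by simpa using hb

lemma zero_mem_U : (0:ℂ) ∈ ball (0:ℂ) 1 := mem_ball_self one_pos

lemma mob_mem {b z : ℂ} (hb : b ∈ ball (0:ℂ) 1) (hz : z ∈ ball (0:ℂ) 1) :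
    mob b z ∈ ball (0:ℂ) 1 := mem_ball_zero_iff.2 (pdist_lt_one hb hz)

lemma mob_maps {b : ℂ} (hb : b ∈ ball (0:ℂ) 1) : MapsTo (mob b) (ball 0 1) (ball 0 1) :=
  fun _ hz => mob_mem hb hz

lemma mob_diff {b : ℂ} (hb : b ∈ ball (0:ℂ) 1) : DifferentiableOn ℂ (mob b) (ball 0 1) :=
  DifferentiableOn.div (by fun_prop) (by fun_prop) fun _ hz => den_ne hb hz

lemma mob_neg_mob {b z : ℂ} (hb : b ∈ ball (0:ℂ) 1) (hz : z ∈ ball (0:ℂ) 1) :
    mob (-b) (mob b z) = z := by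
  have h1 := den_ne hb hz
  have h2 := den_ne (neg_mem_U hb) (mob_mem hb hz)
  have h3 := den_ne hb hb
  unfold mob at *
  rw [div_eq_iff h2]
  simp only [map_neg]
  generalize (starRingEnd ℂ) b = c at *
  have h4 : (z - b) / (1 - c * z) * (1 - c * z) = z - b := div_mul_cancel₀ _ h1
  generalize (z - b) / (1 - c * z) = q at *
  linear_combination h4

lemma mob_mob_neg {b z : ℂ} (hb : b ∈ ball (0:ℂ) 1) (hz : z ∈ ball (0:ℂ) 1) :
    mob b (mob (-b) z) = z := by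
  simpa using mob_neg_mob (neg_mem_U hb) hz

lemma mob_inj {b : ℂ} (hb : b ∈ ball (0:ℂ) 1) : InjOn (mob b) (ball 0 1) := fun x hx y hy h => by
  rw [← mob_neg_mob hb hx, h, mob_neg_mob hb hy]

lemma mob_self (b : ℂ) : mob b b = 0 := by simp [mob]

lemma mob_neg_zero (b : ℂ) : mob (-b) 0 = b := by simp [mob]

lemma pdist_zero (z : ℂ) : pdist 0 z = ‖z‖ := by simp [pdist]

lemma pdist_weight {x y : ℂ} (hx : x ∈ ball (0:ℂ) 1) (hy : y ∈ ball (0:ℂ) 1) :
    (1 - pdist x y ^ 2) * (1 - ‖y‖ ^ 2) ≤ 4 * (1 - ‖x‖ ^ 2) ∧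
    (1 - pdist x y ^ 2) * (1 - ‖x‖ ^ 2) ≤ 4 * (1 - ‖y‖ ^ 2) := by
  have h1 := pdist_sq hx hy
  have hx1 : ‖x‖ < 1 := by simpa using hx
  have hy1 : ‖y‖ < 1 := by simpa using hy
  have hx0 := norm_nonneg x
  have hy0 := norm_nonneg y
  have h2 : 1 - ‖x‖ * ‖y‖ ≤ ‖1 - conj x * y‖ := by
    have := norm_sub_norm_le (1:ℂ) (conj x * y)
    simpa using this
  have hp : 0 ≤ 1 - pdist x y ^ 2 := by
    have := pdist_lt_one hx hy
    have := pdist_nonneg x y
    nlinarith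
  have hX := one_sub_sq_pos hx
  have hY := one_sub_sq_pos hy
  have h3 : (1 - ‖y‖ ^ 2) ≤ 2 * ‖1 - conj x * y‖ := by nlinarith
  have h4 : (1 - ‖x‖ ^ 2) ≤ 2 * ‖1 - conj x * y‖ := by nlinarith
  have h5 : (1 - ‖y‖ ^ 2) ^ 2 ≤ 4 * ‖1 - conj x * y‖ ^ 2 := by nlinarith
  have h6 : (1 - ‖x‖ ^ 2) ^ 2 ≤ 4 * ‖1 - conj x * y‖ ^ 2 := by nlinarith
  constructor
  · refine le_of_mul_le_mul_right ?_ hY
    nlinarith [mul_le_mul_of_nonneg_left h5 hp]
  · refine le_of_mul_le_mul_right ?_ hX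
    nlinarith [mul_le_mul_of_nonneg_left h6 hp]

lemma weight_le {ψ : ℂ → ℂ} (hd : DifferentiableOn ℂ ψ (ball 0 1))
    (hm : MapsTo ψ (ball 0 1) (ball 0 1)) {z : ℂ} (hz : z ∈ ball (0:ℂ) 1) :
    (1 - ‖z‖ ^ 2) * (1 - ‖ψ z‖ ^ 2) ≤ 4 * (1 - ‖ψ 0‖ ^ 2) ∧
    (1 - ‖z‖ ^ 2) * (1 - ‖ψ 0‖ ^ 2) ≤ 4 * (1 - ‖ψ z‖ ^ 2) := by
  have h1 := schwarz_pick hd hm zero_mem_U hz
  rw [pdist_zero] at h1
  have h2 := pdist_weight (hm zero_mem_U) (hm hz)
  have h3 : 1 - ‖z‖ ^ 2 ≤ 1 - pdist (ψ 0) (ψ z) ^ 2 := by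
    have := pdist_nonneg (ψ 0) (ψ z)
    nlinarith
  have h4 := one_sub_sq_pos (hm hz)
  have h5 := one_sub_sq_pos (hm zero_mem_U)
  constructor
  · exact (mul_le_mul_of_nonneg_right h3 h4.le).trans h2.1
  · exact (mul_le_mul_of_nonneg_right h3 h5.le).trans h2.2

lemma iter_diffOn {φ : ℂ → ℂ} (hd : DifferentiableOn ℂ φ (ball 0 1))
    (hm : MapsTo φ (ball 0 1) (ball 0 1)) (n : ℕ) : DifferentiableOn ℂ φ^[n] (ball 0 1) := by
  induction n with
  | zero => exact differentiableOn_id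
  | succ n ih => rw [Function.iterate_succ']; exact hd.comp ih (hm.iterate n)

lemma cayley_re {ω z : ℂ} (hω : ‖ω‖ = 1) (hz : z ∈ ball (0:ℂ) 1) :
    ω - z ≠ 0 ∧ ((ω + z) / (ω - z)).re = (1 - ‖z‖ ^ 2) / ‖ω - z‖ ^ 2 := by
  have h0 : ω - z ≠ 0 := by
    intro h
    rw [sub_eq_zero.1 h] at hω
    simp [hω] at hz
  refine ⟨h0, ?_⟩
  have h1 : ω.re ^ 2 + ω.im ^ 2 = 1 := by
    have := Complex.sq_norm ω
    rw [hω, Complex.normSq_apply] at this; nlinarith
  have h2 : normSq (ω - z) ≠ 0 := by simpa using h0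
  rw [Complex.div_re, Complex.sq_norm, Complex.sq_norm, ← add_div, Complex.normSq_apply z]
  congr 1
  simp only [Complex.add_re, Complex.sub_re, Complex.add_im, Complex.sub_im]
  nlinarith

/-- orbits of a selfmap without fixed point leave every compact set -/
lemma denjoy_wolff {φ : ℂ → ℂ} (hd : DifferentiableOn ℂ φ (ball 0 1))
    (hm : MapsTo φ (ball 0 1) (ball 0 1)) (hfix : ∀ z ∈ ball (0:ℂ) 1, φ z ≠ z) {z : ℂ}
    (hz : z ∈ ball (0:ℂ) 1) : Tendsto (fun n => ‖φ^[n] z‖) atTop (𝓝 1) := by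
  obtain ⟨ω, hω, hW⟩ := wolff hd hm hfix
  set c : ℂ → ℂ := fun x => (ω + x) / (ω - x) with hc
  have hcd : DifferentiableOn ℂ c (ball 0 1) :=
    DifferentiableOn.div (by fun_prop) (by fun_prop) fun x hx => (cayley_re hω hx).1
  have hmono : ∀ x ∈ ball (0:ℂ) 1, (c x).re ≤ (c (φ x)).re := fun x hx => by
    simp only [hc]
    rw [(cayley_re hω hx).2, (cayley_re hω (hm hx)).2,
      div_le_div_iff₀ (pow_pos (norm_pos_iff.2 (cayley_re hω hx).1) 2)
        (pow_pos (norm_pos_iff.2 (cayley_re hω (hm hx)).1) 2)]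
    exact hW x hx
  have hn : ∀ n, φ^[n] z ∈ ball (0:ℂ) 1 := fun n => hm.iterate n hz
  rw [tendsto_order]
  refine ⟨fun r hr => ?_, fun r hr => Eventually.of_forall fun n =>
    (mem_ball_zero_iff.1 (hn n)).trans hr⟩
  by_contra hcon
  have hfr : ∃ᶠ n in atTop, φ^[n] z ∈ closedBall (0:ℂ) r := by
    rw [not_eventually] at hcon
    exact hcon.mono fun n h => by simpa using h
  obtain ⟨p, hp, k, hk, hlim⟩ := (isCompact_closedBall (0:ℂ) r).tendsto_subseq' hfr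
  have hpU : p ∈ ball (0:ℂ) 1 := closedBall_subset_ball hr hp
  have hM : Monotone fun n => (c (φ^[n] z)).re := monotone_nat_of_le_succ fun n => by
    rw [Function.iterate_succ_apply']; exact hmono _ (hn n)
  have hcc : ∀ x ∈ ball (0:ℂ) 1, ContinuousAt c x := fun x hx =>
    (hcd.differentiableAt (isOpen_ball.mem_nhds hx)).continuousAt
  have hl1 : Tendsto (fun j => c (φ^[k j] z)) atTop (𝓝 (c p)) := (hcc p hpU).tendsto.comp hlim
  have hl1' := (Complex.continuous_re.tendsto _).comp hl1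
  have hl2 := (tendsto_iff_tendsto_subseq_of_monotone hM hk.tendsto_atTop).2 hl1'
  have hl3 : Tendsto (fun j => (c (φ^[k j + 1] z)).re) atTop (𝓝 (c (φ p)).re) := by
    simp only [Function.iterate_succ_apply']
    exact (Complex.continuous_re.tendsto _).comp ((hcc _ (hm hpU)).tendsto.comp
      ((hd.differentiableAt (isOpen_ball.mem_nhds hpU)).continuousAt.tendsto.comp hlim))
  have hl4 : Tendsto (fun j => (c (φ^[k j + 1] z)).re) atTop (𝓝 (c p).re) :=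
    hl2.comp ((tendsto_add_atTop_nat 1).comp hk.tendsto_atTop)
  have heq := tendsto_nhds_unique hl3 hl4
  set h : ℂ → ℂ := fun x => c (φ x) - c x with hh
  have hhd : DifferentiableOn ℂ h (ball 0 1) := (hcd.comp hd hm).sub hcd
  rcases (hhd.analyticOnNhd isOpen_ball).is_constant_or_isOpen
    (convex_ball (0:ℂ) 1).isPreconnected with ⟨t, ht⟩ | hop
  · have hit : ∀ n : ℕ, c (φ^[n] z) = c z + n * t := fun n => by
      induction n with
      | zero => simp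
      | succ n ih =>
        rw [Function.iterate_succ_apply']
        have := ht _ (hn n)
        simp only [hh] at this
        push_cast
        linear_combination this + ih
    have ht0 : t ≠ 0 := by
      rintro rfl
      have h1 := ht 0 zero_mem_U
      simp only [hh, hc] at h1
      have h2 := (cayley_re hω (hm zero_mem_U)).1
      have h3 : ω ≠ 0 := norm_pos_iff.1 (hω ▸ one_pos)
      apply hfix 0 zero_mem_U
      rw [sub_eq_zero, add_zero, sub_zero, div_self h3, div_eq_one_iff_eq h2] at h1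
      linear_combination h1 / 2
    have h1 : Tendsto (fun j => ‖c (φ^[k j] z) - c z‖) atTop (𝓝 ‖c p - c z‖) :=
      (hl1.sub_const _).norm
    have h2 : Tendsto (fun j => ‖c (φ^[k j] z) - c z‖) atTop atTop := by
      simp only [hit, add_sub_cancel_left, norm_mul, Complex.norm_natCast]
      exact (tendsto_natCast_atTop_atTop.comp hk.tendsto_atTop).atTop_mul_const
        (norm_pos_iff.2 ht0)
    exact not_tendsto_nhds_of_tendsto_atTop h2 _ h1
  · have h1 := hop _ subset_rfl isOpen_ball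
    obtain ⟨e, he, hsub⟩ := Metric.isOpen_iff.1 h1 (h p) (mem_image_of_mem h hpU)
    obtain ⟨x, hx, hx2⟩ := hsub (show h p - (e / 2 : ℝ) ∈ ball (h p) e by
      rw [mem_ball, dist_eq_norm, sub_sub_cancel_left, norm_neg, Complex.norm_real,
        Real.norm_eq_abs, abs_of_pos (by linarith)]
      linarith)
    have h2 := congrArg Complex.re hx2
    simp only [hh, Complex.sub_re, Complex.ofReal_re] at h2
    linarith [hmono x hx]

lemma cover_of_sphere {f : ℂ → ℂ} (hd : DifferentiableOn ℂ f (ball 0 1)) (hi : InjOn f (ball 0 1))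
    (h0 : f 0 = 0) {r t : ℝ} (hr0 : 0 < r) (hr : r < 1) (h : ∀ z, ‖z‖ = r → t ≤ ‖f z‖) :
    ball 0 t ⊆ f '' ball 0 r := by
  rcases le_or_gt t 0 with ht | ht
  · rw [ball_eq_empty.2 ht]; exact empty_subset _
  refine (convex_ball (0:ℂ) t).isPreconnected.subset_of_closure_inter_subset
    (isOpen_img isOpen_ball hd hi isOpen_ball (ball_subset_ball hr.le))
    ⟨0, mem_ball_self ht, 0, mem_ball_self hr0, h0⟩ ?_
  rintro y ⟨hy1, hy2⟩
  have hK : IsClosed (f '' closedBall 0 r) :=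
    ((isCompact_closedBall (0:ℂ) r).image_of_continuousOn
      (hd.continuousOn.mono (closedBall_subset_ball hr))).isClosed
  obtain ⟨z, hz, rfl⟩ := hK.closure_subset_iff.2 (image_mono ball_subset_closedBall) hy1
  refine ⟨z, ?_, rfl⟩
  rw [mem_closedBall_zero_iff] at hz
  rw [mem_ball_zero_iff] at hy2 ⊢
  refine lt_of_le_of_ne hz fun h' => ?_
  linarith [h z h']

lemma near_isometry {t : ℝ} (ht : t < 1) : ∃ r τ : ℝ, 0 < r ∧ r < 1 ∧ 0 < τ ∧
    ∀ f : ℂ → ℂ, DifferentiableOn ℂ f (ball 0 1) → InjOn f (ball 0 1) →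
      MapsTo f (ball 0 1) (ball 0 1) → f 0 = 0 → 1 - τ ≤ ‖deriv f 0‖ → ball 0 t ⊆ f '' ball 0 r := by
  wlog ht0 : 0 ≤ t
  · refine ⟨1 / 2, 1, by norm_num, by norm_num, one_pos, fun f _ _ _ _ _ => ?_⟩
    rw [ball_eq_empty.2 (not_le.1 ht0).le]; exact empty_subset _
  set r : ℝ := (1 + t) / 2 with hr
  have hr0 : 0 < r := by positivity
  have hr1 : r < 1 := by linarith
  have htr : t < r := by linarith
  have h1 : 0 < 1 - r ^ 2 := by nlinarith
  have h2 : 0 < r ^ 2 - t ^ 2 := by nlinarith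
  set τ : ℝ := (1 - r ^ 2) * (r ^ 2 - t ^ 2) / 16 with hτ
  have hτ0 : 0 < τ := by positivity
  have hτ1 : τ ≤ 1 := by
    have : (1 - r ^ 2) * (r ^ 2 - t ^ 2) ≤ 1 * 1 := by gcongr <;> nlinarith
    linarith
  refine ⟨r, τ, hr0, hr1, hτ0, fun f hd hi hm h0 hτf => cover_of_sphere hd hi h0 hr0 hr1 ?_⟩
  intro z hz
  have hzU : z ∈ ball (0:ℂ) 1 := by rw [mem_ball_zero_iff, hz]; exact hr1
  have hg1 : ∀ x ∈ ball (0:ℂ) 1, ‖dslope f 0 x‖ ≤ 1 := fun x hx => by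
    have := Complex.norm_dslope_le_div_of_mapsTo_ball (R₂ := 1) hd
      (fun y hy => by rw [h0]; exact ball_subset_closedBall (hm hy)) hx
    simpa using this
  set g : ℂ → ℂ := fun x => ((1 - τ : ℝ) : ℂ) * dslope f 0 x with hg
  have hn : ∀ x, ‖g x‖ = (1 - τ) * ‖dslope f 0 x‖ := fun x => by
    rw [hg, norm_mul, Complex.norm_real, Real.norm_eq_abs, abs_of_nonneg (by linarith)]
  have hgd : DifferentiableOn ℂ g (ball 0 1) :=
    ((Complex.differentiableOn_dslope (ball_mem_nhds _ one_pos)).2 hd).const_mul _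
  have hgm : MapsTo g (ball 0 1) (ball 0 1) := fun x hx => by
    rw [mem_ball_zero_iff, hn]
    have := hg1 x hx
    nlinarith
  have h3 := (weight_le hgd hgm hzU).1
  rw [hn, hn, dslope_same, hz] at h3
  have hz0 : z ≠ 0 := norm_pos_iff.1 (hz ▸ hr0)
  have h4 : ‖f z‖ = r * ‖dslope f 0 z‖ := by
    rw [dslope_of_ne _ hz0, slope_def_field, h0, sub_zero, sub_zero, norm_div, hz]
    field_simp
  set a := ‖deriv f 0‖
  set b := ‖dslope f 0 z‖
  have hb0 : 0 ≤ b := norm_nonneg _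
  have h5 : 1 - ((1 - τ) * a) ^ 2 ≤ 4 * τ := by
    have h6 : (1 - τ) * (1 - τ) ≤ (1 - τ) * a := by gcongr
    have h7 : 0 ≤ (1 - τ) * (1 - τ) := mul_self_nonneg _
    have h8 : ((1 - τ) * (1 - τ)) ^ 2 ≤ ((1 - τ) * a) ^ 2 := by gcongr
    have h9 : 1 - 4 * τ ≤ ((1 - τ) * (1 - τ)) ^ 2 := by
      have := one_add_mul_le_pow (a := -τ) (by linarith) 4
      calc 1 - 4 * τ = 1 + (4:ℕ) * -τ := by push_cast; ring
        _ ≤ (1 + -τ) ^ 4 := this
        _ = _ := by ring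
    linarith
  have h6 : ((1 - τ) * b) ^ 2 ≤ b ^ 2 := by
    have : (1 - τ) * b ≤ b := by nlinarith
    have : 0 ≤ (1 - τ) * b := mul_nonneg (by linarith) hb0
    gcongr
  have h7 : (1 - r ^ 2) * (1 - b ^ 2) ≤ (1 - r ^ 2) * (r ^ 2 - t ^ 2) := by
    have : (1 - r ^ 2) * (1 - b ^ 2) ≤ (1 - r ^ 2) * (1 - ((1 - τ) * b) ^ 2) := by gcongr
    linarith
  have h8 := le_of_mul_le_mul_left h7 h1
  rw [h4]
  refine (pow_le_pow_iff_left₀ ht0 (by positivity) two_ne_zero).1 ?_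
  have h9 : r ^ 2 * (1 - b ^ 2) ≤ r ^ 2 * (r ^ 2 - t ^ 2) := by gcongr
  have h10 : r ^ 2 * (r ^ 2 - t ^ 2) ≤ 1 * (r ^ 2 - t ^ 2) := by gcongr; nlinarith
  nlinarith

end Pool.Agent.Lib.MP_6c91ae_an
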