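import Mathlib

namespace Pool.Agent.Lib.MP_6c91ae_an

/-- `u` is a twice continuously differentiable subharmonic function on the unit disc with
`u ≤ L` and `u ∘ ψ ≤ L`, where `L z = -log (1 - |z|²)`. -/
def Minorant (ψ : ℂ → ℂ) (u : ℂ → ℝ) : Prop :=
  ContDiffOn ℝ 2 u (Metric.ball 0 1) ∧ ∀ z ∈ Metric.ball (0 : ℂ) 1,
    0 ≤ Laplacian.laplacian u z ∧ u z ≤ -Real.log (1 - ‖z‖ ^ 2) ∧
      u (ψ z) ≤ -Real.log (1 - ‖z‖ ^ 2)

end Pool.Agent.Lib.MP_6c91ae_an
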