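import Pool.Agent.Lib.MP_6c91ae_an.ChWeyl

namespace Pool.Agent.Lib.MP_6c91ae_an

open Metric Complex Set Filter Topology MeasureTheory
open scoped Real ENNReal NNReal InnerProductSpace ComplexConjugate

lemma hilb_proj {H : Type*} [NormedAddCommGroup H] [InnerProductSpace ℂ H] [CompleteSpace H]
    (V : Submodule ℂ H) (q : H) {η : ℝ} (h : ∀ v ∈ V, ‖⟪q, v⟫_ℂ‖ ≤ ‖v‖ ^ 2 / 2 + η) :
    ∃ k : H, ‖k‖ ^ 2 ≤ 2 * η ∧ ∀ v ∈ V, ⟪q - k, v⟫_ℂ = 0 := by
  set K := V.topologicalClosure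
  have hk : K.starProjection q ∈ K := K.starProjection_apply_mem q
  have ho : ∀ v ∈ K, ⟪q - K.starProjection q, v⟫_ℂ = 0 := K.starProjection_inner_eq_zero q
  refine ⟨K.starProjection q, ?_, fun v hv => ho v (V.le_topologicalClosure hv)⟩
  have h1 : closure (V : Set H) ⊆ {v | ‖⟪q, v⟫_ℂ‖ ≤ ‖v‖ ^ 2 / 2 + η} :=
    closure_minimal h (isClosed_le (by fun_prop) (by fun_prop))
  have h2 : ‖⟪q, K.starProjection q⟫_ℂ‖ ≤ ‖K.starProjection q‖ ^ 2 / 2 + η := h1 hk
  have h3 := ho _ hk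
  rw [inner_sub_left, sub_eq_zero] at h3
  rw [h3, inner_self_eq_norm_sq_to_K] at h2
  simp only [norm_pow, RCLike.norm_ofReal, abs_norm] at h2
  linarith

lemma L2_norm_sq (v : Lp ℂ 2 (volume : Measure ℂ)) : ‖v‖ ^ 2 = ∫ a, ‖v a‖ ^ 2 := by
  have h1 := L2.inner_def (𝕜 := ℂ) v v
  simp only [inner_self_eq_norm_sq_to_K] at h1
  have h2 : ((‖v‖ ^ 2 : ℝ) : ℂ) = ((∫ a, ‖v a‖ ^ 2 : ℝ) : ℂ) := by
    rw [← integral_complex_ofReal]
    push_cast
    exact h1
  exact_mod_cast h2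

lemma Test.add {W : Set ℂ} {f g : ℂ → ℂ} (hf : Test W f) (hg : Test W g) :
    Test W fun z => f z + g z :=
  ⟨hf.cd.add hg.cd, hf.cs.add hg.cs, (tsupport_add f g).trans (union_subset hf.sub hg.sub)⟩

lemma Test.smul {W : Set ℂ} {f : ℂ → ℂ} (hf : Test W f) (c : ℂ) : Test W fun z => c * f z :=
  ⟨contDiff_const.mul hf.cd, hf.cs.mul_left,
    (tsupport_mul_subset_right (f := fun _ => c) (g := f)).trans hf.sub⟩

lemma Test.zero' (W : Set ℂ) : Test W fun _ => 0 :=
  ⟨contDiff_const, HasCompactSupport.zero, by simp [tsupport]⟩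

lemma Dz_add {f g : ℂ → ℂ} {z : ℂ} (hf : DifferentiableAt ℝ f z) (hg : DifferentiableAt ℝ g z) :
    Dz (fun y => f y + g y) z = Dz f z + Dz g z := by
  unfold Dz
  rw [pd_add hf hg, pd_add hf hg]; ring

lemma Test.int_theta {R : ℝ} {f : ℂ → ℂ} (hf : Test (ball 0 R) f) {Θ : ℂ → ℝ} (hm : Measurable Θ)
    (h1 : ∀ z, 1 ≤ Θ z) (hb : ∀ K ⊆ ball (0:ℂ) R, IsCompact K → ∃ B, ∀ z ∈ K, Θ z ≤ B) :
    Integrable fun z => ‖Dz f z‖ ^ 2 * Θ z := by
  obtain ⟨B, hB⟩ := hb _ hf.sub hf.cpt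
  refine (hf.int_Dz (k := fun _ => B) fun _ _ => continuousAt_const).mono'
    ((hf.Dz_cont.norm.pow 2).measurable.mul hm).aestronglyMeasurable
    (Eventually.of_forall fun z => ?_)
  by_cases hz : z ∈ tsupport f
  · rw [Real.norm_eq_abs, abs_of_nonneg (mul_nonneg (sq_nonneg _) (by linarith [h1 z]))]
    exact mul_le_mul_of_nonneg_left (hB z hz) (sq_nonneg _)
  · simp [Test.Dz_zero hz]

lemma dual {R : ℝ} {Θ : ℂ → ℝ} (hm : Measurable Θ) (h1 : ∀ z, 1 ≤ Θ z)
    (hb : ∀ K ⊆ ball (0:ℂ) R, IsCompact K → ∃ B, ∀ z ∈ K, Θ z ≤ B) {Q : ℂ → ℂ}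
    (hQ : AEStronglyMeasurable Q volume) (hQi : Integrable fun z => ‖Q z‖ ^ 2) {η : ℝ}
    (h : ∀ f, Test (ball 0 R) f →
      ‖∫ z, Dz f z * Q z‖ ≤ (∫ z, ‖Dz f z‖ ^ 2 * Θ z) / 2 + η) :
    ∃ H : ℂ → ℂ, DifferentiableOn ℂ H (ball 0 R) ∧
      ∫⁻ z in ball 0 R, ENNReal.ofReal (‖H z - Q z‖ ^ 2 / Θ z) ≤ ENNReal.ofReal (2 * η) := by
  set s : ℂ → ℂ := fun z => (√(Θ z) : ℝ) with hs
  have hsm : Measurable s := Complex.measurable_ofReal.comp hm.sqrt
  have hΘ0 : ∀ z, 0 < Θ z := fun z => by linarith [h1 z]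
  have hsn : ∀ z, ‖s z‖ ^ 2 = Θ z := fun z => by
    rw [hs, Complex.norm_real, Real.norm_eq_abs, sq_abs, Real.sq_sqrt (hΘ0 z).le]
  have hs0 : ∀ z, s z ≠ 0 := fun z h => by
    have := hsn z
    rw [h, norm_zero] at this
    nlinarith [hΘ0 z]
  have hsc : ∀ z, conj (s z) = s z := fun z => Complex.conj_ofReal _
  have hv : ∀ f, Test (ball 0 R) f → MemLp (fun z => s z * Dz f z) 2 volume := fun f hf => by
    rw [memLp_two_iff_integrable_sq_norm
      (by exact (hsm.mul hf.Dz_cont.measurable).aestronglyMeasurable)]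
    refine (hf.int_theta hm h1 hb).congr (Eventually.of_forall fun z => ?_)
    simp only [norm_mul, mul_pow, hsn, mul_comm]
  have hq : MemLp (fun z => conj (Q z) / s z) 2 volume := by
    have hme : AEStronglyMeasurable (fun z => conj (Q z) / s z) volume :=
      ((Complex.continuous_conj.comp_aestronglyMeasurable hQ).aemeasurable.div
        hsm.aemeasurable).aestronglyMeasurable
    rw [memLp_two_iff_integrable_sq_norm hme]
    refine hQi.mono' (hme.norm.pow 2) (Eventually.of_forall fun z => ?_)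
    rw [norm_pow, norm_norm, norm_div, div_pow, hsn, Complex.norm_conj]
    exact div_le_self (sq_nonneg _) (h1 z)
  let V : Submodule ℂ (Lp ℂ 2 (volume : Measure ℂ)) :=
    { carrier := {x | ∃ f, Test (ball 0 R) f ∧ x =ᵐ[volume] fun z => s z * Dz f z}
      add_mem' := by
        rintro x y ⟨f, hf, hx⟩ ⟨g, hg, hy⟩
        refine ⟨_, hf.add hg, ?_⟩
        filter_upwards [Lp.coeFn_add x y, hx, hy] with z e1 e2 e3
        rw [e1, Pi.add_apply, e2, e3, Dz_add (hf.diff z) (hg.diff z), mul_add]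
      zero_mem' := ⟨_, Test.zero' _, by
        filter_upwards [Lp.coeFn_zero ℂ 2 (volume : Measure ℂ)] with z e1
        rw [e1, Dz_const]; simp⟩
      smul_mem' := by
        rintro c x ⟨f, hf, hx⟩
        refine ⟨_, hf.smul c, ?_⟩
        filter_upwards [Lp.coeFn_smul c x, hx] with z e1 e2
        rw [e1, Pi.smul_apply, e2, Dz_mul (differentiableAt_const c) (hf.diff z), Dz_const,
          smul_eq_mul]
        ring }
  obtain ⟨k, hk, hk0⟩ := hilb_proj V (hq.toLp _) (η := η) (by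
    rintro v ⟨f, hf, hx⟩
    have e1 : ⟪hq.toLp _, v⟫_ℂ = ∫ z, Dz f z * Q z := by
      rw [L2.inner_def]
      refine integral_congr_ae ?_
      filter_upwards [hq.coeFn_toLp, hx] with z e1 e2
      rw [e1, e2, RCLike.inner_apply, map_div₀, hsc, Complex.conj_conj]
      have := hs0 z
      field_simp
    have e2 : ‖v‖ ^ 2 = ∫ z, ‖Dz f z‖ ^ 2 * Θ z := by
      rw [L2_norm_sq]
      refine integral_congr_ae ?_
      filter_upwards [hx] with z e2
      rw [e2, norm_mul, mul_pow, hsn, mul_comm]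
    rw [e1, e2]
    exact h f hf)
  set x := hq.toLp _ - k with hx
  obtain ⟨H, hH, hH'⟩ := weyl (R := R) (h := fun z => s z * conj (x z)) (fun K hK hK' => by
    obtain ⟨B, hB⟩ := hb K hK hK'
    have i1 : IntegrableOn x K :=
      ((Lp.memLp x).locallyIntegrable (by norm_num)).integrableOn_isCompact hK'
    refine Integrable.mono' (i1.norm.const_mul B)
      (hsm.aestronglyMeasurable.mul (Complex.continuous_conj.comp_aestronglyMeasurable i1.1)) ?_
    refine (ae_restrict_iff' hK'.measurableSet).2 (Eventually.of_forall fun z hz => ?_)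
    rw [norm_mul, Complex.norm_conj]
    have h2 : ‖s z‖ ≤ B := by
      have h3 := hsn z
      have h4 := hB z hz
      have h5 := h1 z
      nlinarith [norm_nonneg (s z), sq_nonneg (‖s z‖ - 1)]
    gcongr) (fun f hf => by
    have e1 := hk0 ((hv f hf).toLp _) ⟨f, hf, (hv f hf).coeFn_toLp⟩
    rw [L2.inner_def] at e1
    rw [setIntegral_eq_integral_of_forall_compl_eq_zero fun z hz => by
      rw [Test.Dz_zero fun h => hz (hf.sub h), zero_mul], ← e1]
    refine integral_congr_ae ?_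
    filter_upwards [(hv f hf).coeFn_toLp] with z e2
    rw [e2, RCLike.inner_apply]
    ring)
  refine ⟨H, hH, ?_⟩
  have e3 : ∫⁻ z in ball 0 R, ENNReal.ofReal (‖H z - Q z‖ ^ 2 / Θ z) =
      ∫⁻ z in ball 0 R, ENNReal.ofReal (‖k z‖ ^ 2) := by
    refine setLIntegral_congr_fun_ae measurableSet_ball ?_
    filter_upwards [hH', Lp.coeFn_sub (hq.toLp _) k, hq.coeFn_toLp] with z e1 e2 e3 hz
    rw [← e1 hz, hx, e2, Pi.sub_apply, e3, map_sub, map_div₀, hsc, Complex.conj_conj]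
    have h2 := hs0 z
    have h3 : s z * (Q z / s z - conj (k z)) - Q z = -(s z * conj (k z)) := by
      field_simp; ring
    rw [h3, norm_neg, norm_mul, mul_pow, hsn, Complex.norm_conj,
      mul_div_cancel_left₀ _ (hΘ0 z).ne']
  rw [e3]
  refine (setLIntegral_le_lintegral _ _).trans ?_
  rw [← ofReal_integral_eq_lintegral_ofReal
    ((memLp_two_iff_integrable_sq_norm (Lp.aestronglyMeasurable k)).1 (Lp.memLp k))
    (Eventually.of_forall fun z => by positivity), ← L2_norm_sq]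
  exact ENNReal.ofReal_le_ofReal hk

end Pool.Agent.Lib.MP_6c91ae_an
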