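import Pool.Agent.Lib.MP_6c91ae_an.ChPolar

namespace Pool.Agent.Lib.MP_6c91ae_an

open Metric Complex Set Filter Topology MeasureTheory
open scoped Real ENNReal

/-- a subharmonic minorant of `log Θ` on the disc of radius `R` -/
structure Minor (R : ℝ) (Θ u : ℂ → ℝ) : Prop where
  cd : ∀ z ∈ ball (0:ℂ) R, ContDiffAt ℝ 2 u z
  lp : ∀ z ∈ ball (0:ℂ) R, 0 ≤ lap u z
  le : ∀ z ∈ ball (0:ℂ) R, Real.exp (u z) ≤ Θ z

def Good (R : ℝ) (Θ : ℂ → ℝ) (M : ℝ) (c : ℂ) : Prop :=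
  ∃ u, Minor R Θ u ∧ (c ∈ ball (0:ℂ) R → M ≤ u c)

lemma intOn_ball {E : Type*} [NormedAddCommGroup E] {h : ℂ → E} (hh : Continuous h) (c : ℂ)
    (ρ : ℝ) : IntegrableOn h (ball c ρ) :=
  (hh.continuousOn.integrableOn_compact (isCompact_closedBall c ρ)).mono_set ball_subset_closedBall

lemma a_bound (R' : ℝ) : ∃ C : ℝ, 0 < C ∧ ∀ (R : ℝ) (Θ u : ℂ → ℝ) (f : ℂ → ℂ), Test (ball 0 R) f →
    Minor R Θ u → (∀ z ∈ ball (0:ℂ) (1 / 320), Θ z ≤ 3) →
    Integrable (fun z => ‖Dz f z‖ ^ 2 * Θ z) →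
    ∫ z in ball 0 R', ‖f z‖ ^ 2 * Real.exp (u z) ≤
      C * ((∫ z, ‖Dz f z‖ ^ 2 * Θ z) + ∫ z in ball 0 (1 / 320), ‖f z‖ ^ 2) := by
  obtain ⟨τ, hτ⟩ : ∃ τ : ℝ, τ = (1 / 320) ^ 2 / 2 := ⟨_, rfl⟩
  have hτ0 : 0 < τ := by rw [hτ]; positivity
  obtain ⟨c₁, hc₁⟩ : ∃ c₁ : ℝ, c₁ = 4 * τ * τ / (τ + R' ^ 2) ^ 3 := ⟨_, rfl⟩
  have hc0 : 0 < c₁ := by rw [hc₁]; positivity
  refine ⟨(3 + 36 / τ + 3 * c₁) / c₁, by positivity, fun R Θ u f hf hu h3 hI => ?_⟩
  set Ψ : ℂ → ℝ := fun s => τ / (τ + ‖s‖ ^ 2) with hΨ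
  have hΨ0 : ∀ s, 0 ≤ Ψ s := fun s => by positivity
  have hΨ1 : ∀ s, Real.exp (Ψ s) ≤ 3 := fun s => by
    have h1 : Ψ s ≤ 1 := by
      rw [hΨ, div_le_one (by positivity)]; linarith [sq_nonneg ‖s‖]
    exact (Real.exp_le_exp.2 h1).trans (Real.exp_one_lt_d9.le.trans (by norm_num))
  have hΦ : ∀ z ∈ ball (0:ℂ) R, ContDiffAt ℝ 2 (fun y => u y + Ψ y) z := fun z hz =>
    (hu.cd z hz).add (psi_c2 hτ0 z)
  have hC := hf.carleman hΦ
  have i1 := hf.int_sq (k := fun z => lap (fun y => u y + Ψ y) z * Real.exp (u z + Ψ z))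
    fun z hz => (lap_contAt (hΦ z hz)).mul (hΦ z hz).continuousAt.rexp
  have i2 := hf.int_Dz (k := fun z => Real.exp (u z + Ψ z))
    fun z hz => (hΦ z hz).continuousAt.rexp
  have c1 : Continuous fun z => ‖f z‖ ^ 2 := hf.cont.norm.pow 2
  have c2 : Continuous fun z => ‖f z‖ ^ 2 * Real.exp (u z) :=
    hf.cont_sq fun z hz => (hu.cd z hz).continuousAt.rexp
  have h4 : ∫ z, ‖Dz f z‖ ^ 2 * Real.exp (u z + Ψ z) ≤ 3 * ∫ z, ‖Dz f z‖ ^ 2 * Θ z := by
    rw [← integral_const_mul]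
    refine integral_mono i2 (hI.const_mul 3) fun z => ?_
    by_cases hz : z ∈ tsupport f
    · have h5 := hu.le z (hf.sub hz)
      have h6 : Real.exp (u z + Ψ z) ≤ Θ z * 3 := by
        rw [Real.exp_add]
        exact mul_le_mul h5 (hΨ1 z) (Real.exp_pos _).le ((Real.exp_pos _).le.trans h5)
      have := mul_le_mul_of_nonneg_left h6 (sq_nonneg ‖Dz f z‖)
      simp only
      linarith
    · simp [Test.Dz_zero hz]
  have j1 := (integrable_indicator_iff measurableSet_ball).2 (intOn_ball c2 0 R')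
  have j2 := (integrable_indicator_iff measurableSet_ball).2 (intOn_ball c1 0 (1 / 320))
  have h5 := integral_mono (j1.const_mul c₁) (i1.add (j2.const_mul (36 / τ + 3 * c₁))) fun z => by
    simp only [Pi.add_apply]
    by_cases hz : z ∈ tsupport f
    swap
    · simp only [indicator, Test.zero hz]
      simp
    have hzR := hf.sub hz
    have e1 := lap_add (hu.cd z hzR) (psi_c2 hτ0 z)
    rw [lap_psi hτ0] at e1
    simp only [hΨ] at *
    rw [e1]
    have hl := hu.lp z hzR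
    have hF := sq_nonneg ‖f z‖
    have hE := Real.exp_pos (u z)
    have hEΦ := Real.exp_pos (u z + τ / (τ + ‖z‖ ^ 2))
    have hn := norm_nonneg z
    by_cases h0 : z ∈ ball (0:ℂ) (1 / 320)
    · rw [indicator_of_mem h0]
      have h6 : Real.exp (u z) ≤ 3 := (hu.le z hzR).trans (h3 z h0)
      have h7 : Real.exp (u z + τ / (τ + ‖z‖ ^ 2)) ≤ 9 := by
        rw [Real.exp_add]
        nlinarith [hΨ1 z, Real.exp_pos (τ / (τ + ‖z‖ ^ 2))]
      have h8 : -(4 / τ) ≤ 4 * τ * (‖z‖ ^ 2 - τ) / (τ + ‖z‖ ^ 2) ^ 3 := by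
        rw [le_div_iff₀ (by positivity)]
        have h9 : τ ^ 3 ≤ (τ + ‖z‖ ^ 2) ^ 3 := by gcongr; linarith [sq_nonneg ‖z‖]
        have h10 : 4 / τ * τ ^ 3 ≤ 4 / τ * (τ + ‖z‖ ^ 2) ^ 3 := by gcongr
        have h11 : 4 / τ * τ ^ 3 = 4 * τ * τ := by field_simp
        nlinarith [mul_nonneg hτ0.le (sq_nonneg ‖z‖)]
      have h9 : -(36 / τ) ≤ (lap u z + 4 * τ * (‖z‖ ^ 2 - τ) / (τ + ‖z‖ ^ 2) ^ 3) *
          Real.exp (u z + τ / (τ + ‖z‖ ^ 2)) := by
        have h10 : -(4 / τ) * Real.exp (u z + τ / (τ + ‖z‖ ^ 2)) ≤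
            (lap u z + 4 * τ * (‖z‖ ^ 2 - τ) / (τ + ‖z‖ ^ 2) ^ 3) *
              Real.exp (u z + τ / (τ + ‖z‖ ^ 2)) := by gcongr; linarith
        have h11 : 4 / τ * Real.exp (u z + τ / (τ + ‖z‖ ^ 2)) ≤ 4 / τ * 9 := by gcongr
        have h12 : 36 / τ = 4 / τ * 9 := by ring
        linarith
      have h10 : (ball (0:ℂ) R').indicator (fun z => ‖f z‖ ^ 2 * Real.exp (u z)) z ≤
          ‖f z‖ ^ 2 * 3 := by
        refine (indicator_le_self' (fun _ _ => by positivity) z).trans ?_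
        gcongr
      have h11 := mul_le_mul_of_nonneg_left h10 hc0.le
      have h12 := mul_le_mul_of_nonneg_left h9 hF
      linarith
    · rw [indicator_of_notMem h0, mul_zero, add_zero]
      rw [mem_ball_zero_iff, not_lt] at h0
      have h6 : 2 * τ ≤ ‖z‖ ^ 2 := by
        have : (1 / 320 : ℝ) ^ 2 ≤ ‖z‖ ^ 2 := by gcongr
        linarith
      have h7 : 0 ≤ 4 * τ * (‖z‖ ^ 2 - τ) / (τ + ‖z‖ ^ 2) ^ 3 :=
        div_nonneg (mul_nonneg (by positivity) (by linarith)) (by positivity)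
      by_cases h1 : z ∈ ball (0:ℂ) R'
      · rw [indicator_of_mem h1]
        rw [mem_ball_zero_iff] at h1
        have h8 : c₁ ≤ 4 * τ * (‖z‖ ^ 2 - τ) / (τ + ‖z‖ ^ 2) ^ 3 := by
          rw [hc₁]
          gcongr
          · exact mul_nonneg (by positivity) (by linarith)
          · linarith
        have h9 : Real.exp (u z) ≤ Real.exp (u z + τ / (τ + ‖z‖ ^ 2)) :=
          Real.exp_le_exp.2 (by linarith [hΨ0 z])
        have h10 : c₁ * Real.exp (u z) ≤ (lap u z + 4 * τ * (‖z‖ ^ 2 - τ) / (τ + ‖z‖ ^ 2) ^ 3) *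
          Real.exp (u z + τ / (τ + ‖z‖ ^ 2)) := by gcongr; linarith
        nlinarith [mul_le_mul_of_nonneg_left h10 hF]
      · rw [indicator_of_notMem h1, mul_zero]
        positivity
  simp only [Pi.add_apply] at h5
  rw [integral_add i1 (j2.const_mul _), integral_const_mul, integral_const_mul,
    integral_indicator measurableSet_ball, integral_indicator measurableSet_ball] at h5
  have hX : 0 ≤ ∫ z in ball (0:ℂ) (1 / 320), ‖f z‖ ^ 2 := integral_nonneg fun z => by positivity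
  have hE : 0 ≤ ∫ z, ‖Dz f z‖ ^ 2 * Θ z := by
    have : 0 ≤ ∫ z, ‖Dz f z‖ ^ 2 * Real.exp (u z + Ψ z) := integral_nonneg fun z => by positivity
    linarith
  rw [div_mul_eq_mul_div, le_div_iff₀ hc0]
  have h36 : 0 ≤ 36 / τ + 3 * c₁ := by positivity
  nlinarith [mul_nonneg h36 hE]

lemma avg_ball {F : ℂ → ℝ≥0∞} (hF : Measurable F) (t : ℝ) :
    ∫⁻ y, ∫⁻ x in ball y t, F x = volume (ball (0:ℂ) t) * ∫⁻ x, F x := by
  have hS : MeasurableSet {p : ℂ × ℂ | dist p.2 p.1 < t} :=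
    (isOpen_lt (continuous_snd.dist continuous_fst) continuous_const).measurableSet
  have h1 : ∀ y, ∫⁻ x in ball y t, F x =
      ∫⁻ x, {p : ℂ × ℂ | dist p.2 p.1 < t}.indicator (fun p => F p.2) (y, x) := fun y => by
    rw [← lintegral_indicator measurableSet_ball]
    rfl
  simp only [h1]
  rw [lintegral_lintegral_swap (f := fun y x => {p : ℂ × ℂ | dist p.2 p.1 < t}.indicator
    (fun p => F p.2) (y, x)) ((hF.comp measurable_snd).indicator hS).aemeasurable,
    ← lintegral_const_mul _ hF]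
  refine lintegral_congr fun x => ?_
  have h2 : (fun y => {p : ℂ × ℂ | dist p.2 p.1 < t}.indicator (fun p => F p.2) (y, x)) =
      (ball x t).indicator fun _ => F x := by
    funext y
    simp only [indicator, mem_ofPred_eq, mem_ball, dist_comm]
  rw [h2, lintegral_indicator measurableSet_ball, setLIntegral_const,
    Measure.addHaar_ball_center, mul_comm]

lemma vol_ball {t : ℝ} (ht : 0 ≤ t) (c : ℂ) : volume (ball c t) = ENNReal.ofReal (π * t ^ 2) := by
  rw [Complex.volume_ball, ← ENNReal.ofReal_pow ht, mul_comm, ENNReal.ofReal_mul Real.pi_pos.le,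
    ← ENNReal.ofReal_coe_nnreal, NNReal.coe_real_pi]

lemma main_est {ε ρ : ℝ} (hε : 0 < ε) (hε1 : ε ≤ 1) (hρ : 1 ≤ ρ) : ∃ M : ℝ,
    ∀ (R : ℝ) (Θ : ℂ → ℝ) (G : Set ℂ) (f : ℂ → ℂ), Test (ball 0 R) f → (∀ z, 1 ≤ Θ z) →
    (∀ z ∈ ball (0:ℂ) (1 / 320), Θ z ≤ 3) → Integrable (fun z => ‖Dz f z‖ ^ 2 * Θ z) →
    (∃ y ∉ G, ‖y‖ ≤ 2) → (∀ y ∉ G, ‖y‖ ≤ 2 * ρ + 3 → ∃ c, ‖c - y‖ ≤ ε ∧ Good R Θ M c) →
    ∫ z in ball 0 (2 * ρ), ‖f z‖ ^ 2 ≤ 2001 * ρ ^ 2 * ∫ z, ‖Dz f z‖ ^ 2 * Θ z ∧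
    ∫ z in {x | ‖x‖ < 2 * ρ ∧ infDist x Gᶜ < 3 * ε}, ‖f z‖ ^ 2 ≤
      348481 * ε ^ 2 * ∫ z, ‖Dz f z‖ ^ 2 * Θ z := by
  obtain ⟨C, hC0, hC⟩ := a_bound (2 * ρ + 12)
  obtain ⟨η, hη⟩ : ∃ η : ℝ, η = ε ^ 4 / (2 * ρ + 1) ^ 2 := ⟨_, rfl⟩
  have hη0 : 0 < η := by rw [hη]; positivity
  have hη1 : η ≤ 1 := by
    rw [hη, div_le_one (by positivity)]
    exact (pow_le_one₀ hε.le hε1).trans (one_le_pow₀ (by linarith))
  refine ⟨-Real.log (η / (2562 * 2 * C)), fun R Θ G f hf hΘ1 hΘ3 hI ⟨y₀, hy₀, hy₀'⟩ hcen => ?_⟩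
  set M := -Real.log (η / (2562 * 2 * C)) with hM
  have hMe : 2 * Real.exp (-M) * C = η / 2562 := by
    rw [hM, neg_neg, Real.exp_log (by positivity)]; field_simp
  set E := ∫ z, ‖Dz f z‖ ^ 2 * Θ z with hE
  set X := ∫ z in ball (0:ℂ) (1 / 320), ‖f z‖ ^ 2 with hX
  have c1 : Continuous fun z => ‖f z‖ ^ 2 := hf.cont.norm.pow 2
  have hen : ∫ z, en f z ≤ E := by
    rw [hf.energy]
    refine integral_mono (by simpa using hf.int_Dz (k := fun _ => 1) fun _ _ => continuousAt_const)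
      hI fun z => le_mul_of_one_le_right (sq_nonneg _) (hΘ1 z)
  have hen0 : 0 ≤ ∫ z, en f z := integral_nonneg fun z => en_nonneg f z
  have hE0 : 0 ≤ E := hen0.trans hen
  have henb : ∀ (c : ℂ) (t : ℝ), ∫ z in ball c t, en f z ≤ E := fun c t =>
    (setIntegral_le_integral hf.en_int (Eventually.of_forall fun z => en_nonneg f z)).trans hen
  have henb0 : ∀ (c : ℂ) (t : ℝ), 0 ≤ ∫ z in ball c t, en f z := fun c t =>
    integral_nonneg fun z => en_nonneg f z
  have hpi : π ^ 2 ≤ 10 := by nlinarith [Real.pi_lt_d2, Real.pi_pos]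
  have hmono : ∀ {c c' : ℂ} {t t' : ℝ}, t + ‖c - c'‖ ≤ t' →
      ∫ z in ball c t, ‖f z‖ ^ 2 ≤ ∫ z in ball c' t', ‖f z‖ ^ 2 := fun h =>
    setIntegral_mono_set (intOn_ball c1 _ _) (Eventually.of_forall fun z => by positivity)
      (LE.le.eventuallyLE (ball_subset_ball' (by rwa [dist_eq_norm])))
  have hb1 : ∀ (c : ℂ) (t : ℝ), Good R Θ M c → t + ‖c‖ ≤ 2 * ρ + 12 →
      ∫ z in ball c t, ‖f z‖ ^ 2 ≤ η / 2562 * (E + X) + 80 * t ^ 2 * ∫ z in ball c t, en f z := by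
    rintro c t ⟨u, hu, hc⟩ ht
    have h1 := ball_poincare hf hu.cd hu.lp hc t
    have h2 := hC R Θ u f hf hu hΘ3 hI
    have c2 : Continuous fun z => ‖f z‖ ^ 2 * Real.exp (u z) :=
      hf.cont_sq fun z hz => (hu.cd z hz).continuousAt.rexp
    have h3 : ∫ z in ball c t, ‖f z‖ ^ 2 * Real.exp (u z) ≤
        ∫ z in ball 0 (2 * ρ + 12), ‖f z‖ ^ 2 * Real.exp (u z) :=
      setIntegral_mono_set (intOn_ball c2 _ _) (Eventually.of_forall fun z => by positivity)
        (LE.le.eventuallyLE (ball_subset_ball' (by simpa using ht)))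
    have h4 := mul_le_mul_of_nonneg_left (h3.trans h2)
      (by positivity : 0 ≤ 2 * Real.exp (-M))
    rw [← mul_assoc, hMe] at h4
    have h5 : 8 * π ^ 2 * t ^ 2 * ∫ z in ball c t, en f z ≤
        8 * 10 * t ^ 2 * ∫ z in ball c t, en f z := by
      have := henb0 c t
      gcongr
    linarith
  obtain ⟨c₀, hc₀, hg₀⟩ := hcen y₀ hy₀ (by linarith)
  have hc₀' : ‖c₀‖ ≤ 3 := by
    have := norm_sub_norm_le c₀ y₀
    linarith
  have hX0 : 0 ≤ X := integral_nonneg fun z => by positivity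
  have hXE : X ≤ 2561 * E := by
    have h1 := hb1 c₀ 4 hg₀ (by linarith)
    have h2 : X ≤ ∫ z in ball c₀ 4, ‖f z‖ ^ 2 := hmono (by rw [zero_sub, norm_neg]; linarith)
    have h3 := henb c₀ 4
    have h4 : η / 2562 * (E + X) ≤ 1 / 2 * (E + X) := by gcongr; linarith
    linarith
  have hb2 : ∀ (c : ℂ) (t : ℝ), Good R Θ M c → t + ‖c‖ ≤ 2 * ρ + 12 →
      ∫ z in ball c t, ‖f z‖ ^ 2 ≤ η * E + 80 * t ^ 2 * ∫ z in ball c t, en f z :=
    fun c t hc ht => by
      have h1 := hb1 c t hc ht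
      have h2 : η / 2562 * (E + X) ≤ η / 2562 * (2562 * E) := by gcongr; linarith
      have h3 : η / 2562 * (2562 * E) = η * E := by ring
      linarith
  constructor
  · have h1 := hb2 c₀ (2 * ρ + 3) hg₀ (by linarith)
    have h2 : ∫ z in ball 0 (2 * ρ), ‖f z‖ ^ 2 ≤ ∫ z in ball c₀ (2 * ρ + 3), ‖f z‖ ^ 2 :=
      hmono (by rw [zero_sub, norm_neg]; linarith)
    have h3 : 80 * (2 * ρ + 3) ^ 2 * ∫ z in ball c₀ (2 * ρ + 3), en f z ≤ 80 * (5 * ρ) ^ 2 * E := by
      have := henb c₀ (2 * ρ + 3)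
      have := henb0 c₀ (2 * ρ + 3)
      gcongr; linarith
    have h4 : η * E ≤ ρ ^ 2 * E := by gcongr; exact hη1.trans (one_le_pow₀ hρ)
    linarith
  · set N := {x : ℂ | ‖x‖ < 2 * ρ ∧ infDist x Gᶜ < 3 * ε} with hN
    have hNo : IsOpen N := (isOpen_lt continuous_norm continuous_const).inter
      (isOpen_lt (continuous_infDist_pt _) continuous_const)
    have hNi : IntegrableOn (fun z => ‖f z‖ ^ 2) N :=
      (intOn_ball c1 0 (2 * ρ)).mono_set fun x hx => mem_ball_zero_iff.2 hx.1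
    have m1 : Measurable fun z => ENNReal.ofReal (‖f z‖ ^ 2) := c1.measurable.ennreal_ofReal
    have m2 : Measurable fun z => ENNReal.ofReal (en f z) := hf.en_cont.measurable.ennreal_ofReal
    have hpt : ∀ y, ∫⁻ x in ball y ε, N.indicator (fun z => ENNReal.ofReal (‖f z‖ ^ 2)) x ≤
        (ball (0:ℂ) (2 * ρ + 1)).indicator (fun _ => ENNReal.ofReal (η * E)) y +
          ENNReal.ofReal (2880 * ε ^ 2) * ∫⁻ x in ball y (11 * ε), ENNReal.ofReal (en f x) := by
      intro y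
      by_cases hy : ∃ x ∈ ball y ε, x ∈ N
      · obtain ⟨x, hx, hx1, hx2⟩ := hy
        obtain ⟨y', hy', hxy⟩ := (infDist_lt_iff ⟨y₀, hy₀⟩).1 hx2
        rw [mem_ball, dist_eq_norm] at hx
        rw [dist_eq_norm] at hxy
        have h1 := norm_sub_norm_le y' x
        rw [norm_sub_rev] at h1
        obtain ⟨c, hc, hg⟩ := hcen y' hy' (by linarith)
        have h2 := norm_sub_norm_le c y'
        have h3 := hb2 c (6 * ε) hg (by linarith)
        have h4 : ‖y - c‖ ≤ 5 * ε := by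
          have e : y - c = -(x - y) + (x - y') + -(c - y') := by ring
          rw [e]
          have := norm_add₃_le (a := -(x - y)) (b := x - y') (c := -(c - y'))
          rw [norm_neg, norm_neg] at this
          linarith
        have h5 : ∫ z in ball y ε, ‖f z‖ ^ 2 ≤ ∫ z in ball c (6 * ε), ‖f z‖ ^ 2 :=
          hmono (by linarith)
        have h6 : ∫ z in ball c (6 * ε), en f z ≤ ∫ z in ball y (11 * ε), en f z :=
          setIntegral_mono_set hf.en_int.integrableOn (Eventually.of_forall fun z => en_nonneg f z)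
            (LE.le.eventuallyLE (ball_subset_ball' (by rw [dist_eq_norm, norm_sub_rev]; linarith)))
        have h7 : y ∈ ball (0:ℂ) (2 * ρ + 1) := by
          have := norm_sub_norm_le y x
          rw [norm_sub_rev] at this
          rw [mem_ball_zero_iff]; linarith
        rw [indicator_of_mem h7, ← ofReal_integral_eq_lintegral_ofReal hf.en_int.integrableOn
          (Eventually.of_forall fun z => en_nonneg f z), ← ENNReal.ofReal_mul (by positivity),
          ← ENNReal.ofReal_add (by positivity) (mul_nonneg (by positivity) (henb0 _ _))]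
        refine (lintegral_mono fun x => indicator_le_self _ _ x).trans ?_
        rw [← ofReal_integral_eq_lintegral_ofReal (intOn_ball c1 _ _)
          (Eventually.of_forall fun z => by positivity)]
        refine ENNReal.ofReal_le_ofReal ?_
        have h8 := mul_le_mul_of_nonneg_left h6 (by positivity : 0 ≤ 2880 * ε ^ 2)
        linarith
      · push Not at hy
        rw [setLIntegral_congr_fun measurableSet_ball (g := fun _ => 0)
          fun x hx => indicator_of_notMem (hy x hx) _]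
        simp
    have h1 := lintegral_mono (μ := volume) hpt
    rw [avg_ball (m1.indicator hNo.measurableSet), lintegral_add_left
      (measurable_const.indicator measurableSet_ball), lintegral_const_mul' _ _ ENNReal.ofReal_ne_top,
      avg_ball m2, lintegral_indicator hNo.measurableSet, lintegral_indicator measurableSet_ball,
      setLIntegral_const, vol_ball hε.le, vol_ball (by positivity), vol_ball (by positivity),
      ← ofReal_integral_eq_lintegral_ofReal hNi (Eventually.of_forall fun z => by positivity),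
      ← ofReal_integral_eq_lintegral_ofReal hf.en_int (Eventually.of_forall fun z => en_nonneg f z),
      ← ENNReal.ofReal_mul (by positivity), ← ENNReal.ofReal_mul (by positivity),
      ← ENNReal.ofReal_mul (by positivity), ← ENNReal.ofReal_mul (by positivity),
      ← ENNReal.ofReal_add (by positivity) (by positivity),
      ENNReal.ofReal_le_ofReal_iff (by positivity)] at h1
    have h2 : η * E * (π * (2 * ρ + 1) ^ 2) = π * ε ^ 2 * (ε ^ 2 * E) := by
      rw [hη]; field_simp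
    have h3 : 2880 * ε ^ 2 * (π * (11 * ε) ^ 2 * ∫ z, en f z) ≤
        2880 * ε ^ 2 * (π * (11 * ε) ^ 2 * E) := by gcongr
    refine le_of_mul_le_mul_left ?_ (by positivity : 0 < π * ε ^ 2)
    nlinarith

end Pool.Agent.Lib.MP_6c91ae_an
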