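import Pool.Agent.Lib.MP_6c91ae_an.ChQ

namespace Pool.Agent.Lib.MP_6c91ae_an

open Metric Complex Set Filter Topology MeasureTheory
open scoped Real ENNReal NNReal

def CritFin (φ : ℂ → ℂ) : Prop :=
  ∀ (m : ℕ) (S : Set ℂ), S.Finite → (∀ a ∈ S, a ∈ ball (0:ℂ) 1 ∧ a ∉ φ^[m] '' ball 0 1) → ∀ M : ℝ,
    ∃ n ≥ m, ∀ a ∈ S, ∃ u, Sub φ^[n] u ∧ M ≤ u (φ^[n - m] a)

lemma koebe_lip {r : ℝ} (hr : r < 1) : ∃ Λ : ℝ, 0 < Λ ∧ ∀ (f : ℂ → ℂ) (w : ℂ),
    DifferentiableOn ℂ f (ball 0 1) → InjOn f (ball 0 1) → w ∉ f '' ball 0 1 →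
    ∀ a ∈ closedBall (0:ℂ) r, ∀ b ∈ closedBall (0:ℂ) r,
      ‖f a - f b‖ ≤ Λ * ‖deriv f 0‖ * ‖a - b‖ := by
  have h0 : 0 < 1 - r := by linarith
  have h1 : 0 < (1 - r) ^ 160 := pow_pos h0 _
  have h3 : ∀ z : ℂ, ‖z‖ ≤ r → (1 - r) ^ 160 ≤ (1 - ‖z‖) ^ 160 := fun z hz =>
    pow_le_pow_left₀ (by linarith) (by linarith) _
  generalize (1 - r) ^ 160 = k at *
  refine ⟨320 / (k * (1 - r)), by positivity, fun f w hd hi hw a ha b hb => ?_⟩
  obtain ⟨w₀, hw₀, h4⟩ := koebe3 hd hi hw zero_mem_U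
  have hcb := closedBall_subset_ball (x := (0:ℂ)) hr
  refine (convex_closedBall (0:ℂ) r).norm_image_sub_le_of_norm_deriv_le
    (fun x hx => hd.differentiableAt (isOpen_ball.mem_nhds (hcb hx))) (fun x hx => ?_) hb ha
  have hx' := mem_closedBall_zero_iff.1 hx
  have hx1 : 0 < 1 - ‖x‖ := by linarith
  have hsub : ball x (1 - ‖x‖) ⊆ ball 0 1 := ball_subset_ball' (by simp)
  have h5 := koebe1 hx1 (hd.mono hsub) (hi.mono hsub) fun h => hw₀ (image_mono hsub h)
  have h6 := (koebe2 hd hi hw₀ (hcb hx)).2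
  have h7 := h3 x hx'
  generalize (1 - ‖x‖) ^ 160 = l at *
  rw [div_mul_eq_mul_div, le_div_iff₀ (by positivity)]
  have h8 : (1 - r) * ‖deriv f x‖ ≤ (1 - ‖x‖) * ‖deriv f x‖ := by gcongr
  have h9 : k * ‖f x - w₀‖ ≤ l * ‖f x - w₀‖ := by gcongr
  nlinarith [mul_le_mul_of_nonneg_left (h8.trans h5) h1.le]

lemma iter_inj {φ : ℂ → ℂ} (hm : MapsTo φ (ball 0 1) (ball 0 1)) (hi : InjOn φ (ball 0 1)) (n : ℕ) :
    InjOn φ^[n] (ball 0 1) := hi.iterate hm n

lemma area_tendsto {φ : ℂ → ℂ} (hd : DifferentiableOn ℂ φ (ball 0 1))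
    (hm : MapsTo φ (ball 0 1) (ball 0 1)) (hfix : ∀ z ∈ ball (0:ℂ) 1, φ z ≠ z) :
    Tendsto (fun n => ∫⁻ z in ball 0 1, ENNReal.ofReal (1 - ‖φ^[n] z‖ ^ 2)) atTop (𝓝 0) := by
  have h := tendsto_lintegral_of_dominated_convergence' (μ := volume.restrict (ball (0:ℂ) 1))
    (F := fun n z => ENNReal.ofReal (1 - ‖φ^[n] z‖ ^ 2)) (f := fun _ => 0) (fun _ => 1)
    (fun n => ((continuousOn_const.sub ((iter_diffOn hd hm n).continuousOn.norm.pow 2)).aemeasurable
      measurableSet_ball).ennreal_ofReal)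
    (fun n => Eventually.of_forall fun z => by
      simp only [ENNReal.ofReal_le_one]; linarith [sq_nonneg ‖φ^[n] z‖])
    (by simp) (by
      refine (ae_restrict_iff' measurableSet_ball).2 (Eventually.of_forall fun z hz => ?_)
      have h1 := (ENNReal.continuous_ofReal.tendsto _).comp
        (((denjoy_wolff hd hm hfix hz).pow 2).const_sub 1)
      simpa [Function.comp_def] using h1)
  simpa using h

section
variable {φ : ℂ → ℂ} (hd : DifferentiableOn ℂ φ (ball 0 1))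
  (hm : MapsTo φ (ball 0 1) (ball 0 1)) (hi : InjOn φ (ball 0 1))

/-- normalised transition maps -/
noncomputable def trn (φ : ℂ → ℂ) (m n : ℕ) (z : ℂ) : ℂ :=
  mob (φ^[n] 0) (φ^[n - m] (mob (-φ^[m] 0) z))

include hm in
lemma orb_mem (n : ℕ) : φ^[n] 0 ∈ ball (0:ℂ) 1 := hm.iterate n zero_mem_U

include hm in
lemma trn_maps (m n : ℕ) : MapsTo (trn φ m n) (ball 0 1) (ball 0 1) :=
  (mob_maps (orb_mem hm n)).comp ((hm.iterate _).comp (mob_maps (neg_mem_U (orb_mem hm m))))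

include hd hm in
lemma trn_diff (m n : ℕ) : DifferentiableOn ℂ (trn φ m n) (ball 0 1) :=
  (mob_diff (orb_mem hm n)).comp ((iter_diffOn hd hm _).comp (mob_diff (neg_mem_U (orb_mem hm m)))
    (mob_maps (neg_mem_U (orb_mem hm m))))
    ((hm.iterate _).comp (mob_maps (neg_mem_U (orb_mem hm m))))

include hm hi in
lemma trn_inj (m n : ℕ) : InjOn (trn φ m n) (ball 0 1) :=
  (mob_inj (orb_mem hm n)).comp ((iter_inj hm hi _).comp (mob_inj (neg_mem_U (orb_mem hm m)))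
    (mob_maps (neg_mem_U (orb_mem hm m))))
    ((hm.iterate _).comp (mob_maps (neg_mem_U (orb_mem hm m))))

lemma trn_zero {m n : ℕ} (h : m ≤ n) : trn φ m n 0 = 0 := by
  rw [trn, mob_neg_zero, ← Function.iterate_add_apply, Nat.sub_add_cancel h, mob_self]

lemma trn_zero_left (n : ℕ) (z : ℂ) : trn φ 0 n z = mob (φ^[n] 0) (φ^[n] z) := by
  simp [trn, mob]

include hm in
lemma trn_comp {m n : ℕ} (h : m ≤ n) {z : ℂ} (hz : z ∈ ball (0:ℂ) 1) :
    trn φ m n (trn φ 0 m z) = trn φ 0 n z := by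
  rw [trn_zero_left, trn_zero_left, trn, mob_neg_mob (orb_mem hm m) (hm.iterate m hz),
    ← Function.iterate_add_apply, Nat.sub_add_cancel h]

include hd hm in
lemma trn_deriv {m n : ℕ} (h : m ≤ n) :
    ‖deriv (trn φ 0 n) 0‖ = ‖deriv (trn φ m n) 0‖ * ‖deriv (trn φ 0 m) 0‖ := by
  have h0 := isOpen_ball.mem_nhds zero_mem_U
  have h1 := ((trn_diff hd hm m n).differentiableAt h0).hasDerivAt
  have h2 := ((trn_diff hd hm 0 m).differentiableAt h0).hasDerivAt
  rw [← trn_zero (φ := φ) (Nat.zero_le m)] at h1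
  have h3 := (h1.comp 0 h2).congr_of_eventuallyEq (f₁ := trn φ 0 n) (by
    filter_upwards [h0] with z hz using (trn_comp hm h hz).symm)
  rw [h3.deriv, norm_mul, trn_zero (Nat.zero_le m)]

include hd hm in
lemma trn_deriv_le {m n : ℕ} (h : m ≤ n) : ‖deriv (trn φ m n) 0‖ ≤ 1 :=
  Complex.norm_deriv_le_one_of_mapsTo_ball (trn_diff hd hm m n)
    (fun z hz => by rw [trn_zero h]; exact ball_subset_closedBall (trn_maps hm m n hz)) one_pos

include hd hm hi in
lemma cover_claim {ε ρ : ℝ} (hε : 0 < ε) (N : ℕ) : ∃ m ≥ N, ∃ r < 1, ∀ n ≥ m, ∀ y : ℂ,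
    ‖y‖ ≤ ρ * ‖deriv (trn φ 0 n) 0‖ → ‖y‖ < 1 - ε * ‖deriv (trn φ 0 n) 0‖ →
      y ∈ trn φ m n '' closedBall 0 r := by
  set D : ℕ → ℝ := fun n => ‖deriv (trn φ 0 n) 0‖ with hD
  have hD0 : ∀ n, 0 < D n := fun n => norm_pos_iff.2
    (deriv_ne_zero_of_inj isOpen_ball (trn_diff hd hm 0 n) (trn_inj hm hi 0 n) zero_mem_U)
  have hDa : Antitone D := fun m n h => by
    simp only [hD]
    rw [trn_deriv hd hm h]
    exact mul_le_of_le_one_left (norm_nonneg _) (trn_deriv_le hd hm h)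
  obtain ⟨d, hd'⟩ : ∃ d : ℝ, d = 1 / (320 * (|ρ| + 1)) := ⟨_, rfl⟩
  have hd0 : 0 < d := by rw [hd']; positivity
  by_cases h : ∃ m₀, D m₀ ≤ d
  · obtain ⟨m₀, h⟩ := h
    refine ⟨max N m₀, le_max_left _ _, 1 / 2, by norm_num, fun n hn y hy _ => ?_⟩
    by_contra hcon
    have hsub : ball (0:ℂ) (1 / 2) ⊆ ball 0 1 := ball_subset_ball (by norm_num)
    have h2 := koebe1 (by norm_num) ((trn_diff hd hm (max N m₀) n).mono hsub)
      ((trn_inj hm hi (max N m₀) n).mono hsub)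
      fun h' => hcon (image_mono ball_subset_closedBall h')
    rw [trn_zero hn, zero_sub, norm_neg] at h2
    have h3 : D n = ‖deriv (trn φ (max N m₀) n) 0‖ * D (max N m₀) := trn_deriv hd hm hn
    have h4 : D (max N m₀) ≤ d := (hDa (le_max_right _ _)).trans h
    have h5 : ‖y‖ ≤ |ρ| * D n := hy.trans (mul_le_mul_of_nonneg_right (le_abs_self ρ) (hD0 n).le)
    have h6 : D n ≤ 320 * (|ρ| * D n) * d := by
      calc D n = _ := h3
        _ ≤ (320 * ‖y‖) * d := mul_le_mul (by linarith) h4 (hD0 _).le (by positivity)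
        _ ≤ _ := by gcongr
    have h7 : 320 * (|ρ| + 1) * d = 1 := by rw [hd']; field_simp
    nlinarith [hD0 n, mul_pos (hD0 n) hd0]
  · push Not at h
    obtain ⟨r, τ, -, hr1, hτ, hiso⟩ := near_isometry (t := 1 - ε * d) (by nlinarith [mul_pos hε hd0])
    have hbdd : BddBelow (range D) := ⟨0, by rintro _ ⟨n, rfl⟩; exact (hD0 n).le⟩
    have h1 : d ≤ ⨅ n, D n := le_ciInf fun n => (h n).le
    obtain ⟨m₁, hm₁⟩ := exists_lt_of_ciInf_lt (f := D) (a := (1 + τ) * ⨅ n, D n) (by nlinarith)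
    refine ⟨max N m₁, le_max_left _ _, r, hr1, fun n hn y _ hy => ?_⟩
    refine image_mono ball_subset_closedBall (hiso _ (trn_diff hd hm _ n) (trn_inj hm hi _ n)
      (trn_maps hm _ n) (trn_zero hn) ?_ ?_)
    · have h3 : D n = ‖deriv (trn φ (max N m₁) n) 0‖ * D (max N m₁) := trn_deriv hd hm hn
      have h4 : D (max N m₁) ≤ (1 + τ) * D n :=
        ((hDa (le_max_right _ _)).trans hm₁.le).trans
          (mul_le_mul_of_nonneg_left (ciInf_le hbdd n) (by linarith))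
      have h5 : D n ≤ ‖deriv (trn φ (max N m₁) n) 0‖ * ((1 + τ) * D n) := by
        calc D n = _ := h3
          _ ≤ _ := by gcongr
      have h6 : 1 ≤ ‖deriv (trn φ (max N m₁) n) 0‖ * (1 + τ) :=
        le_of_mul_le_mul_right (by linarith) (hD0 n)
      have h7 := trn_deriv_le hd hm hn
      nlinarith
    · rw [mem_ball_zero_iff]
      have := mul_le_mul_of_nonneg_left (h n).le hε.le
      linarith

include hd hm hi in
lemma stepQ (hfix : ∀ z ∈ ball (0:ℂ) 1, φ z ≠ z) (hc : CritFin φ) {g : ℂ → ℂ}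
    (hg : DifferentiableOn ℂ g (ball 0 1)) {B : ℝ} (hB : ∀ z ∈ ball (0:ℂ) 1, ‖deriv g z‖ ≤ B)
    {η : ℝ} (hη : 0 < η) (N : ℕ) : ∃ n ≥ N, ∃ F : ℂ → ℂ, DifferentiableOn ℂ F (ball 0 1) ∧
      A2 (fun z => F (φ^[n] z) - g z) ≤ ENNReal.ofReal η ∧ A2 F ≤ ENNReal.ofReal η := by
  obtain ⟨ε, ρ, M, hε, hcore⟩ := core hg hB (half_pos hη)
  have h1 := ENNReal.Tendsto.const_mul (a := ENNReal.ofReal (2 * B ^ 2)) (area_tendsto hd hm hfix)
    (Or.inr ENNReal.ofReal_ne_top)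
  rw [mul_zero] at h1
  obtain ⟨N₁, hN₁⟩ := eventually_atTop.1
    (h1.eventually (ge_mem_nhds (ENNReal.ofReal_pos.2 (half_pos hη))))
  obtain ⟨m, hmN, r, hr, hcov⟩ := cover_claim hd hm hi (ρ := ρ) hε (max N N₁)
  obtain ⟨Λ, hΛ, hlip⟩ := koebe_lip hr
  set D : ℕ → ℝ := fun n => ‖deriv (trn φ 0 n) 0‖ with hD
  have hD0 : ∀ n, 0 < D n := fun n => norm_pos_iff.2
    (deriv_ne_zero_of_inj isOpen_ball (trn_diff hd hm 0 n) (trn_inj hm hi 0 n) zero_mem_U)
  have hcb := closedBall_subset_ball (x := (0:ℂ)) hr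
  have hK : IsCompact (closedBall (0:ℂ) r \ trn φ 0 m '' ball 0 1) :=
    (isCompact_closedBall _ _).diff (isOpen_img isOpen_ball (trn_diff hd hm 0 m)
      (trn_inj hm hi 0 m) isOpen_ball subset_rfl)
  obtain ⟨S, hSK, hS, hnet⟩ := hK.finite_cover_balls (e := ε * D m / Λ)
    (by have := hD0 m; positivity)
  have hb := orb_mem hm m
  obtain ⟨n, hn, hu⟩ := hc m (mob (-φ^[m] 0) '' S) (hS.image _) (by
    rintro _ ⟨a, ha, rfl⟩
    have haU := hcb (hSK ha).1
    refine ⟨mob_mem (neg_mem_U hb) haU, ?_⟩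
    rintro ⟨z, hz, hz'⟩
    refine (hSK ha).2 ⟨z, hz, ?_⟩
    rw [trn_zero_left, hz', mob_mob_neg hb haU]) M
  have hDn := hD0 n
  have hDc : (D n : ℂ) ≠ 0 := by exact_mod_cast hDn.ne'
  have hnorm : ∀ x : ℂ, ‖x / D n‖ = ‖x‖ / D n := fun x => by
    rw [norm_div, Complex.norm_real, Real.norm_eq_abs, abs_of_pos hDn]
  have hbn := orb_mem hm n
  obtain ⟨F, hF, hF1, hF2⟩ := hcore (1 / D n) (fun z => trn φ 0 n z / D n)
    (fun z => mob (φ^[n] 0) z / D n) φ^[n] ((trn_diff hd hm 0 n).div_const _)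
    (fun x hx y hy h => trn_inj hm hi 0 n hx hy ((div_left_inj' hDc).1 h))
    (by simp [trn_zero]) (by rw [deriv_div_const, hnorm]; exact div_self hDn.ne')
    ((mob_diff hbn).div_const _) (fun x hx y hy h => mob_inj hbn hx hy ((div_left_inj' hDc).1 h))
    (by
      ext y
      constructor
      · rintro ⟨z, hz, rfl⟩
        rw [mem_ball_zero_iff, hnorm]
        exact div_lt_div_of_pos_right (mem_ball_zero_iff.1 (mob_mem hbn hz)) hDn
      · intro hy
        have h2 : y * D n ∈ ball (0:ℂ) 1 := by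
          rw [mem_ball_zero_iff, lt_div_iff₀ hDn] at hy
          rwa [mem_ball_zero_iff, norm_mul, Complex.norm_real, Real.norm_eq_abs, abs_of_pos hDn]
        refine ⟨_, mob_mem (neg_mem_U hbn) h2, ?_⟩
        simp only
        rw [mob_mob_neg hbn h2, mul_div_cancel_right₀ _ hDc])
    (hm.iterate n) (fun z _ => by simp only [trn_zero_left]) (fun y hy hyρ => by
      have hny : ‖y * D n‖ = ‖y‖ * D n := by
        rw [norm_mul, Complex.norm_real, Real.norm_eq_abs, abs_of_pos hDn]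
      by_cases h : ‖y‖ < 1 / D n - ε
      · obtain ⟨a, ha, hay⟩ := hcov n hn (y * D n) (by rw [hny]; gcongr) (by
          rw [hny]
          have := mul_lt_mul_of_pos_right h hDn
          rwa [sub_mul, one_div_mul_cancel hDn.ne'] at this)
        have haK : a ∈ closedBall (0:ℂ) r \ trn φ 0 m '' ball 0 1 := ⟨ha, by
          rintro ⟨z, hz, rfl⟩
          refine hy ⟨z, hz, ?_⟩
          simp only
          rw [← trn_comp hm hn hz, hay, mul_div_cancel_right₀ _ hDc]⟩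
        obtain ⟨a', ha', haa⟩ := mem_iUnion₂.1 (hnet haK)
        obtain ⟨u, hu1, hu2⟩ := hu _ (mem_image_of_mem _ ha')
        refine ⟨trn φ m n a' / D n, ?_, Or.inr ⟨u, hu1, _,
          hm.iterate _ (mob_mem (neg_mem_U hb) (hcb (hSK ha').1)), rfl, hu2⟩⟩
        have h2 := hlip _ _ (trn_diff hd hm m n) (trn_inj hm hi m n)
          (not_mem_img (trn_maps hm m n)) a' (hSK ha').1 a ha
        have h3 : D n = ‖deriv (trn φ m n) 0‖ * D m := trn_deriv hd hm hn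
        have h4 : trn φ m n a' / D n - y = (trn φ m n a' - trn φ m n a) / D n := by
          rw [hay]; field_simp
        rw [mem_ball, dist_eq_norm, norm_sub_rev, lt_div_iff₀ hΛ] at haa
        rw [h4, hnorm, div_le_iff₀ hDn, h3]
        refine h2.trans ?_
        nlinarith [mul_le_mul_of_nonneg_left haa.le (norm_nonneg (deriv (trn φ m n) 0))]
      · have hy0 : 0 < ‖y‖ := norm_pos_iff.2 (by
          rintro rfl
          exact hy ⟨0, zero_mem_U, by simp [trn_zero]⟩)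
        refine ⟨y + (ε / ‖y‖ : ℝ) * y, ?_, Or.inl ?_⟩
        · rw [add_sub_cancel_left, norm_mul, Complex.norm_real, Real.norm_eq_abs,
            abs_of_pos (by positivity), div_mul_cancel₀ _ hy0.ne']
        · have h2 : y + (ε / ‖y‖ : ℝ) * y = ((1 + ε / ‖y‖ : ℝ) : ℂ) * y := by push_cast; ring
          rw [h2, mem_ball_zero_iff, norm_mul, Complex.norm_real, Real.norm_eq_abs,
            abs_of_pos (by positivity), add_mul, div_mul_cancel₀ _ hy0.ne']
          linarith [not_lt.1 h])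
  refine ⟨n, (le_max_left _ _).trans (hmN.trans hn), F, hF,
    hF1.trans (ENNReal.ofReal_le_ofReal (by linarith)), hF2.trans ?_⟩
  refine (add_le_add le_rfl (hN₁ n ((le_max_right _ _).trans (hmN.trans hn)))).trans ?_
  rw [← ENNReal.ofReal_add (by linarith) (by linarith), add_halves]

end

end Pool.Agent.Lib.MP_6c91ae_an
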