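import Pool.Agent.Lib.MP_6c91ae_an.ChCarl

namespace Pool.Agent.Lib.MP_6c91ae_an

open Metric Complex Set Filter Topology MeasureTheory
open scoped Real ENNReal

lemma polar_symm_eq (c : ℂ) (p : ℝ × ℝ) : c + Complex.polarCoord.symm p = circleMap c p.1 p.2 := by
  rw [Complex.polarCoord_symm_apply, circleMap, Complex.exp_mul_I]
  simp

lemma circleMap_mem_ball_iff (c : ℂ) {r : ℝ} (hr : 0 < r) (θ R : ℝ) :
    circleMap c r θ ∈ ball c R ↔ r < R := by
  rw [mem_ball, mem_sphere.1 (circleMap_mem_sphere c hr.le θ)]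

lemma circleMap_cont2 (c : ℂ) : Continuous fun p : ℝ × ℝ => circleMap c p.1 p.2 := by
  unfold circleMap; fun_prop

lemma polar_lint {F : ℂ → ℝ≥0∞} (hF : Measurable F) (c : ℂ) (R : ℝ) :
    ∫⁻ z in ball c R, F z =
      ∫⁻ r in Ioo 0 R, ENNReal.ofReal r * ∫⁻ θ in Ioo (-π) π, F (circleMap c r θ) := by
  rw [← lintegral_indicator measurableSet_ball, ← lintegral_add_left_eq_self _ c,
    ← Complex.lintegral_comp_polarCoord_symm]
  simp only [polar_symm_eq, smul_eq_mul]
  have hm : Measurable fun p : ℝ × ℝ => ENNReal.ofReal p.1 * F (circleMap c p.1 p.2) :=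
    measurable_fst.ennreal_ofReal.mul (hF.comp (circleMap_cont2 c).measurable)
  have h1 : ∫⁻ p in polarCoord.target,
      ENNReal.ofReal p.1 * (ball c R).indicator F (circleMap c p.1 p.2) =
      ∫⁻ p in Ioo 0 R ×ˢ Ioo (-π) π, ENNReal.ofReal p.1 * F (circleMap c p.1 p.2) := by
    rw [← lintegral_indicator (measurableSet_Ioo.prod measurableSet_Ioo),
      ← lintegral_indicator polarCoord.open_target.measurableSet]
    congr 1
    funext p
    by_cases hp : p ∈ polarCoord.target
    · rw [indicator_of_mem hp]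
      have hp' : 0 < p.1 ∧ p.2 ∈ Ioo (-π) π := hp
      by_cases h : p.1 < R
      · rw [indicator_of_mem ((circleMap_mem_ball_iff c hp'.1 _ _).2 h),
          indicator_of_mem (show p ∈ Ioo 0 R ×ˢ Ioo (-π) π from ⟨⟨hp'.1, h⟩, hp'.2⟩)]
      · rw [indicator_of_notMem (mt (circleMap_mem_ball_iff c hp'.1 _ _).1 h),
          indicator_of_notMem (fun h' => h h'.1.2), mul_zero]
    · rw [indicator_of_notMem hp, indicator_of_notMem fun h' => hp ⟨h'.1.1, h'.2⟩]
  rw [h1, Measure.volume_eq_prod, setLIntegral_prod _ hm.aemeasurable]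
  refine lintegral_congr fun r => ?_
  exact lintegral_const_mul' _ _ ENNReal.ofReal_ne_top

lemma polar_int {E : Type*} [NormedAddCommGroup E] [NormedSpace ℝ E] {h : ℂ → E} {c : ℂ} {R : ℝ}
    (hh : ContinuousOn h (closedBall c R)) :
    ∫ z in ball c R, h z = ∫ r in Ioo 0 R, r • ∫ θ in (-π)..π, h (circleMap c r θ) := by
  rw [← integral_indicator measurableSet_ball, ← integral_add_left_eq_self _ c,
    ← Complex.integral_comp_polarCoord_symm]
  simp only [polar_symm_eq]
  have h1 : ∫ p in polarCoord.target, p.1 • (ball c R).indicator h (circleMap c p.1 p.2) =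
      ∫ p in Ioo 0 R ×ˢ Ioo (-π) π, p.1 • h (circleMap c p.1 p.2) := by
    rw [← integral_indicator (measurableSet_Ioo.prod measurableSet_Ioo),
      ← integral_indicator polarCoord.open_target.measurableSet]
    congr 1
    funext p
    by_cases hp : p ∈ polarCoord.target
    · rw [indicator_of_mem hp]
      have hp' : 0 < p.1 ∧ p.2 ∈ Ioo (-π) π := hp
      by_cases h : p.1 < R
      · rw [indicator_of_mem ((circleMap_mem_ball_iff c hp'.1 _ _).2 h),
          indicator_of_mem (show p ∈ Ioo 0 R ×ˢ Ioo (-π) π from ⟨⟨hp'.1, h⟩, hp'.2⟩)]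
      · rw [indicator_of_notMem (mt (circleMap_mem_ball_iff c hp'.1 _ _).1 h),
          indicator_of_notMem (fun h' => h h'.1.2), smul_zero]
    · rw [indicator_of_notMem hp, indicator_of_notMem fun h' => hp ⟨h'.1.1, h'.2⟩]
  have hc : ContinuousOn (fun p : ℝ × ℝ => p.1 • h (circleMap c p.1 p.2)) (Icc 0 R ×ˢ Icc (-π) π) :=
    continuousOn_fst.smul (hh.comp (circleMap_cont2 c).continuousOn fun p hp =>
      closedBall_subset_closedBall hp.1.2 (circleMap_mem_closedBall c hp.1.1 _))
  have hi := (hc.integrableOn_compact (μ := volume) (isCompact_Icc.prod isCompact_Icc)).mono_set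
    (prod_mono Ioo_subset_Icc_self Ioo_subset_Icc_self)
  rw [h1, Measure.volume_eq_prod, setIntegral_prod _ hi]
  refine integral_congr_ae (Eventually.of_forall fun r => ?_)
  simp only
  rw [integral_smul, intervalIntegral.integral_of_le (by linarith [Real.pi_pos]),
    integral_Ioc_eq_integral_Ioo]

lemma ball_nonneg {h : ℂ → ℝ} (hh : Continuous h) {c : ℂ} {R : ℝ}
    (h0 : ∀ r ∈ Ioo 0 R, 0 ≤ ∫ θ in (-π)..π, h (circleMap c r θ)) : 0 ≤ ∫ z in ball c R, h z := by
  rw [polar_int hh.continuousOn]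
  exact setIntegral_nonneg measurableSet_Ioo fun r hr => mul_nonneg hr.1.le (h0 r hr)

lemma sq_int_le {g : ℝ → ℝ} (hg : Continuous g) {a b : ℝ} (hab : a < b) :
    (∫ x in a..b, g x) ^ 2 ≤ (b - a) * ∫ x in a..b, g x ^ 2 := by
  set A := ∫ x in a..b, g x with hA
  have hL : 0 < b - a := by linarith
  have h1 : 0 ≤ ∫ x in a..b, ((b - a) * g x - A) ^ 2 :=
    intervalIntegral.integral_nonneg hab.le fun x _ => sq_nonneg _
  have h2 : (fun x => ((b - a) * g x - A) ^ 2) =
      fun x => (b - a) ^ 2 * g x ^ 2 - 2 * (b - a) * A * g x + A ^ 2 := by funext x; ring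
  rw [h2, intervalIntegral.integral_add (Continuous.intervalIntegrable (by fun_prop) _ _)
    intervalIntegrable_const, intervalIntegral.integral_sub
    (Continuous.intervalIntegrable (by fun_prop) _ _)
    (Continuous.intervalIntegrable (by fun_prop) _ _), intervalIntegral.integral_const_mul,
    intervalIntegral.integral_const_mul, intervalIntegral.integral_const, smul_eq_mul, ← hA] at h1
  refine le_of_mul_le_mul_left ?_ hL
  nlinarith

lemma fderiv_sq_le (f : ℂ → ℂ) (z v : ℂ) : ‖fderiv ℝ f z v‖ ^ 2 ≤ ‖v‖ ^ 2 * en f z := by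
  rw [pd_lin, en]
  have h1 := norm_add_le (v.re • pd 1 f z) (v.im • pd I f z)
  rw [norm_smul, norm_smul, Real.norm_eq_abs, Real.norm_eq_abs] at h1
  have h2 : ‖v‖ ^ 2 = |v.re| ^ 2 + |v.im| ^ 2 := by
    rw [Complex.sq_norm, Complex.normSq_apply, sq_abs, sq_abs]; ring
  rw [h2]
  refine (pow_le_pow_left₀ (norm_nonneg _) h1 2).trans ?_
  nlinarith [sq_nonneg (|v.re| * ‖pd I f z‖ - |v.im| * ‖pd 1 f z‖)]

lemma en_nonneg (f : ℂ → ℂ) (z : ℂ) : 0 ≤ en f z := by unfold en; positivity

lemma circle_osc {W : Set ℂ} {f : ℂ → ℂ} (hf : Test W f) (c : ℂ) {r : ℝ} (hr : 0 < r) {s : ℝ}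
    (hs : s ∈ Icc (-π) π) :
    ∫ θ in (-π)..π, ‖f (circleMap c r θ)‖ ^ 2 ≤ 4 * π * ‖f (circleMap c r s)‖ ^ 2 +
      8 * π ^ 2 * r ^ 2 * ∫ θ in (-π)..π, en f (circleMap c r θ) := by
  have hab : -π < π := by linarith [Real.pi_pos]
  set g : ℝ → ℂ := fun θ => fderiv ℝ f (circleMap c r θ) (circleMap 0 r θ * I) with hg
  have hgc : Continuous g :=
    ((hf.cd.continuous_fderiv (by norm_num)).comp (continuous_circleMap c r)).clm_apply
      ((continuous_circleMap 0 r).mul continuous_const)
  have hd : ∀ θ, HasDerivAt (fun θ => f (circleMap c r θ)) (g θ) θ := fun θ =>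
    (hf.diff _).hasFDerivAt.comp_hasDerivAt θ (hasDerivAt_circleMap c r θ)
  set J := ∫ θ in (-π)..π, ‖g θ‖ with hJ
  set B := ∫ θ in (-π)..π, en f (circleMap c r θ) with hB
  have hec : Continuous fun θ => en f (circleMap c r θ) := hf.en_cont.comp (continuous_circleMap c r)
  have hJ2 : J ^ 2 ≤ 2 * π * (r ^ 2 * B) := by
    have h1 := sq_int_le hgc.norm hab
    have h2 : ∫ θ in (-π)..π, ‖g θ‖ ^ 2 ≤ ∫ θ in (-π)..π, r ^ 2 * en f (circleMap c r θ) := by
      refine intervalIntegral.integral_mono_on hab.le ((hgc.norm.pow 2).intervalIntegrable _ _)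
        ((continuous_const.mul hec).intervalIntegrable _ _) fun θ _ => ?_
      have := fderiv_sq_le f (circleMap c r θ) (circleMap 0 r θ * I)
      rwa [norm_mul, Complex.norm_I, mul_one, norm_circleMap_zero, abs_of_pos hr] at this
    rw [intervalIntegral.integral_const_mul] at h2
    calc J ^ 2 ≤ (π - -π) * ∫ θ in (-π)..π, ‖g θ‖ ^ 2 := h1
      _ ≤ (π - -π) * (r ^ 2 * B) := by gcongr
      _ = _ := by ring
  have hpt : ∀ θ ∈ Icc (-π) π, ‖f (circleMap c r θ)‖ ^ 2 ≤
      2 * ‖f (circleMap c r s)‖ ^ 2 + 2 * J ^ 2 := fun θ hθ => by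
    have h1 := intervalIntegral.integral_eq_sub_of_hasDerivAt (a := s) (b := θ)
      (fun x _ => hd x) (hgc.intervalIntegrable _ _)
    have h2 : ‖∫ x in s..θ, g x‖ ≤ J := by
      refine (intervalIntegral.norm_integral_le_integral_norm_uIoc).trans ?_
      rw [hJ, intervalIntegral.integral_of_le hab.le]
      refine setIntegral_mono_set ((hgc.norm.intervalIntegrable _ _).1)
        (Eventually.of_forall fun x => norm_nonneg _) (LE.le.eventuallyLE ?_)
      exact Ioc_subset_Ioc (le_inf hs.1 hθ.1) (sup_le hs.2 hθ.2)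
    rw [h1] at h2
    have h3 : ‖f (circleMap c r θ)‖ ≤ ‖f (circleMap c r s)‖ + J := by
      have := norm_sub_norm_le (f (circleMap c r θ)) (f (circleMap c r s))
      linarith
    refine (pow_le_pow_left₀ (norm_nonneg _) h3 2).trans ?_
    nlinarith [sq_nonneg (‖f (circleMap c r s)‖ - J)]
  have h4 := intervalIntegral.integral_mono_on (μ := volume) hab.le
    (((hf.cont.comp (continuous_circleMap c r)).norm.pow 2).intervalIntegrable _ _)
    intervalIntegrable_const hpt
  rw [intervalIntegral.integral_const, smul_eq_mul] at h4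
  refine le_trans h4 ?_
  nlinarith [Real.pi_pos]

lemma exists_angle (c : ℂ) {r : ℝ} {y : ℂ} (hy : ‖y - c‖ = r) :
    ∃ s ∈ Icc (-π) π, circleMap c r s = y := by
  refine ⟨arg (y - c), ⟨(neg_pi_lt_arg _).le, arg_le_pi _⟩, ?_⟩
  rw [circleMap, ← hy, norm_mul_exp_arg_mul_I]; ring

lemma exists_out {c : ℂ} {R r : ℝ} (hr : 0 < r) (h : ¬ closedBall c r ⊆ ball 0 R) :
    ∃ y, ‖y - c‖ = r ∧ y ∉ ball (0:ℂ) R := by
  obtain ⟨x, hx, hx'⟩ := not_subset.1 h
  rw [mem_closedBall, dist_eq_norm] at hx
  rw [mem_ball_zero_iff, not_lt] at hx'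
  have h1 : ‖x‖ ≤ ‖c‖ + r := by
    have := norm_sub_norm_le x c
    linarith
  refine ⟨c + r * exp (arg c * I), by simp [abs_of_pos hr], ?_⟩
  rw [mem_ball_zero_iff, not_lt]
  have h2 : c + r * exp (arg c * I) = ((‖c‖ + r : ℝ) : ℂ) * exp (arg c * I) := by
    conv_lhs => rw [← norm_mul_exp_arg_mul_I c]
    push_cast
    rw [norm_mul_exp_arg_mul_I c, add_mul, norm_mul_exp_arg_mul_I c]
  rw [h2, norm_mul, Complex.norm_exp_ofReal_mul_I, mul_one, Complex.norm_real, Real.norm_eq_abs,
    abs_of_nonneg (by positivity)]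
  linarith

/-- Poincare inequality on a disc whose centre carries a large value of a subharmonic weight -/
lemma ball_poincare {R : ℝ} {f : ℂ → ℂ} (hf : Test (ball 0 R) f) {u : ℂ → ℝ}
    (hu : ∀ z ∈ ball (0:ℂ) R, ContDiffAt ℝ 2 u z) (hl : ∀ z ∈ ball (0:ℂ) R, 0 ≤ lap u z)
    {c : ℂ} {M : ℝ} (hc : c ∈ ball (0:ℂ) R → M ≤ u c) (ρ : ℝ) :
    ∫ z in ball c ρ, ‖f z‖ ^ 2 ≤ 2 * Real.exp (-M) * (∫ z in ball c ρ, ‖f z‖ ^ 2 * Real.exp (u z)) +
      8 * π ^ 2 * ρ ^ 2 * ∫ z in ball c ρ, en f z := by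
  have hab : -π < π := by linarith [Real.pi_pos]
  have c1 : Continuous fun z => ‖f z‖ ^ 2 := hf.cont.norm.pow 2
  have c2 : Continuous fun z => ‖f z‖ ^ 2 * Real.exp (u z) :=
    hf.cont_sq fun z hz => (hu z hz).continuousAt.rexp
  have c3 := hf.en_cont
  have hio : ∀ {h : ℂ → ℝ}, Continuous h → IntegrableOn h (ball c ρ) := fun hh =>
    (hh.continuousOn.integrableOn_compact (isCompact_closedBall c ρ)).mono_set ball_subset_closedBall
  have key := ball_nonneg (h := fun z => 2 * Real.exp (-M) * (‖f z‖ ^ 2 * Real.exp (u z)) +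
    8 * π ^ 2 * ρ ^ 2 * en f z - ‖f z‖ ^ 2) (c := c) (R := ρ)
    (((continuous_const.mul c2).add (continuous_const.mul c3)).sub c1) fun r hr => by
      have hcm := continuous_circleMap c r
      have d1 := (c1.comp hcm).intervalIntegrable (μ := volume) (-π) π
      have d2 := (c2.comp hcm).intervalIntegrable (μ := volume) (-π) π
      have d3 := (c3.comp hcm).intervalIntegrable (μ := volume) (-π) π
      simp only [Function.comp_def] at d1 d2 d3
      rw [intervalIntegral.integral_sub ((d2.const_mul _).add (d3.const_mul _)) d1,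
        intervalIntegral.integral_add (d2.const_mul _) (d3.const_mul _),
        intervalIntegral.integral_const_mul, intervalIntegral.integral_const_mul]
      have hB : 0 ≤ ∫ θ in (-π)..π, en f (circleMap c r θ) :=
        intervalIntegral.integral_nonneg hab.le fun θ _ => en_nonneg _ _
      have hA : 0 ≤ ∫ θ in (-π)..π, ‖f (circleMap c r θ)‖ ^ 2 * Real.exp (u (circleMap c r θ)) :=
        intervalIntegral.integral_nonneg hab.le fun θ _ => by positivity
      have hrρ : 8 * π ^ 2 * r ^ 2 * ∫ θ in (-π)..π, en f (circleMap c r θ) ≤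
          8 * π ^ 2 * ρ ^ 2 * ∫ θ in (-π)..π, en f (circleMap c r θ) := by
        have := hr.1.le
        have := hr.2.le
        gcongr
      by_cases hsub : closedBall c r ⊆ ball 0 R
      · obtain ⟨s, hs, hmin⟩ := (isCompact_Icc (a := -π) (b := π)).exists_isMinOn
          ⟨0, by constructor <;> linarith [Real.pi_pos]⟩ (c1.comp hcm).continuousOn
        have h1 := circle_osc hf c hr.1 hs
        have h2 := submean_exp hr.1 (fun z hz => hu z (hsub hz)) (fun z hz => hl z (hsub hz))
        have h3 : M ≤ u c := hc (hsub (mem_closedBall_self hr.1.le))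
        have huc : Continuous fun θ => Real.exp (u (circleMap c r θ)) :=
          continuous_iff_continuousAt.2 fun θ =>
            ((hu _ (hsub (circleMap_mem_closedBall c hr.1.le θ))).continuousAt.comp
              hcm.continuousAt).rexp
        have h4 : ∫ θ in (-π)..π, ‖f (circleMap c r s)‖ ^ 2 * Real.exp (u (circleMap c r θ)) ≤
            ∫ θ in (-π)..π, ‖f (circleMap c r θ)‖ ^ 2 * Real.exp (u (circleMap c r θ)) :=
          intervalIntegral.integral_mono_on hab.le
            ((continuous_const.mul huc).intervalIntegrable _ _) d2 fun θ hθ =>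
              mul_le_mul_of_nonneg_right (hmin hθ) (Real.exp_pos _).le
        rw [intervalIntegral.integral_const_mul] at h4
        have h5 : 2 * π * Real.exp M ≤ 2 * π * Real.exp (u c) := by gcongr
        have h6 := (mul_le_mul_of_nonneg_left (h5.trans h2)
          (sq_nonneg ‖f (circleMap c r s)‖)).trans h4
        have h7 := mul_le_mul_of_nonneg_left h6 (Real.exp_pos (-M)).le
        have h8 : Real.exp (-M) * (‖f (circleMap c r s)‖ ^ 2 * (2 * π * Real.exp M)) =
            2 * π * ‖f (circleMap c r s)‖ ^ 2 := by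
          rw [Real.exp_neg]; field_simp
        rw [h8] at h7
        linarith
      · obtain ⟨y, hy, hy'⟩ := exists_out hr.1 hsub
        obtain ⟨s, hs, rfl⟩ := exists_angle c hy
        have h1 := circle_osc hf c hr.1 hs
        rw [Test.zero fun h => hy' (hf.sub h)] at h1
        have := mul_nonneg (Real.exp_pos (-M)).le hA
        simp only [norm_zero] at h1
        linarith
  rw [integral_sub (by exact ((hio c2).const_mul _).add ((hio c3).const_mul _)) (hio c1),
    integral_add ((hio c2).const_mul _) ((hio c3).const_mul _), integral_const_mul,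
    integral_const_mul] at key
  linarith

end Pool.Agent.Lib.MP_6c91ae_an
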