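import Pool.Agent.Lib.MP_6c91ae_an.Hardy
import Pool.Agent.Lib.MP_6c91ae_an.ChPolar
import Pool.Agent.Lib.MP_6c91ae_an.ChDW

namespace Pool.Agent.Lib.MP_6c91ae_an

open Metric Complex Set Filter Topology MeasureTheory
open scoped Real ENNReal NNReal

lemma cov {f : ℂ → ℂ} {V s : Set ℂ} (hV : IsOpen V) (hd : DifferentiableOn ℂ f V) (hi : InjOn f V)
    (hs : MeasurableSet s) (hsV : s ⊆ V) (F : ℂ → ℝ≥0∞) :
    ∫⁻ y in f '' s, F y = ∫⁻ z in s, ENNReal.ofReal (‖deriv f z‖ ^ 2) * F (f z) := by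
  rw [lintegral_image_eq_lintegral_abs_det_fderiv_mul volume hs (fun z hz => (hol_hasFDerivAt
    (hd.differentiableAt (hV.mem_nhds (hsV hz))).hasDerivAt).hasFDerivWithinAt) (hi.mono hsV)]
  refine lintegral_congr fun z => ?_
  congr 2
  simp [ContinuousLinearMap.det, LinearMap.det_restrictScalars, Algebra.norm_complex_eq,
    Complex.normSq_eq_norm_sq]

lemma tc_zero (f : ℂ → ℂ) : tc f 0 = f 0 := by simp [tc]

lemma tc_deriv (f : ℂ → ℂ) (n : ℕ) : tc (deriv f) n = (n + 1) * tc f (n + 1) := by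
  unfold tc
  rw [iteratedDeriv_succ', Nat.factorial_succ]
  have h1 : ((n:ℂ) + 1) ≠ 0 := by exact_mod_cast n.succ_ne_zero
  have h2 : (n.factorial : ℂ) ≠ 0 := by exact_mod_cast n.factorial_ne_zero
  push_cast
  field_simp

lemma tc_congr {f g : ℂ → ℂ} (h : EqOn f g (ball 0 1)) : tc f = tc g := by
  funext n
  unfold tc
  rw [Filter.EventuallyEq.iteratedDeriv_eq n (h.eventuallyEq_of_mem (ball_mem_nhds _ one_pos))]

lemma hardy_congr {f g : ℂ → ℂ} (h : EqOn f g (ball 0 1)) : hardyNormSq f = hardyNormSq g := by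
  rw [hardyNormSq_eq, hardyNormSq_eq, tc_congr h]

lemma fourier_neg_zero {f : ℂ → ℂ} (hf : DifferentiableOn ℂ f (ball 0 1)) {r : ℝ} (hr : 0 < r)
    (hr1 : r < 1) (k : ℕ) (hab : -π < π) :
    fourierCoeffOn hab (fun θ : ℝ => f (circleMap 0 r θ)) (-((k:ℤ) + 1)) = 0 := by
  have h1 := fourier_tc (f := fun z => z ^ (k + 1) * f z) (DifferentiableOn.mul (by fun_prop) hf)
    hr hr1 0 hab
  rw [tc_zero, fourierCoeffOn_eq_integral] at h1
  rw [fourierCoeffOn_eq_integral]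
  have h3 : ∀ θ : ℝ, fourier (-(-((k:ℤ) + 1))) (θ : AddCircle (π - -π)) • f (circleMap 0 r θ) =
      ((r : ℂ) ^ (k + 1))⁻¹ * (fourier (-((0:ℕ):ℤ)) (θ : AddCircle (π - -π)) •
        (circleMap 0 r θ ^ (k + 1) * f (circleMap 0 r θ))) := by
    intro θ
    rw [fourier_coe_apply]
    simp only [circleMap, zero_add, smul_eq_mul, mul_pow, Nat.cast_zero, neg_zero, fourier_zero,
      one_mul]
    have hr' : (r : ℂ) ≠ 0 := by exact_mod_cast hr.ne'
    have hpi : (π : ℂ) ≠ 0 := by exact_mod_cast Real.pi_ne_zero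
    have e1 : Complex.exp (2 * π * I * ((-(-((k:ℤ) + 1)) : ℤ) : ℂ) * θ / ((π - -π : ℝ) : ℂ)) =
        Complex.exp (θ * I) ^ (k + 1) := by
      rw [← Complex.exp_nat_mul]
      congr 1
      push_cast
      field_simp
      ring
    rw [e1]
    field_simp
  simp_rw [h3]
  rw [intervalIntegral.integral_const_mul, ← mul_smul_comm, h1]
  simp

lemma parseval {f : ℂ → ℂ} (hf : DifferentiableOn ℂ f (ball 0 1)) {r : ℝ} (hr : 0 < r)
    (hr1 : r < 1) : ∫⁻ θ in Ioo (-π) π, ENNReal.ofReal (‖f (circleMap 0 r θ)‖ ^ 2) =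
      ∑' n : ℕ, ENNReal.ofReal (2 * π * (‖tc f n‖ ^ 2 * r ^ (2 * n))) := by
  have hab : -π < π := by linarith [Real.pi_pos]
  have hmem : ∀ θ, circleMap 0 r θ ∈ ball (0:ℂ) 1 := fun θ => by
    simp [abs_of_pos hr, hr1]
  have hc : Continuous (fun θ : ℝ => f (circleMap 0 r θ)) :=
    hf.continuousOn.comp_continuous (continuous_circleMap 0 r) hmem
  have hL2 : MemLp (fun θ : ℝ => f (circleMap 0 r θ)) 2 (volume.restrict (Ioc (-π) π)) := by
    obtain ⟨M, hM⟩ := (isCompact_Icc (a := -π) (b := π)).exists_bound_of_continuousOn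
      hc.continuousOn
    refine MemLp.of_bound hc.aestronglyMeasurable M ?_
    filter_upwards [ae_restrict_mem measurableSet_Ioc] with θ hθ
    exact hM θ (Ioc_subset_Icc_self hθ)
  have hP := ((hasSum_sq_fourierCoeffOn hab hL2).nat_add_neg_add_one).mul_left (2 * π)
  simp only [fourier_tc hf hr hr1, fourier_neg_zero hf hr hr1, norm_mul, norm_pow,
    Complex.norm_real, Real.norm_eq_abs, abs_of_pos hr, mul_pow, norm_zero, ← pow_mul,
    zero_pow two_ne_zero, add_zero, smul_eq_mul, mul_comm _ 2] at hP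
  have hi : IntegrableOn (fun θ => ‖f (circleMap 0 r θ)‖ ^ 2) (Ioo (-π) π) :=
    ((hc.norm.pow 2).continuousOn.integrableOn_compact isCompact_Icc).mono_set Ioo_subset_Icc_self
  rw [← ENNReal.ofReal_tsum_of_nonneg (fun n => by positivity) hP.summable, hP.tsum_eq,
    ← ofReal_integral_eq_lintegral_ofReal hi (Eventually.of_forall fun θ => by positivity),
    intervalIntegral.integral_of_le hab.le, integral_Ioc_eq_integral_Ioo]
  congr 1
  have := Real.pi_pos
  field_simp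
  ring

lemma hardy_dom {f g : ℂ → ℂ} (hf : DifferentiableOn ℂ f (ball 0 1))
    (hg : DifferentiableOn ℂ g (ball 0 1)) {C : ℝ} (h : ∀ z ∈ ball (0:ℂ) 1, ‖f z‖ ≤ C * ‖g z‖) :
    hardyNormSq f ≤ ENNReal.ofReal (C ^ 2) * hardyNormSq g := by
  have hpi := Real.pi_pos
  have key : ∀ r : ℝ, 0 < r → r < 1 → ∑' n : ℕ, ENNReal.ofReal (‖tc f n‖ ^ 2 * r ^ (2 * n)) ≤
      ENNReal.ofReal (C ^ 2) * hardyNormSq g := fun r hr hr1 => by
    have h1 : ∫⁻ θ in Ioo (-π) π, ENNReal.ofReal (‖f (circleMap 0 r θ)‖ ^ 2) ≤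
        ∫⁻ θ in Ioo (-π) π, ENNReal.ofReal (C ^ 2) * ENNReal.ofReal (‖g (circleMap 0 r θ)‖ ^ 2) := by
      refine lintegral_mono fun θ => ?_
      rw [← ENNReal.ofReal_mul (by positivity), ← mul_pow]
      refine ENNReal.ofReal_le_ofReal (pow_le_pow_left₀ (norm_nonneg _) (h _ ?_) 2)
      simp [abs_of_pos hr, hr1]
    rw [lintegral_const_mul' _ _ ENNReal.ofReal_ne_top, parseval hf hr hr1, parseval hg hr hr1] at h1
    simp only [ENNReal.ofReal_mul (show 0 ≤ 2 * π by positivity), ENNReal.tsum_mul_left] at h1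
    rw [mul_left_comm, ENNReal.mul_le_mul_iff_right (by simpa using hpi) ENNReal.ofReal_ne_top] at h1
    refine h1.trans ?_
    rw [hardyNormSq_eq]
    gcongr with n
    exact mul_le_of_le_one_right (by positivity) (pow_le_one₀ hr.le hr1.le)
  rw [hardyNormSq_eq, ENNReal.tsum_eq_iSup_sum]
  refine iSup_le fun s => ?_
  have hc : Continuous (fun r : ℝ => ∑ n ∈ s, ENNReal.ofReal (‖tc f n‖ ^ 2 * r ^ (2 * n))) :=
    continuous_finsetSum _ fun n _ => ENNReal.continuous_ofReal.comp (by fun_prop)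
  have ht := (hc.tendsto 1).mono_left (nhdsWithin_le_nhds (s := Iio 1))
  simp only [one_pow, mul_one] at ht
  refine le_of_tendsto ht ?_
  filter_upwards [Ioo_mem_nhdsLT (show (0 : ℝ) < 1 by norm_num)] with r hr
  exact (ENNReal.sum_le_tsum s).trans (key r hr.1 hr.2)

/-- weighted area integral of the derivative -/
noncomputable def A2 (f : ℂ → ℂ) : ℝ≥0∞ :=
  ∫⁻ z in ball 0 1, ENNReal.ofReal (‖deriv f z‖ ^ 2 * (1 - ‖z‖ ^ 2))

lemma A2_eq {f : ℂ → ℂ} (hf : DifferentiableOn ℂ f (ball 0 1)) :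
    A2 f = ∑' n : ℕ, ENNReal.ofReal (π * ((n + 1) / (n + 2)) * ‖tc f (n + 1)‖ ^ 2) := by
  have hpi := Real.pi_pos
  unfold A2
  rw [polar_lint (F := fun z => ENNReal.ofReal (‖deriv f z‖ ^ 2 * (1 - ‖z‖ ^ 2)))
    (((measurable_deriv f).norm.pow_const 2).mul
    (measurable_const.sub (measurable_norm.pow_const 2))).ennreal_ofReal]
  rw [setLIntegral_congr_fun measurableSet_Ioo (g := fun r => ∑' n : ℕ,
    ENNReal.ofReal (2 * π * ‖tc (deriv f) n‖ ^ 2 * (r ^ (2 * n + 1) - r ^ (2 * n + 3)))) fun r hr => by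
      have h1 : 0 ≤ 1 - r ^ 2 := by nlinarith [hr.1, hr.2]
      simp only [norm_circleMap_zero, sq_abs, mul_comm _ (1 - r ^ 2), ENNReal.ofReal_mul h1]
      rw [lintegral_const_mul' _ _ ENNReal.ofReal_ne_top,
        parseval (hf.deriv isOpen_ball) hr.1 hr.2, ← ENNReal.tsum_mul_left, ← ENNReal.tsum_mul_left]
      refine tsum_congr fun n => ?_
      rw [← ENNReal.ofReal_mul h1, ← ENNReal.ofReal_mul hr.1.le]
      congr 1
      ring]
  rw [lintegral_tsum fun n => (Measurable.ennreal_ofReal (by fun_prop)).aemeasurable]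
  refine tsum_congr fun n => ?_
  rw [← ofReal_integral_eq_lintegral_ofReal
    (((by fun_prop : Continuous fun r : ℝ => 2 * π * ‖tc (deriv f) n‖ ^ 2 *
      (r ^ (2 * n + 1) - r ^ (2 * n + 3))).continuousOn.integrableOn_compact isCompact_Icc).mono_set
        Ioo_subset_Icc_self)]
  · rw [← integral_Ioc_eq_integral_Ioo, ← intervalIntegral.integral_of_le zero_le_one,
      intervalIntegral.integral_const_mul, intervalIntegral.integral_sub
        (Continuous.intervalIntegrable (by fun_prop) _ _)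
        (Continuous.intervalIntegrable (by fun_prop) _ _), integral_pow, integral_pow, tc_deriv,
      norm_mul]
    have h2 : ‖(n:ℂ) + 1‖ = n + 1 := by exact_mod_cast Complex.norm_natCast (n + 1)
    rw [h2]
    congr 1
    simp only [one_pow, ne_eq, Nat.add_eq_zero_iff, one_ne_zero, and_false, not_false_eq_true,
      zero_pow]
    push_cast
    field_simp
    ring
  · refine (ae_restrict_iff' measurableSet_Ioo).2 (Eventually.of_forall fun r hr => ?_)
    refine mul_nonneg (by positivity) (sub_nonneg.2 ?_)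
    exact pow_le_pow_of_le_one hr.1.le hr.2.le (by omega)

lemma hardy_split (f : ℂ → ℂ) : hardyNormSq f =
    ENNReal.ofReal (‖f 0‖ ^ 2) + ∑' n : ℕ, ENNReal.ofReal (‖tc f (n + 1)‖ ^ 2) := by
  rw [hardyNormSq_eq, tsum_eq_zero_add' ENNReal.summable, tc_zero]

lemma hardy_le_A2 {f : ℂ → ℂ} (hf : DifferentiableOn ℂ f (ball 0 1)) :
    hardyNormSq f ≤ ENNReal.ofReal (‖f 0‖ ^ 2) + A2 f := by
  rw [hardy_split, A2_eq hf]
  gcongr with n
  refine le_mul_of_one_le_left (by positivity) ?_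
  have h1 : (1:ℝ) / 2 ≤ (n + 1) / (n + 2) := by
    rw [div_le_div_iff₀ (by norm_num) (by positivity)]
    linarith [(n.cast_nonneg : (0:ℝ) ≤ n)]
  nlinarith [Real.pi_gt_three]

lemma A2_le_hardy {f : ℂ → ℂ} (hf : DifferentiableOn ℂ f (ball 0 1)) :
    A2 f ≤ 4 * hardyNormSq f := by
  rw [hardy_split, A2_eq hf, mul_add, ← ENNReal.tsum_mul_left]
  refine le_add_left (ENNReal.tsum_le_tsum fun n => ?_)
  rw [← ENNReal.ofReal_ofNat 4, ← ENNReal.ofReal_mul (by norm_num)]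
  refine ENNReal.ofReal_le_ofReal (mul_le_mul_of_nonneg_right ?_ (by positivity))
  have h1 : ((n:ℝ) + 1) / (n + 2) ≤ 1 := by
    rw [div_le_one (by positivity)]; linarith
  nlinarith [Real.pi_lt_four, Real.pi_pos]

lemma A2_comp {φ f : ℂ → ℂ} (hd : DifferentiableOn ℂ φ (ball 0 1))
    (hm : MapsTo φ (ball 0 1) (ball 0 1)) (hi : InjOn φ (ball 0 1))
    (hf : DifferentiableOn ℂ f (ball 0 1)) :
    A2 (fun z => f (φ z)) ≤ ENNReal.ofReal (4 / (1 - ‖φ 0‖ ^ 2)) * A2 f := by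
  have h0 := one_sub_sq_pos (hm zero_mem_U)
  have h1 := cov isOpen_ball hd hi measurableSet_ball subset_rfl
    fun z => ENNReal.ofReal (‖deriv f z‖ ^ 2 * (1 - ‖z‖ ^ 2))
  have h2 : ∫⁻ z in φ '' ball 0 1, ENNReal.ofReal (‖deriv f z‖ ^ 2 * (1 - ‖z‖ ^ 2)) ≤ A2 f :=
    lintegral_mono_set hm.image_subset
  refine le_trans ?_ (mul_le_mul_right h2 _)
  rw [h1, ← lintegral_const_mul' _ _ ENNReal.ofReal_ne_top]
  refine setLIntegral_mono' measurableSet_ball fun z hz => ?_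
  rw [← ENNReal.ofReal_mul (by positivity), ← ENNReal.ofReal_mul (by positivity)]
  refine ENNReal.ofReal_le_ofReal ?_
  have h3 : deriv (fun z => f (φ z)) z = deriv f (φ z) * deriv φ z :=
    ((hf.differentiableAt (isOpen_ball.mem_nhds (hm hz))).hasDerivAt.comp z
      (hd.differentiableAt (isOpen_ball.mem_nhds hz)).hasDerivAt).deriv
  have h4 : 1 - ‖z‖ ^ 2 ≤ 4 / (1 - ‖φ 0‖ ^ 2) * (1 - ‖φ z‖ ^ 2) := by
    rw [div_mul_eq_mul_div, le_div_iff₀ h0]
    exact (weight_le hd hm hz).2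
  rw [h3, norm_mul]
  calc _ ≤ (‖deriv f (φ z)‖ * ‖deriv φ z‖) ^ 2 * (4 / (1 - ‖φ 0‖ ^ 2) * (1 - ‖φ z‖ ^ 2)) := by
        gcongr
    _ = _ := by ring

lemma eval_le_hardy {f : ℂ → ℂ} (hf : DifferentiableOn ℂ f (ball 0 1)) {z : ℂ}
    (hz : z ∈ ball (0:ℂ) 1) : ENNReal.ofReal (‖f z‖ ^ 2 * (1 - ‖z‖ ^ 2)) ≤ hardyNormSq f := by
  by_cases h : hardyNormSq f = ⊤
  · rw [h]; exact le_top
  · have h1 : hardyNormSq f = ENNReal.ofReal (√(hardyNormSq f).toReal ^ 2) := by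
      rw [Real.sq_sqrt ENNReal.toReal_nonneg, ENNReal.ofReal_toReal h]
    rw [h1]
    exact ENNReal.ofReal_le_ofReal (eval_le hf h1.le hz)

lemma hardy_comp {φ f : ℂ → ℂ} (hd : DifferentiableOn ℂ φ (ball 0 1))
    (hm : MapsTo φ (ball 0 1) (ball 0 1)) (hi : InjOn φ (ball 0 1))
    (hf : DifferentiableOn ℂ f (ball 0 1)) :
    hardyNormSq (fun z => f (φ z)) ≤ ENNReal.ofReal (17 / (1 - ‖φ 0‖ ^ 2)) * hardyNormSq f := by
  have h0 := one_sub_sq_pos (hm zero_mem_U)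
  refine (hardy_le_A2 (hf.comp hd hm)).trans ?_
  have h1 : ENNReal.ofReal (‖f (φ 0)‖ ^ 2) ≤
      ENNReal.ofReal (1 / (1 - ‖φ 0‖ ^ 2)) * hardyNormSq f := by
    refine le_trans (le_of_eq ?_) (mul_le_mul_right (eval_le_hardy hf (hm zero_mem_U)) _)
    rw [← ENNReal.ofReal_mul (by positivity)]
    congr 1
    field_simp
  have h2 := (A2_comp hd hm hi hf).trans (mul_le_mul_right (A2_le_hardy hf) _)
  refine (add_le_add h1 h2).trans (le_of_eq ?_)
  rw [← mul_assoc, ← add_mul, ← ENNReal.ofReal_ofNat 4, ← ENNReal.ofReal_mul (by positivity),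
    ← ENNReal.ofReal_add (by positivity) (by positivity)]
  congr 2
  ring

end Pool.Agent.Lib.MP_6c91ae_an
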