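import Mathlib

namespace Pool.Agent.Lib.MP_6c91ae_an

open Metric Complex Set Filter Topology

/-- directional derivative -/
noncomputable def pd {F : Type*} [NormedAddCommGroup F] [NormedSpace ℝ F] (v : ℂ) (u : ℂ → F)
    (z : ℂ) : F := fderiv ℝ u z v

/-- Laplacian through iterated directional derivatives -/
noncomputable def lap (u : ℂ → ℝ) (z : ℂ) : ℝ := pd 1 (pd 1 u) z + pd I (pd I u) z

section
variable {F : Type*} [NormedAddCommGroup F] [NormedSpace ℝ F]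

lemma c2_diff_fderiv {u : ℂ → F} {z : ℂ} (h : ContDiffAt ℝ 2 u z) :
    DifferentiableAt ℝ (fderiv ℝ u) z :=
  (h.fderiv_right (m := 1) (by norm_num)).differentiableAt (by norm_num)

lemma c2_ev_diff {u : ℂ → F} {z : ℂ} (h : ContDiffAt ℝ 2 u z) :
    ∀ᶠ y in 𝓝 z, DifferentiableAt ℝ u y :=
  (h.eventually (by simp)).mono fun _ hy => hy.differentiableAt (by norm_num)

lemma pd_pd {u : ℂ → F} {z : ℂ} (h : ContDiffAt ℝ 2 u z) (v w : ℂ) :
    pd w (pd v u) z = fderiv ℝ (fderiv ℝ u) z w v := by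
  unfold pd
  rw [fderiv_clm_apply (c2_diff_fderiv h) (differentiableAt_const v)]
  simp

lemma pd_comm {u : ℂ → F} {z : ℂ} (h : ContDiffAt ℝ 2 u z) (v w : ℂ) :
    pd w (pd v u) z = pd v (pd w u) z := by
  rw [pd_pd h, pd_pd h]
  exact (h.isSymmSndFDerivAt (by simp)).eq w v

lemma pd_contDiffAt {u : ℂ → F} {z : ℂ} {n m : ℕ} (h : ContDiffAt ℝ n u z) (hm : m + 1 ≤ n)
    (v : ℂ) : ContDiffAt ℝ m (pd v u) z :=
  (h.fderiv_right (m := m) (by exact_mod_cast hm)).clm_apply contDiffAt_const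

lemma pd_congr {u u' : ℂ → F} {z : ℂ} (h : u =ᶠ[𝓝 z] u') (v : ℂ) : pd v u z = pd v u' z := by
  unfold pd; rw [h.fderiv_eq]

lemma pd_congr_ev {u u' : ℂ → F} {z : ℂ} (h : u =ᶠ[𝓝 z] u') (v : ℂ) :
    pd v u =ᶠ[𝓝 z] pd v u' := h.eventually_nhds.mono fun _ hy => pd_congr hy v

lemma pd_lin (u : ℂ → F) (z v : ℂ) : fderiv ℝ u z v = v.re • pd 1 u z + v.im • pd I u z := by
  unfold pd
  rw [← map_smul, ← map_smul, ← map_add]
  congr 1
  simp

end

lemma lap_eq {u : ℂ → ℝ} {z : ℂ} (h : ContDiffAt ℝ 2 u z) :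
    Laplacian.laplacian u z = lap u z := by
  rw [InnerProductSpace.laplacian_eq_iteratedFDeriv_complexPlane]
  simp only [iteratedFDeriv_two_apply, lap, pd_pd h]
  simp

lemma lap_congr {u u' : ℂ → ℝ} {z : ℂ} (h : u =ᶠ[𝓝 z] u') : lap u z = lap u' z := by
  unfold lap
  rw [pd_congr (pd_congr_ev h 1), pd_congr (pd_congr_ev h I)]

lemma lap_add {u u' : ℂ → ℝ} {z : ℂ} (h : ContDiffAt ℝ 2 u z) (h' : ContDiffAt ℝ 2 u' z) :
    lap (fun y => u y + u' y) z = lap u z + lap u' z := by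
  rw [← lap_eq h, ← lap_eq h', ← lap_eq (h.add h')]
  exact h.laplacian_add h'

lemma lap_affine {u : ℂ → ℝ} {z : ℂ} (h : ContDiffAt ℝ 2 u z) (a b : ℝ) :
    lap (fun y => a * u y + b) z = a * lap u z := by
  have h1 : ContDiffAt ℝ 2 (fun y => a * u y) z := contDiffAt_const.mul h
  rw [lap_add h1 contDiffAt_const, ← lap_eq h1, ← lap_eq h, ← lap_eq (u := fun _ => b) contDiffAt_const]
  have := InnerProductSpace.laplacian_smul (𝕜 := ℝ) a h
  simp only [InnerProductSpace.laplacian_const, Pi.zero_apply, add_zero]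
  exact this

lemma hol_hasFDerivAt {F : ℂ → ℂ} {z a : ℂ} (h : HasDerivAt F a z) :
    HasFDerivAt F ((ContinuousLinearMap.toSpanSingleton ℂ a).restrictScalars ℝ) z :=
  h.hasFDerivAt.restrictScalars ℝ

lemma hol_pd {F : ℂ → ℂ} {z : ℂ} (h : DifferentiableAt ℂ F z) (v : ℂ) :
    pd v F z = v * deriv F z := by
  unfold pd
  rw [(hol_hasFDerivAt h.hasDerivAt).fderiv]
  simp

lemma pd_comp_hol {G : Type*} [NormedAddCommGroup G] [NormedSpace ℝ G] {u : ℂ → G} {F : ℂ → ℂ}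
    {z : ℂ} (hu : DifferentiableAt ℝ u (F z)) (h : DifferentiableAt ℂ F z) (v : ℂ) :
    pd v (fun y => u (F y)) z = fderiv ℝ u (F z) (v * deriv F z) := by
  unfold pd
  rw [show (fun y => u (F y)) = u ∘ F from rfl,
    (hu.hasFDerivAt.comp z (hol_hasFDerivAt h.hasDerivAt)).fderiv]
  simp

lemma hol_c2 {F : ℂ → ℂ} {z : ℂ} (hF : AnalyticAt ℂ F z) : ContDiffAt ℝ 2 F z :=
  (hF.contDiffAt (n := 2)).restrict_scalars ℝ

lemma lap_comp_hol {u : ℂ → ℝ} {F : ℂ → ℂ} {z : ℂ} (hu : ContDiffAt ℝ 2 u (F z))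
    (hF : AnalyticAt ℂ F z) : lap (fun y => u (F y)) z = ‖deriv F z‖ ^ 2 * lap u (F z) := by
  have hev : ∀ v, pd v (fun y => u (F y)) =ᶠ[𝓝 z] fun y => fderiv ℝ u (F y) (v * deriv F y) :=
    fun v => by
      filter_upwards [hF.continuousAt.eventually (c2_ev_diff hu), hF.eventually_analyticAt]
        with y h1 h2
      exact pd_comp_hol h1 h2.differentiableAt v
  have h2 : ∀ v, pd v (pd v (fun y => u (F y))) z =
      fderiv ℝ (fderiv ℝ u) (F z) (v * deriv F z) (v * deriv F z) +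
        fderiv ℝ u (F z) (v * (v * deriv (deriv F) z)) := fun v => by
    rw [pd_congr (hev v)]
    have h3 := (c2_diff_fderiv hu).hasFDerivAt.comp z
      (hol_hasFDerivAt hF.differentiableAt.hasDerivAt)
    have h4 := hol_hasFDerivAt (hF.deriv.differentiableAt.hasDerivAt.const_mul v)
    have h5 := h3.clm_apply h4
    unfold pd
    rw [show (fun y => fderiv ℝ u (F y) (v * deriv F y)) =
      fun y => (fderiv ℝ u ∘ F) y (v * deriv F y) from rfl, h5.fderiv]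
    simp [add_comm]
  unfold lap
  rw [h2, h2, pd_pd hu, pd_pd hu]
  have h6 : I * (I * deriv (deriv F) z) = -(1 * (1 * deriv (deriv F) z)) := by
    rw [← mul_assoc, I_mul_I]; ring
  rw [h6, map_neg]
  set B := fderiv ℝ (fderiv ℝ u) (F z)
  set a := deriv F z
  have e1 : (1:ℂ) * a = a.re • (1:ℂ) + a.im • I := by simp
  have e2 : I * a = (-a.im) • (1:ℂ) + a.re • I := by simp [Complex.ext_iff]
  rw [e1, e2, Complex.sq_norm, Complex.normSq_apply]
  simp only [map_add, map_smul, add_apply, smul_apply, smul_eq_mul]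
  ring

lemma nsq_hasFDerivAt (z : ℂ) : HasFDerivAt (fun s : ℂ => ‖s‖ ^ 2)
    ((2 * z.re) • Complex.reCLM + (2 * z.im) • Complex.imCLM) z := by
  have e : (fun s : ℂ => ‖s‖ ^ 2) = fun s => s.re * s.re + s.im * s.im := by
    funext s; rw [Complex.sq_norm, Complex.normSq_apply]
  rw [e]
  have h1 := Complex.reCLM.hasFDerivAt (x := z)
  have h2 := Complex.imCLM.hasFDerivAt (x := z)
  refine ((h1.mul h1).add (h2.mul h2)).congr_fderiv ?_
  refine ContinuousLinearMap.ext fun v => ?_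
  simp
  ring

lemma pd_radial {β : ℝ → ℝ} {b : ℝ} {z : ℂ} (h : HasDerivAt β b (‖z‖ ^ 2)) (v : ℂ) :
    pd v (fun s => β (‖s‖ ^ 2)) z = b * (2 * z.re * v.re + 2 * z.im * v.im) := by
  unfold pd
  rw [show (fun s : ℂ => β (‖s‖ ^ 2)) = β ∘ fun s : ℂ => ‖s‖ ^ 2 from rfl,
    (h.comp_hasFDerivAt z (nsq_hasFDerivAt z)).fderiv]
  simp
  ring

lemma lap_radial {β β' : ℝ → ℝ} {b : ℝ} {z : ℂ} (h1 : ∀ x, 0 ≤ x → HasDerivAt β (β' x) x)
    (h2 : HasDerivAt β' b (‖z‖ ^ 2)) :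
    lap (fun s => β (‖s‖ ^ 2)) z = 4 * (‖z‖ ^ 2 * b + β' (‖z‖ ^ 2)) := by
  have e : ∀ v, pd v (fun s => β (‖s‖ ^ 2)) =
      fun s => β' (‖s‖ ^ 2) * (2 * s.re * v.re + 2 * s.im * v.im) := fun v => by
    funext s; exact pd_radial (h1 _ (by positivity)) v
  have e2 : ∀ v, pd v (pd v (fun s => β (‖s‖ ^ 2))) z =
      b * (2 * z.re * v.re + 2 * z.im * v.im) ^ 2 +
        β' (‖z‖ ^ 2) * (2 * v.re * v.re + 2 * v.im * v.im) := fun v => by
    rw [e]
    have h3 := h2.comp_hasFDerivAt z (nsq_hasFDerivAt z)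
    have h4 := (((Complex.reCLM.hasFDerivAt (x := z)).const_mul 2).mul_const v.re).add
      (((Complex.imCLM.hasFDerivAt (x := z)).const_mul 2).mul_const v.im)
    have h5 := h3.mul h4
    unfold pd
    erw [h5.fderiv]
    simp
    ring
  unfold lap
  rw [e2, e2, Complex.sq_norm, Complex.normSq_apply]
  simp
  ring

lemma nsq_contDiff {n : WithTop ℕ∞} : ContDiff ℝ n fun s : ℂ => ‖s‖ ^ 2 := contDiff_norm_sq ℝ

lemma log_c2 (z : ℂ) : ContDiffAt ℝ 2 (fun s : ℂ => Real.log (1 + ‖s‖ ^ 2)) z :=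
  (contDiffAt_const.add nsq_contDiff.contDiffAt).log (by positivity)

lemma lap_log_nonneg (z : ℂ) : 0 ≤ lap (fun s : ℂ => Real.log (1 + ‖s‖ ^ 2)) z := by
  have h1 : ∀ x : ℝ, 0 ≤ x → HasDerivAt (fun x => Real.log (1 + x)) ((1 + x)⁻¹) x := fun x hx => by
    simpa using ((hasDerivAt_id x).const_add 1).log (by simp only [id]; positivity)
  have h0 : 0 < 1 + ‖z‖ ^ 2 := by positivity
  have h2 : HasDerivAt (fun x : ℝ => (1 + x)⁻¹) (-1 / (1 + ‖z‖ ^ 2) ^ 2) (‖z‖ ^ 2) :=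
    ((hasDerivAt_id (‖z‖ ^ 2)).const_add 1).inv h0.ne'
  rw [lap_radial (β := fun x => Real.log (1 + x)) h1 h2]
  have : ‖z‖ ^ 2 * (-1 / (1 + ‖z‖ ^ 2) ^ 2) + (1 + ‖z‖ ^ 2)⁻¹ = 1 / (1 + ‖z‖ ^ 2) ^ 2 := by
    field_simp; ring
  rw [this]; positivity

lemma psi_c2 {τ : ℝ} (hτ : 0 < τ) (z : ℂ) : ContDiffAt ℝ 2 (fun s : ℂ => τ / (τ + ‖s‖ ^ 2)) z :=
  contDiffAt_const.div (contDiffAt_const.add nsq_contDiff.contDiffAt) (by positivity)

lemma lap_psi {τ : ℝ} (hτ : 0 < τ) (z : ℂ) : lap (fun s : ℂ => τ / (τ + ‖s‖ ^ 2)) z =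
    4 * τ * (‖z‖ ^ 2 - τ) / (τ + ‖z‖ ^ 2) ^ 3 := by
  have h1 : ∀ x : ℝ, 0 ≤ x → HasDerivAt (fun x => τ / (τ + x)) (-τ / (τ + x) ^ 2) x :=
    fun x hx => by
      have := (hasDerivAt_const x τ).div ((hasDerivAt_id x).const_add τ)
        (by simp only [id]; positivity)
      refine this.congr_deriv ?_
      simp
  have h0 : 0 < τ + ‖z‖ ^ 2 := by positivity
  have h2 : HasDerivAt (fun x : ℝ => -τ / (τ + x) ^ 2) (2 * τ / (τ + ‖z‖ ^ 2) ^ 3) (‖z‖ ^ 2) := by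
    have := (hasDerivAt_const (‖z‖ ^ 2) (-τ)).div
      (((hasDerivAt_id (‖z‖ ^ 2)).const_add τ).pow 2) (by simp only [id, Pi.pow_apply]; positivity)
    refine this.congr_deriv ?_
    simp only [id, Pi.pow_apply]
    field_simp
    push_cast
    ring
  rw [lap_radial (β := fun x => τ / (τ + x)) h1 h2]
  field_simp
  ring

end Pool.Agent.Lib.MP_6c91ae_an
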