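import Pool.Agent.Lib.MP_6c91ae_an.ChNec
import Pool.Agent.Lib.MP_6c91ae_an.ChDefs

namespace Pool.Agent.Lib.MP_6c91ae_an

open Metric Set

lemma minorant_iff {ψ : ℂ → ℂ} {u : ℂ → ℝ} : Minorant ψ u ↔ Sub ψ u := by
  constructor
  · rintro ⟨h1, h2⟩
    have h3 : ∀ z ∈ ball (0:ℂ) 1, ContDiffAt ℝ 2 u z := fun z hz =>
      h1.contDiffAt (isOpen_ball.mem_nhds hz)
    exact ⟨h3, fun z hz => lap_eq (h3 z hz) ▸ (h2 z hz).1, fun z hz => (h2 z hz).2.1,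
      fun z hz => (h2 z hz).2.2⟩
  · intro h
    exact ⟨fun z hz => (h.cd z hz).contDiffWithinAt, fun z hz =>
      ⟨(lap_eq (h.cd z hz)).symm ▸ h.lp z hz, h.le1 z hz, h.le2 z hz⟩⟩

lemma CritCpt.fin {φ : ℂ → ℂ} (h : CritCpt φ) : CritFin φ := by
  intro m S hS hS' M
  obtain ⟨r, hr, hr'⟩ : ∃ r : ℝ, r < 1 ∧ ∀ a ∈ S, ‖a‖ ≤ r := by
    rcases S.eq_empty_or_nonempty with rfl | hne
    · exact ⟨0, zero_lt_one, by simp⟩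
    · obtain ⟨a, ha, hmax⟩ := exists_max_image S (fun a => ‖a‖) hS hne
      exact ⟨‖a‖, mem_ball_zero_iff.1 (hS' a ha).1, hmax⟩
  obtain ⟨n, hn, hu⟩ := h m r hr M
  exact ⟨n, hn, fun a ha => hu a (hr' a ha) (hS' a ha).2⟩

theorem characterisation (φ : ℂ → ℂ) (hφ : DifferentiableOn ℂ φ (Metric.ball 0 1))
    (hm : Set.MapsTo φ (Metric.ball 0 1) (Metric.ball 0 1)) :
    Hypercyclic φ ↔ Set.InjOn φ (Metric.ball 0 1) ∧ (∀ z ∈ Metric.ball (0 : ℂ) 1, φ z ≠ z) ∧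
      ∀ (m : ℕ) (S : Set ℂ), S.Finite → S ⊆ Metric.ball 0 1 \ φ^[m] '' Metric.ball 0 1 →
        ∀ M : ℝ, ∃ n ≥ m, ∀ a ∈ S, ∃ u, Minorant φ^[n] u ∧ M ≤ u (φ^[n - m] a) := by
  simp only [minorant_iff]
  exact ⟨fun h => ⟨nec_inj hφ hm h, nec_fix hφ hm h, fun m S hS hS' =>
      (necessity hφ hm h).fin m S hS fun a ha => hS' ha⟩,
    fun h => sufficiency hφ hm h.1 h.2.1 fun m S hS hS' => h.2.2 m S hS fun a ha => hS' a ha⟩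

/-- the same criterion, uniformly on compact sets -/
theorem characterisation_compact (φ : ℂ → ℂ) (hφ : DifferentiableOn ℂ φ (Metric.ball 0 1))
    (hm : Set.MapsTo φ (Metric.ball 0 1) (Metric.ball 0 1)) :
    Hypercyclic φ ↔ Set.InjOn φ (Metric.ball 0 1) ∧ (∀ z ∈ Metric.ball (0 : ℂ) 1, φ z ≠ z) ∧
      ∀ (m : ℕ) (r : ℝ), r < 1 → ∀ M : ℝ, ∃ n ≥ m, ∀ a : ℂ, ‖a‖ ≤ r →
        a ∉ φ^[m] '' Metric.ball 0 1 → ∃ u, Minorant φ^[n] u ∧ M ≤ u (φ^[n - m] a) := by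
  simp only [minorant_iff]
  exact ⟨fun h => ⟨nec_inj hφ hm h, nec_fix hφ hm h, necessity hφ hm h⟩,
    fun h => sufficiency hφ hm h.1 h.2.1 (CritCpt.fin h.2.2)⟩

end Pool.Agent.Lib.MP_6c91ae_an
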