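import Pool.Agent.Lib.MP_6c91ae_an.ChTrans

namespace Pool.Agent.Lib.MP_6c91ae_an

open Metric Complex Set Filter Topology MeasureTheory
open scoped Real ENNReal NNReal ComplexConjugate

def CritCpt (φ : ℂ → ℂ) : Prop :=
  ∀ (m : ℕ) (r : ℝ), r < 1 → ∀ M : ℝ, ∃ n ≥ m, ∀ a : ℂ, ‖a‖ ≤ r → a ∉ φ^[m] '' ball 0 1 →
    ∃ u, Sub φ^[n] u ∧ M ≤ u (φ^[n - m] a)

/-- growth bound of order one -/
def G1 (f : ℂ → ℂ) (η : ℝ) : Prop := ∀ z ∈ ball (0:ℂ) 1, ‖f z‖ * (1 - ‖z‖ ^ 2) ≤ η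

lemma G1.comp {ψ f : ℂ → ℂ} {η : ℝ} (h : G1 f η) (hd : DifferentiableOn ℂ ψ (ball 0 1))
    (hm : MapsTo ψ (ball 0 1) (ball 0 1)) :
    G1 (fun z => f (ψ z)) (4 / (1 - ‖ψ 0‖ ^ 2) * η) := fun z hz => by
  have h0 := one_sub_sq_pos (hm zero_mem_U)
  have h4 : 1 - ‖z‖ ^ 2 ≤ 4 / (1 - ‖ψ 0‖ ^ 2) * (1 - ‖ψ z‖ ^ 2) := by
    rw [div_mul_eq_mul_div, le_div_iff₀ h0]
    exact (weight_le hd hm hz).2
  calc _ ≤ ‖f (ψ z)‖ * (4 / (1 - ‖ψ 0‖ ^ 2) * (1 - ‖ψ z‖ ^ 2)) := by gcongr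
    _ = 4 / (1 - ‖ψ 0‖ ^ 2) * (‖f (ψ z)‖ * (1 - ‖ψ z‖ ^ 2)) := by ring
    _ ≤ _ := by gcongr; exact h _ (hm hz)

lemma G1_of_hardy {f : ℂ → ℂ} (hf : DifferentiableOn ℂ f (ball 0 1)) {η : ℝ} (hη : 0 ≤ η)
    (h : hardyNormSq f ≤ ENNReal.ofReal (η ^ 2)) : G1 f η := fun z hz => by
  have h1 := eval_le hf h hz
  have h2 := one_sub_sq_pos hz
  refine (pow_le_pow_iff_left₀ (by positivity) hη two_ne_zero).1 ?_
  have h3 : 1 - ‖z‖ ^ 2 ≤ 1 := by linarith [sq_nonneg ‖z‖]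
  nlinarith [mul_le_mul_of_nonneg_left h3 (by positivity : 0 ≤ ‖f z‖ ^ 2 * (1 - ‖z‖ ^ 2))]

lemma inH2_entire {f : ℂ → ℂ} (hf : Differentiable ℂ f) : InH2 f := by
  obtain ⟨B, hB⟩ := (isCompact_closedBall (0:ℂ) 1).exists_bound_of_continuousOn
    hf.continuous.continuousOn
  exact inH2_of_bdd hf.differentiableOn fun z hz => hB z (ball_subset_closedBall hz)

lemma tail_dense {φ : ℂ → ℂ} (hd : DifferentiableOn ℂ φ (ball 0 1))
    (hm : MapsTo φ (ball 0 1) (ball 0 1)) (hc : Hypercyclic φ) : ∃ f, InH2 f ∧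
    ∀ g, InH2 g → ∀ η > 0, ∀ N : ℕ, ∃ n ≥ N, G1 (fun z => f (φ^[n] z) - g z) η := by
  obtain ⟨f, hf, hden⟩ := hc
  refine ⟨f, hf, fun g hg η hη N => ?_⟩
  have hA : ((fun n => f (φ^[n] 0) - g 0) '' Iio N).Finite := (finite_Iio N).image _
  obtain ⟨t, ht, htA⟩ := (infinite_of_mem_nhds (0:ℂ) (ball_mem_nhds 0 (half_pos hη))).exists_notMem_finite hA
  obtain ⟨ε, hε, hεA⟩ := Metric.isOpen_iff.1 hA.isClosed.isOpen_compl t htA
  obtain ⟨a, ha⟩ := exists_rep hg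
  obtain ⟨b, hb⟩ := exists_rep (inH2_entire (differentiable_const t))
  set δ := min (ε / 2) (η / 2) with hδ
  have hδ0 : 0 < δ := by positivity
  obtain ⟨n, hn⟩ := hden _ (ha.add hb).inH2 _ (ENNReal.ofReal_pos.2 (pow_pos hδ0 2))
  have h1 := G1_of_hardy ((hf.1.comp (iter_diffOn hd hm n) (hm.iterate n)).sub
    (ha.add hb).diff) hδ0.le hn.le
  refine ⟨n, ?_, fun z hz => ?_⟩
  · by_contra hcon
    refine hεA (a := f (φ^[n] 0) - g 0) ?_ ⟨n, not_le.1 hcon, rfl⟩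
    have h2 := h1 0 zero_mem_U
    simp only [Pi.sub_apply, Function.comp, norm_zero, ne_eq, OfNat.ofNat_ne_zero,
      not_false_eq_true, zero_pow, sub_zero, mul_one] at h2
    rw [mem_ball, dist_eq_norm, sub_sub]
    linarith [min_le_left (ε / 2) (η / 2)]
  · have h2 := h1 z hz
    simp only [Pi.sub_apply, Function.comp] at h2
    have h3 : ‖f (φ^[n] z) - g z‖ ≤ ‖f (φ^[n] z) - (g z + t)‖ + ‖t‖ := by
      have := norm_add_le (f (φ^[n] z) - (g z + t)) t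
      rwa [show f (φ^[n] z) - (g z + t) + t = f (φ^[n] z) - g z by ring] at this
    have h4 := one_sub_sq_pos hz
    have h5 := mem_ball_zero_iff.1 ht
    have h6 : ‖t‖ * (1 - ‖z‖ ^ 2) ≤ ‖t‖ :=
      mul_le_of_le_one_right (norm_nonneg _) (by linarith [sq_nonneg ‖z‖])
    nlinarith [min_le_right (ε / 2) (η / 2), mul_le_mul_of_nonneg_right h3 h4.le]

lemma nec_inj {φ : ℂ → ℂ} (hd : DifferentiableOn ℂ φ (ball 0 1))
    (hm : MapsTo φ (ball 0 1) (ball 0 1)) (hc : Hypercyclic φ) : InjOn φ (ball 0 1) := by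
  obtain ⟨f, -, h⟩ := tail_dense hd hm hc
  intro a ha b hb hab
  have h1 := one_sub_sq_pos ha
  have h2 := one_sub_sq_pos hb
  rw [← sub_eq_zero, ← norm_le_zero_iff]
  refine le_of_forall_pos_le_add fun ε hε => ?_
  obtain ⟨n, hn, h3⟩ := h id (inH2_entire differentiable_id)
    (min (ε / 2 * (1 - ‖a‖ ^ 2)) (ε / 2 * (1 - ‖b‖ ^ 2))) (by positivity) 1
  have h4 := le_of_mul_le_mul_right ((h3 a ha).trans (min_le_left _ _)) h1
  have h5 := le_of_mul_le_mul_right ((h3 b hb).trans (min_le_right _ _)) h2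
  obtain ⟨k, rfl⟩ := Nat.exists_eq_add_of_le' hn
  simp only [Function.iterate_succ_apply, id, hab] at h4 h5
  have := norm_sub_le (f (φ^[k] (φ b)) - b) (f (φ^[k] (φ b)) - a)
  rw [sub_sub_sub_cancel_left] at this
  linarith

lemma nec_fix {φ : ℂ → ℂ} (hd : DifferentiableOn ℂ φ (ball 0 1))
    (hm : MapsTo φ (ball 0 1) (ball 0 1)) (hc : Hypercyclic φ) : ∀ z ∈ ball (0:ℂ) 1, φ z ≠ z := by
  obtain ⟨f, -, h⟩ := tail_dense hd hm hc
  intro a ha hfix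
  have h1 := one_sub_sq_pos ha
  obtain ⟨n, -, h3⟩ := h (fun _ => f a + 1) (inH2_entire (differentiable_const _))
    ((1 - ‖a‖ ^ 2) / 2) (by positivity) 0
  have h4 := h3 a ha
  simp only [Function.iterate_fixed hfix, sub_add_cancel_left, norm_neg, norm_one] at h4
  linarith

lemma simul {φ : ℂ → ℂ} (hd : DifferentiableOn ℂ φ (ball 0 1))
    (hm : MapsTo φ (ball 0 1) (ball 0 1)) (hc : Hypercyclic φ) (J : ℕ) {η : ℝ} (hη : 0 < η) (N : ℕ) :
    ∃ n ≥ N, ∃ u : ℕ → ℂ → ℂ, ∀ i < J, DifferentiableOn ℂ (u i) (ball 0 1) ∧ G1 (u i) η ∧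
      G1 (fun z => u i (φ^[n] z) - z ^ i) η := by
  obtain ⟨f, hf, h⟩ := tail_dense hd hm hc
  choose k _ hk using fun i : ℕ => h (fun z => z ^ i) (inH2_entire (by fun_prop)) _ (half_pos hη) 0
  have hC0 : ∀ i, 0 < 4 / (1 - ‖φ^[k i] 0‖ ^ 2) := fun i =>
    div_pos four_pos (one_sub_sq_pos (orb_mem hm _))
  set C := ∑ i ∈ Finset.range J, 4 / (1 - ‖φ^[k i] 0‖ ^ 2) + 1 with hC
  have hC1 : 0 < C := by
    have := Finset.sum_nonneg fun i (_ : i ∈ Finset.range J) => (hC0 i).le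
    linarith
  have hC2 : ∀ i < J, 4 / (1 - ‖φ^[k i] 0‖ ^ 2) * (η / (2 * C)) ≤ η / 2 := fun i hi => by
    have h1 := Finset.single_le_sum (fun i (_ : i ∈ Finset.range J) => (hC0 i).le)
      (Finset.mem_range.2 hi)
    calc _ ≤ C * (η / (2 * C)) := by gcongr; linarith
      _ = _ := by field_simp
  obtain ⟨j, -, hj⟩ := h (fun _ => 0) (inH2_entire (differentiable_const _)) (η / (2 * C))
    (by positivity) 0
  obtain ⟨n', hn', hn⟩ := h f hf (η / (2 * C)) (by positivity) (N + j)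
  obtain ⟨n, rfl⟩ := Nat.exists_eq_add_of_le' ((Nat.le_add_left j N).trans hn')
  refine ⟨n, by omega, fun i z => f (φ^[j] (φ^[k i] z)), fun i hi => ⟨?_, fun z hz => ?_, fun z hz => ?_⟩⟩
  · exact hf.1.comp ((iter_diffOn hd hm j).comp (iter_diffOn hd hm _) (hm.iterate _))
      ((hm.iterate j).comp (hm.iterate _))
  · have h1 := hj.comp (iter_diffOn hd hm (k i)) (hm.iterate _) z hz
    simp only [sub_zero] at h1
    linarith [hC2 i hi]
  · have h1 := hn.comp (iter_diffOn hd hm (k i)) (hm.iterate _) z hz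
    have h2 := hk i z hz
    have h3 : φ^[j] (φ^[k i] (φ^[n] z)) = φ^[n + j] (φ^[k i] z) := by
      simp only [← Function.iterate_add_apply]; congr 1; ring
    have h4 := norm_sub_le_norm_sub_add_norm_sub (f (φ^[n + j] (φ^[k i] z))) (f (φ^[k i] z)) (z ^ i)
    have h5 := mul_le_mul_of_nonneg_right h4 (one_sub_sq_pos hz).le
    simp only [h3]
    linarith [hC2 i hi]

lemma tc_bound {G : ℂ → ℂ} (hG : DifferentiableOn ℂ G (ball 0 1)) {N : ℕ} {K : ℝ}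
    (h : ∀ z ∈ ball (0:ℂ) 1, ‖G z‖ * (1 - ‖z‖) ^ N ≤ K) {ρ : ℝ} (h0 : 0 < ρ) (h1 : ρ < 1) (i : ℕ) :
    ‖tc G i‖ ≤ K / (1 - ρ) ^ N / ρ ^ i := by
  have h2 := Complex.norm_iteratedDeriv_le_of_forall_mem_sphere_norm_le i h0
    (hG.diffContOnCl_ball (closedBall_subset_ball h1)) (C := K / (1 - ρ) ^ N) fun z hz => by
      have h3 : ‖z‖ = ρ := by simpa using hz
      rw [le_div_iff₀ (pow_pos (by linarith) _), ← h3]
      exact h z (by rw [mem_ball_zero_iff, h3]; exact h1)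
  rw [tc, norm_div, Complex.norm_natCast, div_le_iff₀ (by positivity)]
  refine h2.trans (le_of_eq ?_)
  ring

lemma trunc_unif (N : ℕ) {K η : ℝ} (hK : 0 < K) (hη : 0 < η) : ∃ (J : ℕ) (B : ℝ), 0 < B ∧
    ∀ G : ℂ → ℂ, DifferentiableOn ℂ G (ball 0 1) →
    (∀ z ∈ ball (0:ℂ) 1, ‖G z‖ * (1 - ‖z‖) ^ N ≤ K) → ∑ i ∈ Finset.range J, ‖tc G i‖ ≤ B ∧
      ∀ z ∈ ball (0:ℂ) 1, ‖G z - ∑ i ∈ Finset.range J, tc G i * z ^ i‖ * (1 - ‖z‖) ^ (N + 2) ≤ η := by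
  set c := K * 2 ^ N * 2 with hc
  have hc0 : 0 < c := by positivity
  set s := min (1 / 2) (η / c) with hs
  have hs0 : 0 < s := by positivity
  have hs1 : s ≤ 1 / 2 := min_le_left _ _
  have hs2 : c * s ≤ η := by
    calc c * s ≤ c * (η / c) := by gcongr; exact min_le_right _ _
      _ = η := by field_simp
  obtain ⟨J, hJ⟩ := exists_pow_lt_of_lt_one hs0 (show 1 - s / 2 < 1 by linarith)
  refine ⟨J, ∑ i ∈ Finset.range J, K / (1 - 1 / 2) ^ N / (1 / 2) ^ i + 1, by positivity,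
    fun G hG h => ⟨?_, fun z hz => ?_⟩⟩
  · exact (Finset.sum_le_sum fun i _ => tc_bound hG h (ρ := 1 / 2) (by norm_num) (by norm_num) i).trans
      (by linarith)
  · have hz1 := mem_ball_zero_iff.1 hz
    have hz0 := norm_nonneg z
    set x := ‖z‖ with hx
    set q := x / ((1 + x) / 2) with hq
    have hq0 : 0 ≤ q := by positivity
    have hq1 : q ≤ 1 - (1 - x) / 2 := by
      rw [hq, div_le_iff₀ (by positivity)]; nlinarith [sq_nonneg (1 - x)]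
    have hq2 : q < 1 := by linarith
    have h1 := (hasSum_nat_add_iff' J).2 (hasSum_tc hG hz)
    have h2 := (hasSum_geometric_of_lt_one hq0 hq2).mul_left (K / ((1 - x) / 2) ^ N * q ^ J)
    have h3 := h1.norm_le_of_bounded h2 fun i => by
      have h4 := tc_bound hG h (ρ := (1 + x) / 2) (by positivity) (by linarith) (i + J)
      rw [show 1 - (1 + x) / 2 = (1 - x) / 2 by ring] at h4
      rw [norm_mul, norm_pow, mul_assoc, ← pow_add, add_comm J i, hq, div_pow x, ← mul_div_assoc,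
        ← div_mul_eq_mul_div]
      gcongr
    have h5 : 0 < 1 - x := by linarith
    have h6 : (1 - q)⁻¹ ≤ 2 / (1 - x) := by
      rw [inv_eq_one_div, div_le_div_iff₀ (by linarith) h5]; linarith
    have h7 : (1 - x) * q ^ J ≤ s := by
      by_cases h8 : 1 - x ≤ s
      · exact (mul_le_of_le_one_right h5.le (pow_le_one₀ hq0 hq2.le)).trans h8
      · have h9 : q ^ J ≤ (1 - s / 2) ^ J := pow_le_pow_left₀ hq0 (by linarith) J
        exact (mul_le_of_le_one_left (by positivity) (by linarith)).trans (h9.trans hJ.le)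
    calc _ ≤ K / ((1 - x) / 2) ^ N * q ^ J * (2 / (1 - x)) * (1 - x) ^ (N + 2) := by
          gcongr
          exact h3.trans (by gcongr)
      _ = c * ((1 - x) * q ^ J) := by
          rw [hc, div_pow]; field_simp; ring
      _ ≤ c * s := by gcongr
      _ ≤ η := hs2

lemma sub_of_hol {ψ F : ℂ → ℂ} (hF : DifferentiableOn ℂ F (ball 0 1)) {θ : ℝ} (hθ : 0 < θ) {N : ℕ}
    (hN : 0 < N) (h1 : ∀ z ∈ ball (0:ℂ) 1, ‖F z‖ * (1 - ‖z‖ ^ 2) ^ N ≤ θ)
    (h2 : ∀ z ∈ ball (0:ℂ) 1, ‖F (ψ z)‖ * (1 - ‖z‖ ^ 2) ^ N ≤ θ) :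
    Sub ψ fun z => 1 / (2 * N) * Real.log (1 + ‖F z / θ‖ ^ 2) + -(1 / (2 * N) * Real.log 2) := by
  have hN' : (0:ℝ) < N := by exact_mod_cast hN
  have han : ∀ z ∈ ball (0:ℂ) 1, AnalyticAt ℂ (fun z => F z / θ) z := fun z hz =>
    (hF.div_const _).analyticAt (isOpen_ball.mem_nhds hz)
  have hc : ∀ z ∈ ball (0:ℂ) 1, ContDiffAt ℝ 2 (fun z => Real.log (1 + ‖F z / θ‖ ^ 2)) z :=
    fun z hz => (log_c2 _).comp z (hol_c2 (han z hz))
  have key : ∀ (y : ℂ) (w : ℝ), 0 < w → w ≤ 1 → ‖y‖ * w ^ N ≤ θ →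
      1 / (2 * N) * Real.log (1 + ‖y / θ‖ ^ 2) + -(1 / (2 * N) * Real.log 2) ≤ -Real.log w :=
    fun y w hw hw1 h => by
      have h3 : ‖y / θ‖ * w ^ N ≤ 1 := by
        rw [norm_div, Complex.norm_real, Real.norm_eq_abs, abs_of_pos hθ, div_mul_eq_mul_div,
          div_le_one hθ]
        exact h
      have h4 : w ^ N ≤ 1 := pow_le_one₀ hw.le hw1
      have h5 : 0 < w ^ N := pow_pos hw _
      have h6 : (1 + ‖y / θ‖ ^ 2) * (w ^ N) ^ 2 ≤ 2 := by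
        have := pow_le_one₀ (n := 2) (by positivity) h3
        have := pow_le_one₀ (n := 2) h5.le h4
        nlinarith
      have h7 := Real.log_le_log (by positivity) h6
      rw [Real.log_mul (by positivity) (by positivity), Real.log_pow, Real.log_pow] at h7
      rw [← sub_eq_add_neg, ← mul_sub, one_div_mul_eq_div, div_le_iff₀ (by positivity)]
      push_cast at h7
      linarith
  refine ⟨fun z hz => (contDiffAt_const.mul (hc z hz)).add contDiffAt_const, fun z hz => ?_,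
    fun z hz => key _ _ (one_sub_sq_pos hz) (by linarith [sq_nonneg ‖z‖]) (h1 z hz),
    fun z hz => key _ _ (one_sub_sq_pos hz) (by linarith [sq_nonneg ‖z‖]) (h2 z hz)⟩
  rw [lap_affine (hc z hz), lap_comp_hol (u := fun s => Real.log (1 + ‖s‖ ^ 2)) (log_c2 _) (han z hz)]
  have := lap_log_nonneg (F z / θ)
  positivity

lemma koebe_far {f : ℂ → ℂ} (hd : DifferentiableOn ℂ f (ball 0 1)) (hi : InjOn f (ball 0 1))
    {w : ℂ} (hw : w ∉ f '' ball 0 1) {a b : ℂ} (ha : a ∈ ball (0:ℂ) 1) (hb : b ∈ ball (0:ℂ) 1)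
    {k : ℝ} (hk0 : 0 < k) (hk : k ≤ (1 - ‖a‖) ^ 160 * (1 - ‖b‖) ^ 160) :
    ‖f b - f a‖ ≤ 2 * (1 + 1 / k) * ‖deriv f b‖ := by
  obtain ⟨w₀, hw₀, h1⟩ := koebe3 hd hi hw hb
  have h2 := (koebe2 hd hi hw₀ ha).2
  have h3 := (koebe2 hd hi hw₀ hb).1
  have h4 : 0 ≤ (1 - ‖b‖) ^ 160 := Even.pow_nonneg (by norm_num) _
  generalize (1 - ‖a‖) ^ 160 = s at *
  generalize (1 - ‖b‖) ^ 160 = t at *
  have h5 : ‖f a - w₀‖ ≤ 1 / k * ‖f b - w₀‖ := by
    rw [one_div_mul_eq_div, le_div_iff₀ hk0]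
    nlinarith [mul_le_mul_of_nonneg_left h2 h4, mul_le_mul_of_nonneg_left hk (norm_nonneg (f a - w₀))]
  have h6 := norm_sub_le (f b - w₀) (f a - w₀)
  rw [sub_sub_sub_cancel_right] at h6
  have h7 : 0 < 1 + 1 / k := by positivity
  nlinarith [mul_le_mul_of_nonneg_left h1 h7.le]

lemma build {ψ : ℂ → ℂ} (hd : DifferentiableOn ℂ ψ (ball 0 1)) (hm : MapsTo ψ (ball 0 1) (ball 0 1))
    (hi : InjOn ψ (ball 0 1)) {α : ℂ} (hα : α ∈ ball (0:ℂ) 1) (hα' : α ∉ ψ '' ball 0 1) {C η : ℝ}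
    (hC0 : 0 ≤ C) (hC : ‖ψ 0 - α‖ ≤ C * ‖deriv ψ 0‖) (hη : 1 - ‖α‖ ^ 2 ≤ η)
    (happ : ∀ G : ℂ → ℂ, DifferentiableOn ℂ G (ball 0 1) →
      (∀ z ∈ ball (0:ℂ) 1, ‖G z‖ * (1 - ‖z‖) ^ 160 ≤ 4) → ∃ u : ℂ → ℂ,
        DifferentiableOn ℂ u (ball 0 1) ∧ G1 u η ∧
        ∀ z ∈ ball (0:ℂ) 1, ‖u (ψ z) - G z‖ * (1 - ‖z‖) ^ 162 ≤ 2 * η) :
    ∃ F : ℂ → ℂ, DifferentiableOn ℂ F (ball 0 1) ∧ F α = 1 ∧
      (∀ z ∈ ball (0:ℂ) 1, ‖F z‖ * (1 - ‖z‖ ^ 2) ^ 162 ≤ 2 ^ 162 * (5 * (1 + 320 * C) * η)) ∧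
      ∀ z ∈ ball (0:ℂ) 1, ‖F (ψ z)‖ * (1 - ‖z‖ ^ 2) ^ 162 ≤ 2 ^ 162 * (5 * (1 + 320 * C) * η) := by
  have hα1 := mem_ball_zero_iff.1 hα
  have hα2 := one_sub_sq_pos hα
  have hη0 : 0 < η := hα2.trans_le hη
  set v : ℂ → ℂ := fun z => ((1 - ‖α‖ ^ 2 : ℝ) : ℂ) / (1 - conj α * z) with hv
  have hvd : DifferentiableOn ℂ v (ball 0 1) :=
    (differentiableOn_const _).div (by fun_prop) fun z hz => den_ne hα hz
  have hv1 : v α = 1 := by
    have h1 := den_ne hα hα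
    rw [hv, div_eq_one_iff_eq h1, Complex.conj_mul']
    push_cast; rfl
  have hvn : ∀ z ∈ ball (0:ℂ) 1, ‖v z‖ ≤ 2 ∧ ‖v z‖ * (1 - ‖z‖ ^ 2) ≤ 2 * η := fun z hz => by
    have h1 := den_pos hα hz
    have h2 : 1 - ‖α‖ * ‖z‖ ≤ ‖1 - conj α * z‖ := by
      simpa using norm_sub_norm_le (1:ℂ) (conj α * z)
    have h3 := mem_ball_zero_iff.1 hz
    have h4 := norm_nonneg z
    have h5 := norm_nonneg α
    rw [hv, norm_div, Complex.norm_real, Real.norm_eq_abs, abs_of_pos hα2, div_mul_eq_mul_div,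
      div_le_iff₀ h1, div_le_iff₀ h1]
    refine ⟨by nlinarith, ?_⟩
    have h6 : 1 - ‖z‖ ^ 2 ≤ 2 * ‖1 - conj α * z‖ := by nlinarith
    calc _ ≤ η * (2 * ‖1 - conj α * z‖) := mul_le_mul hη h6 (one_sub_sq_pos hz).le hη0.le
      _ = _ := by ring
  have hl : ∀ z ∈ ball (0:ℂ) 1, ψ z - α ≠ 0 := fun z hz h =>
    hα' ⟨z, hz, sub_eq_zero.1 h⟩
  have hp1 : ∀ z ∈ ball (0:ℂ) 1, ∀ N : ℕ, 0 < (1 - ‖z‖) ^ N ∧ (1 - ‖z‖) ^ N ≤ 1 := fun z hz N =>
    ⟨pow_pos (by simpa using hz) _, pow_le_one₀ (by simpa using (mem_ball_zero_iff.1 hz).le)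
      (by linarith [norm_nonneg z])⟩
  set G : ℂ → ℂ := fun z => v (ψ z) * (1 - (ψ 0 - α) / (ψ z - α)) with hG
  obtain ⟨u, hu, hu1, hu2⟩ := happ G ((hvd.comp hd hm).mul
    (((differentiableOn_const _).div (hd.sub_const α) hl).const_sub 1)) fun z hz => by
      have h1 := (koebe2 hd hi hα' hz).1
      have h2 := hp1 z hz 160
      have h3 := norm_pos_iff.2 (hl z hz)
      generalize (1 - ‖z‖) ^ 160 = k at *
      have h4 : ‖(ψ 0 - α) / (ψ z - α)‖ * k ≤ 1 := by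
        rw [norm_div, div_mul_eq_mul_div, div_le_one h3]; linarith
      have h5 := norm_sub_le 1 ((ψ 0 - α) / (ψ z - α))
      rw [norm_one] at h5
      rw [hG, norm_mul, mul_assoc]
      have h6 : ‖1 - (ψ 0 - α) / (ψ z - α)‖ * k ≤ 2 := by nlinarith
      exact (mul_le_mul (hvn _ (hm hz)).1 h6 (mul_nonneg (norm_nonneg _) h2.1.le)
        zero_le_two).trans (by norm_num)
  have hG0 : G 0 = 0 := by simp [hG, div_self (hl 0 zero_mem_U)]
  have hu0 : ‖u (ψ 0)‖ ≤ 2 * η := by simpa [hG0] using hu2 0 zero_mem_U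
  set F : ℂ → ℂ := fun z => v z - (z - α) * dslope u (ψ 0) z with hF
  have hFd : DifferentiableOn ℂ F (ball 0 1) := hvd.sub (DifferentiableOn.mul (by fun_prop)
    ((Complex.differentiableOn_dslope (isOpen_ball.mem_nhds (hm zero_mem_U))).2 hu))
  have hsub : ball (0:ℂ) (1 / 2) ⊆ ball 0 1 := ball_subset_ball (by norm_num)
  have hψ' := norm_pos_iff.2 (deriv_ne_zero_of_inj isOpen_ball hd hi zero_mem_U)
  set C₂ := 1 + 320 * C with hC₂
  have hC₂1 : 1 ≤ C₂ := by linarith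
  have hfar : ∀ ζ ∉ ψ '' ball 0 (1 / 2), ζ - ψ 0 ≠ 0 ∧ ‖(ζ - α) / (ζ - ψ 0)‖ ≤ C₂ ∧
      F ζ = v ζ - (ζ - α) / (ζ - ψ 0) * (u ζ - u (ψ 0)) := fun ζ hζ => by
    have h1 := koebe1 (by norm_num) (hd.mono hsub) (hi.mono hsub) hζ
    rw [norm_sub_rev] at h1
    have h2 : 0 < ‖ζ - ψ 0‖ := by linarith
    have h3 := norm_pos_iff.1 h2
    refine ⟨h3, ?_, ?_⟩
    · rw [norm_div, div_le_iff₀ h2]
      have h4 := norm_sub_le_norm_sub_add_norm_sub ζ (ψ 0) α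
      have h5 : C * ‖deriv ψ 0‖ ≤ C * (320 * ‖ζ - ψ 0‖) := by gcongr; linarith
      linarith
    · simp only [hF]
      rw [dslope_of_ne _ (sub_ne_zero.1 h3), slope_def_field]
      ring
  have hc1 : ∀ z ∈ ball (0:ℂ) 1, 1 / 2 ≤ ‖z‖ → ‖F (ψ z)‖ * (1 - ‖z‖) ^ 162 ≤ C₂ * (4 * η) :=
    fun z hz hz' => by
      obtain ⟨h1, h2, h3⟩ := hfar (ψ z) (by
        rintro ⟨y, hy, hy'⟩
        rw [hi (hsub hy) hz hy', mem_ball_zero_iff] at hy
        linarith)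
      have h4 : F (ψ z) = -((ψ z - α) / (ψ z - ψ 0) * (u (ψ z) - G z - u (ψ 0))) := by
        have := hl z hz
        rw [h3, hG]; field_simp; ring
      have h5 := hu2 z hz
      have h6 := hp1 z hz 162
      generalize (1 - ‖z‖) ^ 162 = k at *
      rw [h4, norm_neg, norm_mul, mul_assoc]
      refine mul_le_mul h2 ?_ (mul_nonneg (norm_nonneg _) h6.1.le) (by linarith)
      have h7 := mul_le_mul_of_nonneg_right (norm_sub_le (u (ψ z) - G z) (u (ψ 0))) h6.1.le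
      have h8 := mul_le_mul hu0 h6.2 h6.1.le (by positivity)
      linarith
  have h2p : (1:ℝ) ≤ 2 ^ 162 := one_le_pow₀ one_le_two
  have hc2 : ∀ z ∈ ball (0:ℂ) (1 / 2), ‖F (ψ z)‖ ≤ 2 ^ 162 * (C₂ * (4 * η)) := fun z hz => by
    refine Complex.norm_le_of_forall_mem_frontier_norm_le isBounded_ball
      ((hFd.comp hd hm).diffContOnCl_ball (closedBall_subset_ball (by norm_num)))
      (fun y hy => ?_) (subset_closure hz)
    rw [frontier_ball _ (by norm_num), mem_sphere_zero_iff_norm] at hy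
    have h1 := hc1 y (by rw [mem_ball_zero_iff, hy]; norm_num) hy.ge
    rw [hy, show (1:ℝ) - 1 / 2 = 2⁻¹ by norm_num, inv_pow, ← div_eq_mul_inv,
      div_le_iff₀' (by positivity)] at h1
    exact h1
  have hw : ∀ z ∈ ball (0:ℂ) 1, (1 - ‖z‖ ^ 2) ^ 162 ≤ 1 - ‖z‖ ^ 2 ∧ 1 - ‖z‖ ^ 2 ≤ 1 ∧
      (1 - ‖z‖ ^ 2) ^ 162 ≤ 2 ^ 162 * (1 - ‖z‖) ^ 162 := fun z hz => by
    have h1 := one_sub_sq_pos hz
    have h2 : 1 - ‖z‖ ^ 2 ≤ 1 := by linarith [sq_nonneg ‖z‖]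
    refine ⟨pow_le_of_le_one h1.le h2 (by norm_num), h2, ?_⟩
    rw [← mul_pow]
    exact pow_le_pow_left₀ h1.le (by nlinarith [sq_nonneg (1 - ‖z‖)]) _
  have hCη : 0 < C₂ * η := by positivity
  generalize (2:ℝ) ^ 162 = p at *
  have hc3 : ∀ z ∈ ball (0:ℂ) (1 / 2), ∀ y ∈ ball (0:ℂ) 1,
      ‖F (ψ z)‖ * (1 - ‖y‖ ^ 2) ^ 162 ≤ p * (5 * C₂ * η) := fun z hz y hy => by
    refine (mul_le_of_le_one_right (norm_nonneg _) ((hw y hy).1.trans (hw y hy).2.1)).trans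
      ((hc2 z hz).trans ?_)
    exact mul_le_mul_of_nonneg_left (by linarith) (by linarith)
  refine ⟨F, hFd, by simp [hF, hv1], fun ζ hζ => ?_, fun z hz => ?_⟩
  · by_cases h : ζ ∈ ψ '' ball 0 (1 / 2)
    · obtain ⟨z, hz, rfl⟩ := h
      exact hc3 z hz _ hζ
    · obtain ⟨-, h2, h3⟩ := hfar ζ h
      have h4 := one_sub_sq_pos hζ
      have h5 : ‖F ζ‖ ≤ ‖v ζ‖ + C₂ * (‖u ζ‖ + 2 * η) := by
        rw [h3]
        refine (norm_sub_le _ _).trans ?_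
        rw [norm_mul]
        gcongr
        exact (norm_sub_le _ _).trans (by linarith)
      have h6 := mul_le_mul_of_nonneg_right h5 h4.le
      have h7 := mul_le_mul_of_nonneg_left (hu1 ζ hζ) (by linarith : 0 ≤ C₂)
      have h8 := mul_le_mul_of_nonneg_left (hw ζ hζ).2.1 hCη.le
      have h9 := mul_le_mul_of_nonneg_right hC₂1 hη0.le
      refine (mul_le_mul_of_nonneg_left (hw ζ hζ).1 (norm_nonneg _)).trans ?_
      refine le_trans ?_ (le_mul_of_one_le_left (by positivity) h2p)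
      linarith [(hvn ζ hζ).2]
  · by_cases h : z ∈ ball (0:ℂ) (1 / 2)
    · exact hc3 z h z hz
    · rw [mem_ball_zero_iff, not_lt] at h
      refine (mul_le_mul_of_nonneg_left (hw z hz).2.2 (norm_nonneg _)).trans ?_
      rw [mul_left_comm]
      refine mul_le_mul_of_nonneg_left ((hc1 z hz h).trans ?_) (by linarith)
      linarith

theorem necessity {φ : ℂ → ℂ} (hd : DifferentiableOn ℂ φ (ball 0 1))
    (hm : MapsTo φ (ball 0 1) (ball 0 1)) (hc : Hypercyclic φ) : CritCpt φ := by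
  have hi := nec_inj hd hm hc
  have hfix := nec_fix hd hm hc
  intro m r hr M
  wlog hr0 : 0 ≤ r
  · exact ⟨m, le_rfl, fun a ha => absurd ((norm_nonneg a).trans ha) hr0⟩
  have hb := orb_mem hm m
  obtain ⟨k, hk0, hk⟩ : ∃ k : ℝ, 0 < k ∧ ∀ a : ℂ, ‖a‖ ≤ r →
      k ≤ (1 - ‖a‖) ^ 160 * (1 - ‖φ^[m] 0‖) ^ 160 :=
    ⟨(1 - r) ^ 160 * (1 - ‖φ^[m] 0‖) ^ 160,
      mul_pos (pow_pos (by linarith) _) (pow_pos (by simpa using hb) _), fun a ha =>
        mul_le_mul_of_nonneg_right (pow_le_pow_left₀ (by linarith) (by linarith) _)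
          (Even.pow_nonneg (by norm_num) _)⟩
  have hdm := norm_pos_iff.2 (deriv_ne_zero_of_inj isOpen_ball (iter_diffOn hd hm m)
    (iter_inj hm hi m) zero_mem_U)
  obtain ⟨C, hC⟩ : ∃ C, C = 2 * (1 + 1 / k) / ‖deriv φ^[m] 0‖ := ⟨_, rfl⟩
  have hC0 : 0 ≤ C := by rw [hC]; positivity
  obtain ⟨θ, hθ⟩ : ∃ θ, θ = Real.exp (-(162 * M + 1)) := ⟨_, rfl⟩
  have hθ0 : 0 < θ := by rw [hθ]; positivity
  obtain ⟨η, hη0, hη⟩ : ∃ η, 0 < η ∧ 2 ^ 162 * (5 * (1 + 320 * C) * η) = θ :=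
    ⟨θ / (2 ^ 162 * (5 * (1 + 320 * C))), by positivity, by field_simp⟩
  obtain ⟨J, B, hB0, hJ⟩ := trunc_unif 160 four_pos hη0
  have hr2 : 0 < 1 - r ^ 2 := by nlinarith
  obtain ⟨N, hN⟩ := eventually_atTop.1 (((((denjoy_wolff hd hm hfix zero_mem_U).pow 2).const_sub
    1).const_mul 4).eventually (gt_mem_nhds (show _ < (1 - r ^ 2) * η by
      simpa using mul_pos hr2 hη0)))
  obtain ⟨n, hn, u, hu⟩ := simul hd hm hc J (div_pos hη0 hB0) (N + m)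
  obtain ⟨l, rfl⟩ := Nat.exists_eq_add_of_le' ((Nat.le_add_left m N).trans hn)
  refine ⟨l + m, Nat.le_add_left _ _, fun a ha ha' => ?_⟩
  rw [Nat.add_sub_cancel]
  have haU : a ∈ ball (0:ℂ) 1 := mem_ball_zero_iff.2 (ha.trans_lt hr)
  have h0 := isOpen_ball.mem_nhds zero_mem_U
  obtain ⟨F, hF, hF1, hF2, hF3⟩ := build (iter_diffOn hd hm (l + m)) (hm.iterate _) (iter_inj hm hi _)
    (hm.iterate l haU) (by
      rintro ⟨z, hz, hz'⟩
      rw [Function.iterate_add_apply] at hz'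
      exact ha' ⟨z, hz, iter_inj hm hi l (hm.iterate m hz) haU hz'⟩) hC0 (by
      have h1 := koebe_far (iter_diffOn hd hm l) (iter_inj hm hi l) (not_mem_img (hm.iterate l))
        haU hb hk0 (hk a ha)
      have h2 := (((iter_diffOn hd hm l).differentiableAt (isOpen_ball.mem_nhds hb)).hasDerivAt.comp 0
        ((iter_diffOn hd hm m).differentiableAt h0).hasDerivAt).deriv
      rw [Function.iterate_add, h2, norm_mul, hC]
      refine h1.trans (le_of_eq ?_)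
      field_simp) (η := η) (by
      have h1 := (weight_le (iter_diffOn hd hm l) (hm.iterate l) haU).1
      have h2 := hN l (by omega)
      have h3 : 1 - r ^ 2 ≤ 1 - ‖a‖ ^ 2 := by gcongr
      have h4 := mul_le_mul_of_nonneg_right h3 (one_sub_sq_pos (hm.iterate l haU)).le
      exact le_of_mul_le_mul_left (by linarith) hr2) (fun G hG hG' => by
      obtain ⟨h1, h2⟩ := hJ G hG hG'
      have h3 : ∀ (h : ℕ → ℂ → ℂ), (∀ i < J, G1 (h i) (η / B)) →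
          G1 (fun z => ∑ i ∈ Finset.range J, tc G i * h i z) η := fun h hh z hz => by
        calc _ ≤ (∑ i ∈ Finset.range J, ‖tc G i * h i z‖) * (1 - ‖z‖ ^ 2) :=
              mul_le_mul_of_nonneg_right (norm_sum_le _ _) (one_sub_sq_pos hz).le
          _ = ∑ i ∈ Finset.range J, ‖tc G i‖ * (‖h i z‖ * (1 - ‖z‖ ^ 2)) := by
              simp only [Finset.sum_mul, norm_mul, mul_assoc]
          _ ≤ ∑ i ∈ Finset.range J, ‖tc G i‖ * (η / B) := Finset.sum_le_sum fun i hi =>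
              mul_le_mul_of_nonneg_left (hh i (Finset.mem_range.1 hi) z hz) (norm_nonneg _)
          _ ≤ B * (η / B) := by rw [← Finset.sum_mul]; gcongr
          _ = η := by field_simp
      refine ⟨fun z => ∑ i ∈ Finset.range J, tc G i * u i z,
        DifferentiableOn.fun_sum fun i hi => (hu i (Finset.mem_range.1 hi)).1.const_mul _,
        h3 u fun i hi => (hu i hi).2.1, fun z hz => ?_⟩
      have h4 := h3 _ (fun i hi => (hu i hi).2.2) z hz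
      have h5 := h2 z hz
      have hz1 := mem_ball_zero_iff.1 hz
      have hz0 := norm_nonneg z
      have h6 : (1 - ‖z‖) ^ 162 ≤ 1 - ‖z‖ ^ 2 :=
        (pow_le_of_le_one (by linarith) (by linarith) (by norm_num)).trans (by nlinarith)
      have h7 : 0 ≤ (1 - ‖z‖) ^ 162 := Even.pow_nonneg (by norm_num) _
      simp only [mul_sub, Finset.sum_sub_distrib] at h4
      have h8 := norm_sub_le_norm_sub_add_norm_sub
        (∑ i ∈ Finset.range J, tc G i * u i (φ^[l + m] z)) (∑ i ∈ Finset.range J, tc G i * z ^ i) (G z)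
      have h9 := mul_le_mul_of_nonneg_right h8 h7
      have h10 := mul_le_mul_of_nonneg_left h6 (norm_nonneg
        (∑ i ∈ Finset.range J, tc G i * u i (φ^[l + m] z) - ∑ i ∈ Finset.range J, tc G i * z ^ i))
      rw [norm_sub_rev] at h5
      generalize (1 - ‖z‖) ^ 162 = p at *
      linarith)
  rw [hη] at hF2 hF3
  refine ⟨_, sub_of_hol hF hθ0 (by norm_num) hF2 hF3, ?_⟩
  have h1 : 324 * M + 2 ≤ Real.log (1 + ‖(1:ℂ) / θ‖ ^ 2) := by
    rw [Real.le_log_iff_exp_le (by positivity), norm_div, norm_one, Complex.norm_real,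
      Real.norm_eq_abs, abs_of_pos hθ0, hθ, Real.exp_neg, one_div, inv_inv, ← Real.exp_nat_mul]
    have : ((2:ℕ):ℝ) * (162 * M + 1) = 324 * M + 2 := by push_cast; ring
    rw [this]; linarith
  have h2 := Real.log_two_lt_d9
  simp only [hF1]
  push_cast
  linarith

end Pool.Agent.Lib.MP_6c91ae_an
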