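import Pool.Agent.Lib.MP_6c91ae_an.ChH2
import Pool.Agent.Lib.MP_6c91ae_an.ChDual

namespace Pool.Agent.Lib.MP_6c91ae_an

open Metric Complex Set Filter Topology MeasureTheory
open scoped Real ENNReal NNReal

/-- subharmonic functions below both obstacles -/
structure Sub (φ : ℂ → ℂ) (u : ℂ → ℝ) : Prop where
  cd : ∀ z ∈ ball (0:ℂ) 1, ContDiffAt ℝ 2 u z
  lp : ∀ z ∈ ball (0:ℂ) 1, 0 ≤ lap u z
  le1 : ∀ z ∈ ball (0:ℂ) 1, u z ≤ -Real.log (1 - ‖z‖ ^ 2)
  le2 : ∀ z ∈ ball (0:ℂ) 1, u (φ z) ≤ -Real.log (1 - ‖z‖ ^ 2)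

lemma exp_mul_le {x a : ℝ} (ha : 0 < a) (h : x ≤ -Real.log a) : Real.exp x * a ≤ 1 := by
  have := Real.exp_le_exp.2 h
  rw [Real.exp_neg, Real.exp_log ha] at this
  calc Real.exp x * a ≤ a⁻¹ * a := by gcongr
    _ = 1 := inv_mul_cancel₀ ha.ne'

lemma not_mem_img {ψ : ℂ → ℂ} {R : ℝ} (hm : MapsTo ψ (ball 0 1) (ball 0 R)) :
    (R:ℂ) ∉ ψ '' ball 0 1 := fun h => by
  have := mem_ball_zero_iff.1 (hm.image_subset h)
  rw [Complex.norm_real, Real.norm_eq_abs] at this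
  linarith [le_abs_self R]

lemma koebe_box {r : ℝ} (hr : r < 1) : ∃ ε ρ : ℝ, 0 < ε ∧ ε ≤ 1 ∧ 1 ≤ ρ ∧
    ∀ (ψ : ℂ → ℂ) (w : ℂ), DifferentiableOn ℂ ψ (ball 0 1) → InjOn ψ (ball 0 1) →
    w ∉ ψ '' ball 0 1 → ψ 0 = 0 → ‖deriv ψ 0‖ = 1 → ∀ x ∈ ψ '' closedBall 0 r,
      2 * ε < infDist x (ψ '' ball 0 1)ᶜ ∧ ‖x‖ < ρ := by
  wlog hr0 : 0 ≤ r
  · refine ⟨1, 1, one_pos, le_rfl, le_rfl, fun ψ w _ _ _ _ _ x hx => ?_⟩
    rw [closedBall_eq_empty.2 (not_le.1 hr0), image_empty] at hx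
    exact hx.elim
  have h1 : 0 < (1 - r) ^ 160 := pow_pos (by linarith) _
  have h2 : (1 - r) ^ 160 ≤ 1 := pow_le_one₀ (by linarith) (by linarith)
  have h3 : ∀ z : ℂ, ‖z‖ ≤ r → (1 - r) ^ 160 ≤ (1 - ‖z‖) ^ 160 := fun z hz =>
    pow_le_pow_left₀ (by linarith) (by linarith) _
  generalize (1 - r) ^ 160 = k at *
  refine ⟨k / 400, 2 / k + 3, by positivity, by linarith,
    by have : 0 < 2 / k := by positivity
       linarith, ?_⟩
  rintro ψ w hd hi hw h0 h1' _ ⟨z, hz, rfl⟩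
  have hzU := closedBall_subset_ball hr hz
  have h3' := h3 z (mem_closedBall_zero_iff.1 hz)
  constructor
  · refine lt_of_lt_of_le (show _ < k / 160 by linarith)
      ((le_infDist ⟨w, hw⟩).2 fun y hy => ?_)
    have h4 := koebe1 one_pos hd hi hy
    have h5 := (koebe2 hd hi hy hzU).1
    rw [h1'] at h4
    rw [dist_eq_norm]
    generalize (1 - ‖z‖) ^ 160 = l at *
    have h6 : k * (1 / 160) ≤ l * ‖ψ 0 - y‖ :=
      mul_le_mul h3' (by linarith) (by norm_num) (by linarith)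
    linarith
  · obtain ⟨w₀, hw₀, h4⟩ := koebe3 hd hi hw zero_mem_U
    have h5 := (koebe2 hd hi hw₀ hzU).2
    rw [h1'] at h4
    generalize (1 - ‖z‖) ^ 160 = l at *
    have h6 : ‖ψ z - w₀‖ ≤ 2 / k := by
      rw [le_div_iff₀ h1]
      have := mul_le_mul_of_nonneg_right h3' (norm_nonneg (ψ z - w₀))
      linarith
    rw [h0, zero_sub, norm_neg] at h4
    have := norm_sub_norm_le (ψ z) w₀
    linarith

lemma core {g : ℂ → ℂ} (hg : DifferentiableOn ℂ g (ball 0 1)) {B : ℝ}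
    (hB : ∀ z ∈ ball (0:ℂ) 1, ‖deriv g z‖ ≤ B) {η : ℝ} (hη : 0 < η) :
    ∃ ε ρ M : ℝ, 0 < ε ∧ ∀ (R : ℝ) (ψ σ φ : ℂ → ℂ),
    DifferentiableOn ℂ ψ (ball 0 1) → InjOn ψ (ball 0 1) → ψ 0 = 0 → ‖deriv ψ 0‖ = 1 →
    DifferentiableOn ℂ σ (ball 0 1) → InjOn σ (ball 0 1) → σ '' ball 0 1 = ball 0 R →
    MapsTo φ (ball 0 1) (ball 0 1) → (∀ z ∈ ball (0:ℂ) 1, σ (φ z) = ψ z) →
    (∀ y ∉ ψ '' ball 0 1, ‖y‖ ≤ ρ → ∃ c, ‖c - y‖ ≤ ε ∧
      (c ∉ ball (0:ℂ) R ∨ ∃ u, Sub φ u ∧ ∃ ζ ∈ ball (0:ℂ) 1, σ ζ = c ∧ M ≤ u ζ)) →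
    ∃ F : ℂ → ℂ, DifferentiableOn ℂ F (ball 0 1) ∧
      A2 (fun z => F (φ z) - g z) ≤ ENNReal.ofReal η ∧
      A2 F ≤ ENNReal.ofReal η +
        ENNReal.ofReal (2 * B ^ 2) * ∫⁻ z in ball 0 1, ENNReal.ofReal (1 - ‖φ z‖ ^ 2) := by
  have hpi := Real.pi_pos
  obtain ⟨r, hr0, hr1, hr⟩ : ∃ r : ℝ, 0 ≤ r ∧ r < 1 ∧
      8 * (3000000 * (B ^ 2 * (π - π * r ^ 2))) ≤ η := by
    have h1 : ContinuousAt (fun r : ℝ => 8 * (3000000 * (B ^ 2 * (π - π * r ^ 2)))) 1 := by fun_prop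
    have h2 := h1.eventually_lt (continuousAt_const (y := η)) (by simpa using hη)
    obtain ⟨r, h3, h4⟩ := ((h2.filter_mono (nhdsWithin_le_nhds (s := Iio 1))).and
      (Ioo_mem_nhdsLT zero_lt_one)).exists
    exact ⟨r, h4.1.le, h4.2, h3.le⟩
  obtain ⟨ε, ρ, hε, hε1, hρ, hbox⟩ := koebe_box hr1
  obtain ⟨M, hM⟩ := main_est hε hε1 hρ
  refine ⟨ε, 2 * ρ + 3, M, hε, fun R ψ σ φ hψ hψi hψ0 hψ1 hσ hσi hσs hφ hφψ hcen => ?_⟩
  set G := ψ '' ball 0 1 with hG
  have hGo : IsOpen G := isOpen_img isOpen_ball hψ hψi isOpen_ball subset_rfl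
  have hψm : MapsTo ψ (ball 0 1) (ball 0 R) := fun z hz => by
    rw [← hφψ z hz, ← hσs]; exact mem_image_of_mem σ (hφ hz)
  have hGW : G ⊆ ball 0 R := hψm.image_subset
  have hw := not_mem_img hψm
  set ψi := Function.invFunOn ψ (ball 0 1) with hψi'
  set σi := Function.invFunOn σ (ball 0 1) with hσi'
  have hψd : DifferentiableOn ℂ ψi G := inv_diffOn isOpen_ball hψ hψi
  have hσd : DifferentiableOn ℂ σi (ball 0 R) := hσs ▸ inv_diffOn isOpen_ball hσ hσi
  have hσU : ∀ s ∈ ball (0:ℂ) R, σi s ∈ ball (0:ℂ) 1 := fun s hs => inv_mem (hσs ▸ hs)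
  have hσψ : ∀ z ∈ ball (0:ℂ) 1, σi (ψ z) = φ z := fun z hz => by
    rw [← hφψ z hz]; exact inv_left hσi (hφ hz)
  classical
  set a : ℂ → ℝ := G.piecewise (fun s => 1 - ‖ψi s‖ ^ 2) fun _ => 0 with ha
  set b : ℂ → ℝ := (ball (0:ℂ) R).piecewise (fun s => 1 - ‖σi s‖ ^ 2) fun _ => 1 with hb
  have hac : ContinuousOn (fun s => 1 - ‖ψi s‖ ^ 2) G :=
    continuousOn_const.sub (hψd.continuousOn.norm.pow 2)
  have hbc : ContinuousOn (fun s => 1 - ‖σi s‖ ^ 2) (ball 0 R) :=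
    continuousOn_const.sub (hσd.continuousOn.norm.pow 2)
  have ham : Measurable a := hac.measurable_piecewise continuousOn_const hGo.measurableSet
  have hbm : Measurable b := hbc.measurable_piecewise continuousOn_const measurableSet_ball
  have haψ : ∀ z ∈ ball (0:ℂ) 1, a (ψ z) = 1 - ‖z‖ ^ 2 := fun z hz => by
    rw [ha, piecewise_eq_of_mem _ _ _ (mem_image_of_mem ψ hz), hψi', inv_left hψi hz]
  have hbW : ∀ s ∈ ball (0:ℂ) R, b s = 1 - ‖σi s‖ ^ 2 := fun s hs => piecewise_eq_of_mem _ _ _ hs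
  have ha0 : ∀ s ∉ G, a s = 0 := fun s hs => piecewise_eq_of_notMem _ _ _ hs
  have ha1 : ∀ s, 0 ≤ a s ∧ a s ≤ 1 := fun s => by
    by_cases hs : s ∈ G
    · obtain ⟨z, hz, rfl⟩ := hs
      rw [haψ z hz]
      exact ⟨(one_sub_sq_pos hz).le, by linarith [sq_nonneg ‖z‖]⟩
    · rw [ha0 s hs]; exact ⟨le_rfl, zero_le_one⟩
  have hb1 : ∀ s, 0 < b s ∧ b s ≤ 1 := fun s => by
    by_cases hs : s ∈ ball (0:ℂ) R
    · rw [hbW s hs]
      exact ⟨one_sub_sq_pos (hσU s hs), by linarith [sq_nonneg ‖σi s‖]⟩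
    · rw [hb, piecewise_eq_of_notMem _ _ _ hs]; exact ⟨one_pos, le_rfl⟩
  have hab : ∀ s, 0 < a s + b s := fun s => by linarith [(ha1 s).1, (hb1 s).1]
  set Θ : ℂ → ℝ := fun s => 2 / (a s + b s) with hΘ
  have hΘm : Measurable Θ := measurable_const.div (ham.add hbm)
  have hΘ1 : ∀ s, 1 ≤ Θ s := fun s => by
    rw [hΘ, le_div_iff₀ (hab s)]; linarith [(ha1 s).2, (hb1 s).2]
  have hΘb : ∀ K ⊆ ball (0:ℂ) R, IsCompact K → ∃ B, ∀ z ∈ K, Θ z ≤ B := fun K hK hK' => by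
    obtain ⟨C, hC⟩ := hK'.exists_bound_of_continuousOn
      (f := fun s => 2 / (1 - ‖σi s‖ ^ 2)) (continuousOn_const.div (hbc.mono hK)
        fun s hs => (one_sub_sq_pos (hσU s (hK hs))).ne')
    refine ⟨C, fun s hs => le_trans ?_ ((le_abs_self _).trans (hC s hs))⟩
    rw [← hbW s (hK hs)]
    exact div_le_div_of_nonneg_left zero_le_two (hb1 s).1 (by linarith [(ha1 s).1])
  have hΘ3 : ∀ s ∈ ball (0:ℂ) (1 / 320), Θ s ≤ 3 := fun s hs => by
    have hsub : ball (0:ℂ) (1 / 2) ⊆ ball 0 1 := ball_subset_ball (by norm_num)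
    have h1 : s ∈ ψ '' ball 0 (1 / 2) := by
      by_contra hcon
      have h2 := koebe1 (by norm_num) (hψ.mono hsub) (hψi.mono hsub) hcon
      rw [hψ1, hψ0, zero_sub, norm_neg] at h2
      rw [mem_ball_zero_iff] at hs
      linarith
    obtain ⟨z, hz, rfl⟩ := h1
    rw [hΘ, div_le_iff₀ (hab _), haψ z (hsub hz)]
    rw [mem_ball_zero_iff] at hz
    nlinarith [norm_nonneg z, (hb1 (ψ z)).1]
  have hgood : ∀ y ∉ G, ‖y‖ ≤ 2 * ρ + 3 → ∃ c, ‖c - y‖ ≤ ε ∧ Good R Θ M c := fun y hy hy' => by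
    obtain ⟨c, hc, h | ⟨u, hu, ζ, hζ, rfl, hM⟩⟩ := hcen y hy hy'
    · refine ⟨c, hc, fun _ => 0, ⟨fun _ _ => contDiffAt_const, fun z _ => ?_, fun z _ => ?_⟩,
        fun h' => (h h').elim⟩
      · have := lap_affine (u := fun _ => 0) (z := z) contDiffAt_const 0 0
        simp only [mul_zero, add_zero, zero_mul] at this
        exact this.ge
      · rw [Real.exp_zero]; exact hΘ1 z
    · have han : ∀ s ∈ ball (0:ℂ) R, AnalyticAt ℂ σi s := fun s hs =>
        hσd.analyticAt (isOpen_ball.mem_nhds hs)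
      refine ⟨_, hc, fun s => u (σi s), ⟨fun s hs => (hu.cd _ (hσU s hs)).comp s (hol_c2 (han s hs)),
        fun s hs => ?_, fun s hs => ?_⟩, fun _ => ?_⟩
      · rw [lap_comp_hol (hu.cd _ (hσU s hs)) (han s hs)]
        exact mul_nonneg (sq_nonneg _) (hu.lp _ (hσU s hs))
      · rw [hΘ, le_div_iff₀ (hab s), mul_add]
        have h1 : Real.exp (u (σi s)) * b s ≤ 1 := by
          rw [hbW s hs]
          exact exp_mul_le (one_sub_sq_pos (hσU s hs)) (hu.le1 _ (hσU s hs))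
        have h2 : Real.exp (u (σi s)) * a s ≤ 1 := by
          by_cases hsG : s ∈ G
          · obtain ⟨z, hz, rfl⟩ := hsG
            rw [haψ z hz, hσψ z hz]
            exact exp_mul_le (one_sub_sq_pos hz) (hu.le2 z hz)
          · rw [ha0 s hsG, mul_zero]; exact zero_le_one
        linarith
      · simp only [hσi', inv_left hσi hζ]
        exact hM
  have hψ' : ∀ z ∈ ball (0:ℂ) 1, deriv ψ z ≠ 0 := fun z hz =>
    deriv_ne_zero_of_inj isOpen_ball hψ hψi hz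
  set P : ℂ → ℂ := fun s => deriv g (ψi s) / deriv ψ (ψi s) with hP
  have hmi : MapsTo ψi G (ball 0 1) := fun s hs => inv_mem hs
  have hPd : DifferentiableOn ℂ P G := ((hg.deriv isOpen_ball).comp hψd hmi).div
    ((hψ.deriv isOpen_ball).comp hψd hmi) fun s hs => hψ' _ (hmi hs)
  have hPψ : ∀ z ∈ ball (0:ℂ) 1, deriv ψ z * P (ψ z) = deriv g z := fun z hz => by
    simp only [hP, hψi', inv_left hψi hz]
    exact mul_div_cancel₀ _ (hψ' z hz)
  have hPψ' : ∀ z ∈ ball (0:ℂ) 1, ‖deriv ψ z‖ ^ 2 * ‖P (ψ z)‖ ^ 2 ≤ B ^ 2 := fun z hz => by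
    rw [← mul_pow, ← norm_mul, hPψ z hz]
    exact pow_le_pow_left₀ (norm_nonneg _) (hB z hz) 2
  have hPl : ∀ s ⊆ ball (0:ℂ) 1, MeasurableSet s →
      ∫⁻ y in ψ '' s, ENNReal.ofReal (‖P y‖ ^ 2) ≤ ENNReal.ofReal (B ^ 2) * volume s :=
    fun s hs hs' => by
      rw [cov isOpen_ball hψ hψi hs' hs, ← setLIntegral_const]
      refine setLIntegral_mono' hs' fun z hz => ?_
      rw [← ENNReal.ofReal_mul (by positivity)]
      exact ENNReal.ofReal_le_ofReal (hPψ' z (hs hz))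
  have hPi : IntegrableOn (fun z => ‖P z‖ ^ 2) G := by
    refine (lintegral_ofReal_ne_top_iff_integrable
      ((hPd.continuousOn.norm.pow 2).aestronglyMeasurable hGo.measurableSet)
      (Eventually.of_forall fun z => sq_nonneg _)).1
      (ne_top_of_le_ne_top ?_ (hPl _ subset_rfl measurableSet_ball))
    exact ENNReal.mul_ne_top ENNReal.ofReal_ne_top measure_ball_lt_top.ne
  have hcb : closedBall (0:ℂ) r ⊆ ball 0 1 := closedBall_subset_ball hr1
  have hBm : MeasurableSet (ψ '' closedBall 0 r) :=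
    ((isCompact_closedBall (0:ℂ) r).image_of_continuousOn (hψ.continuousOn.mono hcb)).measurableSet
  have hκ : ∫ z in G \ ψ '' closedBall 0 r, ‖P z‖ ^ 2 ≤ B ^ 2 * (π - π * r ^ 2) := by
    have h0 : 0 ≤ π - π * r ^ 2 := by nlinarith [pow_le_one₀ hr0 hr1.le (n := 2)]
    rw [← ENNReal.ofReal_le_ofReal_iff (by positivity), ofReal_integral_eq_lintegral_ofReal
      (hPi.mono_set sdiff_subset) (Eventually.of_forall fun z => by positivity), hG,
      ← hψi.image_sdiff_subset hcb]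
    refine (hPl _ sdiff_subset (measurableSet_ball.diff measurableSet_closedBall)).trans ?_
    rw [measure_sdiff hcb measurableSet_closedBall.nullMeasurableSet measure_closedBall_lt_top.ne,
      Measure.addHaar_closedBall_eq_addHaar_ball, vol_ball zero_le_one, vol_ball hr0,
      ← ENNReal.ofReal_sub _ (by positivity), ← ENNReal.ofReal_mul (by positivity), one_pow, mul_one]
  obtain ⟨w₀, hw₀, hw₀'⟩ := koebe3 hψ hψi hw zero_mem_U
  rw [hψ0, hψ1, zero_sub, norm_neg, mul_one] at hw₀'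
  obtain ⟨H, hH, hHQ⟩ := dual hΘm hΘ1 hΘb (Q := G.indicator P)
    ((aestronglyMeasurable_indicator_iff hGo.measurableSet).2
      (hPd.continuousOn.aestronglyMeasurable hGo.measurableSet))
    (((integrable_indicator_iff hGo.measurableSet).2 hPi).congr
      (Eventually.of_forall fun z => by by_cases hz : z ∈ G <;> simp [hz]))
    (η := 3000000 * (B ^ 2 * (π - π * r ^ 2))) (fun f hf => by
      have hI := hf.int_theta hΘm hΘ1 hΘb
      obtain ⟨h1, h2⟩ := hM R Θ G f hf hΘ1 hΘ3 hI ⟨w₀, hw₀, hw₀'⟩ hgood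
      have h0 : ∫ z, ‖Dz f z‖ ^ 2 ≤ ∫ z, ‖Dz f z‖ ^ 2 * Θ z :=
        integral_mono (by simpa using hf.int_Dz (k := fun _ => 1) fun _ _ => continuousAt_const)
          hI fun z => le_mul_of_one_le_right (sq_nonneg _) (hΘ1 z)
      have h3 := cut_est hGo hε hε1 hρ hf hPd hPi hBm (hbox ψ _ hψ hψi hw hψ0 hψ1) h0 h1 h2
      have h4 : ∫ z, Dz f z * G.indicator P z = ∫ z in G, Dz f z * P z := by
        rw [← integral_indicator hGo.measurableSet]
        refine integral_congr_ae (Eventually.of_forall fun z => ?_)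
        by_cases hz : z ∈ G <;> simp [hz]
      rw [h4]
      linarith)
  obtain ⟨Y, hY⟩ := hH.isExactOn_ball
  have hσm : MapsTo σ (ball 0 1) (ball 0 R) := fun z hz => hσs ▸ mem_image_of_mem σ hz
  have hF : ∀ z ∈ ball (0:ℂ) 1, HasDerivAt (fun z => Y (σ z)) (H (σ z) * deriv σ z) z :=
    fun z hz => (hY _ (hσm hz)).comp z (hσ.differentiableAt (isOpen_ball.mem_nhds hz)).hasDerivAt
  set η₀ := 3000000 * (B ^ 2 * (π - π * r ^ 2)) with hη₀
  have hdiv : ∀ (x : ℝ) (s : ℂ), x / Θ s = x * (a s + b s) / 2 := fun x s => by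
    have := (hab s).ne'
    simp only [hΘ]; field_simp
  refine ⟨fun z => Y (σ z), fun z hz => (hF z hz).differentiableAt.differentiableWithinAt, ?_, ?_⟩
  · have h1 : A2 (fun z => Y (σ (φ z)) - g z) =
        ∫⁻ s in G, ENNReal.ofReal (‖H s - P s‖ ^ 2 * a s) := by
      rw [hG, cov isOpen_ball hψ hψi measurableSet_ball subset_rfl]
      refine setLIntegral_congr_fun measurableSet_ball fun z hz => ?_
      have h2 : HasDerivAt (fun z => Y (ψ z) - g z) (H (ψ z) * deriv ψ z - deriv g z) z :=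
        ((hY _ (hψm hz)).comp z (hψ.differentiableAt (isOpen_ball.mem_nhds hz)).hasDerivAt).sub
          (hg.differentiableAt (isOpen_ball.mem_nhds hz)).hasDerivAt
      have h3 : (fun z => Y (σ (φ z)) - g z) =ᶠ[𝓝 z] fun z => Y (ψ z) - g z := by
        filter_upwards [isOpen_ball.mem_nhds hz] with y hy
        rw [hφψ y hy]
      rw [h3.deriv_eq, h2.deriv, ← ENNReal.ofReal_mul (by positivity), haψ z hz, ← hPψ z hz,
        ← mul_assoc, ← mul_pow, ← norm_mul]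
      congr 4
      ring
    rw [h1]
    calc _ ≤ ∫⁻ s in G, 2 * ENNReal.ofReal (‖H s - G.indicator P s‖ ^ 2 / Θ s) := by
          refine setLIntegral_mono' hGo.measurableSet fun s hs => ?_
          rw [indicator_of_mem hs, ← ENNReal.ofReal_ofNat 2, ← ENNReal.ofReal_mul zero_le_two, hdiv]
          refine ENNReal.ofReal_le_ofReal ?_
          nlinarith [mul_nonneg (sq_nonneg ‖H s - P s‖) (hb1 s).1.le]
      _ ≤ ∫⁻ s in ball 0 R, 2 * ENNReal.ofReal (‖H s - G.indicator P s‖ ^ 2 / Θ s) :=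
          lintegral_mono_set hGW
      _ ≤ 2 * ENNReal.ofReal (2 * η₀) := by
          rw [lintegral_const_mul' _ _ (by simp)]; gcongr
      _ ≤ _ := by
          rw [← ENNReal.ofReal_ofNat 2, ← ENNReal.ofReal_mul zero_le_two]
          refine ENNReal.ofReal_le_ofReal ?_
          linarith
  · have h1 : A2 (fun z => Y (σ z)) = ∫⁻ s in ball 0 R, ENNReal.ofReal (‖H s‖ ^ 2 * b s) := by
      rw [← hσs, cov isOpen_ball hσ hσi measurableSet_ball subset_rfl]
      refine setLIntegral_congr_fun measurableSet_ball fun z hz => ?_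
      rw [(hF z hz).deriv, ← ENNReal.ofReal_mul (by positivity), hbW _ (hσm hz), hσi',
        inv_left hσi hz, norm_mul]
      congr 1
      ring
    have h2 : ∫⁻ s in G, ENNReal.ofReal (2 * (‖P s‖ ^ 2 * b s)) ≤
        ENNReal.ofReal (2 * B ^ 2) * ∫⁻ z in ball 0 1, ENNReal.ofReal (1 - ‖φ z‖ ^ 2) := by
      rw [hG, cov isOpen_ball hψ hψi measurableSet_ball subset_rfl,
        ← lintegral_const_mul' _ _ ENNReal.ofReal_ne_top]
      refine setLIntegral_mono' measurableSet_ball fun z hz => ?_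
      rw [← ENNReal.ofReal_mul (by positivity), ← ENNReal.ofReal_mul (by positivity),
        hbW _ (hψm hz), hσψ z hz]
      refine ENNReal.ofReal_le_ofReal ?_
      have := mul_le_mul_of_nonneg_right (hPψ' z hz) (one_sub_sq_pos (hφ hz)).le
      linarith
    have h3 : AEMeasurable (G.indicator fun s => ENNReal.ofReal (2 * (‖P s‖ ^ 2 * b s)))
        (volume.restrict (ball 0 R)) := by
      refine AEMeasurable.restrict ((aemeasurable_indicator_iff hGo.measurableSet).2 ?_)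
      exact ((((hPd.continuousOn.norm.pow 2).aemeasurable hGo.measurableSet).mul
        hbm.aemeasurable).const_mul 2).ennreal_ofReal
    rw [h1]
    calc _ ≤ ∫⁻ s in ball 0 R, 4 * ENNReal.ofReal (‖H s - G.indicator P s‖ ^ 2 / Θ s) +
          G.indicator (fun s => ENNReal.ofReal (2 * (‖P s‖ ^ 2 * b s))) s := by
          refine lintegral_mono fun s => ?_
          have h4 := (ha1 s).1
          have h5 := (hb1 s).1
          rw [← ENNReal.ofReal_ofNat 4, ← ENNReal.ofReal_mul (by norm_num), hdiv]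
          by_cases hs : s ∈ G
          · rw [indicator_of_mem hs, indicator_of_mem hs,
              ← ENNReal.ofReal_add (by positivity) (by positivity)]
            refine ENNReal.ofReal_le_ofReal ?_
            have h6 : ‖H s‖ ≤ ‖H s - P s‖ + ‖P s‖ := by
              simpa using norm_add_le (H s - P s) (P s)
            have h7 : ‖H s‖ ^ 2 ≤ 2 * ‖H s - P s‖ ^ 2 + 2 * ‖P s‖ ^ 2 := by
              have := pow_le_pow_left₀ (norm_nonneg _) h6 2
              nlinarith [sq_nonneg (‖H s - P s‖ - ‖P s‖)]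
            nlinarith [mul_le_mul_of_nonneg_right h7 h5.le, mul_nonneg (sq_nonneg ‖H s - P s‖) h4]
          · rw [indicator_of_notMem hs, indicator_of_notMem hs, add_zero, sub_zero]
            refine ENNReal.ofReal_le_ofReal ?_
            nlinarith [mul_nonneg (sq_nonneg ‖H s‖) h4, mul_nonneg (sq_nonneg ‖H s‖) h5.le]
      _ ≤ 4 * ENNReal.ofReal (2 * η₀) + ∫⁻ s in G, ENNReal.ofReal (2 * (‖P s‖ ^ 2 * b s)) := by
          rw [lintegral_add_right' _ h3, lintegral_const_mul' _ _ (by simp),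
            ← lintegral_indicator hGo.measurableSet]
          gcongr
          exact Measure.restrict_le_self
      _ ≤ _ := by
          gcongr
          rw [← ENNReal.ofReal_ofNat 4, ← ENNReal.ofReal_mul (by norm_num)]
          refine ENNReal.ofReal_le_ofReal ?_
          linarith

end Pool.Agent.Lib.MP_6c91ae_an
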