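import Pool.Agent.Lib.MP_6c91ae_an.ChLap

namespace Pool.Agent.Lib.MP_6c91ae_an

open Metric Complex Set Filter Topology MeasureTheory
open scoped Real Interval

lemma lap_contAt {u : ℂ → ℝ} {z : ℂ} (h : ContDiffAt ℝ 2 u z) : ContinuousAt (lap u) z := by
  have h1 : ∀ v, ContinuousAt (pd v (pd v u)) z := fun v =>
    (pd_contDiffAt (n := 1) (m := 0) (pd_contDiffAt (n := 2) (m := 1) h le_rfl v) le_rfl v).continuousAt
  exact (h1 1).add (h1 I)

lemma bilin_rot (B : ℂ →L[ℝ] ℂ →L[ℝ] ℝ) (a : ℂ) :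
    B a a + B (I * a) (I * a) = ‖a‖ ^ 2 * (B 1 1 + B I I) := by
  have e1 : a = a.re • (1:ℂ) + a.im • I := by simp
  have e2 : I * a = (-a.im) • (1:ℂ) + a.re • I := by simp [Complex.ext_iff]
  rw [e2, Complex.sq_norm, Complex.normSq_apply]
  conv_lhs => rw [e1]
  simp only [map_add, map_smul, add_apply, smul_apply, smul_eq_mul]
  simp
  ring

noncomputable def eE (p : ℝ × ℝ) : ℂ := exp (p.2 * I)

lemma eE_norm (p : ℝ × ℝ) : ‖eE p‖ = 1 := Complex.norm_exp_ofReal_mul_I _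

lemma eE_fd (p : ℝ × ℝ) : HasFDerivAt eE ((ContinuousLinearMap.snd ℝ ℝ ℝ).smulRight (I * eE p)) p := by
  have h1 : HasDerivAt (fun t : ℝ => exp (t * I)) (I * eE p) p.2 := by
    have := ((hasDerivAt_mul_const I (x := (p.2:ℂ))).cexp).comp_ofReal
    refine this.congr_deriv ?_
    simp [eE, mul_comm]
  refine (h1.hasFDerivAt.comp p hasFDerivAt_snd).congr_fderiv ?_
  ext <;> simp

lemma eG_fd (c : ℂ) (p : ℝ × ℝ) : HasFDerivAt (fun p : ℝ × ℝ => c + p.1 • eE p)
    (p.1 • (ContinuousLinearMap.snd ℝ ℝ ℝ).smulRight (I * eE p) +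
      (ContinuousLinearMap.fst ℝ ℝ ℝ).smulRight (eE p)) p :=
  (hasFDerivAt_fst.smul (eE_fd p)).const_add c

lemma submean {u : ℂ → ℝ} {c : ℂ} {r : ℝ} (hr : 0 < r)
    (hu : ∀ z ∈ closedBall c r, ContDiffAt ℝ 2 u z) (hl : ∀ z ∈ closedBall c r, 0 ≤ lap u z) :
    2 * π * u c ≤ ∫ θ in (-π)..π, u (circleMap c r θ) := by
  set γ : ℝ × ℝ → ℂ := fun p => c + p.1 • eE p with hγ
  have hγc : Continuous γ := continuous_iff_continuousAt.2 fun p => (eG_fd c p).continuousAt
  have hEc : Continuous eE := continuous_iff_continuousAt.2 fun p => (eE_fd p).continuousAt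
  have hmem : ∀ p : ℝ × ℝ, p.1 ∈ Icc 0 r → γ p ∈ closedBall c r := fun p hp => by
    rw [mem_closedBall, dist_eq_norm, hγ]
    simp only [add_sub_cancel_left, norm_smul, eE_norm, mul_one, Real.norm_eq_abs,
      abs_of_nonneg hp.1]
    exact hp.2
  have hab : -π ≤ π := by linarith [Real.pi_pos]
  set D : ℝ × ℝ → ℂ →L[ℝ] ℝ := fun p => fderiv ℝ u (γ p) with hD
  have hDd : ∀ p : ℝ × ℝ, p.1 ∈ Icc 0 r → HasFDerivAt D
      ((fderiv ℝ (fderiv ℝ u) (γ p)).comp (p.1 • (ContinuousLinearMap.snd ℝ ℝ ℝ).smulRight (I * eE p) +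
      (ContinuousLinearMap.fst ℝ ℝ ℝ).smulRight (eE p))) p := fun p hp =>
    (c2_diff_fderiv (hu _ (hmem p hp))).hasFDerivAt.comp p (eG_fd c p)
  have hper : ∀ x : ℝ, eE (x, π) = eE (x, -π) := fun x => by
    simp [eE, Complex.exp_neg, Complex.exp_pi_mul_I]
  have hJ : ∀ ρ ∈ Icc 0 r, 0 ≤ ρ * ∫ θ in (-π)..π, D (ρ, θ) (eE (ρ, θ)) := fun ρ hρ => by
    have hs : ∀ p ∈ [[0, ρ]] ×ˢ [[-π, π]], p.1 ∈ Icc 0 r := fun p hp => by
      have := hp.1
      rw [uIcc_of_le hρ.1] at this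
      exact ⟨this.1, this.2.trans hρ.2⟩
    have hf := fun (p : ℝ × ℝ) (hp : p.1 ∈ Icc 0 r) =>
      (hasFDerivAt_fst (𝕜 := ℝ) (p := p)).mul ((hDd p hp).clm_apply (eE_fd p))
    have hg := fun (p : ℝ × ℝ) (hp : p.1 ∈ Icc 0 r) =>
      (hDd p hp).clm_apply ((eE_fd p).const_mul I)
    have hdiv : ∀ p : ℝ × ℝ, p.1 ∈ Icc 0 r →
        fderiv ℝ (fun p => p.1 * D p (eE p)) p (1, 0) + fderiv ℝ (fun p => D p (I * eE p)) p (0, 1) =
        p.1 * lap u (γ p) := fun p hp => by
      erw [(hf p hp).fderiv, (hg p hp).fderiv]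
      have h1 := bilin_rot (fderiv ℝ (fderiv ℝ u) (γ p)) (eE p)
      rw [eE_norm] at h1
      unfold lap
      rw [pd_pd (hu _ (hmem p hp)), pd_pd (hu _ (hmem p hp))]
      have h2 : I * (I * eE p) = -eE p := by rw [← mul_assoc, I_mul_I]; ring
      simp only [add_apply, smul_apply, ContinuousLinearMap.comp_apply,
        ContinuousLinearMap.smulRight_apply, ContinuousLinearMap.flip_apply,
        ContinuousLinearMap.coe_fst', ContinuousLinearMap.coe_snd', smul_eq_mul, zero_smul, one_smul,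
        smul_zero, map_zero, zero_add, add_zero, h2, map_neg, map_smul]
      linear_combination p.1 * h1
    have hlc : ContinuousOn (fun p : ℝ × ℝ => p.1 * lap u (γ p)) ([[0, ρ]] ×ˢ [[-π, π]]) :=
      fun p hp => (continuousAt_fst.mul ((lap_contAt (hu _ (hmem p (hs p hp)))).comp
        hγc.continuousAt)).continuousWithinAt
    have hK : IsCompact ([[(0:ℝ), ρ]] ×ˢ [[-π, π]]) := isCompact_uIcc.prod isCompact_uIcc
    have hsub : ∀ p ∈ Ioo (min 0 ρ) (max 0 ρ) ×ˢ Ioo (min (-π) π) (max (-π) π), p.1 ∈ Icc 0 r :=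
      fun p hp => hs p ⟨Ioo_subset_Icc_self hp.1, Ioo_subset_Icc_self hp.2⟩
    have key := integral2_divergence_prod_of_hasFDerivAt (fun p => p.1 * D p (eE p))
      (fun p => D p (I * eE p)) (fderiv ℝ (fun p => p.1 * D p (eE p)))
      (fderiv ℝ (fun p => D p (I * eE p))) 0 (-π) ρ π
      (fun p hp => (hf p (hs p hp)).continuousAt.continuousWithinAt)
      (fun p hp => (hg p (hs p hp)).continuousAt.continuousWithinAt)
      (fun p hp => (hf p (hsub p hp)).differentiableAt.hasFDerivAt)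
      (fun p hp => (hg p (hsub p hp)).differentiableAt.hasFDerivAt)
      ((hlc.integrableOn_compact hK).congr_fun (fun p hp => (hdiv p (hs p hp)).symm)
        hK.measurableSet)
    have h3 : (∫ x in (0:ℝ)..ρ, D (x, π) (I * eE (x, π))) =
        ∫ x in (0:ℝ)..ρ, D (x, -π) (I * eE (x, -π)) := by
      simp only [hD, hγ, hper]
    rw [h3, sub_self, zero_add] at key
    simp only [zero_mul, intervalIntegral.integral_zero, sub_zero,
      intervalIntegral.integral_const_mul] at key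
    rw [← key]
    refine intervalIntegral.integral_nonneg hρ.1 fun x hx =>
      intervalIntegral.integral_nonneg hab fun y _ => ?_
    have hx' : x ∈ Icc 0 r := ⟨hx.1, hx.2.trans hρ.2⟩
    rw [hdiv (x, y) hx']
    exact mul_nonneg hx.1 (hl _ (hmem (x, y) hx'))
  have hs : ∀ p ∈ [[0, r]] ×ˢ [[-π, π]], p.1 ∈ Icc 0 r := fun p hp => by
    have := hp.1
    rwa [uIcc_of_le hr.le] at this
  have hf := fun (p : ℝ × ℝ) (hp : p.1 ∈ Icc 0 r) =>
    ((hu _ (hmem p hp)).differentiableAt (by norm_num)).hasFDerivAt.comp p (eG_fd c p)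
  have hdiv : ∀ p : ℝ × ℝ, p.1 ∈ Icc 0 r →
      fderiv ℝ (u ∘ γ) p (1, 0) + (0 : ℝ × ℝ →L[ℝ] ℝ) (0, 1) = D p (eE p) := fun p hp => by
    rw [(hf p hp).fderiv]
    simp [hD, hγ]
  have hK : IsCompact ([[(0:ℝ), r]] ×ˢ [[-π, π]]) := isCompact_uIcc.prod isCompact_uIcc
  have hsub : ∀ p ∈ Ioo (min 0 r) (max 0 r) ×ˢ Ioo (min (-π) π) (max (-π) π), p.1 ∈ Icc 0 r :=
    fun p hp => hs p ⟨Ioo_subset_Icc_self hp.1, Ioo_subset_Icc_self hp.2⟩
  have hlc : ContinuousOn (fun p : ℝ × ℝ => D p (eE p)) ([[0, r]] ×ˢ [[-π, π]]) :=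
    fun p hp => ((hDd p (hs p hp)).clm_apply (eE_fd p)).continuousAt.continuousWithinAt
  have key := integral2_divergence_prod_of_hasFDerivAt (u ∘ γ) (fun _ => 0) (fderiv ℝ (u ∘ γ))
    (fun _ => 0) 0 (-π) r π
    (fun p hp => (hf p (hs p hp)).continuousAt.continuousWithinAt) continuousOn_const
    (fun p hp => (hf p (hsub p hp)).differentiableAt.hasFDerivAt)
    (fun p _ => hasFDerivAt_const _ _)
    ((hlc.integrableOn_compact hK).congr_fun (fun p hp => (hdiv p (hs p hp)).symm)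
      hK.measurableSet)
  have h4 : 0 ≤ ∫ x in (0:ℝ)..r, ∫ y in (-π)..π,
      fderiv ℝ (u ∘ γ) (x, y) (1, 0) + (0 : ℝ × ℝ →L[ℝ] ℝ) (0, 1) := by
    refine intervalIntegral.integral_nonneg_of_ae_restrict hr.le ?_
    rw [← Measure.restrict_congr_set Ioc_ae_eq_Icc]
    refine (ae_restrict_iff' measurableSet_Ioc).2 (Eventually.of_forall fun x hx => ?_)
    have hx' := Ioc_subset_Icc_self hx
    simp only [Pi.zero_apply, fun y => hdiv (x, y) hx']
    exact (mul_nonneg_iff_of_pos_left hx.1).1 (hJ x hx')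
  rw [key] at h4
  simp only [Function.comp, hγ, zero_smul, add_zero, intervalIntegral.integral_const, smul_eq_mul,
    mul_zero, sub_self, zero_add] at h4
  have h5 : ∀ y : ℝ, c + r • eE (r, y) = circleMap c r y := fun y => by
    simp [circleMap, eE]
  simp only [h5] at h4
  linarith

lemma submean_exp {u : ℂ → ℝ} {c : ℂ} {r : ℝ} (hr : 0 < r)
    (hu : ∀ z ∈ closedBall c r, ContDiffAt ℝ 2 u z) (hl : ∀ z ∈ closedBall c r, 0 ≤ lap u z) :
    2 * π * Real.exp (u c) ≤ ∫ θ in (-π)..π, Real.exp (u (circleMap c r θ)) := by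
  have h1 := submean hr hu hl
  have hc : Continuous fun θ => u (circleMap c r θ) := continuous_iff_continuousAt.2 fun θ =>
    (hu _ (circleMap_mem_closedBall c hr.le θ)).continuousAt.comp
      (continuous_circleMap c r).continuousAt
  have hab : -π ≤ π := by linarith [Real.pi_pos]
  have h2 : ∫ θ in (-π)..π, Real.exp (u c) * (u (circleMap c r θ) + (1 - u c)) ≤
      ∫ θ in (-π)..π, Real.exp (u (circleMap c r θ)) := by
    refine intervalIntegral.integral_mono_on hab 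
      ((continuous_const.mul (hc.add continuous_const)).intervalIntegrable _ _)
      (hc.rexp.intervalIntegrable _ _) fun θ _ => ?_
    have h3 := Real.add_one_le_exp (u (circleMap c r θ) - u c)
    calc _ = Real.exp (u c) * (u (circleMap c r θ) - u c + 1) := by ring
      _ ≤ Real.exp (u c) * Real.exp (u (circleMap c r θ) - u c) := by gcongr
      _ = _ := by rw [← Real.exp_add]; congr 1; ring
  rw [intervalIntegral.integral_const_mul, intervalIntegral.integral_add
    (hc.intervalIntegrable _ _) intervalIntegrable_const, intervalIntegral.integral_const,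
    smul_eq_mul] at h2
  refine le_trans ?_ h2
  rw [mul_comm]
  gcongr
  linarith

end Pool.Agent.Lib.MP_6c91ae_an
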