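import Pool.Agent.Lib.MP_6c91ae_an.ChGeo

namespace Pool.Agent.Lib.MP_6c91ae_an

open Metric Complex Set Filter Topology MeasureTheory
open scoped Real ENNReal NNReal ComplexConjugate

lemma abstract_hc {H : Type*} [NormedAddCommGroup H] [NormedSpace ℂ H] [CompleteSpace H]
    [TopologicalSpace.SeparableSpace H] (T : H →L[ℂ] H) (e : H) (he : T e = e) (D : Set H)
    (hD : Dense D) (heD : e ∈ D)
    (hQ : ∀ g ∈ D, ∀ ε > 0, ∀ N : ℕ, ∃ n ≥ N, ∃ (y : H) (c : ℂ),
      ‖y‖ < ε ∧ ‖(T ^ n) y - g - c • e‖ < ε)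
    (hP : ∀ x ∈ D, ∀ ε > 0, ∃ N : ℕ, ∀ n ≥ N, ∃ x', ‖x' - x‖ < ε ∧ ‖(T ^ n) x'‖ < ε) :
    ∃ f, ∀ g, ∀ ε > 0, ∃ n : ℕ, ‖(T ^ n) f - g‖ < ε := by
  set A : H →L[ℂ] H := T - 1 with hA
  set V : Submodule ℂ H := A.range with hV
  have h1 : ∀ (n : ℕ) x, (T ^ n) x - x ∈ V := fun n x => by
    induction n with
    | zero => simp
    | succ n ih =>
      have : (T ^ (n + 1)) x - x = A ((T ^ n) x) + ((T ^ n) x - x) := by
        simp [hA, pow_succ']
      rw [this]
      exact V.add_mem ⟨_, rfl⟩ ih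
  have hcl : IsClosed (V.topologicalClosure : Set H) := V.isClosed_topologicalClosure
  have h2 : e ∈ V.topologicalClosure := by
    refine Metric.mem_closure_iff.2 fun ε hε => ?_
    obtain ⟨N, hN⟩ := hP e heD (ε / 2) (half_pos hε)
    obtain ⟨x, hx1, hx2⟩ := hN N le_rfl
    refine ⟨_, V.neg_mem (h1 N x), ?_⟩
    rw [dist_eq_norm]
    have : e - -((T ^ N) x - x) = (T ^ N) x - (x - e) := by abel
    rw [this]
    linarith [norm_sub_le ((T ^ N) x) (x - e)]
  have h3 : ∀ g ∈ D, g ∈ V.topologicalClosure := fun g hg => by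
    refine hcl.closure_subset (Metric.mem_closure_iff.2 fun ε hε => ?_)
    obtain ⟨n, -, y, c, hy1, hy2⟩ := hQ g hg (ε / 2) (half_pos hε) 0
    refine ⟨_, V.topologicalClosure.sub_mem (V.le_topologicalClosure (h1 n y))
      (V.topologicalClosure.smul_mem c h2), ?_⟩
    rw [dist_eq_norm]
    have : g - ((T ^ n) y - y - c • e) = y - ((T ^ n) y - g - c • e) := by abel
    rw [this]
    linarith [norm_sub_le y ((T ^ n) y - g - c • e)]
  have h4 : ∀ g, g ∈ V.topologicalClosure := fun g => closure_minimal h3 hcl (hD g)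
  have h5 : ∀ g, ∀ ε > 0, ∀ N : ℕ, ∃ n ≥ N, ∃ y, ‖y‖ < ε ∧ ‖(T ^ n) y - g‖ < ε := by
    intro g ε hε N
    obtain ⟨_, ⟨x, rfl⟩, hx⟩ := Metric.mem_closure_iff.1 (h4 g) (ε / 3) (by positivity)
    set δ := ε / (3 * (‖A‖ + 1)) with hδ
    have hδ0 : 0 < δ := by positivity
    have hδ1 : ∀ y, ‖y‖ < δ → ‖A y‖ ≤ ε / 3 := fun y hy => by
      calc ‖A y‖ ≤ ‖A‖ * ‖y‖ := A.le_opNorm y
        _ ≤ (‖A‖ + 1) * δ := by gcongr; linarith
        _ = ε / 3 := by rw [hδ]; field_simp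
    obtain ⟨x', hx', hxx⟩ := Metric.mem_closure_iff.1 (hD x) δ hδ0
    obtain ⟨n, hn, y, c, hy1, hy2⟩ := hQ x' hx' δ hδ0 N
    refine ⟨n, hn, A y, by linarith [hδ1 y hy1], ?_⟩
    have e1 : (T ^ n) (A y) = A ((T ^ n) y) := by
      have : T ^ n * A = A * T ^ n := by rw [hA, mul_sub, sub_mul, ← pow_succ, ← pow_succ']; simp
      exact congrArg (fun L : H →L[ℂ] H => L y) this
    have e2 : A e = 0 := by simp [hA, he]
    have e3 : (T ^ n) (A y) - g = A ((T ^ n) y - x' - c • e) - A (x - x') - (g - A x) := by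
      rw [e1]; simp only [map_sub, map_smul, e2]; simp
    rw [dist_eq_norm] at hx hxx
    rw [e3]
    have b1 := hδ1 _ hy2
    have b2 := hδ1 _ hxx
    have b3 := norm_sub_le (A ((T ^ n) y - x' - c • e) - A (x - x')) (g - A x)
    have b4 := norm_sub_le (A ((T ^ n) y - x' - c • e)) (A (x - x'))
    have b5 : ‖g - A x‖ < ε / 3 := hx
    linarith
  have : Nonempty H := ⟨e⟩
  set q := TopologicalSpace.denseSeq H
  have h6 : Dense (⋂ i : ℕ × ℕ, ⋃ n : ℕ, {f | ‖(T ^ n) f - q i.1‖ < 1 / (i.2 + 1)}) := by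
    refine dense_iInter_of_isOpen (fun i => isOpen_iUnion fun n =>
      isOpen_lt (by fun_prop) continuous_const) fun i x => Metric.mem_closure_iff.2 fun ε hε => ?_
    set δ := min (ε / 3) (1 / (i.2 + 1) / 2) with hδ
    have hδ0 : 0 < δ := by positivity
    have hδ1 : δ ≤ ε / 3 := min_le_left _ _
    have hδ2 : δ ≤ 1 / (i.2 + 1) / 2 := min_le_right _ _
    obtain ⟨x₁, hx₁, hxx⟩ := Metric.mem_closure_iff.1 (hD x) δ hδ0
    obtain ⟨N, hN⟩ := hP x₁ hx₁ δ hδ0
    obtain ⟨n, hn, y, hy1, hy2⟩ := h5 (q i.1) δ hδ0 N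
    obtain ⟨x', hx1, hx2⟩ := hN n hn
    refine ⟨x' + y, mem_iUnion.2 ⟨n, ?_⟩, ?_⟩
    · show ‖(T ^ n) (x' + y) - q i.1‖ < _
      rw [map_add, add_sub_assoc]
      linarith [norm_add_le ((T ^ n) x') ((T ^ n) y - q i.1)]
    · rw [dist_eq_norm] at hxx ⊢
      have : x - (x' + y) = x - x₁ - (x' - x₁) - y := by abel
      rw [this]
      linarith [norm_sub_le (x - x₁ - (x' - x₁)) y, norm_sub_le (x - x₁) (x' - x₁)]
  obtain ⟨f, hf⟩ := h6.nonempty
  refine ⟨f, fun g ε hε => ?_⟩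
  obtain ⟨i, hi⟩ := (TopologicalSpace.denseRange_denseSeq H).exists_dist_lt g (half_pos hε)
  obtain ⟨k, hk⟩ := exists_nat_one_div_lt (half_pos hε)
  obtain ⟨n, hn⟩ := mem_iUnion.1 (mem_iInter.1 hf (i, k))
  refine ⟨n, ?_⟩
  have hn' : ‖(T ^ n) f - q i‖ < 1 / (k + 1) := hn
  rw [dist_eq_norm] at hi
  have : (T ^ n) f - g = (T ^ n) f - q i - (g - q i) := by abel
  rw [this]
  linarith [norm_sub_le ((T ^ n) f - q i) (g - q i)]

lemma tc_of_hasSum {f : ℂ → ℂ} {c : ℕ → ℂ}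
    (h : ∀ z ∈ ball (0:ℂ) 1, HasSum (fun j => c j * z ^ j) (f z)) : tc f = c := by
  have h1 : HasFPowerSeriesAt f (FormalMultilinearSeries.ofScalars ℂ c) 0 := by
    rw [hasFPowerSeriesAt_iff]
    filter_upwards [ball_mem_nhds (0:ℂ) one_pos] with z hz
    simpa [FormalMultilinearSeries.coeff_ofScalars, mul_comm] using h z hz
  exact FormalMultilinearSeries.ofScalars_series_injective ℂ ℂ
    (h1.analyticAt.hasFPowerSeriesAt.eq_formalMultilinearSeries h1)

noncomputable abbrev HH := lp (fun _ : ℕ => ℂ) 2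

/-- the sequence `a` is the sequence of Taylor coefficients of `f` -/
def Rep (a : HH) (f : ℂ → ℂ) : Prop := ∀ z ∈ ball (0:ℂ) 1, HasSum (fun j => a j * z ^ j) (f z)

lemma rep_ev (a : HH) : Rep a fun z => ∑' j, a j * z ^ j := fun z hz => by
  refine (Summable.of_norm_bounded ((summable_geometric_of_lt_one (norm_nonneg z)
    (mem_ball_zero_iff.1 hz)).mul_left ‖a‖) fun j => ?_).hasSum
  rw [norm_mul, norm_pow]
  gcongr
  exact lp.norm_apply_le_norm (by norm_num) a j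

namespace Rep
variable {a b : HH} {f g : ℂ → ℂ}

lemma eqOn (h : Rep a f) (h' : Rep a g) : EqOn f g (ball 0 1) :=
  fun z hz => (h z hz).unique (h' z hz)

lemma congr (h : Rep a f) (h' : EqOn f g (ball 0 1)) : Rep a g := fun z hz => h' hz ▸ h z hz

lemma unique (h : Rep a f) (h' : Rep b f) : a = b :=
  lp.ext ((tc_of_hasSum h).symm.trans (tc_of_hasSum h'))

lemma add (h : Rep a f) (h' : Rep b g) : Rep (a + b) fun z => f z + g z := fun z hz => by
  simpa [add_mul] using (h z hz).add (h' z hz)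

lemma sub (h : Rep a f) (h' : Rep b g) : Rep (a - b) fun z => f z - g z := fun z hz => by
  simpa [sub_mul] using (h z hz).sub (h' z hz)

lemma smul (h : Rep a f) (c : ℂ) : Rep (c • a) fun z => c * f z := fun z hz => by
  simpa [mul_assoc] using (h z hz).mul_left c

lemma diff (h : Rep a f) : DifferentiableOn ℂ f (ball 0 1) := by
  refine DifferentiableOn.congr ?_ (h.eqOn (rep_ev a))
  intro z hz
  obtain ⟨r, hr1, hr2⟩ := exists_between (mem_ball_zero_iff.1 hz)
  have hr0 : 0 ≤ r := (norm_nonneg z).trans hr1.le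
  have := Complex.differentiableOn_tsum_of_summable_norm (F := fun j z => a j * z ^ j)
    ((summable_geometric_of_lt_one hr0 hr2).mul_left ‖a‖)
    (fun i => by fun_prop) (isOpen_ball (x := (0:ℂ)) (ε := r)) fun j w hw => by
      rw [norm_mul, norm_pow]
      gcongr
      · exact lp.norm_apply_le_norm (by norm_num) a j
      · exact (mem_ball_zero_iff.1 hw).le
  exact (this.differentiableAt (isOpen_ball.mem_nhds
    (mem_ball_zero_iff.2 hr1))).differentiableWithinAt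

lemma norm (h : Rep a f) : hardyNormSq f = ENNReal.ofReal (‖a‖ ^ 2) := by
  have h1 := lp.hasSum_norm (p := 2) (by norm_num) a
  simp only [ENNReal.toReal_ofNat, Real.rpow_ofNat] at h1
  rw [hardyNormSq_eq, tc_of_hasSum h,
    ← ENNReal.ofReal_tsum_of_nonneg (fun n => by positivity) h1.summable, h1.tsum_eq]

lemma inH2 (h : Rep a f) : InH2 f := ⟨h.diff, h.norm ▸ ENNReal.ofReal_lt_top⟩

lemma norm_lt (h : Rep a f) {ε : ℝ} (hε : 0 < ε) (h' : hardyNormSq f < ENNReal.ofReal (ε ^ 2)) :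
    ‖a‖ < ε := by
  rw [h.norm, ENNReal.ofReal_lt_ofReal_iff (by positivity)] at h'
  exact lt_of_pow_lt_pow_left₀ 2 hε.le h'

end Rep

lemma exists_rep {f : ℂ → ℂ} (hf : InH2 f) : ∃ a, Rep a f := by
  have h1 : Memℓp (tc f) 2 := by
    refine memℓp_gen' (C := √(hardyNormSq f).toReal ^ 2) fun s => ?_
    simp only [ENNReal.toReal_ofNat, Real.rpow_ofNat]
    refine sum_sq_le_of_hardy (le_of_eq ?_) s
    rw [Real.sq_sqrt ENNReal.toReal_nonneg, ENNReal.ofReal_toReal hf.2.ne]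
  exact ⟨⟨tc f, h1⟩, fun z hz => hasSum_tc hf.1 hz⟩

instance : TopologicalSpace.SeparableSpace HH := by
  rw [← TopologicalSpace.isSeparable_univ_iff]
  have h1 := ((countable_range fun j : ℕ => (lp.single 2 j 1 : HH)).isSeparable.span
    (R := ℂ)).closure
  refine h1.mono fun a _ => ?_
  refine mem_closure_of_tendsto (lp.hasSum_single (by simp) a) (Eventually.of_forall fun s => ?_)
  refine Submodule.sum_mem _ fun j _ => ?_
  have : (lp.single 2 j (a j) : HH) = a j • lp.single 2 j 1 := by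
    rw [← lp.single_smul]; simp
  rw [this]
  exact Submodule.smul_mem _ _ (Submodule.subset_span ⟨j, rfl⟩)

lemma exists_op {φ : ℂ → ℂ} (hd : DifferentiableOn ℂ φ (ball 0 1))
    (hm : MapsTo φ (ball 0 1) (ball 0 1)) (hi : InjOn φ (ball 0 1)) :
    ∃ T : HH →L[ℂ] HH, ∀ a f, Rep a f → Rep (T a) fun z => f (φ z) := by
  have h0 := one_sub_sq_pos (hm zero_mem_U)
  have h1 : ∀ a : HH, ∃ b : HH, ∀ f, Rep a f → Rep b fun z => f (φ z) := fun a => by
    obtain ⟨b, hb⟩ := exists_rep (f := fun z => ∑' j, a j * φ z ^ j) ⟨(rep_ev a).diff.comp hd hm,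
      (hardy_comp hd hm hi (rep_ev a).diff).trans_lt
        (ENNReal.mul_lt_top ENNReal.ofReal_lt_top (rep_ev a).inH2.2)⟩
    exact ⟨b, fun f hf => hb.congr fun z hz => (rep_ev a).eqOn hf (hm hz)⟩
  choose t ht using h1
  let L : HH →ₗ[ℂ] HH :=
    { toFun := t
      map_add' := fun a b => (ht _ _ ((rep_ev a).add (rep_ev b))).unique
        ((ht _ _ (rep_ev a)).add (ht _ _ (rep_ev b)))
      map_smul' := fun c a => (ht _ _ ((rep_ev a).smul c)).unique ((ht _ _ (rep_ev a)).smul c) }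
  refine ⟨L.mkContinuous √(17 / (1 - ‖φ 0‖ ^ 2)) fun a => ?_, ht⟩
  have h2 := hardy_comp hd hm hi (rep_ev a).diff
  rw [(ht _ _ (rep_ev a)).norm, (rep_ev a).norm, ← ENNReal.ofReal_mul (by positivity),
    ENNReal.ofReal_le_ofReal_iff (by positivity)] at h2
  refine (pow_le_pow_iff_left₀ (norm_nonneg _) (by positivity) two_ne_zero).1 ?_
  rw [mul_pow, Real.sq_sqrt (by positivity)]
  exact h2

lemma hardy_const (c : ℂ) : hardyNormSq (fun _ => c) = ENNReal.ofReal (‖c‖ ^ 2) := by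
  rw [hardy_split]
  simp [tc, iteratedDeriv_const]

lemma tc_const_sub (c : ℂ) (f : ℂ → ℂ) (n : ℕ) :
    tc (fun z => c - f z) (n + 1) = -tc f (n + 1) := by
  unfold tc
  rw [iteratedDeriv_succ', iteratedDeriv_succ', deriv_const_sub', iteratedDeriv_fun_neg, neg_div]

lemma hardy_point {ψ : ℂ → ℂ} (hd : DifferentiableOn ℂ ψ (ball 0 1))
    (hm : MapsTo ψ (ball 0 1) (ball 0 1)) : ∃ ω : ℂ, ‖ω‖ = 1 ∧
      hardyNormSq (fun z => ω - ψ z) ≤ ENNReal.ofReal (2 * (1 - ‖ψ 0‖)) := by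
  refine ⟨exp (arg (ψ 0) * I), Complex.norm_exp_ofReal_mul_I _, ?_⟩
  have h0 := mem_ball_zero_iff.1 (hm zero_mem_U)
  have h1 := hardy_dom hd (differentiableOn_const (1:ℂ)) (C := 1) fun z hz => by
    simpa using (mem_ball_zero_iff.1 (hm hz)).le
  rw [hardy_const, hardy_split] at h1
  simp only [one_pow, norm_one, ENNReal.ofReal_one, mul_one] at h1
  have h2 := ENNReal.le_sub_of_add_le_left ENNReal.ofReal_ne_top h1
  rw [← ENNReal.ofReal_one, ← ENNReal.ofReal_sub _ (by positivity)] at h2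
  rw [hardy_split]
  simp only [tc_const_sub, norm_neg]
  have h3 : exp (arg (ψ 0) * I) - ψ 0 = ((1 - ‖ψ 0‖ : ℝ) : ℂ) * exp (arg (ψ 0) * I) := by
    push_cast
    rw [sub_mul, norm_mul_exp_arg_mul_I, one_mul]
  rw [h3, norm_mul, Complex.norm_exp_ofReal_mul_I, mul_one, Complex.norm_real, Real.norm_eq_abs,
    sq_abs]
  refine (add_le_add le_rfl h2).trans (le_of_eq ?_)
  rw [← ENNReal.ofReal_add (by positivity) (one_sub_sq_pos (hm zero_mem_U)).le]
  congr 1
  ring

lemma peak {t : ℝ} (ht0 : 0 ≤ t) (ht : t < 1) {ω : ℂ} (hω : ‖ω‖ = 1) : ∃ v : ℂ → ℂ,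
    DifferentiableOn ℂ v (ball 0 1) ∧ hardyNormSq v ≤ ENNReal.ofReal (1 - t) ∧
    ∀ z ∈ ball (0:ℂ) 1, ‖1 - v z‖ ≤ 1 / (1 - t) * ‖ω - z‖ := by
  have hn : ∀ z ∈ ball (0:ℂ) 1, ‖t * conj ω * z‖ ≤ t := fun z hz => by
    rw [norm_mul, norm_mul, Complex.norm_conj, hω, Complex.norm_real, Real.norm_eq_abs,
      abs_of_nonneg ht0, mul_one]
    exact mul_le_of_le_one_right ht0 (mem_ball_zero_iff.1 hz).le
  have hden : ∀ z ∈ ball (0:ℂ) 1, 1 - t ≤ ‖1 - t * conj ω * z‖ := fun z hz => by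
    have := norm_sub_norm_le (1:ℂ) (t * conj ω * z)
    rw [norm_one] at this
    linarith [hn z hz]
  have hne : ∀ z ∈ ball (0:ℂ) 1, 1 - t * conj ω * z ≠ 0 := fun z hz =>
    norm_pos_iff.1 (lt_of_lt_of_le (by linarith) (hden z hz))
  refine ⟨fun z => (1 - t) * (1 - t * conj ω * z)⁻¹,
    (DifferentiableOn.inv (by fun_prop) hne).const_mul _, ?_, fun z hz => ?_⟩
  · rw [hardyNormSq_eq, tc_of_hasSum (c := fun j => (1 - t) * (t * conj ω) ^ j) fun z hz => by
      simpa [mul_pow, mul_assoc] using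
        (hasSum_geometric_of_norm_lt_one ((hn z hz).trans_lt ht)).mul_left (1 - (t:ℂ))]
    have h1 := (hasSum_geometric_of_lt_one ht0 ht).mul_left ((1 - t) ^ 2)
    have h2 : (1 - t) ^ 2 * (1 - t)⁻¹ = 1 - t := by
      have : 1 - t ≠ 0 := by linarith
      field_simp
    rw [← h2, ← h1.tsum_eq, ENNReal.ofReal_tsum_of_nonneg (fun n => by positivity) h1.summable]
    refine ENNReal.tsum_le_tsum fun j => ENNReal.ofReal_le_ofReal ?_
    have h3 : ‖(1:ℂ) - t‖ = 1 - t := by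
      rw [← Complex.ofReal_one, ← Complex.ofReal_sub, Complex.norm_real, Real.norm_eq_abs,
        abs_of_nonneg (by linarith)]
    rw [norm_mul, norm_pow, norm_mul, Complex.norm_conj, hω, h3, Complex.norm_real,
      Real.norm_eq_abs, abs_of_nonneg ht0, mul_one, mul_pow]
    gcongr
    exact pow_le_of_le_one (by positivity) (pow_le_one₀ ht0 ht.le) two_ne_zero
  · have h1 := hne z hz
    have h2 : conj ω * ω = 1 := by rw [Complex.conj_mul', hω]; simp
    have h3 : 1 - (1 - t) * (1 - t * conj ω * z)⁻¹ = t * conj ω * (ω - z) / (1 - t * conj ω * z) := by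
      field_simp
      linear_combination -t * h2
    rw [h3, norm_div, norm_mul, norm_mul, Complex.norm_conj, hω, Complex.norm_real,
      Real.norm_eq_abs, abs_of_nonneg ht0, mul_one, one_div_mul_eq_div]
    exact div_le_div₀ (norm_nonneg _) (mul_le_of_le_one_left (norm_nonneg _) ht.le)
      (by linarith) (hden z hz)

theorem sufficiency {φ : ℂ → ℂ} (hd : DifferentiableOn ℂ φ (ball 0 1))
    (hm : MapsTo φ (ball 0 1) (ball 0 1)) (hi : InjOn φ (ball 0 1))
    (hfix : ∀ z ∈ ball (0:ℂ) 1, φ z ≠ z) (hc : CritFin φ) : Hypercyclic φ := by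
  obtain ⟨T, hT⟩ := exists_op hd hm hi
  have hTn : ∀ (n : ℕ) a f, Rep a f → Rep ((T ^ n) a) fun z => f (φ^[n] z) := fun n => by
    induction n with
    | zero => exact fun a f h => h
    | succ n ih =>
      intro a f h
      rw [pow_succ']
      exact hT _ _ (ih a f h)
  obtain ⟨e, he⟩ := exists_rep (inH2_of_bdd (differentiableOn_const (1:ℂ)) (K := 1) (by simp))
  have hbd : ∀ {f : ℂ → ℂ}, Differentiable ℂ f → ∃ B, 0 < B ∧ ∀ z ∈ ball (0:ℂ) 1, ‖f z‖ ≤ B :=
    fun hf => by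
      obtain ⟨B, hB⟩ := (isCompact_closedBall (0:ℂ) 1).exists_bound_of_continuousOn
        hf.continuous.continuousOn
      exact ⟨|B| + 1, by positivity, fun z hz =>
        (hB z (ball_subset_closedBall hz)).trans (by linarith [le_abs_self B])⟩
  obtain ⟨a, ha⟩ := abstract_hc T e ((hT _ _ he).unique he)
    {a | ∃ f, Differentiable ℂ f ∧ Rep a f} (fun a => Metric.mem_closure_iff.2 fun ε hε => by
      obtain ⟨N, hN⟩ := exists_trunc (rep_ev a).inH2 (ENNReal.ofReal_pos.2 (pow_pos hε 2))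
      have h1 : Differentiable ℂ fun z => ∑ j ∈ Finset.range N,
        tc (fun z => ∑' j, a j * z ^ j) j * z ^ j := by fun_prop
      obtain ⟨B, -, hB⟩ := hbd h1
      obtain ⟨b, hb⟩ := exists_rep (inH2_of_bdd h1.differentiableOn hB)
      exact ⟨b, ⟨_, h1, hb⟩, by
        rw [dist_comm, dist_eq_norm]; exact (hb.sub (rep_ev a)).norm_lt hε hN⟩)
    ⟨_, differentiable_const _, he⟩ (by
      rintro g ⟨f, hf, hg⟩ ε hε N
      obtain ⟨B, -, hB⟩ := hbd hf.deriv
      obtain ⟨n, hn, F, hF, hF1, hF2⟩ := stepQ hd hm hi hfix hc hf.differentiableOn hB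
        (half_pos (pow_pos hε 2)) N
      have hlt : ENNReal.ofReal (ε ^ 2 / 2) < ENNReal.ofReal (ε ^ 2) :=
        (ENNReal.ofReal_lt_ofReal_iff (pow_pos hε 2)).2 (half_lt_self (pow_pos hε 2))
      have hA : ∀ (G : ℂ → ℂ), DifferentiableOn ℂ G (ball 0 1) →
          hardyNormSq (fun z => G z - G 0) ≤ A2 G := fun G hG => by
        refine (hardy_le_A2 (hG.sub_const _)).trans (le_of_eq ?_)
        simp [A2, deriv_sub_const]
      have h1 := ((hA F hF).trans hF2).trans_lt hlt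
      obtain ⟨y, hy⟩ := exists_rep ⟨hF.sub_const (F 0), h1.trans ENNReal.ofReal_lt_top⟩
      have h2 := ((hA _ ((hF.comp (iter_diffOn hd hm n) (hm.iterate n)).sub
        hf.differentiableOn)).trans hF1).trans_lt hlt
      refine ⟨n, hn, y, F (φ^[n] 0) - f 0 - F 0, hy.norm_lt hε h1,
        (((hTn n _ _ hy).sub hg).sub (he.smul _)).norm_lt hε (lt_of_eq_of_lt ?_ h2)⟩
      congr 1
      funext z
      simp only [Pi.sub_apply, Function.comp]
      ring) (by
      rintro x ⟨f, hf, hx⟩ ε hε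
      obtain ⟨B, hB0, hB⟩ := hbd hf
      obtain ⟨s, hs0, hs1, hs⟩ : ∃ s : ℝ, 0 < s ∧ s ≤ 1 ∧ B ^ 2 * s < ε ^ 2 := by
        refine ⟨min 1 (ε ^ 2 / (2 * B ^ 2)), by positivity, min_le_left _ _, ?_⟩
        calc _ ≤ B ^ 2 * (ε ^ 2 / (2 * B ^ 2)) := by gcongr; exact min_le_right _ _
          _ = ε ^ 2 / 2 := by field_simp
          _ < _ := half_lt_self (by positivity)
      have h1 := ((((denjoy_wolff hd hm hfix zero_mem_U).const_sub 1).const_mul 2).const_mul
        ((B * (1 / s)) ^ 2)).eventually (gt_mem_nhds (show _ < ε ^ 2 by simpa using pow_pos hε 2))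
      obtain ⟨N, hN⟩ := eventually_atTop.1 h1
      refine ⟨N, fun n hn => ?_⟩
      obtain ⟨ω, hω, hω'⟩ := hardy_point (iter_diffOn hd hm n) (hm.iterate n)
      obtain ⟨v, hv, hv1, hv2⟩ := peak (t := 1 - s) (by linarith) (by linarith) hω
      rw [sub_sub_cancel] at hv1 hv2
      have hd1 : DifferentiableOn ℂ (fun z => f z * (1 - v z)) (ball 0 1) :=
        hf.differentiableOn.mul (hv.const_sub 1)
      have hb1 : ∀ z ∈ ball (0:ℂ) 1, ‖f z * (1 - v z)‖ ≤ B * (1 / s) * ‖ω - z‖ := fun z hz => by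
        rw [norm_mul, mul_assoc]
        exact mul_le_mul (hB z hz) (hv2 z hz) (norm_nonneg _) hB0.le
      obtain ⟨x', hx'⟩ := exists_rep (inH2_of_bdd hd1 (K := B * (1 / s) * 2) fun z hz =>
        (hb1 z hz).trans (by
          have := norm_sub_le ω z
          have := mem_ball_zero_iff.1 hz
          gcongr; linarith))
      refine ⟨x', (hx'.sub hx).norm_lt hε ?_, (hTn n _ _ hx').norm_lt hε ?_⟩
      · refine (hardy_dom (hx'.sub hx).diff hv (C := B) fun z hz => ?_).trans_lt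
          ((mul_le_mul_right hv1 _).trans_lt ?_)
        · have : f z * (1 - v z) - f z = -(f z * v z) := by ring
          rw [this, norm_neg, norm_mul]
          exact mul_le_mul_of_nonneg_right (hB z hz) (norm_nonneg _)
        · rwa [← ENNReal.ofReal_mul (by positivity), ENNReal.ofReal_lt_ofReal_iff (by positivity)]
      · refine (hardy_dom (hTn n _ _ hx').diff ((iter_diffOn hd hm n).const_sub ω)
          fun z hz => hb1 _ (hm.iterate n hz)).trans_lt ((mul_le_mul_right hω' _).trans_lt ?_)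
        rw [← ENNReal.ofReal_mul (by positivity), ENNReal.ofReal_lt_ofReal_iff (by positivity)]
        exact hN n hn)
  refine ⟨_, (rep_ev a).inH2, fun g hg ε hε => ?_⟩
  obtain ⟨b, hb⟩ := exists_rep hg
  obtain ⟨r, -, hr1, hr2⟩ := ENNReal.lt_iff_exists_real_btwn.1 hε
  have hr0 := ENNReal.ofReal_pos.1 hr1
  obtain ⟨n, hn⟩ := ha b √r (Real.sqrt_pos.2 hr0)
  refine ⟨n, lt_of_le_of_lt ?_ hr2⟩
  rw [((hTn n _ _ (rep_ev a)).sub hb).norm]
  refine ENNReal.ofReal_le_ofReal ?_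
  rw [← Real.sq_sqrt hr0.le]
  gcongr

end Pool.Agent.Lib.MP_6c91ae_an
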