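import Pool.Agent.Lib.MP_6c91ae_an.ChCut

namespace Pool.Agent.Lib.MP_6c91ae_an

open Metric Complex Set Filter Topology MeasureTheory
open scoped Real ENNReal NNReal

lemma exists_profile : ∃ (α : ℝ → ℝ) (A : ℝ), ContDiff ℝ 2 α ∧ (∀ t ≤ 1 / 4, α t = 0) ∧
    (∀ t, 1 / 2 ≤ t → α t = 1) ∧ (∀ t, 0 ≤ deriv α t ∧ deriv α t ≤ A) ∧
    (∀ t, t < 1 / 4 ∨ 1 / 2 < t → deriv α t = 0) ∧ 0 < ∫ ζ : ℂ, deriv α (‖ζ‖ ^ 2) := by
  set α : ℝ → ℝ := fun t => Real.smoothTransition (4 * t - 1) with hα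
  have h1 : ContDiff ℝ 2 α := Real.smoothTransition.contDiff.comp (by fun_prop)
  have h2 : ∀ t ≤ 1 / 4, α t = 0 := fun t ht => Real.smoothTransition.zero_of_nonpos (by linarith)
  have h3 : ∀ t, 1 / 2 ≤ t → α t = 1 := fun t ht =>
    Real.smoothTransition.one_of_one_le (by linarith)
  have h4 : Monotone α := fun s t h => Real.smoothTransition.monotone (by linarith)
  have h5 : ∀ t, t < 1 / 4 ∨ 1 / 2 < t → deriv α t = 0 := by
    rintro t (ht | ht)
    · have : α =ᶠ[𝓝 t] fun _ => 0 := (eventually_lt_nhds ht).mono fun s hs => h2 s hs.le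
      rw [this.deriv_eq, deriv_const]
    · have : α =ᶠ[𝓝 t] fun _ => 1 := (eventually_gt_nhds ht).mono fun s hs => h3 s hs.le
      rw [this.deriv_eq, deriv_const]
  have h6 : Continuous (deriv α) := h1.continuous_deriv (by norm_num)
  have h7 : HasCompactSupport (deriv α) := HasCompactSupport.intro (isCompact_Icc (a := 0) (b := 1))
    fun t ht => h5 t (by
      by_contra hc
      push Not at hc
      exact ht ⟨by linarith [hc.1], by linarith [hc.2]⟩)
  obtain ⟨A, hA⟩ := h6.bounded_above_of_compact_support h7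
  refine ⟨α, A, h1, h2, h3, fun t => ⟨h4.deriv_nonneg, (le_abs_self _).trans (hA t)⟩, h5, ?_⟩
  obtain ⟨t, ht, ht'⟩ := exists_deriv_eq_slope α zero_lt_one h1.continuous.continuousOn
    (h1.differentiable (by norm_num)).differentiableOn
  rw [h2 0 (by norm_num), h3 1 (by norm_num)] at ht'
  refine Continuous.integral_pos_of_hasCompactSupport_nonneg_nonzero (x := (√t : ℝ))
    (h6.comp (continuous_norm.pow 2))
    (HasCompactSupport.intro (isCompact_closedBall 0 1) fun ζ hζ => h5 _ (Or.inr ?_))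
    (fun ζ => h4.deriv_nonneg) ?_
  · rw [mem_closedBall_zero_iff, not_le] at hζ
    nlinarith
  · rw [Complex.norm_real, Real.norm_eq_abs, sq_abs, Real.sq_sqrt ht.1.le, ht']
    norm_num

lemma kernel_tendsto {a : ℝ → ℝ} {A : ℝ} (ha : ∀ t, 0 ≤ a t ∧ a t ≤ A) (h0 : ∀ t, 1 / 2 < t → a t = 0)
    (hc : 0 < ∫ ζ : ℂ, a (‖ζ‖ ^ 2)) {h : ℂ → ℂ} (hh : LocallyIntegrable h) :
    ∀ᵐ z, Tendsto (fun ε : ℝ => ∫ ζ, (a (‖ζ - z‖ ^ 2 / ε ^ 2) / (ε ^ 2 * ∫ ζ : ℂ, a (‖ζ‖ ^ 2))) • h ζ)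
      (𝓝[>] 0) (𝓝 (h z)) := by
  set c := ∫ ζ : ℂ, a (‖ζ‖ ^ 2) with hcd
  filter_upwards [(Besicovitch.vitaliFamily volume).ae_tendsto_average_norm_sub hh] with z hz
  refine tendsto_integral_smul_of_tendsto_average_norm_sub (A * π / c)
    (hz.comp (Besicovitch.tendsto_filterAt volume z)) ?_ ?_ ?_ ?_
  · exact Eventually.of_forall fun ε => hh.integrableOn_isCompact (isCompact_closedBall _ _)
  · refine tendsto_const_nhds.congr' ?_
    filter_upwards [self_mem_nhdsWithin] with ε (hε : 0 < ε)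
    rw [integral_div, integral_sub_right_eq_self (fun ζ : ℂ => a (‖ζ‖ ^ 2 / ε ^ 2)) z]
    have h1 := Measure.integral_comp_inv_smul_of_nonneg volume (fun ζ : ℂ => a (‖ζ‖ ^ 2)) hε.le
    simp only [norm_smul, norm_inv, Real.norm_eq_abs, div_pow, sq_abs,
      Complex.finrank_real_complex, smul_eq_mul, ← div_eq_inv_mul] at h1
    rw [h1, div_self (by positivity)]
  · filter_upwards [self_mem_nhdsWithin] with ε (hε : 0 < ε) ζ hζ
    by_contra hcon
    apply hζ
    rw [mem_closedBall, dist_eq_norm, not_le] at hcon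
    have : 1 ≤ ‖ζ - z‖ ^ 2 / ε ^ 2 := by
      rw [le_div_iff₀ (by positivity), one_mul]; gcongr
    simp [h0 _ (show 1 / 2 < ‖ζ - z‖ ^ 2 / ε ^ 2 by linarith)]
  · filter_upwards [self_mem_nhdsWithin] with ε (hε : 0 < ε) ζ
    have h1 : volume.real (closedBall z ε) = π * ε ^ 2 := by
      rw [Measure.real, Measure.addHaar_closedBall_eq_addHaar_ball, vol_ball hε.le,
        ENNReal.toReal_ofReal (by positivity)]
    rw [h1, abs_of_nonneg (div_nonneg (ha _).1 (by positivity))]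
    have h2 : A * π / c / (π * ε ^ 2) = A / (ε ^ 2 * c) := by field_simp
    rw [h2]
    gcongr
    exact (ha _).2

lemma pd_ofReal {u : ℂ → ℝ} {z : ℂ} (hu : DifferentiableAt ℝ u z) (v : ℂ) :
    pd v (fun y => (u y : ℂ)) z = (pd v u z : ℝ) := by
  unfold pd
  rw [show (fun y => (u y : ℂ)) = Complex.ofRealCLM ∘ u from rfl,
    (Complex.ofRealCLM.hasFDerivAt.comp z hu.hasFDerivAt).fderiv]
  simp

lemma Dz_mul {f g : ℂ → ℂ} {z : ℂ} (hf : DifferentiableAt ℝ f z) (hg : DifferentiableAt ℝ g z) :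
    Dz (fun y => f y * g y) z = Dz f z * g z + f z * Dz g z := by
  unfold Dz
  rw [pd_mul hf hg, pd_mul hf hg]; ring

lemma Dz_congr {f g : ℂ → ℂ} {z : ℂ} (h : f =ᶠ[𝓝 z] g) : Dz f z = Dz g z := by
  unfold Dz; rw [pd_congr h, pd_congr h]

lemma Dz_const (c z : ℂ) : Dz (fun _ => c) z = 0 := by simp [Dz, pd_const]

lemma Dz_radial {α : ℝ → ℝ} (hα : Differentiable ℝ α) (z ζ : ℂ) (ε : ℝ) :
    Dz (fun y => (α (‖y - z‖ ^ 2 / ε ^ 2) : ℂ)) ζ =
      (deriv α (‖ζ - z‖ ^ 2 / ε ^ 2) / ε ^ 2 : ℝ) * (2 * (ζ - z)) := by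
  have h1 : HasDerivAt (fun t => α (t / ε ^ 2)) (deriv α (‖ζ - z‖ ^ 2 / ε ^ 2) / ε ^ 2)
      (‖ζ - z‖ ^ 2) := by
    have := (hα (‖ζ - z‖ ^ 2 / ε ^ 2)).hasDerivAt.comp (‖ζ - z‖ ^ 2)
      ((hasDerivAt_id (‖ζ - z‖ ^ 2)).div_const (ε ^ 2))
    refine this.congr_deriv ?_
    ring
  have h2 : DifferentiableAt ℝ (fun s : ℂ => α (‖s‖ ^ 2 / ε ^ 2)) (ζ - z) :=
    (HasDerivAt.comp_hasFDerivAt (f := fun s : ℂ => ‖s‖ ^ 2) (ζ - z) h1
      (nsq_hasFDerivAt _)).differentiableAt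
  have h3 : ∀ v, pd v (fun y => α (‖y - z‖ ^ 2 / ε ^ 2)) ζ =
      deriv α (‖ζ - z‖ ^ 2 / ε ^ 2) / ε ^ 2 * (2 * (ζ - z).re * v.re + 2 * (ζ - z).im * v.im) :=
    fun v => by
      rw [← pd_radial h1 v, pd_comp_hol (u := fun s : ℂ => α (‖s‖ ^ 2 / ε ^ 2))
        (F := fun y => y - z) h2 (by fun_prop)]
      simp [pd]
  have h4 : DifferentiableAt ℝ (fun y => α (‖y - z‖ ^ 2 / ε ^ 2)) ζ :=
    DifferentiableAt.comp (g := fun s : ℂ => α (‖s‖ ^ 2 / ε ^ 2)) (f := fun y => y - z) ζ h2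
      (by fun_prop)
  unfold Dz
  rw [pd_ofReal h4, pd_ofReal h4, h3, h3]
  generalize deriv α (‖ζ - z‖ ^ 2 / ε ^ 2) / ε ^ 2 = b
  generalize ζ - z = w
  simp [Complex.ext_iff]

lemma weyl {R : ℝ} {h : ℂ → ℂ} (hi : ∀ K ⊆ ball (0:ℂ) R, IsCompact K → IntegrableOn h K)
    (h0 : ∀ f, Test (ball 0 R) f → ∫ z in ball 0 R, Dz f z * h z = 0) :
    ∃ H : ℂ → ℂ, DifferentiableOn ℂ H (ball 0 R) ∧ ∀ᵐ z, z ∈ ball (0:ℂ) R → h z = H z := by
  obtain ⟨α, A, hα, hα0, hα1, hA, ha0, hc⟩ := exists_profile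
  set c := ∫ ζ : ℂ, deriv α (‖ζ‖ ^ 2) with hcd
  set cv : ℂ → ℝ → ℂ := fun z ε => ∫ ζ, (deriv α (‖ζ - z‖ ^ 2 / ε ^ 2) / (ε ^ 2 * c)) • h ζ with hcv
  have step : ∀ r < R, ∃ H : ℂ → ℂ, DifferentiableOn ℂ H (ball 0 r) ∧
      (∀ z ∈ ball (0:ℂ) r, Tendsto (cv z) (𝓝[>] 0) (𝓝 (H z))) ∧
      ∀ᵐ z, z ∈ ball (0:ℂ) r → Tendsto (cv z) (𝓝[>] 0) (𝓝 (h z)) := by
    intro r hr
    set δ := (R - r) / 3 with hδ
    have hδ0 : 0 < δ := by linarith
    obtain ⟨θ, K, hθ, hK, hKW, hθ0, hθ1⟩ := exists_bump (isCompact_closedBall (0:ℂ) (r + δ))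
      isOpen_ball (closedBall_subset_ball (show r + δ < R by linarith))
    have hKK : closedBall (0:ℂ) (r + δ) ⊆ K := fun x hx => by
      by_contra hcon
      have h1 := (hθ1 x hx).self_of_nhds
      rw [hθ0 x hcon] at h1
      exact zero_ne_one h1
    have hθc : ContDiff ℝ 2 fun y => (θ y : ℂ) := Complex.ofRealCLM.contDiff.comp hθ
    have hθT : Test (ball 0 R) fun y => (θ y : ℂ) :=
      ⟨hθc, HasCompactSupport.intro hK fun x hx => by simp [hθ0 x hx],
        (closure_minimal (fun x hx => by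
          by_contra hcon; exact hx (by simp [hθ0 x hcon])) hK.isClosed).trans hKW⟩
    have hD0 : ∀ x ∈ closedBall (0:ℂ) (r + δ), Dz (fun y => (θ y : ℂ)) x = 0 := fun x hx => by
      rw [Dz_congr (g := fun _ => 1) ((hθ1 x hx).mono fun y hy => by simp [hy]), Dz_const]
    set h' := K.indicator h with hh'
    have ih' : Integrable h' := (integrable_indicator_iff hK.measurableSet).2 (hi K hKW hK)
    set k : ℂ → ℂ := fun ζ => Dz (fun y => (θ y : ℂ)) ζ * h' ζ with hk
    have ik : Integrable k := by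
      obtain ⟨B, hB⟩ := hθT.Dz_cont.bounded_above_of_compact_support
        (HasCompactSupport.intro hθT.cpt fun x hx => Test.Dz_zero hx)
      exact ih'.bdd_mul hθT.Dz_cont.aestronglyMeasurable (Eventually.of_forall hB)
    have hfar : ∀ z ∈ ball (0:ℂ) r, ∀ ζ, k ζ = 0 ∨ δ ≤ ‖ζ - z‖ := fun z hz ζ => by
      by_cases hζ : ζ ∈ closedBall (0:ℂ) (r + δ)
      · left; simp [hk, hD0 ζ hζ]
      · right
        rw [mem_closedBall_zero_iff, not_le] at hζ
        rw [mem_ball_zero_iff] at hz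
        linarith [norm_sub_norm_le ζ z]
    have hm : ∀ (z : ℂ) (n : ℕ), AEStronglyMeasurable (fun ζ => k ζ / (ζ - z) ^ n) volume :=
      fun z n => (ik.aemeasurable.div (by fun_prop)).aestronglyMeasurable
    have hbd : ∀ z ∈ ball (0:ℂ) r, ∀ (n : ℕ) ζ, ‖k ζ / (ζ - z) ^ n‖ ≤ ‖k ζ‖ / δ ^ n :=
      fun z hz n ζ => by
        rcases hfar z hz ζ with h1 | h1
        · simp [h1]
        · rw [norm_div, norm_pow]; gcongr
    have ikz : ∀ z ∈ ball (0:ℂ) r, Integrable fun ζ => k ζ / (ζ - z) ^ 1 := fun z hz =>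
      (ik.norm.div_const _).mono' (hm z 1) (Eventually.of_forall (hbd z hz 1))
    have hsupp : ∀ z ∈ ball (0:ℂ) r, ∀ ε ∈ Ioo 0 δ, ∀ ζ, ζ ∈ closedBall (0:ℂ) (r + δ) ∨
        1 ≤ ‖ζ - z‖ ^ 2 / ε ^ 2 := fun z hz ε hε ζ => by
      rw [or_iff_not_imp_left]
      intro hζ
      rw [mem_closedBall_zero_iff, not_le] at hζ
      rw [mem_ball_zero_iff] at hz
      have h1 : ε ≤ ‖ζ - z‖ := by linarith [norm_sub_norm_le ζ z, hε.2]
      have := hε.1
      rw [le_div_iff₀ (by positivity), one_mul]; gcongr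
    have hcv' : ∀ z ∈ ball (0:ℂ) r, ∀ ε ∈ Ioo 0 δ,
        cv z ε = ∫ ζ, (deriv α (‖ζ - z‖ ^ 2 / ε ^ 2) / (ε ^ 2 * c)) • h' ζ := fun z hz ε hε => by
      refine integral_congr_ae (Eventually.of_forall fun ζ => ?_)
      rcases hsupp z hz ε hε ζ with h1 | h1
      · simp only [hh', indicator_of_mem (hKK h1)]
      · simp [ha0 _ (Or.inr (show 1 / 2 < ‖ζ - z‖ ^ 2 / ε ^ 2 by linarith))]
    refine ⟨fun z => -(1 / (2 * c)) * ∫ ζ, k ζ / (ζ - z) ^ 1, fun z hz => ?_, fun z hz => ?_, ?_⟩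
    · refine (DifferentiableAt.const_mul ?_ _).differentiableWithinAt
      refine (hasDerivAt_integral_of_dominated_loc_of_deriv_le (isOpen_ball.mem_nhds hz)
        (F := fun z ζ => k ζ / (ζ - z) ^ 1) (F' := fun z ζ => k ζ / (ζ - z) ^ 2)
        (Eventually.of_forall fun x => hm x 1) (ikz z hz) (hm z 2)
        (Eventually.of_forall fun ζ x hx => hbd x hx 2 ζ) (ik.norm.div_const _)
        (Eventually.of_forall fun ζ x hx => ?_)).2.differentiableAt
      rcases hfar x hx ζ with h1 | h1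
      · simpa [h1] using hasDerivAt_const x (0:ℂ)
      · have h2 : ζ - x ≠ 0 := norm_pos_iff.1 (hδ0.trans_le h1)
        simp only [pow_one]
        refine ((hasDerivAt_const x (k ζ)).div ((hasDerivAt_id x).const_sub ζ) h2).congr_deriv ?_
        simp
    · refine tendsto_const_nhds.congr' ?_
      filter_upwards [Ioo_mem_nhdsGT hδ0] with ε hε
      have hε0 := hε.1
      set q : ℂ → ℂ := fun y => (α (‖y - z‖ ^ 2 / ε ^ 2) : ℂ) with hq
      have hqc : ContDiff ℝ 2 q := Complex.ofRealCLM.contDiff.comp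
        (hα.comp (((nsq_contDiff (n := 2)).comp (contDiff_id.sub contDiff_const)).div_const _))
      have hq0 : q =ᶠ[𝓝 z] fun _ => 0 := by
        have h1 : ContinuousAt (fun y : ℂ => ‖y - z‖ ^ 2 / ε ^ 2) z := by fun_prop
        filter_upwards [h1.eventually_lt (continuousAt_const (y := 1 / 4)) (by simp)] with y hy
        simp [hq, hα0 _ hy.le]
      set f : ℂ → ℂ := fun y => (θ y * q y) * (y - z)⁻¹ with hf
      have hf0 : f =ᶠ[𝓝 z] fun _ => 0 := hq0.mono fun y hy => by simp [hf, hy]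
      have hinv : ∀ y, y ≠ z → AnalyticAt ℂ (fun y => (y - z)⁻¹) y := fun y hy =>
        (analyticAt_id.sub analyticAt_const).inv (sub_ne_zero.2 hy)
      have hfT : Test (ball 0 R) f := by
        refine ⟨contDiff_iff_contDiffAt.2 fun y => ?_,
          HasCompactSupport.intro hK fun x hx => by simp [hf, hθ0 x hx],
          (closure_minimal (fun x hx => by
            by_contra hcon; exact hx (by simp [hf, hθ0 x hcon])) hK.isClosed).trans hKW⟩
        by_cases hy : y = z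
        · rw [hy]; exact contDiffAt_const.congr_of_eventuallyEq hf0
        · exact (hθc.mul hqc).contDiffAt.mul (hol_c2 (hinv y hy))
      have hDf : ∀ y, Dz f y * h' y = k y / (y - z) ^ 1 +
          2 * c * ((deriv α (‖y - z‖ ^ 2 / ε ^ 2) / (ε ^ 2 * c)) • h' y) := fun y => by
        by_cases hy : y = z
        · rw [hy, Dz_congr hf0, Dz_const, ha0 _ (Or.inl (by simp))]
          simp
        · have h1 := sub_ne_zero.2 hy
          have h2 : (c:ℂ) ≠ 0 := by exact_mod_cast hc.ne'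
          have h3 : (ε:ℂ) ≠ 0 := by exact_mod_cast hε0.ne'
          rw [hf, Dz_mul_hol ((hθc.mul hqc).differentiable (by norm_num) y)
            (hinv y hy).differentiableAt, Dz_mul (hθT.diff y) (hqc.differentiable (by norm_num) y),
            hq, Dz_radial (hα.differentiable (by norm_num))]
          rcases hsupp z hz ε hε y with h4 | h4
          · simp only [hk, hD0 y h4, (hθ1 y h4).self_of_nhds, Complex.real_smul]
            push_cast
            field_simp
            ring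
          · simp only [hk, ha0 _ (Or.inr (show 1 / 2 < ‖y - z‖ ^ 2 / ε ^ 2 by linarith)),
              hα1 _ (show 1 / 2 ≤ ‖y - z‖ ^ 2 / ε ^ 2 by linarith)]
            simp [div_eq_mul_inv]
            ring
      have ig : Integrable fun y => (deriv α (‖y - z‖ ^ 2 / ε ^ 2) / (ε ^ 2 * c)) • h' y := by
        have h1 : Continuous fun y : ℂ => deriv α (‖y - z‖ ^ 2 / ε ^ 2) / (ε ^ 2 * c) :=
          ((hα.continuous_deriv (by norm_num)).comp (by fun_prop)).div_const _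
        refine ih'.bdd_smul (A / (ε ^ 2 * c)) h1.aestronglyMeasurable
          (Eventually.of_forall fun y => ?_)
        rw [Real.norm_eq_abs, abs_of_nonneg (div_nonneg (hA _).1 (by positivity))]
        gcongr
        exact (hA _).2
      have h5 : ∫ y, Dz f y * h' y = 0 := by
        rw [← h0 f hfT, ← integral_indicator measurableSet_ball]
        refine integral_congr_ae (Eventually.of_forall fun y => ?_)
        by_cases hy : y ∈ K
        · simp only [hh', indicator_of_mem hy, indicator_of_mem (hKW hy)]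
        · have : Dz f y = 0 := by
            rw [Dz_congr (ev_zero_of hK.isClosed (fun x hx => by simp [hf, hθ0 x hx]) hy), Dz_const]
          simp [this, indicator]
      simp only [hDf] at h5
      rw [integral_add (ikz z hz) (ig.const_mul _), integral_const_mul, ← hcv' z hz ε hε] at h5
      have h2 : (c:ℂ) ≠ 0 := by exact_mod_cast hc.ne'
      have h6 : ∀ X Y : ℂ, X + 2 * c * Y = 0 → -(1 / (2 * c)) * X = Y := fun X Y h => by
        field_simp
        linear_combination -h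
      exact h6 _ _ h5
    · filter_upwards [kernel_tendsto hA (fun t ht => ha0 t (Or.inr ht)) hc ih'.locallyIntegrable]
        with z hz hzr
      have h1 : h' z = h z := indicator_of_mem
        (hKK (ball_subset_closedBall (ball_subset_ball (by linarith) hzr))) _
      rw [h1] at hz
      refine hz.congr' ?_
      filter_upwards [Ioo_mem_nhdsGT hδ0] with ε hε using (hcv' z hzr ε hε).symm
  refine ⟨fun z => limUnder (𝓝[>] 0) (cv z), fun z hz => ?_, ?_⟩
  · obtain ⟨r, hr1, hr2⟩ := exists_between (mem_ball_zero_iff.1 hz)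
    obtain ⟨H, hH, hH1, -⟩ := step r hr2
    have h1 := isOpen_ball.mem_nhds (mem_ball_zero_iff.2 hr1)
    refine ((hH.differentiableAt h1).congr_of_eventuallyEq ?_).differentiableWithinAt
    filter_upwards [h1] with y hy using (hH1 y hy).limUnder_eq
  · have h1 : ∀ n : ℕ, ∀ᵐ z, z ∈ ball (0:ℂ) (R - 1 / (n + 1)) →
        Tendsto (cv z) (𝓝[>] 0) (𝓝 (h z)) := fun n =>
      (step _ (by have : (0:ℝ) < 1 / (n + 1) := by positivity
                  linarith)).choose_spec.2.2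
    filter_upwards [ae_all_iff.2 h1] with z hz hzR
    obtain ⟨n, hn⟩ := exists_nat_one_div_lt (sub_pos.2 (mem_ball_zero_iff.1 hzR))
    exact (hz n (mem_ball_zero_iff.2 (by linarith))).limUnder_eq.symm

end Pool.Agent.Lib.MP_6c91ae_an
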