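import Pool.Agent.Lib.MP_6c91ae_an.Diff

namespace Pool.Agent.Lib.MP_6c91ae_an

open Metric Complex Set Filter Topology Polynomial
open scoped ComplexConjugate

/-- the size of point evaluations in the half plane -/
noncomputable def EE (W : ℂ) : ℝ := ‖W + 1‖ ^ 2 / (4 * W.re)

/-- pseudo-hyperbolic distance in the half plane -/
noncomputable def hd (W V : ℂ) : ℝ := ‖V - W‖ / ‖V + conj W‖

lemma one_le_EE {W : ℂ} (h : W ∈ HP) : 1 ≤ EE W := by
  have hx : 0 < W.re := h
  unfold EE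
  rw [le_div_iff₀ (by positivity), Complex.sq_norm, Complex.normSq_apply]
  simp only [Complex.add_re, Complex.one_re, Complex.add_im, Complex.one_im]
  nlinarith [sq_nonneg (W.re - 1), sq_nonneg W.im]

lemma re_le_norm_add_one {W : ℂ} : W.re ≤ ‖W + 1‖ := by
  have := Complex.re_le_norm (W + 1)
  simp only [Complex.add_re, Complex.one_re] at this
  linarith

lemma norm_add_conj_pos {W V : ℂ} (hW : W ∈ HP) (hV : V ∈ HP) : 0 < ‖V + conj W‖ := by
  have := Complex.re_le_norm (V + conj W)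
  simp only [Complex.add_re, Complex.conj_re] at this
  have h1 : 0 < W.re := hW
  have h2 : 0 < V.re := hV
  linarith

lemma norm_sub_le_hd {W V : ℂ} (hW : W ∈ HP) (hV : V ∈ HP) {s0 : ℝ} (h : hd W V ≤ s0)
    (hs : s0 < 1) : ‖V - W‖ ≤ 2 / (1 - s0) * hd W V * W.re := by
  have h1 := norm_add_conj_pos hW hV
  have hx : 0 < W.re := hW
  have h2 : ‖V - W‖ = hd W V * ‖V + conj W‖ := by unfold hd; field_simp
  have h3 : ‖V + conj W‖ ≤ ‖V - W‖ + 2 * W.re := by
    have : V + conj W = (V - W) + ((2 * W.re : ℝ) : ℂ) := by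
      rw [← Complex.add_conj]; ring
    rw [this]
    refine (norm_add_le _ _).trans ?_
    rw [Complex.norm_real, Real.norm_eq_abs, abs_of_pos (by positivity)]
  have h4 : 0 ≤ hd W V := by unfold hd; positivity
  have h5 : ‖V - W‖ * (1 - s0) ≤ 2 * hd W V * W.re := by
    nlinarith [norm_nonneg (V - W)]
  rw [div_mul_eq_mul_div, div_mul_eq_mul_div, le_div_iff₀ (by linarith)]
  exact h5

lemma core {Φ : ℂ → ℂ} (hΦ : DifferentiableOn ℂ Φ HP) (hre : ∀ W ∈ HP, W.re ≤ (Φ W).re)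
    {W0 : ℂ} (h0 : W0 ∈ HP) {M s0 : ℝ} (hs0 : s0 < 1)
    (hs : ∀ n, hd (Φ^[n] W0) (Φ^[n + 1] W0) ≤ s0)
    (hM : ∀ n, hd (Φ^[n] W0) (Φ^[n + 1] W0) * Real.log (EE (Φ^[n] W0)) ^ 2 ≤ M)
    (hlim : Tendsto (fun n => hd (Φ^[n] W0) (Φ^[n + 1] W0)) atTop (𝓝 0)) :
    ∃ K : ℝ, ∀ᶠ n in atTop, ∃ q : ℝ[X], q.coeff 0 = 1 ∧
      ∑ j ∈ q.support, |q.coeff j| * √(EE (Φ^[j] W0)) ≤ K ∧
      ∀ (F : ℂ → ℂ) (A : ℝ), DifferentiableOn ℂ F HP → 0 ≤ A →
        (∀ W ∈ HP, ‖F W‖ ≤ A * √(EE W)) →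
        ‖∑ j ∈ q.support, (q.coeff j : ℂ) * F (Φ^[n + j] W0)‖ ≤ K * A := by
  have hm : MapsTo Φ HP HP := fun W hW => lt_of_lt_of_le (show 0 < W.re from hW) (hre W hW)
  set W : ℕ → ℂ := fun n => Φ^[n] W0 with hW
  have hWm : ∀ n, W n ∈ HP := fun n => hm.iterate n h0
  have hWs : ∀ n, W (n + 1) = Φ (W n) := fun n => Function.iterate_succ_apply' _ _ _
  set s : ℕ → ℝ := fun n => hd (W n) (W (n + 1)) with hsd
  set d : ℕ → ℝ := fun n => Real.log (EE (W n)) with hdd
  have hsn : ∀ n, 0 ≤ s n := fun n => by simp only [hsd, hd]; positivity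
  have hs00 : 0 ≤ s0 := (hsn 0).trans (hs 0)
  have hdn : ∀ n, 0 ≤ d n := fun n => Real.log_nonneg (one_le_EE (hWm n))
  set κ : ℝ := 2 / (1 - s0) with hκ
  have hκ0 : 0 < κ := div_pos two_pos (by linarith)
  have hP : ∀ n, ‖W (n + 1) - W n‖ ≤ κ * s n * (W n).re := fun n =>
    norm_sub_le_hd (hWm n) (hWm (n + 1)) (hs n) hs0
  have hEpos : ∀ n, 0 < EE (W n) := fun n => lt_of_lt_of_le one_pos (one_le_EE (hWm n))
  have hstep : ∀ n, d (n + 1) ≤ d n + (2 * κ) * s n := by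
    intro n
    have hx : 0 < (W n).re := hWm n
    have h1 : ‖W (n + 1) + 1‖ ≤ ‖W n + 1‖ * Real.exp (κ * s n) := by
      have h2 : W (n + 1) + 1 = (W n + 1) + (W (n + 1) - W n) := by ring
      have h3 := norm_add_le (W n + 1) (W (n + 1) - W n)
      rw [← h2] at h3
      have h4 := Real.add_one_le_exp (κ * s n)
      have h5 : κ * s n * (W n).re ≤ κ * s n * ‖W n + 1‖ :=
        mul_le_mul_of_nonneg_left re_le_norm_add_one (mul_nonneg hκ0.le (hsn n))
      nlinarith [hP n, norm_nonneg (W n + 1)]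
    have h2 : EE (W (n + 1)) ≤ EE (W n) * Real.exp ((2 * κ) * s n) := by
      have h3 : (W n).re ≤ (W (n + 1)).re := by rw [hWs]; exact hre _ (hWm n)
      unfold EE
      calc _ ≤ (‖W n + 1‖ * Real.exp (κ * s n)) ^ 2 / (4 * (W n).re) := by gcongr
        _ = _ := by
          rw [mul_pow, ← Real.exp_nat_mul]; push_cast
          rw [mul_assoc 2 κ]; ring
    have h3 := Real.log_le_log (hEpos _) h2
    rwa [Real.log_mul (hEpos n).ne' (Real.exp_pos _).ne', Real.log_exp] at h3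
  obtain ⟨B, hB0, hB⟩ := cube_growth hdn hsn (fun n => (hs n).trans hs0.le) (by positivity) hM hstep
  have hM0 : 0 ≤ M := le_trans (mul_nonneg (hsn 0) (sq_nonneg _)) (hM 0)
  set ε : ℝ := 1 / (288 * κ * (M + 1)) with hε
  have hε0 : 0 < ε := by positivity
  obtain ⟨Kw, hKw⟩ := exists_weights B ε hB0 hε0
  have hKw0 : 0 ≤ Kw := by
    obtain ⟨q, -, -, -, h⟩ := hKw 0
    exact (wn_nonneg _ _).trans h
  have hsqrt : ∀ n, √(EE (W n)) = Real.exp (d n / 2) := fun n => by
    rw [Real.exp_half, Real.exp_log (hEpos n)]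
  refine ⟨max (Real.exp B * Kw) (6 * Kw), ?_⟩
  have hev : ∀ᶠ n in atTop, s n * (36 * κ * (2 * ε + Kw)) < 1 / 4 := by
    have := hlim.mul_const (36 * κ * (2 * ε + Kw))
    rw [zero_mul] at this
    exact this.eventually (gt_mem_nhds (by norm_num))
  filter_upwards [hev] with n hn
  obtain ⟨q, hq1, hq2, hq3, hq4⟩ := hKw ⌈d n⌉₊
  refine ⟨q, hq1, le_trans ?_ (le_max_left _ _), fun F A hF hA hFA => ?_⟩
  · refine le_trans ?_ (mul_le_mul_of_nonneg_left hq4 (Real.exp_pos B).le)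
    rw [wn, Finset.mul_sum]
    refine Finset.sum_le_sum fun j _ => ?_
    have h1 : √(EE (Φ^[j] W0)) ≤ Real.exp B * Real.exp (B * (j:ℝ) ^ (1 / 3 : ℝ)) := by
      rw [← Real.exp_add]
      refine (hsqrt j).le.trans (Real.exp_le_exp.2 ?_)
      linarith [hB j, hdn j]
    calc _ ≤ |q.coeff j| * (Real.exp B * Real.exp (B * (j:ℝ) ^ (1 / 3 : ℝ))) := by gcongr
      _ = _ := by ring
  · have hx : 0 < (W n).re := hWm n
    set σ := 3 * κ * s n with hσ
    have hσ0 : 0 ≤ σ := by have := hsn n; positivity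
    have hσ1 : ∀ V ∈ closedBall (W n) ((W n).re / 2), ‖Φ V - V‖ ≤ σ * (W n).re := by
      intro V hV
      refine (harnack hΦ hre (hWm n) hV).trans ?_
      rw [← hWs]
      have := hP n
      rw [hσ]; linarith
    have hK : ∀ V ∈ closedBall (W n) ((W n).re / 2), ‖F V‖ ≤ 3 * A * √(EE (W n)) := by
      intro V hV
      have hV' := closedBall_subset_HP (hWm n) hV
      refine (hFA V hV').trans ?_
      rw [mem_closedBall, dist_eq_norm] at hV
      have h1 : (W n).re / 2 ≤ V.re := by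
        have := Complex.abs_re_le_norm (V - W n)
        simp only [Complex.sub_re] at this
        linarith [neg_abs_le (V.re - (W n).re)]
      have h2 : ‖V + 1‖ ≤ 3 / 2 * ‖W n + 1‖ := by
        have h3 := norm_add_le (W n + 1) (V - W n)
        rw [show W n + 1 + (V - W n) = V + 1 by ring] at h3
        linarith [re_le_norm_add_one (W := W n)]
      have h3 : EE V ≤ 3 ^ 2 * EE (W n) := by
        unfold EE
        calc _ ≤ (3 / 2 * ‖W n + 1‖) ^ 2 / (4 * ((W n).re / 2)) := by gcongr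
          _ = 9 / 2 * (‖W n + 1‖ ^ 2 / (4 * (W n).re)) := by field_simp; ring
          _ ≤ _ := by gcongr; norm_num
      have h4 := Real.sqrt_le_sqrt h3
      rw [Real.sqrt_mul (by positivity), Real.sqrt_sq (by norm_num)] at h4
      nlinarith
    have hD : (⌈d n⌉₊ : ℝ) ≤ d n + 1 := (Nat.ceil_lt_add_one (hdn n)).le
    have hJ : 12 * σ * q.natDegree ≤ 1 / 2 := by
      have h1 : (⌈d n⌉₊ : ℝ) ^ 2 ≤ 2 * d n ^ 2 + 2 := by
        have : (⌈d n⌉₊ : ℝ) ^ 2 ≤ (d n + 1) ^ 2 := by gcongr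
        nlinarith [sq_nonneg (d n - 1)]
      have h2 : (q.natDegree : ℝ) ≤ ε * (2 * d n ^ 2 + 2) + Kw :=
        hq2.trans (by gcongr)
      have h3 : 72 * κ * ε * (s n * d n ^ 2) ≤ 1 / 4 := by
        calc _ ≤ 72 * κ * ε * (M + 1) := by gcongr; linarith [hM n]
          _ = 1 / 4 := by rw [hε]; field_simp; norm_num
      calc _ ≤ 12 * σ * (ε * (2 * d n ^ 2 + 2) + Kw) := by gcongr
        _ = 72 * κ * ε * (s n * d n ^ 2) + s n * (36 * κ * (2 * ε + Kw)) := by rw [hσ]; ring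
        _ ≤ _ := by linarith
    have hKq : ∑ j ∈ q.support, |q.coeff j| ≤ Kw := by
      refine le_trans (Finset.sum_le_sum fun j _ => ?_) hq4
      exact le_mul_of_one_le_right (abs_nonneg _) (Real.one_le_exp (by positivity))
    have h1 := sum_bound hq3 hσ0 (K := 3 * A * √(EE (W n))) (by positivity) hKq
      (u := fun m => F (Φ^[m] W0)) (n := n) (fun i hi => by
        rw [← dop_iter_eq]
        refine diff_bound hΦ hm hF (hWm n) hσ0 hσ1 hK i ?_
        have : (i:ℝ) ≤ q.natDegree := by exact_mod_cast hi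
        have : σ * i ≤ σ * q.natDegree := by gcongr
        have : 0 ≤ σ * q.natDegree := by positivity
        linarith) hJ
    refine h1.trans (le_trans ?_ (mul_le_mul_of_nonneg_right (le_max_right _ _) hA))
    have h2 : √(EE (W n)) * (1 / 2) ^ ⌈d n⌉₊ ≤ 1 := by
      rw [hsqrt]
      have h3 : Real.exp (d n / 2) ≤ 2 ^ ⌈d n⌉₊ := by
        have h4 : Real.exp (1 / 2) ≤ 2 := by
          rw [Real.exp_half]
          refine Real.sqrt_le_iff.2 ⟨by norm_num, ?_⟩
          linarith [Real.exp_one_lt_three]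
        calc _ ≤ Real.exp (⌈d n⌉₊ * (1 / 2)) := by
              refine Real.exp_le_exp.2 ?_
              linarith [Nat.le_ceil (d n)]
          _ = Real.exp (1 / 2) ^ ⌈d n⌉₊ := Real.exp_nat_mul _ _
          _ ≤ _ := by gcongr
      calc Real.exp (d n / 2) * (1 / 2) ^ ⌈d n⌉₊ ≤ (2:ℝ) ^ ⌈d n⌉₊ * (1 / 2) ^ ⌈d n⌉₊ := by
            gcongr
        _ = 1 := by rw [← mul_pow]; norm_num
    calc _ = 6 * Kw * A * (√(EE (W n)) * (1 / 2) ^ ⌈d n⌉₊) := by ring
      _ ≤ 6 * Kw * A * 1 := by gcongr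
      _ = _ := mul_one _

lemma isOpen_HP : IsOpen HP := isOpen_lt continuous_const Complex.continuous_re

lemma convex_HP : Convex ℝ HP := convex_halfSpace_re_gt 0

lemma peak_gap {Φ : ℂ → ℂ} (hΦ : DifferentiableOn ℂ Φ HP) (hre : ∀ W ∈ HP, W.re ≤ (Φ W).re)
    {W0 : ℂ} (h0 : W0 ∈ HP) (hne : Φ W0 ≠ W0)
    (hlim : Tendsto (fun n => hd (Φ^[n] W0) (Φ^[n + 1] W0)) atTop (𝓝 0)) :
    W0.re < (Φ W0).re := by
  refine lt_of_le_of_ne (hre W0 h0) fun heq => ?_
  have hm : MapsTo Φ HP HP := fun W hW => lt_of_lt_of_le (show 0 < W.re from hW) (hre W hW)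
  have h1 := Complex.eqOn_of_isPreconnected_of_isMaxOn_norm
    (f := fun W => Complex.exp (W - Φ W)) convex_HP.isPreconnected isOpen_HP
    (DifferentiableOn.cexp (by fun_prop)) h0 (fun W hW => by
      simp only [Function.comp, mem_ofPred_eq, Complex.norm_exp, Complex.sub_re]
      refine Real.exp_le_exp.2 ?_
      linarith [hre W hW])
  have h2 : ∀ W ∈ HP, (Φ W).re = W.re := by
    intro W hW
    have := congrArg norm (h1 hW)
    simp only [Function.const, Complex.norm_exp, Complex.sub_re, Real.exp_eq_exp] at this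
    linarith
  have hder : ∀ W ∈ HP, deriv (fun W => W - Φ W) W = 0 := by
    intro W hW
    have h3 : DifferentiableAt ℂ (fun W => W - Φ W) W :=
      differentiableAt_id.sub (hΦ.differentiableAt (isOpen_HP.mem_nhds hW))
    have h4 := h3.hasDerivAt.cexp
    have h5 : (fun W => Complex.exp (W - Φ W)) =ᶠ[𝓝 W] fun _ => Complex.exp (W0 - Φ W0) := by
      filter_upwards [isOpen_HP.mem_nhds hW] with V hV using h1 hV
    have h6 := h4.unique ((hasDerivAt_const W _).congr_of_eventuallyEq h5)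
    exact (mul_eq_zero.1 h6).resolve_left (Complex.exp_ne_zero _)
  have h3 : ∀ W ∈ HP, W - Φ W = W0 - Φ W0 := fun W hW =>
    isOpen_HP.is_const_of_deriv_eq_zero convex_HP.isPreconnected (by fun_prop) hder hW h0
  have h4 : ∀ n, (Φ^[n] W0).re = W0.re := by
    intro n
    induction n with
    | zero => rfl
    | succ n ih => rw [Function.iterate_succ_apply', h2 _ (hm.iterate n h0), ih]
  have h5 : ∀ n, hd (Φ^[n] W0) (Φ^[n + 1] W0) = hd W0 (Φ W0) := by
    intro n
    have h6 := h3 _ (hm.iterate n h0)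
    rw [Function.iterate_succ_apply']
    unfold hd
    have e1 : Φ (Φ^[n] W0) - Φ^[n] W0 = Φ W0 - W0 := by linear_combination -h6
    have e2 : Φ (Φ^[n] W0) + conj (Φ^[n] W0) = Φ W0 + conj W0 := by
      have e3 := Complex.add_conj (Φ^[n] W0)
      have e4 := Complex.add_conj W0
      rw [h4] at e3
      linear_combination e1 + e3 - e4
    rw [e1, e2]
  simp only [h5] at hlim
  have h6 := tendsto_nhds_unique hlim tendsto_const_nhds
  have h7 : 0 < hd W0 (Φ W0) :=
    div_pos (norm_pos_iff.2 (sub_ne_zero.2 hne)) (norm_add_conj_pos h0 (hm h0))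
  linarith

end Pool.Agent.Lib.MP_6c91ae_an
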