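import Mathlib

namespace Pool.Agent.Lib.MP_6c91ae_an

open Metric Complex Set Filter Topology
open scoped Real

/-- principal real power -/
noncomputable def cp (a : ℝ) (w : ℂ) : ℂ := Complex.exp (a * Complex.log w)

lemma ne_zero_of_re_pos' {w : ℂ} (h : 0 < w.re) : w ≠ 0 := by
  rintro rfl; simp at h

lemma norm_cp (a : ℝ) {w : ℂ} (h : w ≠ 0) : ‖cp a w‖ = ‖w‖ ^ a := by
  rw [cp, Complex.norm_exp, Complex.re_ofReal_mul, Complex.log_re,
    Real.rpow_def_of_pos (norm_pos_iff.2 h), mul_comm]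

lemma cp_re (a : ℝ) {w : ℂ} (h : w ≠ 0) : (cp a w).re = ‖w‖ ^ a * Real.cos (a * arg w) := by
  rw [cp, Complex.exp_re, Complex.re_ofReal_mul, Complex.im_ofReal_mul, Complex.log_re,
    Complex.log_im, Real.rpow_def_of_pos (norm_pos_iff.2 h), mul_comm a]

lemma cp_im (a : ℝ) {w : ℂ} (h : w ≠ 0) : (cp a w).im = ‖w‖ ^ a * Real.sin (a * arg w) := by
  rw [cp, Complex.exp_im, Complex.re_ofReal_mul, Complex.im_ofReal_mul, Complex.log_re,
    Complex.log_im, Real.rpow_def_of_pos (norm_pos_iff.2 h), mul_comm a]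

lemma hasDerivAt_cp (a : ℝ) {w : ℂ} (h : 0 < w.re) :
    HasDerivAt (cp a) (a * cp (a - 1) w) w := by
  have h0 := ne_zero_of_re_pos' h
  have h1 := ((Complex.hasDerivAt_log (Or.inl h : w ∈ slitPlane)).const_mul (a:ℂ)).cexp
  refine h1.congr_deriv ?_
  unfold cp
  push_cast
  rw [sub_mul, one_mul, Complex.exp_sub, Complex.exp_log h0]
  field_simp

lemma cp_one {w : ℂ} (h : w ≠ 0) : cp 1 w = w := by simp [cp, Complex.exp_log h]

lemma cp_cp (a b : ℝ) {w : ℂ} (h : |a * arg w| < π) : cp b (cp a w) = cp (b * a) w := by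
  unfold cp
  rw [Complex.log_exp]
  · push_cast; rw [mul_assoc]
  · rw [Complex.im_ofReal_mul, Complex.log_im]; linarith [neg_abs_le (a * arg w)]
  · rw [Complex.im_ofReal_mul, Complex.log_im]; linarith [le_abs_self (a * arg w)]

lemma cp_ofReal (a : ℝ) {x : ℝ} (h : 0 < x) : cp a x = ((x ^ a : ℝ) : ℂ) := by
  rw [cp, ← Complex.ofReal_log h.le, ← Complex.ofReal_mul, ← Complex.ofReal_exp,
    Real.rpow_def_of_pos h, mul_comm]

lemma cpow_eq_cp (a : ℝ) {w : ℂ} (h : w ≠ 0) : w ^ (a : ℂ) = cp a w := by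
  rw [Complex.cpow_def_of_ne_zero h, cp, mul_comm]

lemma abs_arg_lt {w : ℂ} (h : 0 < w.re) : |arg w| < π / 2 :=
  Complex.abs_arg_lt_pi_div_two_iff.2 (Or.inl h)

lemma abs_arg_le_div {w : ℂ} (h : 0 < w.re) : |arg w| ≤ |w.im| / w.re := by
  have h1 := abs_arg_lt h
  have h2 := Real.le_tan (abs_nonneg (arg w)) h1
  have h3 : Real.tan |arg w| = |w.im| / w.re := by
    rcases le_total 0 (arg w) with h0 | h0
    · rw [abs_of_nonneg h0, Complex.tan_arg, abs_of_nonneg (Complex.arg_nonneg_iff.1 h0)]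
    · rw [abs_of_nonpos h0, Real.tan_neg, Complex.tan_arg]
      have : w.im ≤ 0 := by
        by_contra hc
        have h4 : 0 < w.im := not_le.1 hc
        have h5 := Complex.arg_nonneg_iff.2 h4.le
        have h6 : arg w = 0 := le_antisymm h0 h5
        rw [Complex.arg_eq_zero_iff] at h6
        linarith [h6.2]
      rw [abs_of_nonpos this]; ring
  rwa [h3] at h2

lemma abs_mul_arg_lt {a : ℝ} (ha : |a| ≤ 1) {w : ℂ} (h : 0 < w.re) : |a * arg w| < π / 2 := by
  rw [abs_mul]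
  exact (mul_le_of_le_one_left (abs_nonneg _) ha).trans_lt (abs_arg_lt h)

lemma cp_re_pos {a : ℝ} (ha : |a| ≤ 1) {w : ℂ} (h : 0 < w.re) : 0 < (cp a w).re := by
  have h0 := ne_zero_of_re_pos' h
  rw [cp_re a h0]
  exact mul_pos (Real.rpow_pos_of_pos (norm_pos_iff.2 h0) _)
    (Real.cos_pos_of_mem_Ioo (abs_lt.1 (abs_mul_arg_lt ha h)))

/-- `Re (w ^ a) ≥ (Re w) ^ a` for `0 ≤ a ≤ 1` -/
lemma rpow_re_le_cp_re {a : ℝ} (ha0 : 0 ≤ a) (ha1 : a ≤ 1) {w : ℂ} (h : 0 < w.re) :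
    w.re ^ a ≤ (cp a w).re := by
  have h0 := ne_zero_of_re_pos' h
  have hn : 0 < ‖w‖ := norm_pos_iff.2 h0
  rw [cp_re a h0]
  have h1 : w.re = ‖w‖ * Real.cos (arg w) := by rw [Complex.cos_arg h0]; field_simp
  have h2 := abs_lt.1 (abs_arg_lt h)
  have hc : 0 < Real.cos (arg w) := Real.cos_pos_of_mem_Ioo h2
  rw [h1, Real.mul_rpow hn.le hc.le]
  gcongr
  have h3 := strictConcaveOn_cos_Icc.concaveOn.2 (x := arg w) (y := 0) ⟨h2.1.le, h2.2.le⟩
    ⟨by linarith [Real.pi_pos], by linarith [Real.pi_pos]⟩ ha0 (sub_nonneg.2 ha1) (by ring)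
  have h4 := Real.geom_mean_le_arith_mean2_weighted ha0 (sub_nonneg.2 ha1) hc.le zero_le_one
    (by ring)
  simp only [smul_eq_mul, mul_zero, add_zero, Real.cos_zero, Real.one_rpow, mul_one] at h3 h4
  linarith

/-- Lipschitz bound for roots -/
lemma norm_cp_sub_le {a x : ℝ} (ha0 : 0 ≤ a) (ha1 : a ≤ 1) (hx : 0 < x) {w v : ℂ}
    (hw : x ≤ w.re) (hv : x ≤ v.re) : ‖cp a w - cp a v‖ ≤ a * x ^ (a - 1) * ‖w - v‖ := by
  refine Convex.norm_image_sub_le_of_norm_hasDerivWithin_le (s := {u : ℂ | x ≤ u.re})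
    (f' := fun u => a * cp (a - 1) u)
    (fun u hu => (hasDerivAt_cp a (hx.trans_le hu)).hasDerivWithinAt) (fun u hu => ?_)
    (convex_halfSpace_re_ge x) hv hw
  rw [norm_mul, norm_cp _ (ne_zero_of_re_pos' (hx.trans_le hu)), Complex.norm_real,
    Real.norm_eq_abs, abs_of_nonneg ha0]
  exact mul_le_mul_of_nonneg_left
    (Real.rpow_le_rpow_of_nonpos hx (le_trans hu (Complex.re_le_norm u)) (by linarith)) ha0

lemma hasDerivAt_cp_add (a : ℝ) {w : ℂ} {t : ℝ} (h : 0 < (w + t).re) :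
    HasDerivAt (fun t : ℝ => cp a (w + t)) (a * cp (a - 1) (w + t)) t := by
  have h1 : HasDerivAt (fun t : ℂ => cp a (w + t)) (a * cp (a - 1) (w + t)) (t:ℂ) := by
    have := (hasDerivAt_cp a h).comp (t:ℂ) ((hasDerivAt_id (t:ℂ)).const_add w)
    rw [mul_one] at this
    exact this
  exact h1.comp_ofReal

lemma cp_re_mono {a : ℝ} (ha0 : 0 ≤ a) (ha1 : a ≤ 1) {w : ℂ} (h : 0 < w.re) {t : ℝ}
    (ht : 0 ≤ t) : (cp a w).re ≤ (cp a (w + t)).re := by
  have hpos : ∀ s ∈ Ici (0:ℝ), 0 < (w + s).re := fun s hs => by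
    simp only [Complex.add_re, Complex.ofReal_re]; linarith [mem_Ici.1 hs]
  have hd : ∀ s ∈ Ici (0:ℝ), HasDerivAt (fun t : ℝ => (cp a (w + t)).re)
      (a * cp (a - 1) (w + s)).re s := fun s hs =>
    Complex.reCLM.hasFDerivAt.comp_hasDerivAt s (hasDerivAt_cp_add a (hpos s hs))
  have := monotoneOn_of_deriv_nonneg (convex_Ici 0)
    (fun s hs => (hd s hs).continuousAt.continuousWithinAt)
    (fun s hs => (hd s (interior_subset hs)).differentiableAt.differentiableWithinAt)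
    (fun s hs => by
      rw [(hd s (interior_subset hs)).deriv, Complex.re_ofReal_mul]
      exact mul_nonneg ha0 (cp_re_pos (abs_le.2 ⟨by linarith, by linarith⟩)
        (hpos s (interior_subset hs))).le) self_mem_Ici ht ht
  simpa using this

lemma cp_conj (a : ℝ) {w : ℂ} (h : 0 < w.re) :
    cp a ((starRingEnd ℂ) w) = (starRingEnd ℂ) (cp a w) := by
  unfold cp
  rw [Complex.log_conj _ (by have := abs_lt.1 (abs_arg_lt h); linarith [Real.pi_pos]),
    ← Complex.exp_conj]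
  simp

lemma cp_im_nonneg {a : ℝ} (ha0 : 0 ≤ a) (ha1 : a ≤ 1) {w : ℂ} (h : 0 < w.re) (hi : 0 ≤ w.im) :
    0 ≤ (cp a w).im := by
  rw [cp_im a (ne_zero_of_re_pos' h)]
  have h1 := abs_lt.1 (abs_mul_arg_lt (abs_le.2 ⟨by linarith, ha1⟩) h)
  exact mul_nonneg (by positivity) (Real.sin_nonneg_of_nonneg_of_le_pi
    (mul_nonneg ha0 (Complex.arg_nonneg_iff.2 hi)) (by linarith [Real.pi_pos]))

lemma cp_im_anti' {a : ℝ} (ha0 : 0 ≤ a) (ha1 : a ≤ 1) {w : ℂ} (h : 0 < w.re) (hi : 0 ≤ w.im)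
    {t : ℝ} (ht : 0 ≤ t) : |(cp a (w + t)).im| ≤ |(cp a w).im| := by
  have hpos : ∀ s ∈ Ici (0:ℝ), 0 < (w + s).re := fun s hs => by
    simp only [Complex.add_re, Complex.ofReal_re]; linarith [mem_Ici.1 hs]
  have hd : ∀ s ∈ Ici (0:ℝ), HasDerivAt (fun t : ℝ => (cp a (w + t)).im)
      (a * cp (a - 1) (w + s)).im s := fun s hs =>
    Complex.imCLM.hasFDerivAt.comp_hasDerivAt s (hasDerivAt_cp_add a (hpos s hs))
  have := antitoneOn_of_deriv_nonpos (convex_Ici 0)
    (fun s hs => (hd s hs).continuousAt.continuousWithinAt)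
    (fun s hs => (hd s (interior_subset hs)).differentiableAt.differentiableWithinAt)
    (fun s hs => by
      have hp := hpos s (interior_subset hs)
      rw [(hd s (interior_subset hs)).deriv, Complex.im_ofReal_mul,
        cp_im _ (ne_zero_of_re_pos' hp)]
      refine mul_nonpos_of_nonneg_of_nonpos ha0 (mul_nonpos_of_nonneg_of_nonpos (by positivity) ?_)
      have h1 := abs_lt.1 (abs_mul_arg_lt (a := a - 1) (abs_le.2 ⟨by linarith, by linarith⟩) hp)
      refine Real.sin_nonpos_of_nonpos_of_neg_pi_le (mul_nonpos_of_nonpos_of_nonneg (by linarith)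
        (Complex.arg_nonneg_iff.2 (by simpa using hi))) (by linarith [Real.pi_pos]))
    self_mem_Ici ht ht
  rw [abs_of_nonneg (cp_im_nonneg ha0 ha1 h hi),
    abs_of_nonneg (cp_im_nonneg ha0 ha1 (hpos t ht) (by simpa using hi))]
  simpa using this

lemma cp_im_anti {a : ℝ} (ha0 : 0 ≤ a) (ha1 : a ≤ 1) {w : ℂ} (h : 0 < w.re)
    {t : ℝ} (ht : 0 ≤ t) : |(cp a (w + t)).im| ≤ |(cp a w).im| := by
  rcases le_total 0 w.im with hi | hi
  · exact cp_im_anti' ha0 ha1 h hi ht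
  · have h1 := cp_im_anti' ha0 ha1 (w := (starRingEnd ℂ) w) (by simpa using h) (by simpa using hi) ht
    have h2 : (starRingEnd ℂ) w + t = (starRingEnd ℂ) (w + t) := by simp
    rw [h2, cp_conj a h, cp_conj a (by simp only [Complex.add_re, Complex.ofReal_re]; linarith)]
      at h1
    simpa using h1

/-- real part of a divided difference -/
lemma re_dslope_ge {f f' : ℂ → ℂ} {S : Set ℂ} (hS : Convex ℝ S)
    (hf : ∀ s ∈ S, HasDerivAt f (f' s) s) {m : ℝ} (hm : ∀ s ∈ S, m ≤ (f' s).re) {a b : ℂ}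
    (ha : a ∈ S) (hb : b ∈ S) : m ≤ (dslope f a b).re := by
  rcases eq_or_ne b a with rfl | hne
  · rw [dslope_same, (hf b hb).deriv]; exact hm b hb
  have hba : b - a ≠ 0 := sub_ne_zero.2 hne
  have hmem : ∀ t ∈ Icc (0:ℝ) 1, a + t * (b - a) ∈ S := fun t ht => by
    have := hS.add_smul_sub_mem ha hb ht
    simpa using this
  have hd : ∀ t ∈ Icc (0:ℝ) 1, HasDerivAt (fun t : ℝ => (f (a + t * (b - a)) / (b - a)).re)
      (f' (a + t * (b - a))).re t := fun t ht => by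
    have h1 : HasDerivAt (fun t : ℂ => f (a + t * (b - a)) / (b - a))
        (f' (a + t * (b - a))) (t:ℂ) := by
      have h2 := ((hf _ (hmem t ht)).comp (t:ℂ)
        (((hasDerivAt_id (t:ℂ)).mul_const (b - a)).const_add a)).div_const (b - a)
      refine h2.congr_deriv ?_
      field_simp
    exact Complex.reCLM.hasFDerivAt.comp_hasDerivAt t h1.comp_ofReal
  have := (convex_Icc (0:ℝ) 1).mul_sub_le_image_sub_of_le_deriv
    (fun t ht => (hd t ht).continuousAt.continuousWithinAt)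
    (fun t ht => (hd t (interior_subset ht)).differentiableAt.differentiableWithinAt)
    (C := m) (fun t ht => by
      rw [(hd t (interior_subset ht)).deriv]; exact hm _ (hmem t (interior_subset ht)))
    0 (by simp) 1 (by simp) zero_le_one
  rw [dslope_of_ne _ hne, slope_def_field, sub_div, Complex.sub_re]
  simpa using this

end Pool.Agent.Lib.MP_6c91ae_an
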