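import Mathlib

namespace Pool.Agent.Lib.MP_6c91ae_an

open scoped ENNReal

/-- The squared Hardy norm: the sum of the squared moduli of the Taylor coefficients at `0`. -/
noncomputable def hardyNormSq (f : ℂ → ℂ) : ℝ≥0∞ :=
  ∑' n : ℕ, enorm (iteratedDeriv n f 0 / (n.factorial : ℂ)) ^ 2

/-- `f` is an element of the Hardy space `H²` of the unit disc. -/
def InH2 (f : ℂ → ℂ) : Prop :=
  DifferentiableOn ℂ f (Metric.ball 0 1) ∧ hardyNormSq f < ⊤

/-- The composition operator with symbol `φ` has a dense orbit in `H²`. -/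
def Hypercyclic (φ : ℂ → ℂ) : Prop :=
  ∃ f, InH2 f ∧ ∀ g, InH2 g → ∀ ε : ℝ≥0∞, 0 < ε →
    ∃ n : ℕ, hardyNormSq (fun z => f (φ^[n] z) - g z) < ε

/-- The pseudo-hyperbolic distance in the unit disc. -/
noncomputable def pdist (z w : ℂ) : ℝ :=
  ‖(w - z) / (1 - (starRingEnd ℂ) z * w)‖

end Pool.Agent.Lib.MP_6c91ae_an
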