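import Pool.Agent.Lib.MP_6c91ae_an.Weights

namespace Pool.Agent.Lib.MP_6c91ae_an

open Metric Complex Set Filter Topology Polynomial
open scoped ComplexConjugate

/-- right half plane -/
def HP : Set ℂ := {W | 0 < W.re}

/-- difference operator along `Φ` -/
def dop (Φ : ℂ → ℂ) (F : ℂ → ℂ) : ℂ → ℂ := fun W => F (Φ W) - F W

lemma closedBall_subset_HP {W0 : ℂ} (h : W0 ∈ HP) : closedBall W0 (W0.re / 2) ⊆ HP := by
  intro W hW
  have h1 := Complex.abs_re_le_norm (W - W0)
  rw [mem_closedBall, dist_eq_norm] at hW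
  have h2 : 0 < W0.re := h
  simp only [Complex.sub_re] at h1
  have := neg_abs_le (W.re - W0.re)
  show 0 < W.re
  linarith

lemma dop_iter_diff {Φ F : ℂ → ℂ} (hΦ : DifferentiableOn ℂ Φ HP) (hm : MapsTo Φ HP HP)
    (hF : DifferentiableOn ℂ F HP) (i : ℕ) : DifferentiableOn ℂ ((dop Φ)^[i] F) HP := by
  induction i with
  | zero => exact hF
  | succ i ih =>
    rw [Function.iterate_succ_apply']
    exact (ih.comp hΦ hm).sub ih

lemma diff_bound {Φ F : ℂ → ℂ} (hΦ : DifferentiableOn ℂ Φ HP) (hm : MapsTo Φ HP HP)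
    (hF : DifferentiableOn ℂ F HP) {W0 : ℂ} (h0 : W0 ∈ HP) {σ K : ℝ} (hσ0 : 0 ≤ σ)
    (hσ : ∀ W ∈ closedBall W0 (W0.re / 2), ‖Φ W - W‖ ≤ σ * W0.re)
    (hK : ∀ W ∈ closedBall W0 (W0.re / 2), ‖F W‖ ≤ K) (i : ℕ) (hi : σ * i < 1 / 2) :
    ‖(dop Φ)^[i] F W0‖ ≤ (4 * σ * i) ^ i * K := by
  have hx : 0 < W0.re := h0
  rcases Nat.eq_zero_or_pos i with rfl | hi0
  · simpa using hK W0 (mem_closedBall_self (by positivity))
  have hi' : (0:ℝ) < i := by exact_mod_cast hi0
  set η : ℝ := W0.re / (2 * i) with hη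
  have hη0 : 0 < η := by positivity
  have hK0 : 0 ≤ K := (norm_nonneg _).trans (hK W0 (mem_closedBall_self (by positivity)))
  have key : ∀ j : ℕ, j ≤ i → ∀ W ∈ closedBall W0 (W0.re / 2 - j * η),
      ‖(dop Φ)^[j] F W‖ ≤ (4 * σ * i) ^ j * K := by
    intro j
    induction j with
    | zero => intro _ W hW; simpa using hK W (by simpa using hW)
    | succ j ih =>
      intro hj W hW
      have ih' := ih (by omega)
      rw [Function.iterate_succ_apply']
      have hsub : ball W η ⊆ closedBall W0 (W0.re / 2 - j * η) := by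
        intro V hV
        rw [mem_closedBall] at hW ⊢
        rw [mem_ball] at hV
        have := dist_triangle V W W0
        push_cast at hW
        linarith
      have hsub2 : closedBall W0 (W0.re / 2 - j * η) ⊆ closedBall W0 (W0.re / 2) :=
        closedBall_subset_closedBall (by have : 0 ≤ (j:ℝ) * η := by positivity
                                         linarith)
      have hW1 : W ∈ ball W η := mem_ball_self hη0
      have hd := (dop_iter_diff hΦ hm hF j).mono
        (hsub.trans (hsub2.trans (closedBall_subset_HP h0)))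
      have hmaps : MapsTo ((dop Φ)^[j] F) (ball W η)
          (closedBall ((dop Φ)^[j] F W) (2 * ((4 * σ * i) ^ j * K))) := by
        intro V hV
        rw [mem_closedBall, dist_eq_norm]
        have := norm_sub_le ((dop Φ)^[j] F V) ((dop Φ)^[j] F W)
        linarith [ih' V (hsub hV), ih' W (hsub hW1)]
      have h1 := hσ W (hsub2 (hsub hW1))
      have h2 : σ * W0.re < η := by
        rw [hη, lt_div_iff₀ (by positivity)]; nlinarith
      have h3 := Complex.dist_le_div_mul_dist_of_mapsTo_ball hd hmaps (z := Φ W)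
        (by rw [mem_ball, dist_eq_norm]; linarith)
      rw [dist_eq_norm, dist_eq_norm] at h3
      refine h3.trans ?_
      calc _ ≤ 2 * ((4 * σ * i) ^ j * K) / η * (σ * W0.re) := by gcongr
        _ = _ := by rw [hη, pow_succ]; field_simp; ring
  refine key i le_rfl W0 (mem_closedBall_self (le_of_eq ?_))
  rw [hη]; field_simp; ring

lemma dop_iter_eq (Φ : ℂ → ℂ) (W0 : ℂ) (i : ℕ) (F : ℂ → ℂ) (n : ℕ) :
    (dop Φ)^[i] F (Φ^[n] W0) = (fwdDiff 1)^[i] (fun m => F (Φ^[m] W0)) n := by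
  induction i generalizing F with
  | zero => rfl
  | succ i ih =>
    rw [Function.iterate_succ_apply, Function.iterate_succ_apply, ih]
    have : (fun m => dop Φ F (Φ^[m] W0)) = fwdDiff 1 fun m => F (Φ^[m] W0) := by
      funext m
      simp [dop, fwdDiff, Function.iterate_succ_apply']
    rw [this]

lemma sum_bound {q : ℝ[X]} {D : ℕ} (hq : (X - C 1) ^ D ∣ q) {Kq K σ : ℝ} (hσ : 0 ≤ σ)
    (hK : 0 ≤ K) (hKq : ∑ j ∈ q.support, |q.coeff j| ≤ Kq) {u : ℕ → ℂ} {n : ℕ}
    (hu : ∀ i ≤ q.natDegree, ‖(fwdDiff 1)^[i] u n‖ ≤ (4 * σ * i) ^ i * K)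
    (hJ : 12 * σ * q.natDegree ≤ 1 / 2) :
    ‖∑ j ∈ q.support, (q.coeff j : ℂ) * u (n + j)‖ ≤ Kq * K * (2 * (1 / 2) ^ D) := by
  set J := q.natDegree with hJd
  have hKq0 : 0 ≤ Kq := le_trans (Finset.sum_nonneg fun _ _ => abs_nonneg _) hKq
  have h1 : ∀ j ∈ q.support, u (n + j) =
      ∑ i ∈ Finset.range (J + 1), (j.choose i : ℂ) * (fwdDiff 1)^[i] u n := by
    intro j hj
    have hjJ : j ≤ J := le_natDegree_of_mem_supp j hj
    have := shift_eq_sum_fwdDiff_iter 1 u j n
    simp only [smul_eq_mul, mul_one, nsmul_eq_mul] at this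
    rw [this]
    refine Finset.sum_subset (Finset.range_mono (by omega)) fun i _ hi => ?_
    rw [Nat.choose_eq_zero_of_lt (by simpa using hi)]; simp
  have h2 : ∑ j ∈ q.support, (q.coeff j : ℂ) * u (n + j) =
      ∑ i ∈ Finset.range (J + 1), ((∑ j ∈ q.support, q.coeff j * j.choose i : ℝ) : ℂ) *
        (fwdDiff 1)^[i] u n := by
    rw [Finset.sum_congr rfl fun j hj => by rw [h1 j hj, Finset.mul_sum], Finset.sum_comm]
    refine Finset.sum_congr rfl fun i _ => ?_
    push_cast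
    rw [Finset.sum_mul]
    refine Finset.sum_congr rfl fun j _ => by ring
  have h3 : ∀ i < D, ∑ j ∈ q.support, q.coeff j * j.choose i = 0 := by
    intro i hi
    rw [X_sub_C_pow_dvd_iff, X_pow_dvd_iff] at hq
    have := hq i hi
    conv_lhs at this => rw [q.as_sum_support, Polynomial.sum_comp, finsetSum_coeff]
    simpa only [coeff_comp_X_add_one] using this
  have h4 : ∀ i ∈ Finset.range (J + 1),
      ‖((∑ j ∈ q.support, q.coeff j * j.choose i : ℝ) : ℂ) * (fwdDiff 1)^[i] u n‖ ≤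
        Kq * K * (if D ≤ i then (1 / 2) ^ i else 0) := by
    intro i hi
    split_ifs with hD
    · rw [norm_mul, Complex.norm_real, Real.norm_eq_abs]
      have h5 : |∑ j ∈ q.support, q.coeff j * j.choose i| ≤ Kq * ((J:ℝ) ^ i / i.factorial) := by
        refine (Finset.abs_sum_le_sum_abs _ _).trans ?_
        refine le_trans ?_ (mul_le_mul_of_nonneg_right hKq (by positivity))
        rw [Finset.sum_mul]
        refine Finset.sum_le_sum fun j hj => ?_
        rw [abs_mul, Nat.abs_cast]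
        gcongr
        have hjJ : j ≤ J := le_natDegree_of_mem_supp j hj
        refine (Nat.choose_le_pow_div i j).trans ?_
        gcongr
      have h6 := hu i (by simpa [Nat.lt_succ_iff] using hi)
      have h7 : (i:ℝ) ^ i / i.factorial ≤ 3 ^ i := by
        refine (Real.pow_div_factorial_le_exp (x := (i:ℝ)) (by positivity) i).trans ?_
        rw [← mul_one (i:ℝ), Real.exp_nat_mul]
        gcongr
        exact Real.exp_one_lt_three.le
      calc _ ≤ Kq * ((J:ℝ) ^ i / i.factorial) * ((4 * σ * i) ^ i * K) := by gcongr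
        _ = Kq * K * ((4 * σ * J) ^ i * ((i:ℝ) ^ i / i.factorial)) := by
          simp only [mul_pow]; ring
        _ ≤ Kq * K * ((4 * σ * J) ^ i * 3 ^ i) := by gcongr
        _ = Kq * K * (12 * σ * J) ^ i := by
          rw [← mul_pow]; congr 2; ring
        _ ≤ _ := by gcongr
    · rw [h3 i (not_le.1 hD)]; simp
  rw [h2]
  refine (norm_sum_le _ _).trans ((Finset.sum_le_sum h4).trans ?_)
  rw [← Finset.mul_sum]
  gcongr
  have h5 : ∀ N : ℕ, ∑ i ∈ Finset.range N, (if D ≤ i then ((1:ℝ) / 2) ^ i else 0) ≤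
      2 * (1 / 2) ^ D - if D ≤ N then 2 * (1 / 2) ^ N else 0 := by
    intro N
    induction N with
    | zero =>
      split_ifs with h
      · simp [Nat.le_zero.1 h]
      · simp
    | succ N ih =>
      rw [Finset.sum_range_succ]
      by_cases h : D ≤ N
      · simp only [h, if_true, show D ≤ N + 1 by omega] at ih ⊢
        rw [pow_succ]; linarith
      · have : ∑ i ∈ Finset.range N, (if D ≤ i then ((1:ℝ) / 2) ^ i else 0) = 0 := by
          refine Finset.sum_eq_zero fun i hi => if_neg ?_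
          rw [Finset.mem_range] at hi; omega
        rw [this, if_neg h]
        split_ifs with h'
        · have : D = N + 1 := by omega
          simp [this]
        · simp
  refine (h5 _).trans ?_
  split_ifs
  · have : (0:ℝ) ≤ 2 * (1 / 2) ^ (J + 1) := by positivity
    linarith
  · simp

lemma harnack {Φ : ℂ → ℂ} (hΦ : DifferentiableOn ℂ Φ HP) (hre : ∀ W ∈ HP, W.re ≤ (Φ W).re)
    {W0 : ℂ} (h0 : W0 ∈ HP) {W : ℂ} (hW : W ∈ closedBall W0 (W0.re / 2)) :
    ‖Φ W - W‖ ≤ 3 * ‖Φ W0 - W0‖ := by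
  have hx : 0 < W0.re := h0
  have hsub : ∀ ζ ∈ ball (0:ℂ) W0.re, W0 + ζ ∈ HP := by
    intro ζ hζ
    rw [mem_ball_zero_iff] at hζ
    have := Complex.abs_re_le_norm ζ
    have := neg_abs_le ζ.re
    show 0 < (W0 + ζ).re
    simp only [Complex.add_re]; linarith
  have hd : DifferentiableOn ℂ (fun ζ => (W0 + ζ) - Φ (W0 + ζ)) (ball 0 W0.re) :=
    DifferentiableOn.sub (by fun_prop) (hΦ.comp (by fun_prop) hsub)
  rw [mem_closedBall, dist_eq_norm] at hW
  refine le_of_forall_pos_le_add fun ε hε => ?_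
  have h1 := Complex.borelCaratheodory (M := ε / 2) (by positivity) hd
    (fun ζ hζ => by
      have := hre _ (hsub ζ hζ)
      simp only [mem_ofPred_eq, Complex.sub_re]; linarith) hx (z := W - W0)
    (mem_ball_zero_iff.2 (by linarith))
  simp only [add_sub_cancel, add_zero] at h1
  rw [norm_sub_rev W, norm_sub_rev W0] at h1
  refine h1.trans ?_
  have h2 : 0 < W0.re - ‖W - W0‖ := by linarith
  have h3 : 2 * (ε / 2) * ‖W - W0‖ / (W0.re - ‖W - W0‖) ≤ ε := by
    rw [div_le_iff₀ h2]; nlinarith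
  have h4 : ‖Φ W0 - W0‖ * (W0.re + ‖W - W0‖) / (W0.re - ‖W - W0‖) ≤ 3 * ‖Φ W0 - W0‖ := by
    rw [div_le_iff₀ h2]; nlinarith [norm_nonneg (Φ W0 - W0)]
  linarith

lemma cube_growth {d s : ℕ → ℝ} {M K1 : ℝ} (hd : ∀ n, 0 ≤ d n) (hs0 : ∀ n, 0 ≤ s n)
    (hs1 : ∀ n, s n ≤ 1) (hK1 : 0 ≤ K1)
    (hM : ∀ n, s n * d n ^ 2 ≤ M) (hstep : ∀ n, d (n + 1) ≤ d n + K1 * s n) :
    ∃ B : ℝ, 0 ≤ B ∧ ∀ n, d n ≤ B + B * (n:ℝ) ^ (1 / 3 : ℝ) := by
  have hM0 : 0 ≤ M := le_trans (mul_nonneg (hs0 0) (sq_nonneg _)) (hM 0)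
  set B := d 0 + 1 + K1 + K1 * M with hB
  have hKM : 0 ≤ K1 * M := by positivity
  have hB0 : 0 ≤ B := by have := hd 0; positivity
  have key : ∀ n : ℕ, d n ^ 3 ≤ B ^ 3 * (n + 1) := by
    intro n
    induction n with
    | zero =>
      simp only [CharP.cast_eq_zero, zero_add, mul_one]
      exact pow_le_pow_left₀ (hd 0) (by linarith) 3
    | succ n ih =>
      push_cast
      have hn : (0:ℝ) ≤ n := by positivity
      have hB3 : 0 ≤ B ^ 3 := by positivity
      rcases le_total (d n) 1 with h | h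
      · have h1 : d (n + 1) ≤ B := by
          have := hstep n
          have : K1 * s n ≤ K1 := mul_le_of_le_one_right hK1 (hs1 n)
          linarith [hd 0]
        have := pow_le_pow_left₀ (hd _) h1 3
        nlinarith
      · set t := K1 * s n with ht
        have ht0 : 0 ≤ t := mul_nonneg hK1 (hs0 n)
        have h2 : t * d n ^ 2 ≤ K1 * M := by
          rw [ht, mul_assoc]; exact mul_le_mul_of_nonneg_left (hM n) hK1
        have h3 : t * d n ≤ K1 * M := le_trans (by nlinarith [mul_nonneg ht0 (hd n)]) h2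
        have h4 : t ≤ K1 * M := le_trans (by nlinarith) h3
        have h5 : d (n + 1) ^ 3 ≤ (d n + t) ^ 3 := pow_le_pow_left₀ (hd _) (hstep n) 3
        have h6 : (1 + K1 * M) ^ 3 ≤ B ^ 3 := pow_le_pow_left₀ (by positivity)
          (by linarith [hd 0]) 3
        have h7 : t * (t * d n) ≤ (K1 * M) * (K1 * M) := by
          gcongr
        have h8 : t ^ 3 ≤ (K1 * M) ^ 3 := by gcongr
        nlinarith
  refine ⟨B, hB0, fun n => ?_⟩
  have h1 : d n ≤ B * ((n:ℝ) + 1) ^ (1 / 3 : ℝ) := by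
    refine le_of_pow_le_pow_left₀ (n := 3) (by norm_num) (by positivity) ?_
    rw [mul_pow, show (1 / 3 : ℝ) = ((3 : ℕ) : ℝ)⁻¹ by norm_num,
      Real.rpow_inv_natCast_pow (by positivity) (by norm_num)]
    exact key n
  have h2 : ((n:ℝ) + 1) ^ (1 / 3 : ℝ) ≤ (n:ℝ) ^ (1 / 3 : ℝ) + (1:ℝ) ^ (1 / 3 : ℝ) :=
    Real.rpow_add_le_add_rpow (by positivity) (by positivity) (by norm_num) (by norm_num)
  rw [Real.one_rpow] at h2
  nlinarith

end Pool.Agent.Lib.MP_6c91ae_an
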