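import Pool.Agent.Lib.MP_6c91ae_an.ThmB

namespace Pool.Agent.Lib.MP_6c91ae_an

open Metric Complex Set Filter Topology
open scoped Real ENNReal

/-- strip coordinate -/
noncomputable def sc (c : ℝ) (z : ℂ) : ℂ := c - Complex.log (1 - z)

lemma one_sub_re_pos {z : ℂ} (hz : z ∈ ball (0:ℂ) 1) : 0 < (1 - z).re := by
  have := Complex.re_le_norm z
  rw [mem_ball_zero_iff] at hz
  simp only [Complex.sub_re, Complex.one_re]; linarith

lemma exp_sub_sc (c : ℝ) {z : ℂ} (hz : z ∈ ball (0:ℂ) 1) : Complex.exp (c - sc c z) = 1 - z := by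
  rw [sc, sub_sub_cancel, Complex.exp_log (ne_zero_of_re_pos' (one_sub_re_pos hz))]

lemma norm_one_sub_eq (c : ℝ) {z : ℂ} (hz : z ∈ ball (0:ℂ) 1) :
    ‖1 - z‖ = Real.exp (c - (sc c z).re) := by
  rw [← exp_sub_sc c hz, Complex.norm_exp]; simp

lemma sc_one_sub (c : ℝ) {s : ℂ} (hs : |s.im| < π / 2) : sc c (1 - Complex.exp (c - s)) = s := by
  have := abs_lt.1 hs
  rw [sc, sub_sub_cancel, Complex.log_exp] <;> simp <;> linarith [Real.pi_pos]

lemma sc_diff (c : ℝ) : DifferentiableOn ℂ (sc c) (ball 0 1) := fun z hz =>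
  ((DifferentiableAt.clog (f := fun z : ℂ => 1 - z) (by fun_prop)
    (Or.inl (one_sub_re_pos hz))).const_sub _).differentiableWithinAt

lemma norm_one_sub_exp_lt {w : ℂ} :
    ‖1 - Complex.exp w‖ < 1 ↔ Real.exp w.re < 2 * Real.cos w.im := by
  rw [← sq_lt_sq₀ (norm_nonneg _) zero_le_one, Complex.sq_norm, Complex.normSq_apply]
  simp only [Complex.sub_re, Complex.one_re, Complex.exp_re, Complex.sub_im, Complex.one_im,
    Complex.exp_im]
  have h1 := Real.sin_sq_add_cos_sq w.im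
  have h2 := Real.exp_pos w.re
  have h3 : (1 - Real.exp w.re * Real.cos w.im) * (1 - Real.exp w.re * Real.cos w.im) +
      (0 - Real.exp w.re * Real.sin w.im) * (0 - Real.exp w.re * Real.sin w.im) =
      1 - Real.exp w.re * (2 * Real.cos w.im - Real.exp w.re) := by
    linear_combination (Real.exp w.re) ^ 2 * h1
  rw [h3]
  constructor
  · intro h; by_contra h'; nlinarith
  · intro h; nlinarith

section
variable {p c : ℝ} (hp : 1 < p) (hc : 2 * p + 1 ≤ c)
include hp hc

omit hp in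
lemma sc_mem {z : ℂ} (hz : z ∈ ball (0:ℂ) 1) : sc c z ∈ Sig p := by
  constructor
  · have h1 : ‖1 - z‖ ≤ 2 := by
      have := norm_sub_le (1:ℂ) z
      rw [norm_one] at this; linarith [mem_ball_zero_iff.1 hz]
    rw [norm_one_sub_eq c hz] at h1
    have := Real.add_one_lt_exp (x := 1) one_ne_zero
    have h2 : c - (sc c z).re < 1 := Real.exp_lt_exp.1 (by linarith)
    linarith
  · simp only [sc, Complex.sub_im, Complex.ofReal_im, zero_sub, abs_neg, Complex.log_im]
    exact abs_arg_lt (one_sub_re_pos hz)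

lemma fam_eq {z : ℂ} (hz : z ∈ ball (0:ℂ) 1) :
    fam p c z = 1 - Complex.exp (c - tau p 1 (sc c z)) := by
  have hs := sc_mem hc hz
  have h1 := Sig.add_re_pos hp hs zero_le_one
  rw [fam, ← sc, cpow_eq_cp p (Sig.ne_zero hp hs), ← Complex.ofReal_inv, tau, Complex.ofReal_one,
    cpow_eq_cp _ (ne_zero_of_re_pos' (by simpa using h1))]

lemma tau_maps {t : ℝ} (ht : 0 ≤ t) {z : ℂ} (hz : z ∈ ball (0:ℂ) 1) :
    1 - Complex.exp (c - tau p t (sc c z)) ∈ ball (0:ℂ) 1 := by
  have hs := sc_mem hc hz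
  have h1 : ‖1 - Complex.exp (c - sc c z)‖ < 1 := by
    rw [exp_sub_sc c hz, sub_sub_cancel]; exact mem_ball_zero_iff.1 hz
  rw [mem_ball_zero_iff]
  rw [norm_one_sub_exp_lt] at h1 ⊢
  simp only [Complex.sub_re, Complex.ofReal_re, Complex.sub_im, Complex.ofReal_im, zero_sub,
    Real.cos_neg] at h1 ⊢
  have h2 : Real.exp (c - (tau p t (sc c z)).re) ≤ Real.exp (c - (sc c z).re) :=
    Real.exp_le_exp.2 (by linarith [Sig.tau_re hp hs ht])
  have h3 : Real.cos (sc c z).im ≤ Real.cos (tau p t (sc c z)).im := by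
    rw [← Real.cos_abs (sc c z).im, ← Real.cos_abs (tau p t (sc c z)).im]
    exact Real.cos_le_cos_of_nonneg_of_le_pi (abs_nonneg _) (by linarith [hs.2, Real.pi_pos])
      (Sig.tau_im hp hs ht)
  linarith

lemma fam_maps : MapsTo (fam p c) (ball 0 1) (ball 0 1) := fun z hz => by
  rw [fam_eq hp hc hz]; exact tau_maps hp hc zero_le_one hz

lemma fam_diff : DifferentiableOn ℂ (fam p c) (ball 0 1) := by
  refine DifferentiableOn.congr (f := fun z => 1 - Complex.exp (c - tau p 1 (sc c z))) ?_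
    fun z hz => fam_eq hp hc hz
  refine ((DifferentiableOn.const_sub ?_ _).cexp).const_sub _
  exact DifferentiableOn.comp (g := tau p 1) (f := sc c) (t := Sig p) (fun s hs =>
    (Sig.hasDerivAt_tau hp hs zero_le_one).differentiableWithinAt) (sc_diff c)
    fun z hz => sc_mem hc hz

lemma sc_iter (n : ℕ) {z : ℂ} (hz : z ∈ ball (0:ℂ) 1) :
    sc c ((fam p c)^[n] z) = tau p n (sc c z) := by
  have hs := sc_mem hc hz
  induction n with
  | zero => simp [Sig.tau_zero hp hs]
  | succ n ih =>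
    have h1 := (fam_maps hp hc).iterate n hz
    rw [Function.iterate_succ_apply', fam_eq hp hc h1,
      sc_one_sub c (Sig.tau_mem hp (sc_mem hc h1) zero_le_one).2, ih,
      Sig.tau_tau hp hs (Nat.cast_nonneg n)]
    push_cast; rfl

lemma fam_weight {z : ℂ} (hz : z ∈ ball (0:ℂ) 1) :
    ‖1 - z‖ ^ (1 / 4 : ℝ) ≤ 2 * ‖1 - fam p c z‖ ^ (1 / 4 : ℝ) := by
  have h1 := sc_iter hp hc 1 hz
  rw [Function.iterate_one, Nat.cast_one] at h1
  rw [norm_one_sub_eq c hz, norm_one_sub_eq c (fam_maps hp hc hz), h1, ← Real.exp_mul,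
    ← Real.exp_mul]
  have h2 := Sig.tau_one_le hp (sc_mem hc hz)
  have h3 : Real.exp (1 / 4) ≤ 2 := by
    have h4 : Real.exp (1 / 4) ≤ Real.exp (1 / 2) := Real.exp_le_exp.2 (by norm_num)
    refine h4.trans ?_
    rw [Real.exp_half]
    refine Real.sqrt_le_iff.2 ⟨by norm_num, ?_⟩
    linarith [Real.exp_one_lt_three]
  calc _ ≤ Real.exp (1 / 4 + (c - (tau p 1 (sc c z)).re) * (1 / 4)) :=
        Real.exp_le_exp.2 (by linarith)
    _ ≤ _ := by rw [Real.exp_add]; gcongr

omit hc in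
lemma tau_re_ge_rpow {s : ℂ} (hs : s ∈ Sig p) (n : ℕ) : (n:ℝ) ^ p⁻¹ ≤ (tau p n s).re := by
  refine le_trans ?_ (Sig.tau_re_ge hp hs (Nat.cast_nonneg n))
  have := inv_nonneg' hp
  gcongr
  linarith [Sig.one_le_pw_re hp hs]

lemma exists_poly (G : Polynomial ℂ) {ε : ℝ} (hε : 0 < ε) : ∃ P : Polynomial ℂ,
    Near (fun z => P.eval (1 / (cp p (sc c z) + bb))) (fun z => G.eval z) ε := by
  have hb1 := one_le_bb
  have hw : ∀ v ∈ ball (0:ℂ) 1, 0 < ((bb:ℂ) * cay 1 (-v)).re := fun v hv => by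
    rw [Complex.re_ofReal_mul]
    exact mul_pos (by linarith) (cay_mem (by simp) (by simpa using hv))
  set F : ℂ → ℂ := fun v => G.eval (1 - Complex.exp (c - cp p⁻¹ (bb * cay 1 (-v)))) with hF
  have hFd : DifferentiableOn ℂ F (ball 0 1) := by
    refine G.differentiable.comp_differentiableOn
      (((DifferentiableOn.const_sub ?_ _).cexp).const_sub _)
    refine DifferentiableOn.comp (g := cp p⁻¹) (f := fun v => (bb:ℂ) * cay 1 (-v)) (t := HP)
      (fun w hw => (hasDerivAt_cp _ hw).differentiableAt.differentiableWithinAt) ?_ hw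
    exact ((cay_diff (ω := 1) (by simp)).comp (f := fun v : ℂ => -v) (by fun_prop)
      fun v hv => by simpa using hv).const_mul _
  obtain ⟨C, hC0, hC⟩ := poly_growth G
  set K := C * (1 + Real.exp c) ^ G.natDegree with hK
  have hFb : ∀ v ∈ ball (0:ℂ) 1, ‖F v‖ ≤ K := by
    intro v hv
    refine hC _ _ (by linarith [Real.exp_pos c]) ((norm_sub_le _ _).trans ?_)
    rw [norm_one, Complex.norm_exp]
    gcongr
    have := cp_re_pos (a := p⁻¹) (abs_le.2 ⟨by linarith [inv_nonneg' hp], inv_le_one' hp⟩) (hw v hv)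
    simp only [Complex.sub_re, Complex.ofReal_re]; linarith
  have hK0 : 0 ≤ K := by positivity
  obtain ⟨A, hA0, hA⟩ := exists_sq_bound (inH2_of_bdd hFd hFb)
  have htc : ∀ n, ‖tc F n‖ ≤ A := fun n => by
    have := sum_sq_le_of_hardy hA {n}
    rw [Finset.sum_singleton] at this
    exact abs_le_of_sq_le_sq' this hA0 |>.2
  set vv : ℂ → ℂ := fun w => 2 * bb * (1 / (w + bb)) - 1 with hvv
  have hden : ∀ w : ℂ, 0 < w.re → w + bb ≠ 0 := fun w hw =>
    ne_zero_of_re_pos' (by simp only [Complex.add_re, Complex.ofReal_re]; linarith)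
  have hbne : (bb:ℂ) ≠ 0 := by exact_mod_cast (by linarith : bb ≠ 0)
  have hvi : ∀ w : ℂ, 0 < w.re → vv w = -cayi 1 (w / bb) := fun w hw => by
    have := hden w hw
    simp only [hvv, cayi]; field_simp; ring
  have hwb : ∀ w : ℂ, 0 < w.re → w / bb ∈ HP := fun w hw => by
    show 0 < (w / bb).re
    rw [Complex.div_ofReal_re]; exact div_pos hw (by linarith)
  have hvm : ∀ w : ℂ, 0 < w.re → vv w ∈ ball (0:ℂ) 1 := fun w hw => by
    rw [hvi w hw]; simpa using cayi_mem (ω := 1) (by simp) (hwb w hw)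
  have hFv : ∀ z ∈ ball (0:ℂ) 1, F (vv (cp p (sc c z))) = G.eval z := by
    intro z hz
    have hs := sc_mem hc hz
    have h1 : 0 < (cp p (sc c z)).re := by linarith [Sig.one_le_pw_re hp hs]
    simp only [hF]
    rw [hvi _ h1, neg_neg, cay_cayi (by simp) (hwb _ h1), mul_div_cancel₀ _ hbne,
      Sig.rt_pw hp hs, exp_sub_sc c hz, sub_sub_cancel]
  obtain ⟨X, hX⟩ : ∃ X : ℝ, 2 * K * Real.exp ((c - X) * (1 / 4)) ≤ ε / 2 := by
    have h1 : Tendsto (fun X : ℝ => 2 * K * Real.exp ((c - X) * (1 / 4))) atTop (𝓝 0) := by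
      have := (Real.tendsto_exp_atBot.comp ((tendsto_atBot_add_const_left _ c
        tendsto_neg_atTop_atBot).atBot_mul_const (show (0:ℝ) < 1 / 4 by norm_num))).const_mul (2 * K)
      rw [mul_zero] at this
      exact this
    exact (h1.eventually (ge_mem_nhds (by positivity))).exists
  set S0 : Set ℂ := {w | 1 ≤ w.re} ∩ closedBall 0 ((2 * X) ^ p) with hS0
  have hS0c : IsCompact S0 := (isCompact_closedBall _ _).inter_left
    (isClosed_le continuous_const Complex.continuous_re)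
  have hS1c : IsCompact (vv '' S0) := hS0c.image_of_continuousOn (by
    simp only [hvv]
    refine (continuousOn_const.mul (continuousOn_const.div (by fun_prop) fun w hw =>
      hden w (lt_of_lt_of_le one_pos hw.1))).sub continuousOn_const)
  obtain ⟨ρ, hρ1, hρ⟩ := exists_lt_subset_ball hS1c.isClosed (x := 0) (r := 1) (by
    rintro _ ⟨w, hw, rfl⟩; exact hvm w (lt_of_lt_of_le one_pos hw.1))
  obtain ⟨δ, hδ, hδF⟩ := Metric.uniformContinuousOn_iff.1
    ((isCompact_closedBall (0:ℂ) ρ).uniformContinuousOn_of_continuous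
      (hFd.continuousOn.mono (closedBall_subset_ball hρ1))) (ε / 4) (by positivity)
  obtain ⟨r, hr0, hr1⟩ := exists_between (show max 0 (1 - δ) < 1 from max_lt one_pos (by linarith))
  have hr0' : 0 < r := (le_max_left _ _).trans_lt hr0
  have hrδ : 1 - r < δ := by linarith [(le_max_right _ _).trans_lt hr0]
  obtain ⟨N, hN⟩ : ∃ N : ℕ, ∑' k : ℕ, A * r ^ (k + N) < ε / 4 :=
    ((tendsto_sum_nat_add (fun n : ℕ => A * r ^ n)).eventually
      (gt_mem_nhds (by positivity))).exists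
  have hsum : Summable fun n : ℕ => A * r ^ n :=
    (summable_geometric_of_lt_one hr0'.le hr1).mul_left A
  refine ⟨∑ n ∈ Finset.range N, Polynomial.C (tc F n * r ^ n) *
    (Polynomial.C (2 * bb : ℂ) * Polynomial.X - 1) ^ n, fun z hz => ?_⟩
  have hs := sc_mem hc hz
  have h1 : 0 < (cp p (sc c z)).re := by linarith [Sig.one_le_pw_re hp hs]
  set v := vv (cp p (sc c z)) with hv
  have hv1 : ‖v‖ < 1 := mem_ball_zero_iff.1 (hvm _ h1)
  have hrv : ‖(r:ℂ) * v‖ ≤ r := by
    rw [norm_mul, Complex.norm_real, Real.norm_eq_abs, abs_of_pos hr0']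
    exact mul_le_of_le_one_right hr0'.le hv1.le
  have hrvm : (r:ℂ) * v ∈ ball (0:ℂ) 1 := mem_ball_zero_iff.2 (hrv.trans_lt hr1)
  have h2 : ‖∑ n ∈ Finset.range N, tc F n * ((r:ℂ) * v) ^ n - F (r * v)‖ ≤ ε / 4 := by
    have h3 := hasSum_tc hFd hrvm
    rw [← h3.tsum_eq, ← h3.summable.sum_add_tsum_nat_add N, sub_add_cancel_left, norm_neg]
    refine le_trans (tsum_of_norm_bounded ((summable_nat_add_iff N).2 hsum).hasSum fun k => ?_) hN.le
    rw [norm_mul, norm_pow]
    gcongr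
    exact htc _
  have h3 : ‖F (r * v) - F v‖ * ‖1 - z‖ ^ (1 / 4 : ℝ) ≤ ε / 2 := by
    rcases le_total (sc c z).re X with hX' | hX'
    · have h4 : v ∈ ball (0:ℂ) ρ := hρ ⟨_, ⟨Sig.one_le_pw_re hp hs, by
        rw [mem_closedBall_zero_iff, norm_cp _ (Sig.ne_zero hp hs)]
        gcongr
        linarith [Sig.norm_le hp hs]⟩, rfl⟩
      rw [mem_ball_zero_iff] at h4
      have h5 := hδF (r * v) (by
        rw [mem_closedBall_zero_iff, norm_mul, Complex.norm_real, Real.norm_eq_abs, abs_of_pos hr0']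
        nlinarith [norm_nonneg v]) v (mem_closedBall_zero_iff.2 h4.le) (by
        rw [dist_eq_norm, show (r:ℂ) * v - v = -(((1 - r : ℝ) : ℂ) * v) by push_cast; ring,
          norm_neg, norm_mul, Complex.norm_real, Real.norm_eq_abs, abs_of_pos (by linarith)]
        nlinarith [norm_nonneg v])
      rw [dist_eq_norm] at h5
      calc _ ≤ ε / 4 * 2 := by gcongr; exact norm_one_sub_rpow_le hz
        _ = _ := by ring
    · refine le_trans ?_ hX
      rw [norm_one_sub_eq c hz, ← Real.exp_mul]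
      gcongr ?_ * Real.exp ?_
      · linarith [norm_sub_le (F (r * v)) (F v), hFb _ hrvm, hFb v (hvm _ h1)]
      · linarith
  have h4 : (∑ n ∈ Finset.range N, Polynomial.C (tc F n * r ^ n) *
      (Polynomial.C (2 * bb : ℂ) * Polynomial.X - 1) ^ n).eval (1 / (cp p (sc c z) + bb)) =
      ∑ n ∈ Finset.range N, tc F n * ((r:ℂ) * v) ^ n := by
    simp only [Polynomial.eval_finsetSum, Polynomial.eval_mul, Polynomial.eval_C,
      Polynomial.eval_pow, Polynomial.eval_sub, Polynomial.eval_X, Polynomial.eval_one, hv, hvv,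
      mul_pow, mul_assoc]
  simp only []
  rw [h4, ← hFv z hz, ← hv]
  have h5 := norm_sub_le_norm_sub_add_norm_sub (∑ n ∈ Finset.range N, tc F n * ((r:ℂ) * v) ^ n)
    (F (r * v)) (F v)
  have h6 := norm_one_sub_rpow_le hz
  have h7 : 0 ≤ ‖1 - z‖ ^ (1 / 4 : ℝ) := by positivity
  nlinarith

lemma fam_hypercyclic (hp3 : p < 3) : Hypercyclic (fam p c) := by
  have hp0 : 0 < p := by linarith
  refine hypercyclic_of_step (fam_diff hp hc) (fam_maps hp hc) (fun z hz => fam_weight hp hc hz)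
    {v | DifferentiableOn ℂ v (ball 0 1) ∧
      ∃ L, Tendsto v (comap (fun z => (sc c z).re) atTop ⊓ 𝓟 (ball 0 1)) (𝓝 L)}
    ⟨by fun_prop, 0, tendsto_const_nhds⟩ (fun v hv => hv.1) ?_
  rintro v ⟨hvd, L, hL⟩ G ε hε
  obtain ⟨P, hP⟩ := exists_poly hp hc (G - Polynomial.C L) (show 0 < ε / 4 by positivity)
  have e1 := exists_h hp hp3 P (show 0 < ε / 4 / Real.exp (c / 4) by positivity)
  obtain ⟨X, hX⟩ : ∃ X : ℝ, ∀ z ∈ ball (0:ℂ) 1, X ≤ (sc c z).re → ‖v z - L‖ ≤ ε / 4 := by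
    have := (Metric.tendsto_nhds.1 hL) (ε / 4) (by positivity)
    rw [eventually_inf_principal, eventually_comap, eventually_atTop] at this
    obtain ⟨X, hX⟩ := this
    exact ⟨X, fun z hz h => by simpa [dist_eq_norm] using (hX _ h z rfl hz).le⟩
  have e2 := ((tendsto_rpow_atTop (inv_pos.2 hp0)).comp
    tendsto_natCast_atTop_atTop).eventually_ge_atTop X
  obtain ⟨n, ⟨h, h1, ⟨L', h2⟩, h3, h4⟩, hn⟩ := (e1.and e2).exists
  have hwt : ∀ z ∈ ball (0:ℂ) 1, ∀ a : ℝ,
      a * Real.exp (-(sc c z).re / 4) ≤ ε / 4 / Real.exp (c / 4) →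
      a * ‖1 - z‖ ^ (1 / 4 : ℝ) ≤ ε / 4 := by
    intro z hz a ha
    rw [le_div_iff₀ (Real.exp_pos _), mul_assoc, ← Real.exp_add] at ha
    rw [norm_one_sub_eq c hz, ← Real.exp_mul]
    refine le_trans (le_of_eq ?_) ha
    congr 2; ring
  refine ⟨n, fun z => v z + h (sc c z), ⟨hvd.add (h1.comp (sc_diff c) fun z hz => sc_mem hc hz),
    L + L', hL.add (h2.comp ?_)⟩, fun z hz => ?_, fun z hz => ?_⟩
  · refine tendsto_inf.2 ⟨tendsto_comap_iff.2 (tendsto_comap.mono_left inf_le_left), ?_⟩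
    exact tendsto_principal.2 (mem_inf_of_right (mem_principal.2 fun z hz => sc_mem hc hz))
  · simp only [add_sub_cancel_left]
    linarith [hwt z hz _ (h3 _ (sc_mem hc hz))]
  · have hs := sc_mem hc hz
    have h5 := hwt z hz _ (h4 _ hs)
    have h6 := hP z hz
    have h7 := hX _ ((fam_maps hp hc).iterate n hz) (by
      rw [sc_iter hp hc n hz]; exact le_trans hn (tau_re_ge_rpow hp hs n))
    simp only [sc_iter hp hc n hz, Polynomial.eval_sub, Polynomial.eval_C] at h6 ⊢
    have h8 : v ((fam p c)^[n] z) + h (tau p n (sc c z)) - G.eval z =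
        (v ((fam p c)^[n] z) - L) +
        (h (tau p n (sc c z)) - P.eval (1 / (cp p (sc c z) + bb))) +
        (P.eval (1 / (cp p (sc c z) + bb)) - (G.eval z - L)) := by ring
    rw [h8]
    have h9 := norm_add₃_le (a := v ((fam p c)^[n] z) - L)
      (b := h (tau p n (sc c z)) - P.eval (1 / (cp p (sc c z) + bb)))
      (c := P.eval (1 / (cp p (sc c z) + bb)) - (G.eval z - L))
    have h10 := norm_one_sub_rpow_le hz
    have h11 : 0 ≤ ‖1 - z‖ ^ (1 / 4 : ℝ) := by positivity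
    nlinarith [norm_nonneg (v ((fam p c)^[n] z) - L)]

lemma orbit_eq (n : ℕ) : (fam p c)^[n] 0 =
    ((1 - Real.exp (c - (c ^ p + n) ^ p⁻¹) : ℝ) : ℂ) := by
  have h0 : (0:ℂ) ∈ ball (0:ℂ) 1 := mem_ball_self one_pos
  have h1 := exp_sub_sc c ((fam_maps hp hc).iterate n h0)
  have hc0 : 0 < c := by linarith
  rw [sc_iter hp hc n h0, sc, tau, sub_zero, Complex.log_one, sub_zero, cp_ofReal p hc0,
    ← Complex.ofReal_add, cp_ofReal _ (by positivity)] at h1
  push_cast at h1 ⊢
  linear_combination h1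

lemma orbit_bounds (n : ℕ) :
    pdist ((fam p c)^[n] 0) ((fam p c)^[n + 1] 0) ≤ ((c ^ p + n) ^ p⁻¹) ^ (1 - p) ∧
    Real.log (1 - ‖(fam p c)^[n] 0‖ ^ 2) ^ 2 ≤ ((c ^ p + n) ^ p⁻¹) ^ 2 := by
  have hc0 : 0 < c := by linarith
  have hp0 : 0 < p := by linarith
  have hge : ∀ m : ℕ, c ≤ (c ^ p + m) ^ p⁻¹ := fun m => by
    calc c = (c ^ p) ^ p⁻¹ := (Real.rpow_rpow_inv hc0.le hp0.ne').symm
      _ ≤ _ := by gcongr; linarith [Nat.cast_nonneg (α := ℝ) m]
  set a := (c ^ p + n) ^ p⁻¹ with ha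
  set b := (c ^ p + (n + 1 : ℕ)) ^ p⁻¹ with hb
  have hab : a ≤ b := by rw [ha, hb]; push_cast; gcongr; linarith
  have hba : b - a ≤ a ^ (1 - p) := by
    have h1 := norm_cp_sub_le (inv_nonneg' hp) (inv_le_one' hp) (x := c ^ p + n) (by positivity)
      (w := ((c ^ p + (n + 1 : ℕ) : ℝ) : ℂ)) (v := ((c ^ p + n : ℝ) : ℂ))
      (by rw [Complex.ofReal_re]; push_cast; linarith) (by rw [Complex.ofReal_re])
    rw [cp_ofReal _ (by positivity), cp_ofReal _ (by positivity), ← Complex.ofReal_sub,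
      ← Complex.ofReal_sub, Complex.norm_real, Complex.norm_real, Real.norm_eq_abs,
      Real.norm_eq_abs, ← ha, ← hb] at h1
    have h2 : c ^ p + (n + 1 : ℕ) - (c ^ p + n) = 1 := by push_cast; ring
    rw [h2, abs_one, mul_one] at h1
    refine (le_abs_self _).trans (h1.trans ?_)
    rw [ha, ← Real.rpow_mul (by positivity), show p⁻¹ * (1 - p) = p⁻¹ - 1 by field_simp]
    exact mul_le_of_le_one_left (by positivity) (inv_le_one' hp)
  have hx1 : Real.exp (c - a) ≤ 1 := Real.exp_le_one_iff.2 (by linarith [hge n])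
  have hx0 := Real.exp_pos (c - a)
  have hy0 := Real.exp_pos (c - b)
  have hxy : Real.exp (c - b) ≤ Real.exp (c - a) := Real.exp_le_exp.2 (by linarith)
  rw [orbit_eq hp hc, orbit_eq hp hc, ← ha, ← hb]
  constructor
  · refine le_trans ?_ hba
    rw [pdist, Complex.conj_ofReal, ← Complex.ofReal_mul, ← Complex.ofReal_one,
      ← Complex.ofReal_sub, ← Complex.ofReal_sub, ← Complex.ofReal_div, Complex.norm_real,
      Real.norm_eq_abs]
    have h1 : Real.exp (c - a) ≤ 1 - (1 - Real.exp (c - a)) * (1 - Real.exp (c - b)) := by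
      nlinarith
    rw [abs_div, abs_of_nonneg (by linarith), abs_of_nonneg (by linarith),
      div_le_iff₀ (by linarith)]
    have h2 : Real.exp (c - b) = Real.exp (c - a) * Real.exp (a - b) := by
      rw [← Real.exp_add]; congr 1; ring
    have h3 := Real.add_one_le_exp (a - b)
    nlinarith
  · rw [Complex.norm_real, Real.norm_eq_abs, sq_abs]
    have h1 : Real.exp (c - a) ≤ 1 - (1 - Real.exp (c - a)) ^ 2 := by nlinarith
    have h2 := Real.log_le_log hx0 h1
    rw [Real.log_exp] at h2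
    have h3 : Real.log (1 - (1 - Real.exp (c - a)) ^ 2) ≤ 0 :=
      Real.log_nonpos (by linarith) (by nlinarith)
    nlinarith

lemma fam_zero_step :
    Tendsto (fun n => pdist ((fam p c)^[n] 0) ((fam p c)^[n + 1] 0)) atTop (𝓝 0) := by
  have hp0 : 0 < p := by linarith
  have h1 := (tendsto_rpow_neg_atTop (y := p - 1) (by linarith)).comp
    ((tendsto_rpow_atTop (inv_pos.2 hp0)).comp
      (tendsto_atTop_add_const_left _ (c ^ p) tendsto_natCast_atTop_atTop))
  refine squeeze_zero (fun _ => pdist_nonneg _ _) (fun n => ?_) h1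
  simpa using (orbit_bounds hp hc n).1

lemma fam_orbit_tendsto : Tendsto (fun n => (fam p c)^[n] 0) atTop (𝓝 1) := by
  have hp0 : 0 < p := by linarith
  have h1 := (tendsto_rpow_atTop (inv_pos.2 hp0)).comp
      (tendsto_atTop_add_const_left _ (c ^ p) tendsto_natCast_atTop_atTop)
  have h2 := (Real.tendsto_exp_atBot.comp (tendsto_atBot_add_const_left _ c
    (tendsto_neg_atTop_atBot.comp h1))).const_sub 1
  rw [sub_zero] at h2
  simp only [orbit_eq hp hc]
  exact (Complex.continuous_ofReal.tendsto 1).comp h2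

lemma fam_not_hypercyclic (hp3 : 3 ≤ p) : ¬ Hypercyclic (fam p c) := by
  intro h
  obtain ⟨n, hn⟩ := thmA (fam_diff hp hc) (fam_maps hp hc) h (mem_ball_self one_pos) 1
  obtain ⟨h1, h2⟩ := orbit_bounds hp hc n
  have hc0 : 0 < c := by linarith
  have h3 : 1 ≤ (c ^ p + n) ^ p⁻¹ := Real.one_le_rpow (by
    have := Real.one_le_rpow (x := c) (z := p) (by linarith) (by linarith)
    linarith [Nat.cast_nonneg (α := ℝ) n]) (inv_nonneg' hp)
  have h4 := mul_le_mul h1 h2 (sq_nonneg _) (by positivity)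
  rw [← Real.rpow_natCast ((c ^ p + n) ^ p⁻¹), ← Real.rpow_add (by linarith)] at h4
  have h5 := Real.rpow_le_one_of_one_le_of_nonpos h3 (z := 1 - p + (2:ℕ)) (by push_cast; linarith)
  linarith

end

end Pool.Agent.Lib.MP_6c91ae_an
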