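import Pool.Agent.Lib.MP_6c91ae_an.Defs

namespace Pool.Agent.Lib.MP_6c91ae_an

/-- The symbol `z ↦ 1 - exp (c - ((c - log (1 - z)) ^ p + 1) ^ (1 / p))` (principal branches). -/
noncomputable def fam (p c : ℝ) (z : ℂ) : ℂ :=
  1 - Complex.exp (c - ((c - Complex.log (1 - z)) ^ (p : ℂ) + 1) ^ ((p : ℂ)⁻¹))

end Pool.Agent.Lib.MP_6c91ae_an
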