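import Pool.Agent.Lib.MP_6c91ae_an.Defs

namespace Pool.Agent.Lib.MP_6c91ae_an

open scoped ENNReal Real
open Metric Complex MeasureTheory Set Filter Topology

/-- Taylor coefficient -/
noncomputable def tc (f : ℂ → ℂ) (n : ℕ) : ℂ := iteratedDeriv n f 0 / (n.factorial : ℂ)

lemma hardyNormSq_eq (f : ℂ → ℂ) : hardyNormSq f = ∑' n : ℕ, ENNReal.ofReal (‖tc f n‖ ^ 2) := by
  unfold hardyNormSq tc
  congr 1; funext n
  rw [ENNReal.ofReal_pow (norm_nonneg _), ofReal_norm]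

lemma hasSum_tc {f : ℂ → ℂ} (hf : DifferentiableOn ℂ f (ball 0 1)) {z : ℂ} (hz : z ∈ ball (0:ℂ) 1) :
    HasSum (fun n => tc f n * z ^ n) (f z) := by
  have := Complex.hasSum_taylorSeries_on_ball hf hz
  have e : (fun n => tc f n * z ^ n) =
      fun n : ℕ => (n.factorial : ℂ)⁻¹ • (z - 0) ^ n • iteratedDeriv n f 0 := by
    funext n
    simp only [tc, smul_eq_mul, sub_zero]
    ring
  rw [e]; exact this

lemma sum_sq_le_of_hardy {f : ℂ → ℂ} {K : ℝ} (h : hardyNormSq f ≤ ENNReal.ofReal (K ^ 2))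
    (s : Finset ℕ) : ∑ n ∈ s, ‖tc f n‖ ^ 2 ≤ K ^ 2 := by
  rw [hardyNormSq_eq] at h
  have h1 := (ENNReal.sum_le_tsum (f := fun n => ENNReal.ofReal (‖tc f n‖ ^ 2)) s).trans h
  rw [← ENNReal.ofReal_sum_of_nonneg (fun n _ => by positivity)] at h1
  exact (ENNReal.ofReal_le_ofReal_iff (by positivity)).1 h1

/-- evaluation bound -/
lemma eval_le {f : ℂ → ℂ} (hf : DifferentiableOn ℂ f (ball 0 1)) {K : ℝ}
    (h : hardyNormSq f ≤ ENNReal.ofReal (K ^ 2)) {z : ℂ} (hz : z ∈ ball (0:ℂ) 1) :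
    ‖f z‖ ^ 2 * (1 - ‖z‖ ^ 2) ≤ K ^ 2 := by
  have hz1 : ‖z‖ < 1 := by simpa using hz
  have hz2 : ‖z‖ ^ 2 < 1 := by nlinarith [norm_nonneg z]
  have hs := (hasSum_tc hf hz).tendsto_sum_nat
  have hc : Tendsto (fun N => ‖∑ n ∈ Finset.range N, tc f n * z ^ n‖ ^ 2 * (1 - ‖z‖ ^ 2)) atTop
      (𝓝 (‖f z‖ ^ 2 * (1 - ‖z‖ ^ 2))) := ((hs.norm).pow 2).mul_const _
  refine le_of_tendsto' hc fun N => ?_
  have h1 : ‖∑ n ∈ Finset.range N, tc f n * z ^ n‖ ≤ ∑ n ∈ Finset.range N, ‖tc f n‖ * ‖z‖ ^ n := by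
    refine (norm_sum_le _ _).trans (le_of_eq ?_)
    simp
  have h2 := Finset.sum_mul_sq_le_sq_mul_sq (Finset.range N) (fun n => ‖tc f n‖) (fun n => ‖z‖ ^ n)
  have h3 : (∑ n ∈ Finset.range N, (‖z‖ ^ n) ^ 2) * (1 - ‖z‖ ^ 2) ≤ 1 := by
    have : ∑ n ∈ Finset.range N, (‖z‖ ^ n) ^ 2 = ∑ n ∈ Finset.range N, (‖z‖ ^ 2) ^ n := by
      refine Finset.sum_congr rfl fun n _ => by ring
    rw [this, geom_sum_mul_neg]
    have : 0 ≤ (‖z‖ ^ 2) ^ N := by positivity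
    linarith
  have h4 := sum_sq_le_of_hardy h (Finset.range N)
  have h5 : ‖∑ n ∈ Finset.range N, tc f n * z ^ n‖ ^ 2 ≤
      (∑ n ∈ Finset.range N, ‖tc f n‖ * ‖z‖ ^ n) ^ 2 := by gcongr
  have h6 : 0 ≤ ∑ n ∈ Finset.range N, (‖z‖ ^ n) ^ 2 := by positivity
  have h7 : 0 ≤ ∑ n ∈ Finset.range N, ‖tc f n‖ ^ 2 := by positivity
  calc _ ≤ (∑ n ∈ Finset.range N, ‖tc f n‖ ^ 2) * (∑ n ∈ Finset.range N, (‖z‖ ^ n) ^ 2)
        * (1 - ‖z‖ ^ 2) := by gcongr; exact h5.trans h2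
    _ = (∑ n ∈ Finset.range N, ‖tc f n‖ ^ 2) * ((∑ n ∈ Finset.range N, (‖z‖ ^ n) ^ 2)
        * (1 - ‖z‖ ^ 2)) := by ring
    _ ≤ K ^ 2 * 1 := by gcongr
    _ = K ^ 2 := by ring

lemma fourier_tc {f : ℂ → ℂ} (hf : DifferentiableOn ℂ f (ball 0 1)) {r : ℝ} (hr : 0 < r)
    (hr1 : r < 1) (n : ℕ) (hab : -π < π) :
    fourierCoeffOn hab (fun θ : ℝ => f (circleMap 0 r θ)) (n : ℤ) = tc f n * (r : ℂ) ^ n := by
  have hd : DifferentiableOn ℂ f (closedBall 0 r) := hf.mono (closedBall_subset_ball hr1)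
  have h1 := hd.circleIntegral_one_div_sub_center_pow_smul hr n
  rw [fourierCoeffOn_eq_integral]
  have hper : Function.Periodic (fun θ : ℝ => deriv (circleMap 0 r) θ •
      ((1 / (circleMap 0 r θ - 0) ^ (n + 1)) • f (circleMap 0 r θ))) (2 * π) := by
    intro θ
    simp only [deriv_circleMap, (periodic_circleMap 0 r) θ]
  have h2 := hper.intervalIntegral_add_eq 0 (-π)
  rw [circleIntegral] at h1
  rw [zero_add, h1, show -π + 2 * π = π by ring] at h2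
  have h3 : ∀ θ : ℝ, fourier (-(n:ℤ)) (θ : AddCircle (π - -π)) • f (circleMap 0 r θ) =
      ((r : ℂ) ^ n / I) * (deriv (circleMap 0 r) θ •
      ((1 / (circleMap 0 r θ - 0) ^ (n + 1)) • f (circleMap 0 r θ))) := by
    intro θ
    rw [fourier_coe_apply, deriv_circleMap]
    simp only [circleMap, zero_add, sub_zero, smul_eq_mul, mul_pow]
    have hr' : (r : ℂ) ≠ 0 := by exact_mod_cast hr.ne'
    have hpi : (π : ℂ) ≠ 0 := by exact_mod_cast Real.pi_ne_zero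
    have he : Complex.exp (θ * I) ≠ 0 := Complex.exp_ne_zero _
    have e1 : Complex.exp (2 * π * I * ((-(n:ℤ) : ℤ) : ℂ) * θ / ((π - -π : ℝ) : ℂ)) =
        (Complex.exp (θ * I) ^ n)⁻¹ := by
      rw [← Complex.exp_nat_mul, ← Complex.exp_neg]
      congr 1
      push_cast
      field_simp
      ring
    rw [e1]
    field_simp
    ring
  simp_rw [h3]
  rw [intervalIntegral.integral_const_mul, ← h2]
  unfold tc
  have hpi : (π : ℂ) ≠ 0 := by exact_mod_cast Real.pi_ne_zero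
  have hf' : (n.factorial : ℂ) ≠ 0 := by exact_mod_cast n.factorial_ne_zero
  simp only [smul_eq_mul, Complex.real_smul]
  push_cast
  field_simp
  ring

lemma one_sub_circle_ge {r θ : ℝ} (hr : 1 / 2 ≤ r) (hθ : |θ| ≤ π) :
    |θ| / 4 ≤ ‖1 - circleMap 0 r θ‖ := by
  have h1 : ‖1 - circleMap 0 r θ‖ ^ 2 = (1 - r) ^ 2 + 2 * r * (1 - Real.cos θ) := by
    rw [Complex.sq_norm, Complex.normSq_apply]
    simp only [circleMap, zero_add, Complex.sub_re, Complex.one_re, Complex.sub_im, Complex.one_im,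
      Complex.re_ofReal_mul, Complex.im_ofReal_mul, Complex.exp_ofReal_mul_I_re,
      Complex.exp_ofReal_mul_I_im]
    nlinarith [Real.sin_sq_add_cos_sq θ]
  have h2 := Real.cos_le_one_sub_mul_cos_sq hθ
  have hpi : π ^ 2 ≤ 16 := by nlinarith [Real.pi_le_four, Real.pi_pos]
  have h3 : θ ^ 2 / 8 ≤ 2 / π ^ 2 * θ ^ 2 := by
    have : 1 / 8 ≤ 2 / π ^ 2 := by
      rw [div_le_div_iff₀ (by norm_num) (by positivity)]; linarith
    nlinarith [sq_nonneg θ]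
  refine abs_le_of_sq_le_sq' ?_ (norm_nonneg _) |>.2
  rw [h1, div_pow, sq_abs]
  have : 0 ≤ 1 - Real.cos θ := by linarith [Real.cos_le_one θ]
  nlinarith [sq_nonneg (1 - r), sq_nonneg θ]

lemma intervalIntegrable_abs_rpow :
    IntervalIntegrable (fun θ : ℝ => |θ| ^ (-(1 / 2 : ℝ))) volume (-π) π := by
  have h1 : IntervalIntegrable (fun θ : ℝ => |θ| ^ (-(1 / 2 : ℝ))) volume 0 π := by
    refine (intervalIntegral.intervalIntegrable_rpow' (r := -(1 / 2 : ℝ)) (a := 0) (b := π)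
      (by norm_num)).congr ?_
    intro θ hθ
    rw [uIoc_of_le Real.pi_pos.le] at hθ
    simp only [abs_of_pos hθ.1]
  have h2 := (IntervalIntegrable.iff_comp_neg (f := fun θ : ℝ => |θ| ^ (-(1 / 2 : ℝ)))
    (a := 0) (b := π)).1 h1
  simp only [abs_neg, neg_zero] at h2
  exact h2.symm.trans h1

/-- A weighted sup bound gives a Hardy norm bound. -/
lemma hardy_le_of_bound : ∃ C : ℝ, 0 < C ∧ ∀ (f : ℂ → ℂ) (K : ℝ),
    DifferentiableOn ℂ f (ball 0 1) →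
    (∀ z ∈ ball (0:ℂ) 1, ‖f z‖ * ‖1 - z‖ ^ (1 / 4 : ℝ) ≤ K) →
    hardyNormSq f ≤ ENNReal.ofReal (C * K ^ 2) := by
  set I0 : ℝ := ∫ θ in (-π)..π, |θ| ^ (-(1 / 2 : ℝ)) with hI0
  have hab : -π < π := by linarith [Real.pi_pos]
  have hI0' : 0 ≤ I0 := intervalIntegral.integral_nonneg hab.le fun θ _ => by positivity
  refine ⟨I0 + 1, by positivity, fun f K hf hK => ?_⟩
  rw [hardyNormSq_eq, ENNReal.tsum_eq_iSup_sum]
  refine iSup_le fun s => ?_
  rw [← ENNReal.ofReal_sum_of_nonneg (fun n _ => by positivity)]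
  refine ENNReal.ofReal_le_ofReal ?_
  have key : ∀ r : ℝ, 1 / 2 ≤ r → r < 1 →
      ∑ n ∈ s, ‖tc f n‖ ^ 2 * (r ^ n) ^ 2 ≤ (I0 + 1) * K ^ 2 := by
    intro r hr hr1
    have hr0 : 0 < r := by linarith
    have hmem : ∀ θ, circleMap 0 r θ ∈ ball (0:ℂ) 1 := fun θ => by
      simp [abs_of_pos hr0, hr1]
    have hc : Continuous (fun θ : ℝ => f (circleMap 0 r θ)) :=
      hf.continuousOn.comp_continuous (continuous_circleMap 0 r) hmem
    have hL2 : MemLp (fun θ : ℝ => f (circleMap 0 r θ)) 2 (volume.restrict (Ioc (-π) π)) := by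
      obtain ⟨M, hM⟩ := (isCompact_Icc (a := -π) (b := π)).exists_bound_of_continuousOn
        hc.continuousOn
      refine MemLp.of_bound hc.aestronglyMeasurable M ?_
      filter_upwards [ae_restrict_mem measurableSet_Ioc] with θ hθ
      exact hM θ (Ioc_subset_Icc_self hθ)
    have hP := hasSum_sq_fourierCoeffOn hab hL2
    have h1 := sum_le_hasSum (s.map ⟨fun n : ℕ => (n : ℤ), Nat.cast_injective⟩)
      (fun i _ => by positivity) hP
    rw [Finset.sum_map] at h1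
    simp only [Function.Embedding.coeFn_mk, fourier_tc hf hr0 hr1, norm_mul, norm_pow,
      Complex.norm_real, Real.norm_eq_abs, abs_of_pos hr0, mul_pow] at h1
    refine h1.trans ?_
    have h2 : ∫ θ in (-π)..π, ‖f (circleMap 0 r θ)‖ ^ 2 ≤
        ∫ θ in (-π)..π, 2 * K ^ 2 * |θ| ^ (-(1 / 2 : ℝ)) := by
      refine intervalIntegral.integral_mono_ae_restrict hab.le
        ((hc.norm.pow 2).intervalIntegrable _ _) (intervalIntegrable_abs_rpow.const_mul _) ?_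
      have h0 : ∀ᵐ θ ∂(volume.restrict (Icc (-π) π)), θ ≠ 0 :=
        ae_restrict_of_ae (Measure.ae_ne volume 0)
      filter_upwards [ae_restrict_mem measurableSet_Icc, h0] with θ hθ hθ0
      have ha : 0 < |θ| := abs_pos.2 hθ0
      have h3 := one_sub_circle_ge hr (abs_le.2 hθ)
      have h4 := hK _ (hmem θ)
      have h5 : (|θ| / 4) ^ (1 / 4 : ℝ) ≤ ‖1 - circleMap 0 r θ‖ ^ (1 / 4 : ℝ) := by gcongr
      have h6 : ‖f (circleMap 0 r θ)‖ * (|θ| / 4) ^ (1 / 4 : ℝ) ≤ K :=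
        le_trans (by gcongr) h4
      have h7 : (‖f (circleMap 0 r θ)‖ * (|θ| / 4) ^ (1 / 4 : ℝ)) ^ 2 ≤ K ^ 2 := by gcongr
      have h8 : ((|θ| / 4) ^ (1 / 4 : ℝ)) ^ 2 * (2 * |θ| ^ (-(1 / 2 : ℝ))) = 1 := by
        rw [← Real.rpow_natCast, ← Real.rpow_mul (by positivity), Real.div_rpow ha.le (by norm_num),
          Real.rpow_neg ha.le]
        have : (4 : ℝ) ^ ((1 / 4 : ℝ) * (2 : ℕ)) = 2 := by
          rw [show (4:ℝ) = 2 ^ (2:ℝ) by norm_num, ← Real.rpow_mul (by norm_num)]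
          norm_num
        rw [this, show (1 / 4 : ℝ) * (2 : ℕ) = 1 / 2 by norm_num]
        have : 0 < |θ| ^ (1 / 2 : ℝ) := by positivity
        field_simp
      calc ‖f (circleMap 0 r θ)‖ ^ 2 = (‖f (circleMap 0 r θ)‖ * (|θ| / 4) ^ (1 / 4 : ℝ)) ^ 2 *
            (2 * |θ| ^ (-(1 / 2 : ℝ))) := by rw [mul_pow, mul_assoc, h8, mul_one]
        _ ≤ K ^ 2 * (2 * |θ| ^ (-(1 / 2 : ℝ))) := by gcongr
        _ = _ := by ring
    rw [intervalIntegral.integral_const_mul, ← hI0] at h2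
    have h3 : (π - -π)⁻¹ ≤ 1 / 2 := by
      rw [inv_eq_one_div]
      exact one_div_le_one_div_of_le (by norm_num) (by linarith [Real.two_le_pi])
    rw [smul_eq_mul]
    calc _ ≤ (1 / 2) * (2 * K ^ 2 * I0) := by
          gcongr
          exact intervalIntegral.integral_nonneg hab.le fun θ _ => by positivity
      _ ≤ _ := by nlinarith [sq_nonneg K]
  have hc : Continuous (fun r : ℝ => ∑ n ∈ s, ‖tc f n‖ ^ 2 * (r ^ n) ^ 2) := by fun_prop
  have ht := (hc.tendsto 1).mono_left (nhdsWithin_le_nhds (s := Iio 1))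
  simp only [one_pow, mul_one] at ht
  refine le_of_tendsto ht ?_
  filter_upwards [Ico_mem_nhdsLT (show (1 / 2 : ℝ) < 1 by norm_num)] with r hr
  exact key r hr.1 hr.2

lemma norm_one_sub_rpow_le {z : ℂ} (hz : z ∈ ball (0:ℂ) 1) : ‖1 - z‖ ^ (1 / 4 : ℝ) ≤ 2 := by
  have hz1 : ‖z‖ < 1 := by simpa using hz
  have h1 : ‖1 - z‖ ≤ 2 := by
    have := norm_sub_le (1:ℂ) z
    rw [norm_one] at this; linarith
  calc ‖1 - z‖ ^ (1 / 4 : ℝ) ≤ (2:ℝ) ^ (1 / 4 : ℝ) := by gcongr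
    _ ≤ (2:ℝ) ^ (1 : ℝ) := Real.rpow_le_rpow_of_exponent_le (by norm_num) (by norm_num)
    _ = 2 := by simp

lemma inH2_of_weighted {f : ℂ → ℂ} (hf : DifferentiableOn ℂ f (ball 0 1)) {K : ℝ}
    (hK : ∀ z ∈ ball (0:ℂ) 1, ‖f z‖ * ‖1 - z‖ ^ (1 / 4 : ℝ) ≤ K) : InH2 f := by
  obtain ⟨C, -, hC⟩ := hardy_le_of_bound
  exact ⟨hf, (hC f K hf hK).trans_lt ENNReal.ofReal_lt_top⟩

lemma inH2_of_bdd {f : ℂ → ℂ} (hf : DifferentiableOn ℂ f (ball 0 1)) {K : ℝ}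
    (hK : ∀ z ∈ ball (0:ℂ) 1, ‖f z‖ ≤ K) : InH2 f := by
  refine inH2_of_weighted hf (K := K * 2) fun z hz => ?_
  have := hK z hz
  have h0 : 0 ≤ K := (norm_nonneg _).trans this
  gcongr
  exact norm_one_sub_rpow_le hz

lemma tc_add {f g : ℂ → ℂ} (hf : DifferentiableOn ℂ f (ball 0 1))
    (hg : DifferentiableOn ℂ g (ball 0 1)) (n : ℕ) :
    tc (fun z => f z + g z) n = tc f n + tc g n := by
  have h0 : ball (0:ℂ) 1 ∈ 𝓝 (0:ℂ) := ball_mem_nhds _ one_pos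
  unfold tc
  rw [← add_div]
  congr 1
  exact iteratedDeriv_add ((hf.analyticAt h0).contDiffAt) ((hg.analyticAt h0).contDiffAt)

lemma hardy_add_le {f g : ℂ → ℂ} (hf : DifferentiableOn ℂ f (ball 0 1))
    (hg : DifferentiableOn ℂ g (ball 0 1)) :
    hardyNormSq (fun z => f z + g z) ≤ 2 * hardyNormSq f + 2 * hardyNormSq g := by
  simp only [hardyNormSq_eq, ← ENNReal.tsum_mul_left, ← ENNReal.tsum_add]
  refine ENNReal.tsum_le_tsum fun n => ?_
  rw [tc_add hf hg, ← ENNReal.ofReal_ofNat 2, ← ENNReal.ofReal_mul (by norm_num),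
    ← ENNReal.ofReal_mul (by norm_num), ← ENNReal.ofReal_add (by positivity) (by positivity)]
  refine ENNReal.ofReal_le_ofReal ?_
  have h1 := norm_add_le (tc f n) (tc g n)
  have h2 : ‖tc f n + tc g n‖ ^ 2 ≤ (‖tc f n‖ + ‖tc g n‖) ^ 2 := by gcongr
  nlinarith [sq_nonneg (‖tc f n‖ - ‖tc g n‖)]

lemma tc_poly_sub {g : ℂ → ℂ} (hg : DifferentiableOn ℂ g (ball 0 1)) (N n : ℕ) :
    tc (fun z => ∑ j ∈ Finset.range N, tc g j * z ^ j - g z) n =
      if n < N then 0 else -tc g n := by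
  have h0 : ball (0:ℂ) 1 ∈ 𝓝 (0:ℂ) := ball_mem_nhds _ one_pos
  have h1 : tc (fun z => ∑ j ∈ Finset.range N, tc g j * z ^ j) n =
      if n < N then tc g n else 0 := by
    have hf' : (n.factorial : ℂ) ≠ 0 := by exact_mod_cast n.factorial_ne_zero
    conv_lhs => unfold tc
    rw [iteratedDeriv_fun_sum (fun j _ => by fun_prop)]
    simp only [iteratedDeriv_const_mul_field, iteratedDeriv_fun_pow_zero]
    simp only [mul_ite, mul_zero, Nat.cast_ite, Nat.cast_zero, Finset.sum_ite_eq,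
      Finset.mem_range]
    split_ifs
    · unfold tc; field_simp
    · simp
  have h2 := tc_add (f := fun z => ∑ j ∈ Finset.range N, tc g j * z ^ j - g z) (g := g)
    (by fun_prop) hg n
  simp only [sub_add_cancel] at h2
  rw [h1] at h2
  split_ifs at h2 ⊢
  · linear_combination -h2
  · linear_combination -h2

/-- truncations converge in the Hardy norm -/
lemma exists_trunc {g : ℂ → ℂ} (hg : InH2 g) {ε : ℝ≥0∞} (hε : 0 < ε) :
    ∃ N : ℕ, hardyNormSq (fun z => ∑ j ∈ Finset.range N, tc g j * z ^ j - g z) < ε := by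
  have h1 := hg.2
  rw [hardyNormSq_eq] at h1
  have h2 := ENNReal.tendsto_sum_nat_add _ h1.ne
  obtain ⟨N, hN⟩ := (h2.eventually (gt_mem_nhds hε)).exists
  refine ⟨N, lt_of_le_of_lt (le_of_eq ?_) hN⟩
  rw [hardyNormSq_eq, ← Summable.sum_add_tsum_nat_add' (k := N) ENNReal.summable]
  simp only [tc_poly_sub hg.1]
  rw [Finset.sum_eq_zero fun j hj => by simp [Finset.mem_range.1 hj]]
  simp

end Pool.Agent.Lib.MP_6c91ae_an
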