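import Pool.Agent.Lib.MP_6c91ae_an.Cp

namespace Pool.Agent.Lib.MP_6c91ae_an

open Metric Complex Set Filter Topology
open scoped Real

/-- half strip -/
def Sig (p : ℝ) : Set ℂ := {s | 2 * p < s.re ∧ |s.im| < π / 2}

/-- the flow in the strip coordinate -/
noncomputable def tau (p t : ℝ) (s : ℂ) : ℂ := cp p⁻¹ (cp p s + t)

lemma convex_Sig (p : ℝ) : Convex ℝ (Sig p) := by
  have : Sig p = {s : ℂ | 2 * p < s.re} ∩ ({s : ℂ | -(π / 2) < s.im} ∩ {s : ℂ | s.im < π / 2}) := by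
    ext s; simp [Sig, abs_lt]
  rw [this]
  exact (convex_halfSpace_re_gt _).inter ((convex_halfSpace_im_gt _).inter
    (convex_halfSpace_im_lt _))

lemma isOpen_Sig (p : ℝ) : IsOpen (Sig p) :=
  (isOpen_lt continuous_const Complex.continuous_re).inter
    (isOpen_lt (continuous_abs.comp Complex.continuous_im) continuous_const)

section
variable {p : ℝ} (hp : 1 < p) {s : ℂ} (hs : s ∈ Sig p)
include hp hs

lemma Sig.re_pos : 0 < s.re := by linarith [hs.1]

lemma Sig.ne_zero : s ≠ 0 := ne_zero_of_re_pos' (Sig.re_pos hp hs)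

lemma Sig.norm_le : ‖s‖ ≤ 2 * s.re := by
  have h1 := Complex.norm_le_abs_re_add_abs_im s
  rw [abs_of_pos (Sig.re_pos hp hs)] at h1
  linarith [hs.1, hs.2, Real.pi_le_four]

lemma Sig.two_le_norm : 2 ≤ ‖s‖ := by linarith [hs.1, Complex.re_le_norm s]

lemma Sig.arg_le' : |arg s| ≤ π / 2 / s.re :=
  (abs_arg_le_div (Sig.re_pos hp hs)).trans (by have := Sig.re_pos hp hs; gcongr; exact hs.2.le)

lemma Sig.arg_le {a : ℝ} (ha : |a| ≤ p) : |a * arg s| ≤ π / 4 := by
  have h1 : |arg s| ≤ π / 2 / (2 * p) :=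
    (Sig.arg_le' hp hs).trans (by have := Real.pi_pos; gcongr; exact hs.1.le)
  rw [abs_mul]
  calc _ ≤ p * (π / 2 / (2 * p)) := by gcongr
    _ = π / 4 := by field_simp; ring

lemma Sig.cos_ge {a : ℝ} (ha : |a| ≤ p) : 1 / 2 ≤ Real.cos (a * arg s) := by
  rw [← Real.cos_abs, ← Real.cos_pi_div_three]
  exact Real.cos_le_cos_of_nonneg_of_le_pi (abs_nonneg _) (by linarith [Real.pi_pos])
    ((Sig.arg_le hp hs ha).trans (by linarith [Real.pi_pos]))

lemma Sig.pw_re : ‖s‖ ^ p / 2 ≤ (cp p s).re := by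
  rw [cp_re p (Sig.ne_zero hp hs)]
  have := Sig.cos_ge hp hs (a := p) (by rw [abs_of_pos (by linarith)])
  have h : 0 ≤ ‖s‖ ^ p := by positivity
  nlinarith

lemma Sig.two_le_rpow : 2 ≤ ‖s‖ ^ p := by
  have h := Sig.two_le_norm hp hs
  calc (2:ℝ) ≤ ‖s‖ ^ (1:ℝ) := by rwa [Real.rpow_one]
    _ ≤ _ := Real.rpow_le_rpow_of_exponent_le (by linarith) hp.le

lemma Sig.one_le_pw_re : 1 ≤ (cp p s).re := by
  linarith [Sig.pw_re hp hs, Sig.two_le_rpow hp hs]

lemma Sig.pw_im : |(cp p s).im| ≤ p * π * ‖s‖ ^ (p - 1) := by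
  have h0 := Sig.ne_zero hp hs
  have hn : 0 < ‖s‖ := norm_pos_iff.2 h0
  have hre := Sig.re_pos hp hs
  rw [cp_im p h0, abs_mul, abs_of_pos (Real.rpow_pos_of_pos hn p)]
  have h1 : |Real.sin (p * arg s)| ≤ p * (π / ‖s‖) := by
    refine Real.abs_sin_le_abs.trans ?_
    rw [abs_mul, abs_of_pos (by linarith : 0 < p)]
    gcongr
    refine (Sig.arg_le' hp hs).trans ?_
    rw [div_div]
    have := Real.pi_pos
    gcongr
    exact Sig.norm_le hp hs
  calc _ ≤ ‖s‖ ^ p * (p * (π / ‖s‖)) := by gcongr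
    _ = _ := by rw [Real.rpow_sub_one hn.ne']; field_simp

lemma Sig.pw_im_cube (hp3 : p ≤ 3) : |(cp p s).im| ^ 3 ≤ 4 * 12 ^ 3 * (cp p s).re ^ 2 := by
  have h1 := Sig.two_le_norm hp hs
  have h2 : |(cp p s).im| ≤ 12 * ‖s‖ ^ (p - 1) := by
    refine (Sig.pw_im hp hs).trans ?_
    gcongr
    nlinarith [Real.pi_le_four, Real.pi_pos]
  have h3 : (‖s‖ ^ (p - 1)) ^ 3 ≤ (‖s‖ ^ p) ^ 2 := by
    rw [← Real.rpow_natCast, ← Real.rpow_natCast, ← Real.rpow_mul (by linarith),
      ← Real.rpow_mul (by linarith)]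
    exact Real.rpow_le_rpow_of_exponent_le (by linarith) (by push_cast; linarith)
  have h4 : (‖s‖ ^ p) ^ 2 ≤ (2 * (cp p s).re) ^ 2 := by
    gcongr; linarith [Sig.pw_re hp hs]
  calc _ ≤ (12 * ‖s‖ ^ (p - 1)) ^ 3 := by gcongr
    _ = 12 ^ 3 * (‖s‖ ^ (p - 1)) ^ 3 := by ring
    _ ≤ 12 ^ 3 * (2 * (cp p s).re) ^ 2 := by gcongr; exact h3.trans h4
    _ = _ := by ring

lemma Sig.rt_pw : cp p⁻¹ (cp p s) = s := by
  rw [cp_cp, inv_mul_cancel₀ (by linarith), cp_one (Sig.ne_zero hp hs)]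
  exact (Sig.arg_le hp hs (by rw [abs_of_pos (by linarith)])).trans_lt (by linarith [Real.pi_pos])

lemma Sig.deriv_re : 1 / 2 ≤ ((p:ℂ) * cp (p - 1) s).re := by
  rw [Complex.re_ofReal_mul, cp_re _ (Sig.ne_zero hp hs)]
  have h1 := Sig.cos_ge hp hs (a := p - 1) (abs_le.2 ⟨by linarith, by linarith⟩)
  have h2 : 1 ≤ ‖s‖ ^ (p - 1) :=
    Real.one_le_rpow (by linarith [Sig.two_le_norm hp hs]) (by linarith)
  nlinarith [mul_le_mul h2 h1 (by norm_num) (by linarith)]

lemma Sig.add_re_pos {t : ℝ} (ht : 0 ≤ t) : 0 < (cp p s + t).re := by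
  simp only [Complex.add_re, Complex.ofReal_re]
  linarith [Sig.one_le_pw_re hp hs]

omit hs in
lemma inv_nonneg' : 0 ≤ p⁻¹ := by positivity

omit hs in
lemma inv_le_one' : p⁻¹ ≤ 1 := inv_le_one_of_one_le₀ hp.le

lemma Sig.tau_re {t : ℝ} (ht : 0 ≤ t) : s.re ≤ (tau p t s).re := by
  have := cp_re_mono (inv_nonneg' hp) (inv_le_one' hp) (w := cp p s)
    (by linarith [Sig.one_le_pw_re hp hs]) ht
  rwa [Sig.rt_pw hp hs] at this

lemma Sig.tau_im {t : ℝ} (ht : 0 ≤ t) : |(tau p t s).im| ≤ |s.im| := by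
  have := cp_im_anti (inv_nonneg' hp) (inv_le_one' hp) (w := cp p s)
    (by linarith [Sig.one_le_pw_re hp hs]) ht
  rwa [Sig.rt_pw hp hs] at this

lemma Sig.tau_mem {t : ℝ} (ht : 0 ≤ t) : tau p t s ∈ Sig p :=
  ⟨hs.1.trans_le (Sig.tau_re hp hs ht), (Sig.tau_im hp hs ht).trans_lt hs.2⟩

omit hs in
lemma pw_rt {w : ℂ} (hw : 0 < w.re) : cp p (cp p⁻¹ w) = w := by
  rw [cp_cp, mul_inv_cancel₀ (by linarith), cp_one (ne_zero_of_re_pos' hw)]
  exact (abs_mul_arg_lt (abs_le.2 ⟨by linarith [inv_nonneg' hp], inv_le_one' hp⟩) hw).trans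
    (by linarith [Real.pi_pos])

lemma Sig.pw_tau {t : ℝ} (ht : 0 ≤ t) : cp p (tau p t s) = cp p s + t :=
  pw_rt hp (Sig.add_re_pos hp hs ht)

lemma Sig.tau_tau {t u : ℝ} (hu : 0 ≤ u) : tau p t (tau p u s) = tau p (u + t) s := by
  rw [tau, Sig.pw_tau hp hs hu, tau]; push_cast; rw [add_assoc]

lemma Sig.tau_zero : tau p 0 s = s := by simp [tau, Sig.rt_pw hp hs]

lemma Sig.tau_re_ge {t : ℝ} (ht : 0 ≤ t) : ((cp p s).re + t) ^ p⁻¹ ≤ (tau p t s).re := by
  simpa [tau] using rpow_re_le_cp_re (inv_nonneg' hp) (inv_le_one' hp) (Sig.add_re_pos hp hs ht)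

lemma Sig.tau_one_le : (tau p 1 s).re ≤ s.re + 1 := by
  have h1 := Sig.one_le_pw_re hp hs
  have := norm_cp_sub_le (inv_nonneg' hp) (inv_le_one' hp) one_pos (w := cp p s + (1:ℝ))
    (v := cp p s) (by simp only [Complex.add_re, Complex.ofReal_re]; linarith) h1
  rw [Sig.rt_pw hp hs] at this
  simp only [Real.one_rpow, mul_one, add_sub_cancel_left, Complex.ofReal_one, norm_one] at this
  have h2 := Complex.re_le_norm (tau p 1 s - s)
  simp only [Complex.sub_re, tau, Complex.ofReal_one] at h2 ⊢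
  linarith [inv_le_one' hp]

lemma Sig.hasDerivAt_tau {t : ℝ} (ht : 0 ≤ t) : DifferentiableAt ℂ (tau p t) s :=
  ((hasDerivAt_cp _ (Sig.add_re_pos hp hs ht)).comp s
    ((hasDerivAt_cp p (Sig.re_pos hp hs)).add_const (t:ℂ))).differentiableAt

end

/-- `tanh (u / 2)` -/
noncomputable def th (u : ℂ) : ℂ := (1 - Complex.exp (-u)) / (1 + Complex.exp (-u))

section
variable {u : ℂ} (hu : |u.im| < π / 2)
include hu

lemma exp_neg_re_nonneg : 0 ≤ (Complex.exp (-u)).re := by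
  rw [Complex.exp_re, Complex.neg_im, Real.cos_neg]
  exact mul_nonneg (Real.exp_pos _).le (Real.cos_pos_of_mem_Ioo (abs_lt.1 hu)).le

lemma one_le_den : 1 ≤ ‖1 + Complex.exp (-u)‖ := by
  have := Complex.re_le_norm (1 + Complex.exp (-u))
  simp only [Complex.add_re, Complex.one_re] at this
  linarith [exp_neg_re_nonneg hu]

omit hu in
lemma den_sq : ‖1 + Complex.exp (-u)‖ ^ 2 =
    1 + 2 * (Complex.exp (-u)).re + Real.exp (-u.re) ^ 2 := by
  have : Real.exp (-u.re) = ‖Complex.exp (-u)‖ := by rw [Complex.norm_exp, Complex.neg_re]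
  rw [this, Complex.sq_norm, Complex.sq_norm, Complex.normSq_apply, Complex.normSq_apply]
  simp only [Complex.add_re, Complex.one_re, Complex.add_im, Complex.one_im]
  ring

lemma den_ne' : 1 + Complex.exp (-u) ≠ 0 :=
  norm_pos_iff.1 (lt_of_lt_of_le one_pos (one_le_den hu))

lemma norm_th_le_one : ‖th u‖ ≤ 1 := by
  have h := one_le_den hu
  rw [th, norm_div, div_le_one (by linarith)]
  refine abs_le_of_sq_le_sq' ?_ (norm_nonneg _) |>.2
  rw [Complex.sq_norm, Complex.sq_norm, Complex.normSq_apply, Complex.normSq_apply]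
  simp only [Complex.add_re, Complex.one_re, Complex.add_im, Complex.one_im, Complex.sub_re,
    Complex.sub_im]
  nlinarith [exp_neg_re_nonneg hu]

lemma norm_one_add_th : ‖1 + th u‖ ≤ 2 * Real.exp (u.re / 4) := by
  have h := one_le_den hu
  have h1 : 1 + th u = 2 / (1 + Complex.exp (-u)) := by
    have := den_ne' hu
    rw [th]; field_simp; ring
  rw [h1, norm_div, Complex.norm_ofNat, div_le_iff₀ (by linarith), mul_assoc]
  refine le_mul_of_one_le_right (by norm_num) ?_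
  rcases le_total 0 u.re with h0 | h0
  · exact one_le_mul_of_one_le_of_one_le (Real.one_le_exp (by linarith)) h
  · have h2 : Real.exp (-u.re) ≤ ‖1 + Complex.exp (-u)‖ := by
      refine abs_le_of_sq_le_sq' ?_ (norm_nonneg _) |>.2
      rw [den_sq]; linarith [exp_neg_re_nonneg hu]
    calc 1 ≤ Real.exp (u.re / 4) * Real.exp (-u.re) := by
          rw [← Real.exp_add]; exact Real.one_le_exp (by linarith)
      _ ≤ _ := by gcongr

lemma norm_one_sub_th : ‖1 - th u‖ ≤ 2 * Real.exp (-u.re) := by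
  have h := one_le_den hu
  have h1 : 1 - th u = 2 * Complex.exp (-u) / (1 + Complex.exp (-u)) := by
    have := den_ne' hu
    rw [th]; field_simp; ring
  rw [h1, norm_div, norm_mul, Complex.norm_ofNat, Complex.norm_exp, Complex.neg_re]
  exact div_le_self (by positivity) h

lemma norm_th_le : ‖th u‖ ≤ 2 * ‖u‖ := by
  rcases le_total ‖u‖ 1 with h | h
  · rw [th, norm_div]
    refine (div_le_self (norm_nonneg _) (one_le_den hu)).trans ?_
    have := Complex.norm_exp_sub_one_le (x := -u) (by simpa using h)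
    rwa [norm_sub_rev, norm_neg] at this
  · linarith [norm_th_le_one hu]

lemma th_re_im : ∃ D : ℝ, 1 ≤ D ∧ (th u).re = Real.sinh u.re / D ∧
    (th u).im = Real.sin u.im / D := by
  have h1 : 1 + Complex.exp (-u) ≠ 0 := den_ne' hu
  have hc : 0 ≤ Real.cos u.im := (Real.cos_pos_of_mem_Ioo (abs_lt.1 hu)).le
  have hD : 1 ≤ Real.cosh u.re + Real.cos u.im := by linarith [Real.one_le_cosh u.re]
  refine ⟨Real.cosh u.re + Real.cos u.im, hD, ?_⟩
  have key : th u = ((Real.sinh u.re : ℝ) + (Real.sin u.im : ℝ) * I) /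
      ((Real.cosh u.re + Real.cos u.im : ℝ) : ℂ) := by
    have h2 : ((Real.cosh u.re + Real.cos u.im : ℝ) : ℂ) ≠ 0 := by
      exact_mod_cast (by linarith : Real.cosh u.re + Real.cos u.im ≠ 0)
    rw [th, div_eq_div_iff h1 h2]
    have hE : Real.exp (-u.re) * Real.exp u.re = 1 := by rw [← Real.exp_add]; simp
    apply Complex.ext
    · simp only [Complex.mul_re, Complex.sub_re, Complex.one_re, Complex.exp_re, Complex.neg_re,
        Complex.neg_im, Real.cos_neg, Complex.ofReal_re, Complex.sub_im, Complex.one_im,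
        Complex.exp_im, Real.sin_neg, Complex.ofReal_im, Complex.add_re, Complex.I_re,
        Complex.I_im, Complex.add_im, Complex.mul_im, Real.cosh_eq, Real.sinh_eq]
      have := Real.sin_sq_add_cos_sq u.im
      linear_combination (-Real.cos u.im) * hE - Real.exp (-u.re) * this
    · simp only [Complex.mul_re, Complex.sub_re, Complex.one_re, Complex.exp_re, Complex.neg_re,
        Complex.neg_im, Real.cos_neg, Complex.ofReal_re, Complex.sub_im, Complex.one_im,
        Complex.exp_im, Real.sin_neg, Complex.ofReal_im, Complex.add_re, Complex.I_re,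
        Complex.I_im, Complex.add_im, Complex.mul_im, Real.cosh_eq, Real.sinh_eq]
      linear_combination (Real.sin u.im) * hE
  rw [key, Complex.div_ofReal_re, Complex.div_ofReal_im]
  simp [-Complex.ofReal_sinh, -Complex.ofReal_sin]

lemma th_differentiableAt : DifferentiableAt ℂ th u := by
  unfold th
  exact DifferentiableAt.div (by fun_prop) (by fun_prop) (den_ne' hu)

end

lemma th_neg_real {x y : ℝ} (hx : 0 ≤ x) (hx1 : x ≤ 1) (hxy : x ≤ y) :
    ∃ r : ℝ, x / 3 ≤ r ∧ th (-(y:ℂ)) = -(r:ℂ) := by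
  refine ⟨(Real.exp y - 1) / (Real.exp y + 1), ?_, ?_⟩
  · have := Real.add_one_le_exp y
    rw [div_le_div_iff₀ (by norm_num) (by positivity)]
    nlinarith
  · rw [th, neg_neg]
    push_cast
    rw [← neg_div, neg_sub, add_comm]

end Pool.Agent.Lib.MP_6c91ae_an
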