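import Pool.Agent.Lib.MP_6c91ae_an.Defs

namespace Pool.Agent.Lib.MP_6c91ae_an

open Metric Complex Set Filter Topology
open scoped ComplexConjugate

lemma norm_sq_id (a z : ℂ) :
    ‖1 - conj a * z‖ ^ 2 - ‖z - a‖ ^ 2 = (1 - ‖a‖ ^ 2) * (1 - ‖z‖ ^ 2) := by
  simp only [Complex.sq_norm, Complex.normSq_apply, Complex.sub_re, Complex.sub_im, Complex.mul_re,
    Complex.mul_im, Complex.conj_re, Complex.conj_im, Complex.one_re, Complex.one_im]
  ring

lemma one_sub_sq_pos {z : ℂ} (hz : z ∈ ball (0:ℂ) 1) : 0 < 1 - ‖z‖ ^ 2 := by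
  have hz1 : ‖z‖ < 1 := by simpa using hz
  nlinarith [norm_nonneg z]

lemma den_pos {a z : ℂ} (ha : a ∈ ball (0:ℂ) 1) (hz : z ∈ ball (0:ℂ) 1) :
    0 < ‖1 - conj a * z‖ := by
  have h1 := norm_sq_id a z
  have h2 := mul_pos (one_sub_sq_pos ha) (one_sub_sq_pos hz)
  by_contra h
  have : ‖1 - conj a * z‖ = 0 := le_antisymm (not_lt.1 h) (norm_nonneg _)
  rw [this] at h1
  nlinarith [sq_nonneg ‖z - a‖]

lemma den_ne {a z : ℂ} (ha : a ∈ ball (0:ℂ) 1) (hz : z ∈ ball (0:ℂ) 1) :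
    1 - conj a * z ≠ 0 := norm_pos_iff.1 (den_pos ha hz)

lemma pdist_nonneg (a z : ℂ) : 0 ≤ pdist a z := norm_nonneg _

lemma pdist_mul {a z : ℂ} (ha : a ∈ ball (0:ℂ) 1) (hz : z ∈ ball (0:ℂ) 1) :
    pdist a z * ‖1 - conj a * z‖ = ‖z - a‖ := by
  unfold pdist
  rw [norm_div, div_mul_cancel₀ _ (den_pos ha hz).ne']

lemma pdist_sq {a z : ℂ} (ha : a ∈ ball (0:ℂ) 1) (hz : z ∈ ball (0:ℂ) 1) :
    (1 - pdist a z ^ 2) * ‖1 - conj a * z‖ ^ 2 = (1 - ‖a‖ ^ 2) * (1 - ‖z‖ ^ 2) := by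
  rw [← norm_sq_id, ← pdist_mul ha hz]; ring

lemma pdist_lt_one {a z : ℂ} (ha : a ∈ ball (0:ℂ) 1) (hz : z ∈ ball (0:ℂ) 1) : pdist a z < 1 := by
  have h1 := pdist_sq ha hz
  have h2 := mul_pos (one_sub_sq_pos ha) (one_sub_sq_pos hz)
  rw [← h1] at h2
  have h3 : 0 < 1 - pdist a z ^ 2 := by
    by_contra h
    nlinarith [sq_nonneg ‖1 - conj a * z‖]
  nlinarith [pdist_nonneg a z]

lemma schwarz_pick {ψ : ℂ → ℂ} (hd : DifferentiableOn ℂ ψ (ball 0 1))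
    (hm : MapsTo ψ (ball 0 1) (ball 0 1)) {a z : ℂ} (ha : a ∈ ball (0:ℂ) 1)
    (hz : z ∈ ball (0:ℂ) 1) : pdist (ψ a) (ψ z) ≤ pdist a z := by
  have hna : -a ∈ ball (0:ℂ) 1 := by simpa using ha
  set m : ℂ → ℂ := fun w => (w - -a) / (1 - conj (-a) * w) with hm_def
  have hm1 : MapsTo m (ball 0 1) (ball 0 1) := fun w hw => by
    rw [mem_ball_zero_iff]; exact pdist_lt_one hna hw
  have hm2 : DifferentiableOn ℂ m (ball 0 1) :=
    DifferentiableOn.div (by fun_prop) (by fun_prop) fun w hw => den_ne hna hw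
  have hc : DifferentiableOn ℂ (fun w => ψ (m w)) (ball 0 1) := hd.comp hm2 hm1
  have h1 : DifferentiableOn ℂ (fun w => (ψ (m w) - ψ a) / (1 - conj (ψ a) * ψ (m w)))
      (ball 0 1) :=
    DifferentiableOn.div (by fun_prop) (by fun_prop) fun w hw => den_ne (hm ha) (hm (hm1 hw))
  have h2 : MapsTo (fun w => (ψ (m w) - ψ a) / (1 - conj (ψ a) * ψ (m w))) (ball 0 1)
      (closedBall 0 1) := fun w hw => by
    rw [mem_closedBall_zero_iff]; exact (pdist_lt_one (hm ha) (hm (hm1 hw))).le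
  have h3 := Complex.norm_le_norm_of_mapsTo_ball h1 h2 (by simp [hm_def])
    (z := (z - a) / (1 - conj a * z)) (pdist_lt_one ha hz)
  have h4 : m ((z - a) / (1 - conj a * z)) = z := by
    have h5 := den_ne ha hz
    have h6 := den_ne ha ha
    simp only [hm_def, map_neg]
    generalize conj a = c at h5 h6 ⊢
    have h7 : 1 - -c * ((z - a) / (1 - c * z)) = (1 - c * a) / (1 - c * z) := by
      rw [eq_div_iff h5, sub_mul, mul_assoc, div_mul_cancel₀ _ h5]; ring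
    have h8 : (z - a) / (1 - c * z) - -a = z * ((1 - c * a) / (1 - c * z)) := by
      rw [← mul_div_assoc, eq_div_iff h5, sub_mul, div_mul_cancel₀ _ h5]; ring
    rw [h7, h8, mul_div_assoc, div_self (div_ne_zero h6 h5), mul_one]
  simp only [h4] at h3
  exact h3

lemma exists_fixed {ψ : ℂ → ℂ} (hd : DifferentiableOn ℂ ψ (ball 0 1)) {r : ℝ} (hr0 : 0 ≤ r)
    (hr : r < 1) (hm : ∀ z ∈ ball (0:ℂ) 1, ‖ψ z‖ ≤ r) : ∃ b ∈ ball (0:ℂ) 1, ψ b = b := by
  by_contra hcon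
  push Not at hcon
  set ρ : ℝ := (1 + r) / 2 with hρ
  have hρ0 : 0 < ρ := by positivity
  have hρ1 : ρ < 1 := by rw [hρ]; linarith
  have hsub : closedBall (0:ℂ) ρ ⊆ ball 0 1 := closedBall_subset_ball hρ1
  have hG : DifferentiableOn ℂ (fun z => Complex.exp (-(z / (z - ψ z)))) (ball 0 1) := by
    refine DifferentiableOn.cexp (DifferentiableOn.neg ?_)
    exact DifferentiableOn.div (by fun_prop) (by fun_prop) fun z hz =>
      sub_ne_zero.2 (hcon z hz).symm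
  have hG' : DiffContOnCl ℂ (fun z => Complex.exp (-(z / (z - ψ z)))) (ball 0 ρ) := by
    refine DifferentiableOn.diffContOnCl (hG.mono ?_)
    rwa [closure_ball _ hρ0.ne']
  have hκ : r / ρ < 1 := by rw [div_lt_one hρ0, hρ]; linarith
  have h1 := Complex.norm_le_of_forall_mem_frontier_norm_le isBounded_ball hG'
    (C := Real.exp (-((1 - r / ρ) / 4))) ?_ (z := 0) (subset_closure (mem_ball_self hρ0))
  · simp only [zero_sub, zero_div, neg_zero, Complex.exp_zero, norm_one] at h1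
    have : Real.exp (-((1 - r / ρ) / 4)) < 1 := Real.exp_lt_one_iff.2 (by linarith)
    linarith
  · intro z hz
    rw [frontier_ball _ hρ0.ne', mem_sphere_zero_iff_norm] at hz
    have hz0 : z ≠ 0 := norm_pos_iff.1 (hz ▸ hρ0)
    have hzb : z ∈ ball (0:ℂ) 1 := by simp [hz, hρ1]
    rw [Complex.norm_exp, Complex.neg_re]
    refine Real.exp_le_exp.2 (neg_le_neg ?_)
    set u := ψ z / z with hu
    have hu1 : ‖u‖ ≤ r / ρ := by rw [hu, norm_div, hz]; gcongr; exact hm z hzb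
    have h2 : z / (z - ψ z) = (1 - u)⁻¹ := by
      have := sub_ne_zero.2 (hcon z hzb).symm
      rw [hu]; field_simp
    rw [h2, Complex.inv_re]
    have h3 : 1 - r / ρ ≤ (1 - u).re := by
      simp only [Complex.sub_re, Complex.one_re]
      linarith [Complex.re_le_norm u]
    have h4 : normSq (1 - u) ≤ 4 := by
      rw [← Complex.sq_norm]
      have := norm_sub_le 1 u
      rw [norm_one] at this
      nlinarith [norm_nonneg (1 - u)]
    have h5 : 0 < normSq (1 - u) := by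
      rw [normSq_pos]; intro h; rw [h] at h3; simp at h3; linarith
    rw [div_le_div_iff₀ (by norm_num) h5]
    nlinarith

lemma wolff {φ : ℂ → ℂ} (hd : DifferentiableOn ℂ φ (ball 0 1))
    (hm : MapsTo φ (ball 0 1) (ball 0 1)) (hfix : ∀ z ∈ ball (0:ℂ) 1, φ z ≠ z) :
    ∃ ω : ℂ, ‖ω‖ = 1 ∧ ∀ z ∈ ball (0:ℂ) 1,
      (1 - ‖z‖ ^ 2) * ‖ω - φ z‖ ^ 2 ≤ (1 - ‖φ z‖ ^ 2) * ‖ω - z‖ ^ 2 := by
  set r : ℕ → ℝ := fun k => 1 - 1 / ((k:ℝ) + 1) with hr
  have hr0 : ∀ k, 0 ≤ r k := fun k => by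
    have : 1 / ((k:ℝ) + 1) ≤ 1 := by
      rw [div_le_one (by positivity)]; linarith [Nat.cast_nonneg (α := ℝ) k]
    simp only [hr]; linarith
  have hr1 : ∀ k, r k < 1 := fun k => by
    have : 0 < 1 / ((k:ℝ) + 1) := by positivity
    simp only [hr]; linarith
  have hrt : Tendsto r atTop (𝓝 1) := by
    have := tendsto_one_div_add_atTop_nhds_zero_nat.const_sub (1:ℝ)
    rw [sub_zero] at this
    exact this
  have hb : ∀ k, ∀ z ∈ ball (0:ℂ) 1, ‖(r k : ℂ) * φ z‖ ≤ r k := fun k z hz => by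
    rw [norm_mul, Complex.norm_real, Real.norm_eq_abs, abs_of_nonneg (hr0 k)]
    exact mul_le_of_le_one_right (hr0 k) (mem_ball_zero_iff.1 (hm hz)).le
  have hd' : ∀ k, DifferentiableOn ℂ (fun z => (r k : ℂ) * φ z) (ball 0 1) := fun k => by fun_prop
  have hm' : ∀ k, MapsTo (fun z => (r k : ℂ) * φ z) (ball 0 1) (ball 0 1) := fun k z hz =>
    mem_ball_zero_iff.2 ((hb k z hz).trans_lt (hr1 k))
  choose b hb1 hb2 using fun k => exists_fixed (hd' k) (hr0 k) (hr1 k) (hb k)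
  obtain ⟨ω, hω, s, hs, hlim⟩ := (isCompact_closedBall (0:ℂ) 1).tendsto_subseq
    fun k => ball_subset_closedBall (hb1 k)
  have hrs : Tendsto (fun k => ((r (s k) : ℝ) : ℂ)) atTop (𝓝 1) := by
    exact (Complex.continuous_ofReal.tendsto 1).comp (hrt.comp hs.tendsto_atTop)
  have hω1 : ‖ω‖ = 1 := by
    refine le_antisymm (mem_closedBall_zero_iff.1 hω) (not_lt.1 fun h => ?_)
    have hωb : ω ∈ ball (0:ℂ) 1 := mem_ball_zero_iff.2 h
    have h1 : ContinuousAt φ ω := hd.continuousOn.continuousAt (isOpen_ball.mem_nhds hωb)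
    have h2 := hrs.mul (h1.tendsto.comp hlim)
    have h3 : (fun k => ((r (s k) : ℝ) : ℂ) * (φ ∘ b ∘ s) k) = b ∘ s := by
      funext k; exact hb2 (s k)
    rw [h3, one_mul] at h2
    exact hfix ω hωb (tendsto_nhds_unique h2 hlim)
  refine ⟨ω, hω1, fun z hz => ?_⟩
  have key : ∀ k, (1 - ‖z‖ ^ 2) * ‖1 - conj (b k) * ((r k : ℂ) * φ z)‖ ^ 2 ≤
      (1 - ‖(r k : ℂ) * φ z‖ ^ 2) * ‖1 - conj (b k) * z‖ ^ 2 := by
    intro k
    have h1 := schwarz_pick (hd' k) (hm' k) (hb1 k) hz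
    simp only [hb2 k] at h1
    have h2 := pdist_sq (hb1 k) hz
    have h3 := pdist_sq (hb1 k) (hm' k hz)
    have h4 := one_sub_sq_pos (hb1 k)
    have h5 : 1 - pdist (b k) z ^ 2 ≤ 1 - pdist (b k) ((r k : ℂ) * φ z) ^ 2 := by
      have := pow_le_pow_left₀ (pdist_nonneg _ _) h1 2
      linarith
    refine le_of_mul_le_mul_left ?_ h4
    calc _ = ((1 - ‖b k‖ ^ 2) * (1 - ‖z‖ ^ 2)) * ‖1 - conj (b k) * ((r k : ℂ) * φ z)‖ ^ 2 := by
          ring
      _ = (1 - pdist (b k) z ^ 2) * ‖1 - conj (b k) * z‖ ^ 2 *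
          ‖1 - conj (b k) * ((r k : ℂ) * φ z)‖ ^ 2 := by rw [h2]
      _ ≤ (1 - pdist (b k) ((r k : ℂ) * φ z) ^ 2) * ‖1 - conj (b k) * z‖ ^ 2 *
          ‖1 - conj (b k) * ((r k : ℂ) * φ z)‖ ^ 2 := by gcongr
      _ = ((1 - pdist (b k) ((r k : ℂ) * φ z) ^ 2) * ‖1 - conj (b k) * ((r k : ℂ) * φ z)‖ ^ 2) *
          ‖1 - conj (b k) * z‖ ^ 2 := by ring
      _ = _ := by rw [h3]; ring
  have hcj : Tendsto (fun k => conj (b (s k))) atTop (𝓝 (conj ω)) :=
    (Complex.continuous_conj.tendsto ω).comp hlim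
  have t1 := (((hcj.mul (hrs.mul_const (φ z))).const_sub 1).norm.pow 2).const_mul (1 - ‖z‖ ^ 2)
  have t2 := (((hrs.mul_const (φ z)).norm.pow 2).const_sub 1).mul
    (((hcj.mul_const z).const_sub 1).norm.pow 2)
  have h := le_of_tendsto_of_tendsto' t1 t2 fun k => key (s k)
  have e : ∀ w : ℂ, ‖1 - conj ω * w‖ = ‖ω - w‖ := by
    intro w
    have h1 : ω * conj ω = 1 := by rw [Complex.mul_conj', hω1]; simp
    calc ‖1 - conj ω * w‖ = ‖ω * (1 - conj ω * w)‖ := by rw [norm_mul, hω1, one_mul]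
      _ = _ := by rw [mul_sub, ← mul_assoc, h1, mul_one, one_mul]
  simpa only [one_mul, e] using h

end Pool.Agent.Lib.MP_6c91ae_an
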