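import Pool.Agent.Lib.MP_6c91ae_an.Core
import Pool.Agent.Lib.MP_6c91ae_an.Wolff
import Pool.Agent.Lib.MP_6c91ae_an.Hardy

namespace Pool.Agent.Lib.MP_6c91ae_an

open Metric Complex Set Filter Topology Polynomial
open scoped ComplexConjugate ENNReal

noncomputable def cay (ω z : ℂ) : ℂ := (ω + z) / (ω - z)

noncomputable def cayi (ω W : ℂ) : ℂ := ω * (W - 1) / (W + 1)

section
variable {ω : ℂ} (hω : ‖ω‖ = 1)
include hω

lemma sub_ne {z : ℂ} (hz : z ∈ ball (0:ℂ) 1) : ω - z ≠ 0 := by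
  intro h
  rw [sub_eq_zero.1 h] at hω
  simp [hω] at hz

lemma cay_re {z : ℂ} (hz : z ∈ ball (0:ℂ) 1) :
    (cay ω z).re = (1 - ‖z‖ ^ 2) / ‖ω - z‖ ^ 2 := by
  have h1 : ω.re ^ 2 + ω.im ^ 2 = 1 := by
    have := Complex.sq_norm ω
    rw [hω, Complex.normSq_apply] at this; nlinarith
  have h2 : normSq (ω - z) ≠ 0 := by simpa using sub_ne hω hz
  unfold cay
  rw [Complex.div_re, Complex.sq_norm, Complex.sq_norm, Complex.normSq_apply z]
  simp only [Complex.add_re, Complex.sub_re, Complex.add_im, Complex.sub_im]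
  field_simp
  linarith

lemma cay_mem {z : ℂ} (hz : z ∈ ball (0:ℂ) 1) : cay ω z ∈ HP := by
  show 0 < (cay ω z).re
  rw [cay_re hω hz]
  exact div_pos (one_sub_sq_pos hz) (pow_pos (norm_pos_iff.2 (sub_ne hω hz)) 2)

lemma cayi_cay {z : ℂ} (hz : z ∈ ball (0:ℂ) 1) : cayi ω (cay ω z) = z := by
  have h1 := sub_ne hω hz
  have h2 : ω ≠ 0 := norm_pos_iff.1 (hω ▸ one_pos)
  unfold cayi cay
  have : (ω + z) / (ω - z) + 1 = 2 * ω / (ω - z) := by field_simp; ring
  rw [this]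
  field_simp; ring

omit hω in
lemma add_one_ne {W : ℂ} (hW : W ∈ HP) : W + 1 ≠ 0 := by
  have h1 : 0 < W.re := hW
  exact norm_pos_iff.1 (h1.trans_le re_le_norm_add_one)

lemma one_sub_cayi {W : ℂ} (hW : W ∈ HP) : (1 - ‖cayi ω W‖ ^ 2) * EE W = 1 := by
  have h1 : 0 < W.re := hW
  have h2 : 0 < ‖W + 1‖ := norm_pos_iff.2 (add_one_ne hW)
  have h3 : ‖W + 1‖ ^ 2 - ‖W - 1‖ ^ 2 = 4 * W.re := by
    simp only [Complex.sq_norm, Complex.normSq_apply, Complex.add_re, Complex.sub_re,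
      Complex.add_im, Complex.sub_im, Complex.one_re, Complex.one_im]
    ring
  unfold cayi EE
  rw [norm_div, norm_mul, hω, one_mul]
  field_simp
  linarith

lemma cayi_mem {W : ℂ} (hW : W ∈ HP) : cayi ω W ∈ ball (0:ℂ) 1 := by
  have h1 := one_sub_cayi hω hW
  have h2 := one_le_EE hW
  rw [mem_ball_zero_iff]
  by_contra h
  have h3 : 1 ≤ ‖cayi ω W‖ ^ 2 := one_le_pow₀ (not_lt.1 h)
  nlinarith

lemma cay_cayi {W : ℂ} (hW : W ∈ HP) : cay ω (cayi ω W) = W := by
  have h1 := add_one_ne hW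
  have h2 : ω ≠ 0 := norm_pos_iff.1 (hω ▸ one_pos)
  unfold cayi cay
  have : ω - ω * (W - 1) / (W + 1) = 2 * ω / (W + 1) := by field_simp; ring
  rw [this]
  field_simp; ring

lemma pdist_cayi {W V : ℂ} (hW : W ∈ HP) (hV : V ∈ HP) :
    pdist (cayi ω W) (cayi ω V) = hd W V := by
  have h1 := add_one_ne hW
  have h2 := add_one_ne hV
  have h3 : conj W + 1 ≠ 0 := by
    intro h; apply h1; simpa using congrArg conj h
  have h4 : conj ω * ω = 1 := by rw [Complex.conj_mul', hω]; simp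
  have h5 : V + conj W ≠ 0 := norm_pos_iff.1 (norm_add_conj_pos hW hV)
  have h6 : ‖conj W + 1‖ = ‖W + 1‖ := by
    rw [← Complex.norm_conj]; simp
  have e1 : cayi ω V - cayi ω W = ω * (2 * (V - W)) / ((W + 1) * (V + 1)) := by
    unfold cayi; field_simp; ring
  have e2 : 1 - conj (cayi ω W) * cayi ω V = 2 * (V + conj W) / ((conj W + 1) * (V + 1)) := by
    unfold cayi
    simp only [map_div₀, map_mul, map_sub, map_add, map_one]
    field_simp
    linear_combination (-(conj W - 1) * (V - 1)) * h4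
  unfold pdist hd
  rw [e1, e2]
  simp only [norm_div, norm_mul, hω, h6]
  have := norm_pos_iff.2 h1
  have := norm_pos_iff.2 h2
  have := norm_pos_iff.2 h5
  field_simp

lemma cay_diff : DifferentiableOn ℂ (cay ω) (ball 0 1) :=
  DifferentiableOn.div (by fun_prop) (by fun_prop) fun _ hz => sub_ne hω hz

omit hω in
lemma cayi_diff : DifferentiableOn ℂ (cayi ω) HP :=
  DifferentiableOn.div (by fun_prop) (by fun_prop) fun _ hz => add_one_ne hz

end

lemma iter_diff {φ : ℂ → ℂ} (hd : DifferentiableOn ℂ φ (ball 0 1))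
    (hm : MapsTo φ (ball 0 1) (ball 0 1)) (n : ℕ) : DifferentiableOn ℂ φ^[n] (ball 0 1) := by
  induction n with
  | zero => exact differentiableOn_id
  | succ n ih => rw [Function.iterate_succ']; exact hd.comp ih (hm.iterate n)

lemma exists_sq_bound {f : ℂ → ℂ} (hf : InH2 f) :
    ∃ A : ℝ, 0 ≤ A ∧ hardyNormSq f ≤ ENNReal.ofReal (A ^ 2) :=
  ⟨√(hardyNormSq f).toReal, Real.sqrt_nonneg _, by
    rw [Real.sq_sqrt ENNReal.toReal_nonneg, ENNReal.ofReal_toReal hf.2.ne]⟩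

lemma eval_le' {f : ℂ → ℂ} (hf : DifferentiableOn ℂ f (ball 0 1)) {K : ℝ} (hK : 0 ≤ K)
    (h : hardyNormSq f ≤ ENNReal.ofReal (K ^ 2)) {z : ℂ} (hz : z ∈ ball (0:ℂ) 1) :
    ‖f z‖ ≤ K * √(1 - ‖z‖ ^ 2)⁻¹ := by
  have h1 := eval_le hf h hz
  have h2 := one_sub_sq_pos hz
  rw [← Real.sqrt_sq hK, ← Real.sqrt_mul (by positivity)]
  refine Real.le_sqrt_of_sq_le ?_
  rw [← div_eq_mul_inv, le_div_iff₀ h2]
  exact h1

/-- along the orbit of a point the values of a hypercyclic vector are dense -/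
lemma orbit_unbounded {φ : ℂ → ℂ} (hd : DifferentiableOn ℂ φ (ball 0 1))
    (hm : MapsTo φ (ball 0 1) (ball 0 1)) (hc : Hypercyclic φ) {a : ℂ} (ha : a ∈ ball (0:ℂ) 1)
    (R : ℝ) : ∃ n, R < (1 - ‖φ^[n] a‖ ^ 2)⁻¹ := by
  obtain ⟨f, hf, hden⟩ := hc
  obtain ⟨A, hA, hfA⟩ := exists_sq_bound hf
  by_contra hcon
  push Not at hcon
  set L : ℝ := A * √R + √(1 - ‖a‖ ^ 2)⁻¹ + 1 with hL
  obtain ⟨n, hn⟩ := hden (fun _ => (L : ℂ)) (inH2_of_bdd (K := ‖(L:ℂ)‖) (by fun_prop)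
    fun _ _ => le_rfl) 1 one_pos
  have h1 := eval_le' (K := 1) ((hf.1.comp (iter_diff hd hm n) (hm.iterate n)).sub
    (differentiableOn_const (L:ℂ))) zero_le_one (by rw [one_pow, ENNReal.ofReal_one]; exact hn.le) ha
  have h2 := eval_le' hf.1 hA hfA (hm.iterate n ha)
  have h3 : A * √(1 - ‖φ^[n] a‖ ^ 2)⁻¹ ≤ A * √R := by gcongr; exact hcon n
  have h4 := norm_sub_norm_le (L:ℂ) (f (φ^[n] a))
  rw [norm_sub_rev, Complex.norm_real, Real.norm_eq_abs, abs_of_pos (by positivity)] at h4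
  simp only [Pi.sub_apply, Function.comp, one_mul] at h1
  linarith

theorem thmA {φ : ℂ → ℂ} (hφ : DifferentiableOn ℂ φ (ball 0 1))
    (hm : MapsTo φ (ball 0 1) (ball 0 1)) (hc : Hypercyclic φ) {a : ℂ} (ha : a ∈ ball (0:ℂ) 1)
    (M : ℝ) : ∃ n : ℕ,
      M < pdist (φ^[n] a) (φ^[n + 1] a) * Real.log (1 - ‖φ^[n] a‖ ^ 2) ^ 2 := by
  by_contra hcon
  push Not at hcon
  have hfix : ∀ z ∈ ball (0:ℂ) 1, φ z ≠ z := by
    intro z hz h
    obtain ⟨n, hn⟩ := orbit_unbounded hφ hm hc hz (1 - ‖z‖ ^ 2)⁻¹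
    rw [Function.iterate_fixed h] at hn
    exact lt_irrefl _ hn
  obtain ⟨ω, hω, hJ⟩ := wolff hφ hm hfix
  set Φ : ℂ → ℂ := fun W => cay ω (φ (cayi ω W)) with hΦdef
  have hΦ : DifferentiableOn ℂ Φ HP :=
    (cay_diff hω).comp (hφ.comp cayi_diff fun W hW => cayi_mem hω hW)
      fun W hW => hm (cayi_mem hω hW)
  have hre : ∀ W ∈ HP, W.re ≤ (Φ W).re := by
    intro W hW
    have hz := cayi_mem hω hW
    conv_lhs => rw [← cay_cayi hω hW]
    simp only [hΦdef]
    rw [cay_re hω hz, cay_re hω (hm hz),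
      div_le_div_iff₀ (pow_pos (norm_pos_iff.2 (sub_ne hω hz)) 2)
        (pow_pos (norm_pos_iff.2 (sub_ne hω (hm hz))) 2)]
    exact hJ _ hz
  set z : ℕ → ℂ := fun n => φ^[n] a with hz
  have hzm : ∀ n, z n ∈ ball (0:ℂ) 1 := fun n => hm.iterate n ha
  have hzs : ∀ n, z (n + 1) = φ (z n) := fun n => Function.iterate_succ_apply' _ _ _
  set W0 := cay ω a with hW0
  have h0 : W0 ∈ HP := cay_mem hω ha
  have hW : ∀ n, Φ^[n] W0 = cay ω (z n) := by
    intro n
    induction n with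
    | zero => rfl
    | succ n ih =>
      rw [Function.iterate_succ_apply', ih, hzs]
      simp only [hΦdef, cayi_cay hω (hzm n)]
  have hhd : ∀ n, hd (Φ^[n] W0) (Φ^[n + 1] W0) = pdist (z n) (z (n + 1)) := by
    intro n
    rw [hW, hW, ← pdist_cayi hω (cay_mem hω (hzm _)) (cay_mem hω (hzm _)), cayi_cay hω (hzm _),
      cayi_cay hω (hzm _)]
  have hEE : ∀ w ∈ ball (0:ℂ) 1, EE (cay ω w) = (1 - ‖w‖ ^ 2)⁻¹ := by
    intro w hw
    have := one_sub_cayi hω (cay_mem hω hw)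
    rw [cayi_cay hω hw] at this
    exact eq_inv_of_mul_eq_one_right this
  have hanti : Antitone fun n => pdist (z n) (z (n + 1)) := by
    refine antitone_nat_of_succ_le fun n => ?_
    have := schwarz_pick hφ hm (hzm n) (hzm (n + 1))
    rwa [← hzs, ← hzs] at this
  have hlim : Tendsto (fun n => hd (Φ^[n] W0) (Φ^[n + 1] W0)) atTop (𝓝 0) := by
    simp only [hhd]
    refine tendsto_order.2 ⟨fun b hb => Eventually.of_forall fun n =>
      hb.trans_le (pdist_nonneg _ _), fun b hb => ?_⟩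
    obtain ⟨n, hn⟩ := orbit_unbounded hφ hm hc ha (Real.exp (|M| / b + 1))
    have h1 : |M| / b + 1 < -Real.log (1 - ‖z n‖ ^ 2) := by
      rw [← Real.log_inv]
      exact (Real.lt_log_iff_exp_lt (inv_pos.2 (one_sub_sq_pos (hzm n)))).2 hn
    have h2 : pdist (z n) (z (n + 1)) < b := by
      by_contra h
      have h3 := hcon n
      have h4 : 0 ≤ |M| / b := by positivity
      have h5 : |M| / b + 1 ≤ Real.log (1 - ‖z n‖ ^ 2) ^ 2 := by nlinarith
      have h6 : b * (|M| / b + 1) ≤ pdist (z n) (z (n + 1)) * Real.log (1 - ‖z n‖ ^ 2) ^ 2 :=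
        mul_le_mul (not_lt.1 h) h5 (by positivity) (pdist_nonneg _ _)
      have h7 : b * (|M| / b + 1) = |M| + b := by field_simp
      have := le_abs_self M
      change pdist (z n) (z (n + 1)) * Real.log (1 - ‖z n‖ ^ 2) ^ 2 ≤ M at h3
      linarith
    filter_upwards [eventually_ge_atTop n] with m hm' using (hanti hm').trans_lt h2
  obtain ⟨K, hK⟩ := core hΦ hre h0 (M := M) (s0 := pdist (z 0) (z 1))
    (pdist_lt_one (hzm 0) (hzm 1)) (fun n => by rw [hhd]; exact hanti (Nat.zero_le n))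
    (fun n => by
      rw [hhd, hW, hEE _ (hzm n), Real.log_inv, neg_sq]; exact hcon n) hlim
  obtain ⟨N0, hN0⟩ := eventually_atTop.1 hK
  have hne : Φ W0 ≠ W0 := by
    intro h
    have h1 := hW 1
    rw [Function.iterate_one, h] at h1
    have h2 := congrArg (cayi ω) h1
    rw [cayi_cay hω ha, cayi_cay hω (hzm 1)] at h2
    exact hfix a ha h2.symm
  have hgap := peak_gap hΦ hre h0 hne hlim
  have hx0 : 0 < W0.re := h0
  have hmΦ : MapsTo Φ HP HP := fun W hW => lt_of_lt_of_le (show 0 < W.re from hW) (hre W hW)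
  have hmono : ∀ j, (Φ W0).re ≤ (Φ^[j + 1] W0).re := by
    intro j
    induction j with
    | zero => simp
    | succ j ih =>
      rw [Function.iterate_succ_apply']
      exact ih.trans (hre _ (hmΦ.iterate _ h0))
  set κ : ℝ := 2 * W0.re / ((Φ W0).re + W0.re) with hκ
  have hκ0 : 0 ≤ κ := by have : 0 < (Φ W0).re := hmΦ h0
                         positivity
  have hκ1 : κ < 1 := by rw [hκ, div_lt_one (by linarith)]; linarith
  have hK0 : 0 ≤ K := by
    obtain ⟨q, -, h, -⟩ := hN0 N0 le_rfl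
    exact le_trans (Finset.sum_nonneg fun _ _ => by positivity) h
  obtain ⟨m, hmκ⟩ : ∃ m : ℕ, κ ^ m < 1 / (2 * (K + 1)) := exists_pow_lt_of_lt_one (by positivity) hκ1
  obtain ⟨f, hf, hden⟩ := hc
  obtain ⟨A, hA, hfA⟩ := exists_sq_bound hf
  set S : ℝ := ∑ n ∈ Finset.range N0, ‖f (z n)‖ with hS
  have hS0 : 0 ≤ S := Finset.sum_nonneg fun _ _ => norm_nonneg _
  set L : ℝ := S + √(1 - ‖a‖ ^ 2)⁻¹ + 2 * (K * A + K) + 1 with hL
  have hL0 : 0 < L := by positivity
  set g : ℂ → ℂ := fun w => (L:ℂ) * (((2 * W0.re : ℝ) : ℂ) / (cay ω w + conj W0)) ^ m with hg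
  have hgn : ∀ w ∈ ball (0:ℂ) 1, ∀ t : ℝ, 0 ≤ t → t ≤ (cay ω w).re →
      ‖g w‖ ≤ L * (2 * W0.re / (t + W0.re)) ^ m := by
    intro w hw t ht0 ht
    simp only [hg, norm_mul, norm_pow, norm_div, Complex.norm_real, Real.norm_eq_abs]
    rw [abs_of_pos hL0, abs_of_pos two_pos, abs_of_pos hx0]
    gcongr
    have := Complex.re_le_norm (cay ω w + conj W0)
    simp only [Complex.add_re, Complex.conj_re] at this
    linarith
  have hgd : DifferentiableOn ℂ g (ball 0 1) := by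
    refine DifferentiableOn.const_mul (DifferentiableOn.pow (DifferentiableOn.div (by fun_prop)
      ((cay_diff hω).add_const _) fun w hw => ?_) _) _
    exact norm_pos_iff.1 (norm_add_conj_pos h0 (cay_mem hω hw))
  have hgH : InH2 g := inH2_of_bdd hgd fun w hw => hgn w hw 0 le_rfl (le_of_lt (cay_mem hω hw))
  have hga : g a = L := by
    simp only [hg]
    rw [← hW0, Complex.add_conj, div_self (by exact_mod_cast (by positivity : 2 * W0.re ≠ 0))]
    simp
  obtain ⟨n, hn⟩ := hden g hgH 1 one_pos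
  have herr : ∀ w ∈ ball (0:ℂ) 1, ‖f (φ^[n] w) - g w‖ ≤ √(1 - ‖w‖ ^ 2)⁻¹ := by
    intro w hw
    have := eval_le' (K := 1) ((hf.1.comp (iter_diff hφ hm n) (hm.iterate n)).sub hgd)
      zero_le_one (by rw [one_pow, ENNReal.ofReal_one]; exact hn.le) hw
    simpa using this
  have hnN : N0 ≤ n := by
    by_contra h
    have h1 : ‖f (z n)‖ ≤ S := Finset.single_le_sum (f := fun n => ‖f (z n)‖)
      (fun _ _ => norm_nonneg _) (Finset.mem_range.2 (not_le.1 h))
    have h2 := herr a ha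
    rw [hga] at h2
    have h4 := norm_sub_norm_le (L:ℂ) (f (φ^[n] a))
    rw [norm_sub_rev, Complex.norm_real, Real.norm_eq_abs, abs_of_pos hL0] at h4
    change ‖f (φ^[n] a)‖ ≤ S at h1
    have : 0 ≤ K * A := by positivity
    linarith
  obtain ⟨q, hq1, hq2, hq3⟩ := hN0 n hnN
  have h1 := hq3 (fun W => f (cayi ω W)) A (hf.1.comp cayi_diff fun W hW => cayi_mem hω hW) hA
    (fun W hW => by
      have := eval_le' hf.1 hA hfA (cayi_mem hω hW)
      rwa [← hEE _ (cayi_mem hω hW), cay_cayi hω hW] at this)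
  simp only [hW, cayi_cay hω (hzm _), hEE _ (hzm _)] at h1 hq2
  have h2 : ‖∑ j ∈ q.support, (q.coeff j : ℂ) * f (z (n + j)) -
      ∑ j ∈ q.support, (q.coeff j : ℂ) * g (z j)‖ ≤ K := by
    rw [← Finset.sum_sub_distrib]
    refine (norm_sum_le _ _).trans (le_trans (Finset.sum_le_sum fun j _ => ?_) hq2)
    rw [← mul_sub, norm_mul, Complex.norm_real, Real.norm_eq_abs]
    gcongr
    have := herr (z j) (hzm j)
    simp only [hz] at this ⊢
    rwa [← Function.iterate_add_apply] at this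
  have h00 : 0 ∈ q.support := by rw [mem_support_iff, hq1]; exact one_ne_zero
  have h3 : ‖∑ j ∈ q.support.erase 0, (q.coeff j : ℂ) * g (z j)‖ ≤ L / 2 := by
    have h4 : ∀ j ∈ q.support.erase 0, ‖(q.coeff j : ℂ) * g (z j)‖ ≤
        (|q.coeff j| * √(1 - ‖z j‖ ^ 2)⁻¹) * (L * κ ^ m) := by
      intro j hj
      obtain ⟨i, rfl⟩ := Nat.exists_eq_succ_of_ne_zero (Finset.ne_of_mem_erase hj)
      rw [norm_mul, Complex.norm_real, Real.norm_eq_abs]
      have h5 := hgn _ (hzm (i + 1)) (Φ W0).re (le_of_lt (hmΦ h0)) (by rw [← hW]; exact hmono i)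
      have h6 : 1 ≤ √(1 - ‖z (i + 1)‖ ^ 2)⁻¹ := by
        rw [← hEE _ (hzm _)]
        exact Real.one_le_sqrt.2 (one_le_EE (cay_mem hω (hzm _)))
      exact mul_le_mul (le_mul_of_one_le_right (abs_nonneg _) h6) h5 (norm_nonneg _)
        (by positivity)
    refine (norm_sum_le _ _).trans ((Finset.sum_le_sum h4).trans ?_)
    rw [← Finset.sum_mul]
    have h5 : ∑ j ∈ q.support.erase 0, |q.coeff j| * √(1 - ‖z j‖ ^ 2)⁻¹ ≤ K :=
      le_trans (Finset.sum_le_sum_of_subset_of_nonneg (Finset.erase_subset _ _)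
        fun _ _ _ => by positivity) hq2
    calc _ ≤ (K + 1) * (L * (1 / (2 * (K + 1)))) := by gcongr; linarith
      _ = L / 2 := by field_simp
  rw [← Finset.add_sum_erase _ (fun j => (q.coeff j : ℂ) * g (z j)) h00] at h2
  have h5 : g (z 0) = L := hga
  simp only [hq1, h5, Complex.ofReal_one, one_mul] at h2
  have h6 : ‖(L:ℂ)‖ = L := by rw [Complex.norm_real, Real.norm_eq_abs, abs_of_pos hL0]
  set X1 := ∑ j ∈ q.support, (q.coeff j : ℂ) * f (z (n + j))
  set X2 := ∑ j ∈ q.support.erase 0, (q.coeff j : ℂ) * g (z j)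
  have h7 : (L:ℂ) = X1 - (X1 - (L + X2)) - X2 := by ring
  have h8 := norm_sub_le (X1 - (X1 - (L + X2))) X2
  have h9 := norm_sub_le X1 (X1 - (L + X2))
  rw [← h7, h6] at h8
  have : 0 ≤ √(1 - ‖a‖ ^ 2)⁻¹ := by positivity
  linarith

end Pool.Agent.Lib.MP_6c91ae_an
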