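import Pool.Agent.Lib.MP_6c91ae_an.Approx
import Pool.Agent.Lib.MP_6c91ae_an.ThmA
import Pool.Agent.Lib.MP_6c91ae_an.FamDef

namespace Pool.Agent.Lib.MP_6c91ae_an

open Metric Complex Set Filter Topology
open scoped Real ENNReal

/-- weighted sup distance bound -/
def Near (f g : ℂ → ℂ) (ε : ℝ) : Prop :=
  ∀ z ∈ ball (0:ℂ) 1, ‖f z - g z‖ * ‖1 - z‖ ^ (1 / 4 : ℝ) ≤ ε

lemma Near.triangle {f g h : ℂ → ℂ} {a b : ℝ} (h1 : Near f g a) (h2 : Near g h b) :
    Near f h (a + b) := fun z hz => by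
  have := norm_sub_le_norm_sub_add_norm_sub (f z) (g z) (h z)
  have h3 : 0 ≤ ‖1 - z‖ ^ (1 / 4 : ℝ) := by positivity
  nlinarith [h1 z hz, h2 z hz]

lemma Near.mono {f g : ℂ → ℂ} {a b : ℝ} (h1 : Near f g a) (h : a ≤ b) : Near f g b :=
  fun z hz => (h1 z hz).trans h

lemma one_sub_norm_pos {z : ℂ} (hz : z ∈ ball (0:ℂ) 1) : 0 < ‖1 - z‖ := by
  have := norm_sub_norm_le (1:ℂ) z
  rw [mem_ball_zero_iff] at hz
  rw [norm_one] at this
  linarith

/-- polynomial with Gaussian rational coefficients -/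
noncomputable def tgt (l : List (ℚ × ℚ)) : Polynomial ℂ :=
  ∑ j ∈ Finset.range l.length,
    Polynomial.monomial j (((l.getD j 0).1 : ℂ) + ((l.getD j 0).2 : ℂ) * I)

lemma exists_tgt {g : ℂ → ℂ} (hg : InH2 g) {ε : ℝ≥0∞} (hε : 0 < ε) :
    ∃ l, hardyNormSq (fun z => (tgt l).eval z - g z) < ε := by
  obtain ⟨η, hη0, hη⟩ : ∃ η : ℝ, 0 < η ∧ ENNReal.ofReal (4 * η) < ε := by
    obtain ⟨r, hr0, hr⟩ := ENNReal.lt_iff_exists_real_btwn.1 hε
    exact ⟨r / 4, by have := ENNReal.ofReal_pos.1 hr.1; positivity, by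
      rw [mul_div_cancel₀ _ (by norm_num)]; exact hr.2⟩
  obtain ⟨N, hN⟩ := exists_trunc hg (ENNReal.ofReal_pos.2 hη0)
  obtain ⟨C, hC0, hC⟩ := hardy_le_of_bound
  set δ : ℝ := √(η / C) / (4 * (N + 1)) with hδ
  have hδ0 : 0 < δ := by positivity
  have hq : ∀ j : ℕ, ∃ q : ℚ × ℚ, ‖((q.1 : ℂ) + (q.2 : ℂ) * I) - tc g j‖ ≤ 2 * δ := by
    intro j
    obtain ⟨a, ha⟩ := exists_rat_near (tc g j).re hδ0
    obtain ⟨b, hb⟩ := exists_rat_near (tc g j).im hδ0
    refine ⟨(a, b), (Complex.norm_le_abs_re_add_abs_im _).trans ?_⟩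
    rw [abs_sub_comm] at ha hb
    simp only [Complex.sub_re, Complex.add_re, Complex.ratCast_re, Complex.mul_re, Complex.I_re,
      mul_zero, Complex.ratCast_im, Complex.I_im, sub_self, add_zero, Complex.sub_im,
      Complex.add_im, Complex.mul_im, mul_one, zero_add]
    linarith
  choose q hq using hq
  refine ⟨(List.range N).map q, ?_⟩
  set T : ℂ → ℂ := fun z => ∑ j ∈ Finset.range N, tc g j * z ^ j with hT
  have h1 : hardyNormSq (fun z => (tgt ((List.range N).map q)).eval z - T z) ≤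
      ENNReal.ofReal η := by
    refine (hC _ √(η / C) (by simp only [hT]; fun_prop) fun z hz => ?_).trans (le_of_eq ?_)
    · have h2 : ‖(tgt ((List.range N).map q)).eval z - T z‖ ≤ N * (2 * δ) := by
        simp only [tgt, hT, List.length_map, List.length_range, Polynomial.eval_finsetSum,
          Polynomial.eval_monomial, ← Finset.sum_sub_distrib]
        refine (norm_sum_le _ _).trans ?_
        refine le_trans (Finset.sum_le_card_nsmul _ _ (2 * δ) fun j hj => ?_) (by simp)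
        have hj' := Finset.mem_range.1 hj
        have : ((List.range N).map q).getD j 0 = q j := by simp [hj']
        rw [this, ← sub_mul, norm_mul, norm_pow]
        exact (mul_le_of_le_one_right (norm_nonneg _) (pow_le_one₀ (norm_nonneg _)
          (mem_ball_zero_iff.1 hz).le)).trans (hq j)
      calc _ ≤ N * (2 * δ) * 2 := by gcongr; exact norm_one_sub_rpow_le hz
        _ ≤ (N + 1) * (2 * δ) * 2 := by gcongr; linarith
        _ = _ := by rw [hδ]; field_simp; norm_num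
    · rw [Real.sq_sqrt (by positivity), mul_div_cancel₀ _ hC0.ne']
  have h2 := hardy_add_le (f := fun z => (tgt ((List.range N).map q)).eval z - T z)
    (g := fun z => T z - g z) (by simp only [hT]; fun_prop)
    (DifferentiableOn.sub (by simp only [hT]; fun_prop) hg.1)
  simp only [sub_add_sub_cancel] at h2
  refine lt_of_le_of_lt (h2.trans ?_) hη
  calc _ ≤ 2 * ENNReal.ofReal η + 2 * ENNReal.ofReal η := by gcongr
    _ = _ := by
      rw [ENNReal.ofReal_mul (by norm_num), ENNReal.ofReal_ofNat]; ring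

lemma hypercyclic_of_step {φ : ℂ → ℂ} (hd : DifferentiableOn ℂ φ (ball 0 1))
    (hm : MapsTo φ (ball 0 1) (ball 0 1))
    (hw : ∀ z ∈ ball (0:ℂ) 1, ‖1 - z‖ ^ (1 / 4 : ℝ) ≤ 2 * ‖1 - φ z‖ ^ (1 / 4 : ℝ))
    (V : Set (ℂ → ℂ)) (hV0 : (fun _ => 0) ∈ V) (hVd : ∀ v ∈ V, DifferentiableOn ℂ v (ball 0 1))
    (hstep : ∀ v ∈ V, ∀ P : Polynomial ℂ, ∀ ε : ℝ, 0 < ε → ∃ n : ℕ, ∃ v' ∈ V,
      Near v' v ε ∧ Near (fun z => v' (φ^[n] z)) (fun z => P.eval z) ε) : Hypercyclic φ := by
  have hLip : ∀ (n : ℕ) (f g : ℂ → ℂ) (a : ℝ), Near f g a →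
      Near (fun z => f (φ^[n] z)) (fun z => g (φ^[n] z)) (2 ^ n * a) := by
    intro n
    induction n with
    | zero => intro f g a h; simpa using h
    | succ n ih =>
      intro f g a h z hz
      have := ih f g a h (φ z) (hm hz)
      simp only [Function.iterate_succ_apply] at this ⊢
      calc _ ≤ ‖f (φ^[n] (φ z)) - g (φ^[n] (φ z))‖ * (2 * ‖1 - φ z‖ ^ (1 / 4 : ℝ)) := by
            gcongr; exact hw z hz
        _ ≤ _ := by rw [pow_succ]; linarith
  obtain ⟨e, he⟩ := exists_surjective_nat (List (ℚ × ℚ))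
  choose! N F hFV hF1 hF2 using hstep
  set tg : ℕ → Polynomial ℂ := fun i => tgt (e (Nat.unpair i).1) with htg
  let st : ℕ → (ℂ → ℂ) × ℝ := fun i => Nat.rec ((fun _ => 0), 1)
    (fun i x => (F x.1 (tg i) x.2, x.2 / (2 * 2 ^ N x.1 (tg i) x.2))) i
  set v : ℕ → ℂ → ℂ := fun i => (st i).1 with hv
  set δ : ℕ → ℝ := fun i => (st i).2 with hδ
  set n : ℕ → ℕ := fun i => N (v i) (tg i) (δ i) with hn
  have hv1 : ∀ i, v (i + 1) = F (v i) (tg i) (δ i) := fun i => rfl
  have hδ1 : ∀ i, δ (i + 1) = δ i / (2 * 2 ^ n i) := fun i => rfl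
  have hinv : ∀ i, v i ∈ V ∧ 0 < δ i := by
    intro i
    induction i with
    | zero => exact ⟨hV0, one_pos⟩
    | succ i ih => exact ⟨hFV _ ih.1 _ _ ih.2, by rw [hδ1]; have := ih.2; positivity⟩
  have hhalf : ∀ i, δ (i + 1) ≤ δ i / 2 := fun i => by
    rw [hδ1]
    exact div_le_div_of_nonneg_left (hinv i).2.le two_pos
      (le_mul_of_one_le_right two_pos.le (one_le_pow₀ one_le_two))
  have hpow : ∀ i, δ i ≤ (1 / 2) ^ i := by
    intro i
    induction i with
    | zero => exact le_of_eq rfl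
    | succ i ih => rw [pow_succ]; linarith [hhalf i]
  have hN1 : ∀ i, Near (v (i + 1)) (v i) (δ i) := fun i => hF1 _ (hinv i).1 _ _ (hinv i).2
  have hN2 : ∀ i, Near (fun z => v (i + 1) (φ^[n i] z)) (fun z => (tg i).eval z) (δ i) :=
    fun i => hF2 _ (hinv i).1 _ _ (hinv i).2
  have hN3 : ∀ i k, Near (v (i + k)) (v i) (2 * δ i - 2 * δ (i + k)) := by
    intro i k
    induction k with
    | zero => intro z _; simp
    | succ k ih =>
      refine ((hN1 (i + k)).triangle ih).mono ?_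
      have := hhalf (i + k)
      rw [← add_assoc]; linarith
  set f : ℂ → ℂ := fun z => ∑' i, (v (i + 1) z - v i z) with hf
  have hbd : ∀ r : ℝ, r < 1 → ∀ i, ∀ z ∈ ball (0:ℂ) r,
      ‖v (i + 1) z - v i z‖ ≤ (1 / 2) ^ i / (1 - r) ^ (1 / 4 : ℝ) := by
    intro r hr i z hz
    have h1 := hN1 i z (ball_subset_ball hr.le hz)
    have h2 : 1 - r ≤ ‖1 - z‖ := by
      have := norm_sub_norm_le (1:ℂ) z
      rw [mem_ball_zero_iff] at hz
      rw [norm_one] at this
      linarith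
    have h3 : 0 < 1 - r := by linarith
    rw [le_div_iff₀ (by positivity)]
    exact le_trans (by gcongr) (h1.trans (hpow i))
  have hsum : ∀ r : ℝ, Summable fun i : ℕ => ((1:ℝ) / 2) ^ i / (1 - r) ^ (1 / 4 : ℝ) :=
    fun r => summable_geometric_two.div_const _
  have hfd : DifferentiableOn ℂ f (ball 0 1) := by
    intro z hz
    obtain ⟨r, hr1, hr2⟩ := exists_between (mem_ball_zero_iff.1 hz)
    have := Complex.differentiableOn_tsum_of_summable_norm (hsum r)
      (fun i => ((hVd _ (hinv (i + 1)).1).sub (hVd _ (hinv i).1)).mono (ball_subset_ball hr2.le))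
      isOpen_ball (hbd r hr2)
    exact (this.differentiableAt (isOpen_ball.mem_nhds
      (mem_ball_zero_iff.2 hr1))).differentiableWithinAt
  have hlim : ∀ z ∈ ball (0:ℂ) 1, Tendsto (fun i => v i z) atTop (𝓝 (f z)) := by
    intro z hz
    obtain ⟨r, hr1, hr2⟩ := exists_between (mem_ball_zero_iff.1 hz)
    have h1 := (Summable.of_norm_bounded (hsum r)
      fun i => hbd r hr2 i z (mem_ball_zero_iff.2 hr1)).hasSum.tendsto_sum_nat
    simp only [Finset.sum_range_sub (fun i => v i z)] at h1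
    have h2 : v 0 z = 0 := rfl
    simpa only [h2, sub_zero] using h1
  have hN4 : ∀ i, Near f (v i) (2 * δ i) := by
    intro i z hz
    have h1 := (((hlim z hz).comp (tendsto_add_atTop_nat i)).sub_const (v i z)).norm.mul_const
      (‖1 - z‖ ^ (1 / 4 : ℝ))
    refine le_of_tendsto' h1 fun k => ?_
    have := hN3 i k z hz
    simp only [Function.comp, add_comm k i]
    linarith [(hinv (i + k)).2]
  have hN5 : ∀ i, Near (fun z => f (φ^[n i] z)) (fun z => (tg i).eval z) (2 * (1 / 2) ^ i) := by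
    intro i
    refine ((hLip (n i) _ _ _ (hN4 (i + 1))).triangle (hN2 i)).mono ?_
    have : 2 ^ n i * (2 * δ (i + 1)) = δ i := by rw [hδ1]; field_simp
    linarith [hpow i]
  refine ⟨f, inH2_of_weighted hfd (K := 2 * δ 0) fun z hz => by
    have := hN4 0 z hz
    rwa [show v 0 z = 0 from rfl, sub_zero] at this, ?_⟩
  intro g hg ε hε
  obtain ⟨η, hη0, hη⟩ : ∃ η : ℝ, 0 < η ∧ ENNReal.ofReal (4 * η) < ε := by
    obtain ⟨r, hr0, hr⟩ := ENNReal.lt_iff_exists_real_btwn.1 hε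
    exact ⟨r / 4, by have := ENNReal.ofReal_pos.1 hr.1; positivity, by
      rw [mul_div_cancel₀ _ (by norm_num)]; exact hr.2⟩
  obtain ⟨l, hl⟩ := exists_tgt hg (ENNReal.ofReal_pos.2 hη0)
  obtain ⟨a, rfl⟩ := he l
  obtain ⟨C, hC0, hC⟩ := hardy_le_of_bound
  obtain ⟨j, hj⟩ := exists_pow_lt_of_lt_one (show 0 < √(η / C) / 2 by positivity)
    (show (1 / 2 : ℝ) < 1 by norm_num)
  set i := Nat.pair a j with hi
  have htgi : tg i = tgt (e a) := by simp [htg, hi]
  have hd1 : DifferentiableOn ℂ (fun z => f (φ^[n i] z) - (tg i).eval z) (ball 0 1) :=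
    (hfd.comp (iter_diff hd hm _) (hm.iterate _)).sub (by fun_prop)
  have h1 : hardyNormSq (fun z => f (φ^[n i] z) - (tg i).eval z) ≤ ENNReal.ofReal η := by
    refine (hC _ √(η / C) hd1 fun z hz => (hN5 i z hz).trans ?_).trans (le_of_eq ?_)
    · have : ((1:ℝ) / 2) ^ i ≤ (1 / 2) ^ j :=
        pow_le_pow_of_le_one (by norm_num) (by norm_num) (Nat.right_le_pair a j)
      linarith
    · rw [Real.sq_sqrt (by positivity), mul_div_cancel₀ _ hC0.ne']
  refine ⟨n i, ?_⟩
  have h2 := hardy_add_le hd1 (g := fun z => (tg i).eval z - g z)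
    (DifferentiableOn.sub (by fun_prop) hg.1)
  simp only [sub_add_sub_cancel] at h2
  rw [htgi] at h1 h2
  refine lt_of_le_of_lt (h2.trans ?_) hη
  calc _ ≤ 2 * ENNReal.ofReal η + 2 * ENNReal.ofReal η := by gcongr
    _ = _ := by
      rw [ENNReal.ofReal_mul (by norm_num), ENNReal.ofReal_ofNat]; ring

end Pool.Agent.Lib.MP_6c91ae_an
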