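import Mathlib

namespace Pool.Agent.Lib.MP_6c91ae_an

open Polynomial Finset

lemma abs_sin_nat_mul_le (n : ℕ) (θ : ℝ) : |Real.sin (n * θ)| ≤ n * |Real.sin θ| := by
  induction n with
  | zero => simp
  | succ n ih =>
    push_cast
    rw [add_mul, one_mul, Real.sin_add]
    have h1 := abs_add_le (Real.sin (n * θ) * Real.cos θ) (Real.cos (n * θ) * Real.sin θ)
    rw [abs_mul, abs_mul] at h1
    have h2 := Real.abs_cos_le_one θ
    have h3 := Real.abs_cos_le_one (n * θ)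
    have h4 := abs_nonneg (Real.sin (n * θ))
    have h5 := abs_nonneg (Real.sin θ)
    nlinarith

lemma exists_cheb (m N : ℕ) (hN : 0 < N) : ∃ F : ℝ[X], F.natDegree ≤ m ∧ F.eval 0 = 1 ∧
    ∀ l : ℕ, l ≤ N → |F.eval ((l : ℝ) ^ 2)| ≤ 1 ∧ |F.eval ((l : ℝ) ^ 2)| * ((m + 1) * l) ≤ N := by
  have hN' : (0:ℝ) < N := by exact_mod_cast hN
  have hm : (0:ℝ) < m + 1 := by positivity
  refine ⟨C (1 / ((m:ℝ) + 1)) * (Chebyshev.U ℝ m).comp (C 1 - C (1 / (N:ℝ) ^ 2) * X), ?_, ?_, ?_⟩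
  · refine (natDegree_C_mul_le _ _).trans (natDegree_comp_le.trans ?_)
    rw [Chebyshev.natDegree_U_natCast]
    have : (C 1 - C (1 / (N:ℝ) ^ 2) * X : ℝ[X]).natDegree ≤ 1 := by compute_degree
    calc _ ≤ m * 1 := Nat.mul_le_mul_left _ this
      _ = m := by simp
  · simp only [eval_mul, eval_C, eval_comp, eval_sub, eval_X, mul_zero, sub_zero,
      Chebyshev.U_eval_one]
    push_cast
    field_simp
  · intro l hl
    simp only [eval_mul, eval_C, eval_comp, eval_sub, eval_X]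
    have hl' : (l:ℝ) ≤ N := by exact_mod_cast hl
    have hl0 : (0:ℝ) ≤ l := by positivity
    set y : ℝ := 1 - 1 / (N:ℝ) ^ 2 * (l:ℝ) ^ 2 with hy
    have ht : 1 / (N:ℝ) ^ 2 * (l:ℝ) ^ 2 = (l / N) ^ 2 := by field_simp
    have ht1 : (l:ℝ) / N ≤ 1 := (div_le_one hN').2 hl'
    have ht0 : 0 ≤ (l:ℝ) / N := by positivity
    have hy0 : 0 ≤ y := by rw [hy, ht]; nlinarith
    have hy1 : y ≤ 1 := by rw [hy, ht]; nlinarith
    have hc : Real.cos (Real.arccos y) = y := Real.cos_arccos (by linarith) hy1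
    have hs : (l:ℝ) / N ≤ Real.sin (Real.arccos y) := by
      rw [Real.sin_arccos]
      refine Real.le_sqrt_of_sq_le ?_
      have : 1 - y = (l / N) ^ 2 := by rw [hy, ht]; ring
      nlinarith
    have hU := Chebyshev.U_real_cos (Real.arccos y) (m : ℤ)
    rw [hc] at hU
    have hU' : |(Chebyshev.U ℝ m).eval y| * Real.sin (Real.arccos y) =
        |Real.sin (((m + 1 : ℕ) : ℝ) * Real.arccos y)| := by
      rw [← abs_of_nonneg (ht0.trans hs), ← abs_mul, hU]
      push_cast; rfl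
    rw [abs_mul, abs_of_pos (by positivity : (0:ℝ) < 1 / ((m:ℝ) + 1))]
    constructor
    · rcases eq_or_lt_of_le hl0 with h0 | h0
      · have : y = 1 := by rw [hy, ← h0]; simp
        rw [this, Chebyshev.U_eval_one]
        push_cast
        rw [abs_of_pos hm]; field_simp; rfl
      · have hs0 : 0 < Real.sin (Real.arccos y) := lt_of_lt_of_le (by positivity) hs
        have h1 := abs_sin_nat_mul_le (m + 1) (Real.arccos y)
        rw [← hU', abs_of_pos hs0] at h1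
        have h2 := le_of_mul_le_mul_right h1 hs0
        push_cast at h2
        rw [one_div, inv_mul_le_iff₀ hm]; linarith
    · have h1 := Real.abs_sin_le_one (((m + 1 : ℕ) : ℝ) * Real.arccos y)
      rw [← hU'] at h1
      have h2 : |(Chebyshev.U ℝ m).eval y| * (l / N) ≤ 1 := le_trans (by gcongr) h1
      calc _ = |(Chebyshev.U ℝ m).eval y| * (l / N) * N := by field_simp
        _ ≤ 1 * N := by gcongr
        _ = N := one_mul _

lemma exists_bound_pow (a b : ℝ) (ha : 0 < a) (hb : 0 ≤ b) :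
    ∃ C : ℝ, ∀ i : ℕ, b * 4 ^ i - a * 5 ^ i ≤ C := by
  obtain ⟨i0, hi0⟩ := pow_unbounded_of_one_lt (b / a) (show (1:ℝ) < 5 / 4 by norm_num)
  refine ⟨b * 4 ^ i0, fun i => ?_⟩
  rcases le_total i i0 with h | h
  · have : (4:ℝ) ^ i ≤ 4 ^ i0 := pow_le_pow_right₀ (by norm_num) h
    have : b * 4 ^ i ≤ b * 4 ^ i0 := by gcongr
    have : 0 ≤ a * 5 ^ i := by positivity
    linarith
  · have h1 : ((5:ℝ) / 4) ^ i0 ≤ (5 / 4) ^ i := pow_le_pow_right₀ (by norm_num) h
    have h2 : b / a ≤ (5 / 4) ^ i := by linarith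
    rw [div_pow, div_le_div_iff₀ ha (by positivity)] at h2
    have : 0 ≤ b * 4 ^ i0 := by positivity
    linarith

lemma exists_ingham (B : ℝ) (hB : 0 ≤ B) : ∃ K : ℝ, ∀ N : ℕ, 0 < N → ∃ P : ℝ[X],
    2 * P.natDegree ≤ N ∧ P.eval 0 = 1 ∧ ∀ l : ℕ, l ≤ N →
      |P.eval ((l : ℝ) ^ 2)| * Real.exp (B * ((l ^ 2 : ℕ) : ℝ) ^ (1 / 3 : ℝ)) * (l + 1) ^ 2 ≤ K := by
  obtain ⟨C0, hC0⟩ := exists_bound_pow (Real.log 2) (21 * B + 1) (Real.log_pos one_lt_two)
    (by positivity)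
  refine ⟨max (Real.exp (B * 6) * 144) (55296 * Real.exp C0), fun N hN => ?_⟩
  choose F hF1 hF2 hF3 using fun m => exists_cheb m N hN
  refine ⟨∏ i ∈ range (N + 1), F (N / (6 * 8 ^ i)) ^ (5 ^ i), ?_, ?_, ?_⟩
  · have h1 : (∏ i ∈ range (N + 1), F (N / (6 * 8 ^ i)) ^ (5 ^ i)).natDegree ≤
        ∑ i ∈ range (N + 1), 5 ^ i * (N / (6 * 8 ^ i)) := by
      refine (natDegree_prod_le _ _).trans (sum_le_sum fun i _ => ?_)
      exact natDegree_pow_le.trans (Nat.mul_le_mul_left _ (hF1 _))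
    have h2 : ((∑ i ∈ range (N + 1), 5 ^ i * (N / (6 * 8 ^ i)) : ℕ) : ℝ) ≤
        ∑ i ∈ range (N + 1), (N:ℝ) / 6 * (5 / 8) ^ i := by
      push_cast
      refine sum_le_sum fun i _ => ?_
      have := Nat.cast_div_le (α := ℝ) (m := N) (n := 6 * 8 ^ i)
      push_cast at this
      calc (5:ℝ) ^ i * ((N / (6 * 8 ^ i) : ℕ) : ℝ) ≤ 5 ^ i * (N / (6 * 8 ^ i)) := by gcongr
        _ = _ := by rw [div_pow]; field_simp
    rw [← mul_sum] at h2
    have h3 : ∑ i ∈ range (N + 1), ((5:ℝ) / 8) ^ i ≤ 8 / 3 := by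
      have := geom_sum_mul_neg ((5:ℝ) / 8) (N + 1)
      have h : 0 ≤ ((5:ℝ) / 8) ^ (N + 1) := by positivity
      linarith
    have h4 : ((∏ i ∈ range (N + 1), F (N / (6 * 8 ^ i)) ^ (5 ^ i)).natDegree : ℝ) ≤
        (N:ℝ) / 6 * (8 / 3) := by
      refine le_trans (by exact_mod_cast h1) (h2.trans (by gcongr))
    have h5 : (0:ℝ) ≤ N := by positivity
    have : ((2 * (∏ i ∈ range (N + 1), F (N / (6 * 8 ^ i)) ^ (5 ^ i)).natDegree : ℕ) : ℝ) ≤ N := by
      push_cast; linarith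
    exact_mod_cast this
  · simp [eval_prod, hF2]
  · intro l hl
    have hprod : ∀ i0 ∈ range (N + 1), |(∏ i ∈ range (N + 1),
        F (N / (6 * 8 ^ i)) ^ (5 ^ i)).eval ((l:ℝ) ^ 2)| ≤
        |(F (N / (6 * 8 ^ i0))).eval ((l:ℝ) ^ 2)| ^ (5 ^ i0) := by
      intro i0 hi0
      rw [eval_prod, abs_prod, ← mul_prod_erase _ _ hi0, eval_pow, abs_pow]
      refine mul_le_of_le_one_right (by positivity) (prod_le_one (fun _ _ => abs_nonneg _) ?_)
      intro i _
      rw [eval_pow, abs_pow]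
      exact pow_le_one₀ (abs_nonneg _) (hF3 _ l hl).1
    rcases lt_or_ge l 12 with h12 | h12
    · refine le_trans ?_ (le_max_left _ _)
      have h1 := (hprod 0 (by simp)).trans (pow_le_one₀ (abs_nonneg _) (hF3 _ l hl).1)
      have h2 : ((l ^ 2 : ℕ) : ℝ) ^ (1 / 3 : ℝ) ≤ 6 := by
        have : ((l ^ 2 : ℕ) : ℝ) ≤ 6 ^ 3 := by
          have : l ^ 2 ≤ 6 ^ 3 := by nlinarith
          exact_mod_cast this
        calc _ ≤ ((6:ℝ) ^ 3) ^ (1 / 3 : ℝ) := by gcongr
          _ = 6 := by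
            rw [show (1 / 3 : ℝ) = ((3 : ℕ) : ℝ)⁻¹ by norm_num,
              Real.pow_rpow_inv_natCast (by norm_num) (by norm_num)]
      have h3 : ((l:ℝ) + 1) ^ 2 ≤ 144 := by
        have : (l:ℝ) + 1 ≤ 12 := by exact_mod_cast h12
        have h0 : (0:ℝ) ≤ l + 1 := by positivity
        nlinarith
      calc _ ≤ 1 * Real.exp (B * 6) * 144 := by gcongr
        _ = _ := by ring
    · refine le_trans ?_ (le_max_right _ _)
      set i := Nat.log 8 (l / 12) with hi
      have hi1 : 8 ^ i ≤ l / 12 := Nat.pow_log_le_self 8 (by omega)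
      have hi2 : l / 12 < 8 ^ (i + 1) := Nat.lt_pow_succ_log_self (by norm_num) _
      have hi3 : 12 * 8 ^ i ≤ l := by omega
      have hi4 : l + 1 ≤ 96 * 8 ^ i := by rw [pow_succ] at hi2; omega
      have hiN : i ∈ range (N + 1) := by
        have := Nat.lt_pow_self (n := i) (show 1 < 8 by norm_num)
        rw [mem_range]; omega
      have hi3' : (12:ℝ) * 8 ^ i ≤ l := by exact_mod_cast hi3
      have hi4' : (l:ℝ) + 1 ≤ 96 * 8 ^ i := by exact_mod_cast hi4
      have h1 : |(F (N / (6 * 8 ^ i))).eval ((l:ℝ) ^ 2)| ≤ 1 / 2 := by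
        have h := (hF3 (N / (6 * 8 ^ i)) l hl).2
        have h' : N < (N / (6 * 8 ^ i) + 1) * (6 * 8 ^ i) := by
          have := Nat.lt_div_mul_add (a := N) (b := 6 * 8 ^ i) (by positivity)
          rw [add_mul, one_mul]; exact this
        have h'' : (N:ℝ) ≤ (((N / (6 * 8 ^ i) : ℕ) : ℝ) + 1) * (6 * 8 ^ i) := by
          exact_mod_cast h'.le
        have h8 : (0:ℝ) < 8 ^ i := by positivity
        have hm : (0:ℝ) < ((N / (6 * 8 ^ i) : ℕ) : ℝ) + 1 := by positivity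
        have ha := abs_nonneg ((F (N / (6 * 8 ^ i))).eval ((l:ℝ) ^ 2))
        have h3 : |(F (N / (6 * 8 ^ i))).eval ((l:ℝ) ^ 2)| *
            ((((N / (6 * 8 ^ i) : ℕ) : ℝ) + 1) * (12 * 8 ^ i)) ≤
            (((N / (6 * 8 ^ i) : ℕ) : ℝ) + 1) * (6 * 8 ^ i) := le_trans (by gcongr) (h.trans h'')
        by_contra hcon
        push Not at hcon
        have := mul_lt_mul_of_pos_right hcon (mul_pos hm (mul_pos (by norm_num : (0:ℝ) < 12) h8))
        nlinarith
      have h2 := (hprod i hiN).trans (pow_le_pow_left₀ (abs_nonneg _) h1 _)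
      have h3 : ((l ^ 2 : ℕ) : ℝ) ^ (1 / 3 : ℝ) ≤ 21 * 4 ^ i := by
        have : ((l ^ 2 : ℕ) : ℝ) ≤ (21 * 4 ^ i) ^ 3 := by
          push_cast
          have h0 : (0:ℝ) ≤ l := by positivity
          calc (l:ℝ) ^ 2 ≤ (96 * 8 ^ i) ^ 2 := by gcongr; linarith
            _ = 9216 * (4 ^ i) ^ 3 := by
              rw [mul_pow, ← pow_mul, ← pow_mul, mul_comm i 2, mul_comm i 3, pow_mul, pow_mul]
              norm_num
            _ ≤ _ := by
              have : (0:ℝ) ≤ (4 ^ i) ^ 3 := by positivity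
              rw [mul_pow]; nlinarith
        calc _ ≤ ((21 * 4 ^ i : ℝ) ^ 3) ^ (1 / 3 : ℝ) := by gcongr
          _ = _ := by
            rw [show (1 / 3 : ℝ) = ((3 : ℕ) : ℝ)⁻¹ by norm_num,
              Real.pow_rpow_inv_natCast (by positivity) (by norm_num)]
      have h4 : ((l:ℝ) + 1) ^ 2 ≤ 55296 * Real.exp (4 ^ i) := by
        have h5 := Real.pow_div_factorial_le_exp (x := (4:ℝ) ^ i) (by positivity) 3
        norm_num [Nat.factorial] at h5
        calc ((l:ℝ) + 1) ^ 2 ≤ (96 * 8 ^ i) ^ 2 := by gcongr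
          _ = 9216 * (4 ^ i) ^ 3 := by
              rw [mul_pow, ← pow_mul, ← pow_mul, mul_comm i 2, mul_comm i 3, pow_mul, pow_mul]
              norm_num
          _ ≤ _ := by linarith
      have h5 : ((1:ℝ) / 2) ^ (5 ^ i) = Real.exp (-(Real.log 2 * 5 ^ i)) := by
        rw [Real.exp_neg, mul_comm, show ((5:ℝ) ^ i) = ((5 ^ i : ℕ) : ℝ) by push_cast; rfl,
          Real.exp_nat_mul, Real.exp_log (by norm_num), one_div, inv_pow]
      rw [h5] at h2
      calc _ ≤ Real.exp (-(Real.log 2 * 5 ^ i)) * Real.exp (B * (21 * 4 ^ i)) *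
            (55296 * Real.exp (4 ^ i)) := by gcongr
        _ = 55296 * Real.exp ((21 * B + 1) * 4 ^ i - Real.log 2 * 5 ^ i) := by
            rw [show (21 * B + 1) * 4 ^ i - Real.log 2 * 5 ^ i =
              -(Real.log 2 * 5 ^ i) + B * (21 * 4 ^ i) + 4 ^ i by ring, Real.exp_add, Real.exp_add]
            ring
        _ ≤ _ := by gcongr; exact hC0 i

/-- weighted coefficient norm -/
noncomputable def wn (B : ℝ) (q : ℝ[X]) : ℝ :=
  ∑ j ∈ q.support, |q.coeff j| * Real.exp (B * (j : ℝ) ^ (1 / 3 : ℝ))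

lemma wn_nonneg (B : ℝ) (q : ℝ[X]) : 0 ≤ wn B q := sum_nonneg fun _ _ => by positivity

lemma wn_eq {B : ℝ} {q : ℝ[X]} {S : Finset ℕ} (h : q.support ⊆ S) :
    wn B q = ∑ j ∈ S, |q.coeff j| * Real.exp (B * (j : ℝ) ^ (1 / 3 : ℝ)) := by
  refine sum_subset h fun j _ hj => ?_
  simp [notMem_support_iff.1 hj]

lemma wn_add_le (B : ℝ) (p q : ℝ[X]) : wn B (p + q) ≤ wn B p + wn B q := by
  rw [wn_eq (support_add (p := p) (q := q)), wn_eq (q := p) subset_union_left,
    wn_eq (q := q) subset_union_right, ← sum_add_distrib]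
  refine sum_le_sum fun j _ => ?_
  rw [coeff_add, ← add_mul]
  gcongr
  exact abs_add_le _ _

lemma wn_zero (B : ℝ) : wn B 0 = 0 := by simp [wn]

lemma wn_sum_le {ι : Type*} (B : ℝ) (s : Finset ι) (f : ι → ℝ[X]) :
    wn B (∑ i ∈ s, f i) ≤ ∑ i ∈ s, wn B (f i) :=
  le_sum_of_subadditive (wn B) (wn_zero B).le (wn_add_le B) s f

lemma wn_monomial (B : ℝ) (j : ℕ) (a : ℝ) :
    wn B (monomial j a) = |a| * Real.exp (B * (j : ℝ) ^ (1 / 3 : ℝ)) := by
  rw [wn_eq (support_monomial_subset j a)]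
  simp

lemma wn_mul_le {B : ℝ} (hB : 0 ≤ B) (p q : ℝ[X]) : wn B (p * q) ≤ wn B p * wn B q := by
  rw [mul_eq_sum_sum]
  refine (wn_sum_le _ _ _).trans ?_
  rw [wn, sum_mul]
  refine sum_le_sum fun i _ => ?_
  rw [Polynomial.sum]
  refine (wn_sum_le _ _ _).trans ?_
  rw [wn, mul_sum]
  refine sum_le_sum fun j _ => ?_
  rw [wn_monomial, abs_mul]
  have h1 : ((i + j : ℕ) : ℝ) ^ (1 / 3 : ℝ) ≤ (i:ℝ) ^ (1 / 3 : ℝ) + (j:ℝ) ^ (1 / 3 : ℝ) := by
    push_cast
    exact Real.rpow_add_le_add_rpow (by positivity) (by positivity) (by norm_num) (by norm_num)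
  calc _ ≤ |p.coeff i| * |q.coeff j| *
        Real.exp (B * ((i:ℝ) ^ (1 / 3 : ℝ) + (j:ℝ) ^ (1 / 3 : ℝ))) := by gcongr
    _ = _ := by rw [mul_add, Real.exp_add]; ring

lemma wn_pow_le {B : ℝ} (hB : 0 ≤ B) (p : ℝ[X]) (n : ℕ) : wn B (p ^ n) ≤ wn B p ^ n := by
  induction n with
  | zero =>
    rw [pow_zero, pow_zero, ← monomial_zero_one, wn_monomial]
    simp
  | succ n ih =>
    rw [pow_succ, pow_succ]
    refine (wn_mul_le hB _ _).trans ?_
    gcongr
    exact wn_nonneg _ _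

lemma coeff_comp_X_add_one (j i : ℕ) (a : ℝ) :
    ((monomial j a).comp (X + C 1) : ℝ[X]).coeff i = a * j.choose i := by
  rw [monomial_comp, coeff_C_mul, coeff_X_add_C_pow]
  simp

lemma exists_base (B : ℝ) (hB : 0 ≤ B) : ∃ K : ℝ, ∀ D : ℕ, 0 < D → ∃ q : ℝ[X],
    q.coeff 0 = 1 ∧ q.natDegree ≤ 4 * D ^ 2 ∧ (X - C 1) ^ D ∣ q ∧ wn B q ≤ K := by
  obtain ⟨K, hK⟩ := exists_ingham B hB
  refine ⟨K * 4, fun D hD => ?_⟩
  obtain ⟨P, hP1, hP2, hP3⟩ := hK (2 * D) (by omega)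
  set N := 2 * D with hN
  set l : ℕ → ℕ := fun m => ((m:ℤ) - N).natAbs with hl
  have hl2 : ∀ m, ((l m : ℕ) : ℝ) ^ 2 = ((m:ℝ) - N) ^ 2 := by
    intro m
    have : ((l m : ℕ) : ℤ) ^ 2 = ((m:ℤ) - N) ^ 2 := by simp [hl]
    exact_mod_cast this
  have hlN : ∀ m ∈ range (2 * N + 1), l m ≤ N := by
    intro m hm
    rw [mem_range] at hm
    simp only [hl]; omega
  have hcb : (0:ℝ) < (2 * N).choose N := by exact_mod_cast Nat.choose_pos (by omega)
  set a : ℕ → ℝ := fun m => (-1) ^ N * (((-1:ℤ) ^ (2 * N - m) * (2 * N).choose m : ℤ) : ℝ) /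
    (2 * N).choose N with ha
  refine ⟨∑ m ∈ range (2 * N + 1), monomial (l m ^ 2) (a m * P.eval ((l m : ℝ) ^ 2)),
    ?_, ?_, ?_, ?_⟩
  · rw [finsetSum_coeff, sum_eq_single N]
    · have : l N = 0 := by simp [hl]
      simp only [this, ha, show 2 * N - N = N by omega]
      simp only [ne_eq, OfNat.ofNat_ne_zero, not_false_eq_true, zero_pow, monomial_zero_left,
        CharP.cast_eq_zero, hP2, mul_one, coeff_C_zero]
      push_cast
      rw [← mul_assoc, ← mul_pow]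
      simp [hcb.ne']
    · intro m _ hm
      rw [coeff_monomial, if_neg]
      have : l m ≠ 0 := by simp only [hl]; omega
      positivity
    · intro h; exact absurd (mem_range.2 (by omega)) h
  · refine natDegree_sum_le_of_forall_le _ _ fun m hm => (natDegree_monomial_le _).trans ?_
    have := hlN m hm
    calc l m ^ 2 ≤ N ^ 2 := by gcongr
      _ = _ := by rw [hN]; ring
  · rw [X_sub_C_pow_dvd_iff, X_pow_dvd_iff]
    intro i hi
    rw [Polynomial.sum_comp, finsetSum_coeff]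
    simp only [coeff_comp_X_add_one]
    set R : ℝ[X] := (P * descPochhammer ℝ i).comp ((X - C (N:ℝ)) ^ 2) with hR
    have hRd : R.natDegree < 2 * N := by
      refine lt_of_le_of_lt natDegree_comp_le ?_
      have h1 : (P * descPochhammer ℝ i).natDegree ≤ P.natDegree + i := by
        refine natDegree_mul_le.trans ?_
        rw [descPochhammer_natDegree]
      have h2 : ((X - C (N:ℝ)) ^ 2).natDegree ≤ 2 := by compute_degree
      calc _ ≤ (P.natDegree + i) * 2 := Nat.mul_le_mul h1 h2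
        _ < _ := by omega
    have h0 := congrFun (Polynomial.fwdDiff_iter_eq_zero_of_degree_lt hRd) 0
    rw [fwdDiff_iter_eq_sum_shift] at h0
    simp only [Pi.zero_apply, zero_add, nsmul_eq_mul, mul_one, zsmul_eq_mul] at h0
    have h1 : ∀ m ∈ range (2 * N + 1), a m * P.eval ((l m : ℝ) ^ 2) * ((l m ^ 2).choose i : ℝ) =
        ((-1) ^ N / ((2 * N).choose N * i.factorial)) *
        ((((-1:ℤ) ^ (2 * N - m) * (2 * N).choose m : ℤ) : ℝ) * R.eval (m:ℝ)) := by
      intro m _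
      rw [Nat.cast_choose_eq_descPochhammer_div, hR]
      simp only [eval_comp, eval_mul, eval_pow, eval_sub, eval_X, eval_C, ha, Nat.cast_pow, hl2]
      have : (i.factorial : ℝ) ≠ 0 := by exact_mod_cast i.factorial_ne_zero
      field_simp
    rw [sum_congr rfl h1, ← mul_sum, h0, mul_zero]
  · refine (wn_sum_le _ _ _).trans ?_
    have hK0 : 0 ≤ K := le_trans (by positivity) (hP3 0 (Nat.zero_le _))
    have h1 : ∀ m ∈ range (2 * N + 1), wn B (monomial (l m ^ 2) (a m * P.eval ((l m : ℝ) ^ 2))) ≤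
        K * (1 / ((l m : ℝ) + 1) ^ 2) := by
      intro m hm
      rw [wn_monomial, abs_mul]
      have h2 : |a m| ≤ 1 := by
        simp only [ha]
        push_cast
        simp only [abs_div, abs_mul, abs_pow, abs_neg, abs_one, one_pow, one_mul, Nat.abs_cast]
        rw [div_le_one hcb]
        exact_mod_cast Nat.choose_le_centralBinom m N
      have h3 := hP3 (l m) (hlN m hm)
      rw [mul_one_div, le_div_iff₀ (by positivity)]
      refine le_trans ?_ h3
      gcongr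
      exact mul_le_of_le_one_left (abs_nonneg _) h2
    refine (sum_le_sum h1).trans ?_
    rw [← mul_sum]
    gcongr
    have h2 : ∀ n : ℕ, ∑ k ∈ range n, 1 / ((k:ℝ) + 1) ^ 2 ≤ 2 - 1 / (n:ℝ) := by
      intro n
      induction n with
      | zero => simp
      | succ n ih =>
        rw [sum_range_succ]
        rcases Nat.eq_zero_or_pos n with rfl | hn
        · norm_num
        · have hn' : (0:ℝ) < n := by exact_mod_cast hn
          have : 1 / ((n:ℝ) + 1) ^ 2 ≤ 1 / n - 1 / (n + 1) := by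
            rw [div_sub_div _ _ hn'.ne' (by positivity), div_le_div_iff₀ (by positivity)
              (by positivity)]
            nlinarith
          push_cast; linarith
    have h3 : ∀ n : ℕ, ∑ k ∈ range n, 1 / ((k:ℝ) + 1) ^ 2 ≤ 2 := fun n =>
      (h2 n).trans (by have : (0:ℝ) ≤ 1 / (n:ℝ) := by positivity
                       linarith)
    rw [show 2 * N + 1 = N + (N + 1) by ring, sum_range_add]
    have h4 : ∑ m ∈ range N, 1 / ((l m : ℝ) + 1) ^ 2 ≤ 2 := by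
      rw [← sum_range_reflect]
      refine le_trans (sum_le_sum fun m hm => ?_) (h3 N)
      rw [mem_range] at hm
      have : m ≤ l (N - 1 - m) := by simp only [hl]; omega
      have : (m:ℝ) ≤ l (N - 1 - m) := by exact_mod_cast this
      gcongr
    have h5 : ∑ m ∈ range (N + 1), 1 / ((l (N + m) : ℝ) + 1) ^ 2 ≤ 2 := by
      refine le_trans (le_of_eq (sum_congr rfl fun m _ => ?_)) (h3 (N + 1))
      have : l (N + m) = m := by simp only [hl]; omega
      rw [this]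
    linarith

/-- The key family of polynomials. -/
lemma exists_weights (B ε : ℝ) (hB : 0 ≤ B) (hε : 0 < ε) : ∃ K : ℝ, ∀ D : ℕ, ∃ q : ℝ[X],
    q.coeff 0 = 1 ∧ (q.natDegree : ℝ) ≤ ε * D ^ 2 + K ∧ (X - C 1) ^ D ∣ q ∧ wn B q ≤ K := by
  obtain ⟨K, hK⟩ := exists_base B hB
  obtain ⟨A, hA⟩ := exists_nat_gt (8 / ε)
  have hA0 : (0:ℝ) < A := lt_trans (by positivity) hA
  have hA1 : 0 < A := by exact_mod_cast hA0
  refine ⟨max (8 * A) (K ^ A), fun D => ?_⟩
  obtain ⟨q, h1, h2, h3, h4⟩ := hK (D / A + 1) (by positivity)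
  refine ⟨q ^ A, by rw [coeff_zero_eq_eval_zero] at h1 ⊢; rw [eval_pow, h1, one_pow], ?_, ?_, ?_⟩
  · have h5 : (q ^ A).natDegree ≤ A * (4 * (D / A + 1) ^ 2) :=
      natDegree_pow_le.trans (Nat.mul_le_mul_left _ h2)
    have h6 : ((D / A : ℕ) : ℝ) ≤ D / A := Nat.cast_div_le
    have h7 : ((q ^ A).natDegree : ℝ) ≤ A * (4 * ((D:ℝ) / A + 1) ^ 2) := by
      refine le_trans (Nat.cast_le.2 h5) ?_
      push_cast
      gcongr
    have h8 : A * (4 * ((D:ℝ) / A + 1) ^ 2) ≤ 8 / A * D ^ 2 + 8 * A := by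
      have : ((D:ℝ) / A + 1) ^ 2 ≤ 2 * ((D / A) ^ 2 + 1) := by nlinarith [sq_nonneg ((D:ℝ) / A - 1)]
      calc _ ≤ A * (4 * (2 * (((D:ℝ) / A) ^ 2 + 1))) := by gcongr
        _ = _ := by field_simp; ring
    have h9 : 8 / (A:ℝ) ≤ ε := by
      rw [div_lt_iff₀ hε] at hA
      rw [div_le_iff₀ hA0]; linarith
    have h10 : 8 / (A:ℝ) * D ^ 2 ≤ ε * D ^ 2 := by gcongr
    linarith [le_max_left (8 * (A:ℝ)) (K ^ A)]
  · refine dvd_trans (pow_dvd_pow _ (show D ≤ (D / A + 1) * A from ?_))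
      (by rw [pow_mul]; exact pow_dvd_pow_of_dvd h3 A)
    have := Nat.lt_div_mul_add (a := D) hA1
    rw [add_mul, one_mul]; exact this.le
  · refine (wn_pow_le hB _ _).trans (le_trans ?_ (le_max_right _ _))
    gcongr
    exact wn_nonneg _ _

end Pool.Agent.Lib.MP_6c91ae_an
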